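import Mathlib

namespace Pool.Agent.X78.FurutaA

open CFC
open scoped NNReal

variable {A : Type*} [CStarAlgebra A] [PartialOrder A] [StarOrderedRing A]

lemma padd {a : A} (ha : IsStrictlyPositive a) (x y : ℝ) : a ^ x * a ^ y = a ^ (x + y) :=
  (rpow_add ha.isUnit).symm

lemma sp_rpow {a : A} (ha : IsStrictlyPositive a) (x : ℝ) : IsStrictlyPositive (a ^ x) :=
  IsStrictlyPositive.rpow a x ha

lemma pmul {a : A} (ha : IsStrictlyPositive a) (x y : ℝ) : (a ^ x) ^ y = a ^ (x * y) := by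
  by_cases hx : x = 0
  · rw [hx, zero_mul, rpow_zero a ha.nonneg, CFC.one_rpow]
  · exact rpow_rpow a x y hx ha

lemma p1 {a : A} (ha : IsStrictlyPositive a) : a ^ (1 : ℝ) = a := rpow_one a ha.nonneg

lemma p0 {a : A} (ha : IsStrictlyPositive a) : a ^ (0 : ℝ) = 1 := rpow_zero a ha.nonneg

lemma psa {a : A} (x : ℝ) : star (a ^ x) = a ^ x :=
  (IsSelfAdjoint.of_nonneg rpow_nonneg).star_eq

lemma lh {a b : A} (h : a ≤ b) {t : ℝ} (h0 : 0 ≤ t) (h1 : t ≤ 1) : a ^ t ≤ b ^ t :=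
  rpow_le_rpow ⟨h0, h1⟩ h

lemma conj_le {a b c : A} (hc : star c = c) (h : a ≤ b) : c * a * c ≤ c * b * c := by
  have := star_left_conjugate_le_conjugate h c
  rwa [hc] at this

lemma sp_conj {a c : A} (hc : IsStrictlyPositive c) (ha : IsStrictlyPositive a) :
    IsStrictlyPositive (c * a * c) := by
  refine ⟨?_, (hc.isUnit.mul ha.isUnit).mul hc.isUnit⟩
  have h1 : star c = c := (IsSelfAdjoint.of_nonneg hc.nonneg).star_eq
  have := star_left_conjugate_nonneg ha.nonneg c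
  rwa [h1] at this

/-- Antitone: inverse powers. -/
lemma neg_le {a b : A} (ha : IsStrictlyPositive a) (h : a ≤ b) {t : ℝ} (h0 : 0 ≤ t) (h1 : t ≤ 1) :
    b ^ (-t) ≤ a ^ (-t) := by
  have hb : IsStrictlyPositive b := ha.of_le h
  have h2 := CStarAlgebra.rpow_neg_one_le_rpow_neg_one (lh h h0 h1) (sp_rpow ha t)
  rwa [pmul ha, pmul hb, mul_neg_one] at h2

lemma conj_rpow (u : unitary A) {a : A} (ha : IsStrictlyPositive a) (t : ℝ) :
    ((u : A) * a * star (u : A)) ^ t = (u : A) * a ^ t * star (u : A) := by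
  have h0 : (0 : ℝ≥0) ∉ spectrum ℝ≥0 a := spectrum.zero_notMem _ ha.isUnit
  have hc : ContinuousOn (fun x : ℝ≥0 => x ^ t) (spectrum ℝ≥0 a) := by
    intro x hx
    have hx0 : x ≠ 0 := fun h => h0 (h ▸ hx)
    exact (NNReal.continuousAt_rpow_const (Or.inl hx0)).continuousWithinAt
  have h1 := StarAlgHomClass.map_cfc (S := ℂ) (Unitary.conjStarAlgAut ℂ A u)
    (fun x : ℝ≥0 => x ^ t) a hc (by
      have h2 : (⇑(Unitary.conjStarAlgAut ℂ A u)) = fun x => (u : A) * x * star (u : A) := by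
        ext x
        exact Unitary.conjStarAlgAut_apply u x
      rw [h2]
      fun_prop) ha.nonneg (by
      rw [Unitary.conjStarAlgAut_apply]
      exact star_right_conjugate_nonneg ha.nonneg _)
  rw [Unitary.conjStarAlgAut_apply, Unitary.conjStarAlgAut_apply] at h1
  rw [rpow_def, rpow_def]
  exact h1.symm

/-- The identity `(S* S)^u = S* (S S*)^(u-1) S` for `S = b a`. -/
lemma flip {a b : A} (ha : IsStrictlyPositive a) (hb : IsStrictlyPositive b) (u : ℝ) :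
    (a * (b * b) * a) ^ u = a * b * (b * (a * a) * b) ^ (u - 1) * b * a := by
  have hasa : star a = a := (IsSelfAdjoint.of_nonneg ha.nonneg).star_eq
  have hbsa : star b = b := (IsSelfAdjoint.of_nonneg hb.nonneg).star_eq
  have hbb : IsStrictlyPositive (b * b) := by
    have := sp_conj hb (by exact (isStrictlyPositive_one : IsStrictlyPositive (1 : A)))
    rwa [mul_one] at this
  have hP : IsStrictlyPositive (a * (b * b) * a) := sp_conj ha hbb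
  obtain ⟨P, hPd⟩ : ∃ P, P = a * (b * b) * a := ⟨_, rfl⟩
  rw [← hPd] at hP ⊢
  obtain ⟨U, hU⟩ : ∃ U, U = b * a * P ^ (-(1 / 2) : ℝ) := ⟨_, rfl⟩
  have hsU : star U = P ^ (-(1 / 2) : ℝ) * (a * b) := by
    rw [hU, star_mul, star_mul, psa, hasa, hbsa]
  have h1 : star U * U = 1 := by
    rw [hsU, hU]
    have : P ^ (-(1 / 2) : ℝ) * (a * b) * (b * a * P ^ (-(1 / 2) : ℝ))
        = P ^ (-(1 / 2) : ℝ) * P * P ^ (-(1 / 2) : ℝ) := by
      nth_rewrite 4 [hPd]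
      simp only [mul_assoc]
    rw [this]
    nth_rewrite 2 [← p1 hP]
    rw [padd hP, padd hP]
    norm_num
    exact p0 hP
  have hUu : IsUnit U := by
    rw [hU]
    exact (hb.isUnit.mul ha.isUnit).mul (sp_rpow hP _).isUnit
  have h2 : U * star U = 1 := by
    have h3 : star U = Ring.inverse U := by
      have := congrArg (fun z => z * Ring.inverse U) h1
      simp only [one_mul] at this
      rwa [mul_assoc, Ring.mul_inverse_cancel _ hUu, mul_one] at this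
    rw [h3, Ring.mul_inverse_cancel _ hUu]
  have hUm : U ∈ unitary A := ⟨h1, h2⟩
  have h4 : U * P ^ (1 / 2 : ℝ) = b * a := by
    rw [hU, mul_assoc, padd hP]
    norm_num
    rw [p0 hP, mul_one]
  have h4s : P ^ (1 / 2 : ℝ) * star U = a * b := by
    have := congrArg star h4
    rwa [star_mul, star_mul, psa, hasa, hbsa] at this
  have h5 : b * (a * a) * b = U * P * star U := by
    have : U * P * star U = (U * P ^ (1 / 2 : ℝ)) * (P ^ (1 / 2 : ℝ) * star U) := by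
      have h6 : P ^ (1 / 2 : ℝ) * P ^ (1 / 2 : ℝ) = P := by
        rw [padd hP]
        norm_num
        exact p1 hP
      calc U * P * star U = U * (P ^ (1 / 2 : ℝ) * P ^ (1 / 2 : ℝ)) * star U := by rw [h6]
        _ = _ := by simp only [mul_assoc]
    rw [this, h4, h4s]
    simp only [mul_assoc]
  have h6 : (b * (a * a) * b) ^ (u - 1) = U * P ^ (u - 1) * star U := by
    rw [h5]
    exact conj_rpow ⟨U, hUm⟩ hP (u - 1)
  have h7 : a * b * (U * P ^ (u - 1) * star U) * b * a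
      = P ^ (1 / 2 : ℝ) * (star U * U) * P ^ (u - 1) * (star U * U) * P ^ (1 / 2 : ℝ) := by
    rw [← h4s]
    have : star U * b * a = star U * (U * P ^ (1 / 2 : ℝ)) := by rw [h4, mul_assoc]
    calc P ^ (1 / 2 : ℝ) * star U * (U * P ^ (u - 1) * star U) * b * a
        = P ^ (1 / 2 : ℝ) * star U * (U * P ^ (u - 1)) * (star U * b * a) := by
          simp only [mul_assoc]
      _ = _ := by rw [this]; simp only [mul_assoc]
  rw [h6, h7, h1, mul_one, mul_one, padd hP, padd hP]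
  congr 1
  ring

lemma pexp {a : A} {x y : ℝ} (h : x = y) : a ^ x = a ^ y := by rw [h]

lemma sq_half {Z : A} (hZ : IsStrictlyPositive Z) : (Z * Z) ^ (1 / 2 : ℝ) = Z := by
  have h1 : Z * Z = Z ^ (2 : ℝ) := by
    nth_rewrite 1 2 [← p1 hZ]
    rw [padd hZ]
    norm_num
  rw [h1, pmul hZ]
  norm_num
  exact p1 hZ

lemma inv_of_mul {a b : A} {x : ℝ} (ha : IsStrictlyPositive a) (h : b * a ^ (-x) = 1) :
    b = a ^ x := by
  have h1 : b * a ^ (-x) * a ^ x = a ^ x := by rw [h, one_mul]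
  rwa [mul_assoc, padd ha, neg_add_cancel, p0 ha, mul_one] at h1

/-- Undo an inequality between inverses. -/
lemma le_of_neg {a b : A} (ha : IsStrictlyPositive a) (hb : IsStrictlyPositive b) {x y : ℝ}
    (h : a ^ (-x) ≤ b ^ (-y)) : b ^ y ≤ a ^ x := by
  have h1 := neg_le (sp_rpow ha _) h (zero_le_one) le_rfl
  rw [pmul ha, pmul hb] at h1
  have e1 : -y * -1 = y := by ring
  have e2 : -x * -1 = x := by ring
  rwa [e1, e2] at h1

theorem imp_low {X Y : A} (hX : IsStrictlyPositive X) (hY : IsStrictlyPositive Y) {θ : ℝ}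
    (h0 : 0 ≤ θ) (h1 : θ ≤ 1 / 2) (h : (Y * X * Y) ^ θ ≤ X) : Y ^ (2 * θ) ≤ X ^ (1 - θ) := by
  have hG : IsStrictlyPositive (Y * X * Y) := sp_conj hY hX
  have hYsa : star Y = Y := (IsSelfAdjoint.of_nonneg hY.nonneg).star_eq
  have h2 : Y * (Y * X * Y) ^ θ * Y ≤ Y * X * Y := conj_le hYsa h
  obtain ⟨G, hGd⟩ : ∃ G, G = Y * X * Y := ⟨_, rfl⟩
  rw [← hGd] at hG h h2
  have hgY : IsStrictlyPositive (G ^ (θ / 2) * Y * G ^ (θ / 2)) := sp_conj (sp_rpow hG _) hY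
  have h3 : (G ^ (θ / 2) * Y * G ^ (θ / 2)) * (G ^ (θ / 2) * Y * G ^ (θ / 2)) ≤ G ^ (1 + θ) := by
    have e1 : (G ^ (θ / 2) * Y * G ^ (θ / 2)) * (G ^ (θ / 2) * Y * G ^ (θ / 2))
        = G ^ (θ / 2) * (Y * G ^ θ * Y) * G ^ (θ / 2) := by
      have e2 : G ^ θ = G ^ (θ / 2) * G ^ (θ / 2) := by
        rw [padd hG]
        exact pexp (by ring)
      rw [e2]
      simp only [mul_assoc]
    have e3 : G ^ (1 + θ) = G ^ (θ / 2) * G * G ^ (θ / 2) := by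
      nth_rewrite 3 [← p1 hG]
      rw [padd hG, padd hG]
      exact pexp (by ring)
    rw [e1, e3]
    exact conj_le (psa _) h2
  have h4 := lh h3 (t := 1 / 2) (by norm_num) (by norm_num)
  rw [sq_half hgY, pmul hG] at h4
  have h5 := conj_le (c := G ^ (-(θ / 2))) (psa _) h4
  have e4 : G ^ (-(θ / 2)) * (G ^ (θ / 2) * Y * G ^ (θ / 2)) * G ^ (-(θ / 2)) = Y := by
    calc G ^ (-(θ / 2)) * (G ^ (θ / 2) * Y * G ^ (θ / 2)) * G ^ (-(θ / 2))
        = (G ^ (-(θ / 2)) * G ^ (θ / 2)) * Y * (G ^ (θ / 2) * G ^ (-(θ / 2))) := by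
          simp only [mul_assoc]
      _ = Y := by
          rw [padd hG, padd hG, neg_add_cancel, add_neg_cancel, p0 hG, one_mul, mul_one]
  rw [e4, padd hG, padd hG] at h5
  have h6 := lh h5 (t := 2 * θ) (by linarith) (by linarith)
  rw [pmul hG] at h6
  have h7 := lh h (t := 1 - θ) (by linarith) (by linarith)
  rw [pmul hG] at h7
  have e5 : (-(θ / 2) + (1 + θ) * (1 / 2) + -(θ / 2)) * (2 * θ) = θ * (1 - θ) := by ring
  rw [e5] at h6
  exact h6.trans h7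

theorem imp_high {X Y : A} (hX : IsStrictlyPositive X) (hY : IsStrictlyPositive Y) {θ : ℝ}
    (h0 : 1 / 2 ≤ θ) (h1 : θ ≤ 1) (h : (Y * X * Y) ^ θ ≤ X) : Y ^ (2 * θ) ≤ X ^ (1 - θ) := by
  have hG : IsStrictlyPositive (Y * X * Y) := sp_conj hY hX
  have hθ : 0 < 1 + θ := by linarith
  obtain ⟨G, hGd⟩ : ∃ G, G = Y * X * Y := ⟨_, rfl⟩
  rw [← hGd] at hG h
  have hxx : X ^ (1 / 2 : ℝ) * X ^ (1 / 2 : ℝ) = X := by
    rw [padd hX]
    norm_num
    exact p1 hX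
  have hM : IsStrictlyPositive (X ^ (1 / 2 : ℝ) * Y * X ^ (1 / 2 : ℝ)) :=
    sp_conj (sp_rpow hX _) hY
  obtain ⟨M, hMd⟩ : ∃ M, M = X ^ (1 / 2 : ℝ) * Y * X ^ (1 / 2 : ℝ) := ⟨_, rfl⟩
  rw [← hMd] at hM
  have hXinv : X ^ (-1 : ℝ) ≤ G ^ (-θ) := by
    have := neg_le (sp_rpow hG θ) h (t := 1) zero_le_one le_rfl
    rwa [pmul hG, mul_neg_one] at this
  obtain ⟨u, hu⟩ : ∃ u, u = 2 * θ / (1 + θ) := ⟨_, rfl⟩
  obtain ⟨τ, hτ⟩ : ∃ τ, τ = (1 - θ) / (1 + θ) := ⟨_, rfl⟩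
  have huτ : u - 1 = -τ := by
    rw [hu, hτ]
    field_simp
    ring
  have hτ0 : 0 ≤ τ := by rw [hτ]; exact div_nonneg (by linarith) hθ.le
  have hτ1 : τ ≤ 1 := by rw [hτ, div_le_one hθ]; linarith
  have hτ2 : (1 + θ) * τ = 1 - θ := by
    rw [hτ]
    field_simp
  -- Step 1
  have hMM : M * M = X ^ (1 / 2 : ℝ) * G * X ^ (1 / 2 : ℝ) := by
    rw [hMd, hGd]
    calc X ^ (1 / 2 : ℝ) * Y * X ^ (1 / 2 : ℝ) * (X ^ (1 / 2 : ℝ) * Y * X ^ (1 / 2 : ℝ))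
        = X ^ (1 / 2 : ℝ) * Y * (X ^ (1 / 2 : ℝ) * X ^ (1 / 2 : ℝ)) * Y * X ^ (1 / 2 : ℝ) := by
          simp only [mul_assoc]
      _ = _ := by rw [hxx]; simp only [mul_assoc]
  have hM2 : X ^ (-(1 / 2) : ℝ) * G ^ (-1 : ℝ) * X ^ (-(1 / 2) : ℝ) = M ^ (-2 : ℝ) := by
    apply inv_of_mul hM
    have e1 : M ^ (-(-2) : ℝ) = M * M := by
      nth_rewrite 2 3 [← p1 hM]
      rw [padd hM]
      exact pexp (by norm_num)
    rw [e1, hMM]
    calc X ^ (-(1 / 2) : ℝ) * G ^ (-1 : ℝ) * X ^ (-(1 / 2) : ℝ)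
          * (X ^ (1 / 2 : ℝ) * G * X ^ (1 / 2 : ℝ))
        = X ^ (-(1 / 2) : ℝ) * (G ^ (-1 : ℝ) * ((X ^ (-(1 / 2) : ℝ) * X ^ (1 / 2 : ℝ)) * G))
          * X ^ (1 / 2 : ℝ) := by simp only [mul_assoc]
      _ = 1 := by
        rw [padd hX, neg_add_cancel, p0 hX, one_mul]
        nth_rewrite 2 [← p1 hG]
        rw [padd hG, neg_add_cancel, p0 hG, mul_one, padd hX, neg_add_cancel, p0 hX]
  have step1 : M ^ (2 * u) ≤ X ^ (2 : ℝ) := by
    have hf := flip (sp_rpow hX (-(1 / 2))) (sp_rpow hG (-(1 / 2))) u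
    have e1 : X ^ (-(1 / 2) : ℝ) * X ^ (-(1 / 2) : ℝ) = X ^ (-1 : ℝ) := by
      rw [padd hX]; exact pexp (by norm_num)
    have e2 : G ^ (-(1 / 2) : ℝ) * G ^ (-(1 / 2) : ℝ) = G ^ (-1 : ℝ) := by
      rw [padd hG]; exact pexp (by norm_num)
    rw [e1, e2, hM2, huτ, pmul hM] at hf
    have hN : IsStrictlyPositive (G ^ (-(1 / 2) : ℝ) * X ^ (-1 : ℝ) * G ^ (-(1 / 2) : ℝ)) :=
      sp_conj (sp_rpow hG _) (sp_rpow hX _)
    have hNle : G ^ (-(1 / 2) : ℝ) * X ^ (-1 : ℝ) * G ^ (-(1 / 2) : ℝ) ≤ G ^ (-(1 + θ)) := by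
      have := conj_le (c := G ^ (-(1 / 2) : ℝ)) (psa _) hXinv
      rw [padd hG, padd hG] at this
      have e3 : -(1 / 2) + -θ + -(1 / 2) = -(1 + θ) := by ring
      rwa [e3] at this
    have hNp := neg_le hN hNle hτ0 hτ1
    rw [pmul hG] at hNp
    have e4 : -(1 + θ) * -τ = 1 - θ := by linarith
    rw [e4] at hNp
    have hc1 := conj_le (c := G ^ (-(1 / 2) : ℝ)) (psa _) hNp
    rw [padd hG, padd hG] at hc1
    have e5 : -(1 / 2) + (1 - θ) + -(1 / 2) = -θ := by ring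
    rw [e5] at hc1
    have hc2 := conj_le (c := X ^ (-(1 / 2) : ℝ)) (psa _) (hXinv.trans hc1)
    rw [padd hX, padd hX] at hc2
    have e6 : X ^ (-(1 / 2) : ℝ) * (G ^ (-(1 / 2) : ℝ) *
        (G ^ (-(1 / 2) : ℝ) * X ^ (-1 : ℝ) * G ^ (-(1 / 2) : ℝ)) ^ (-τ) * G ^ (-(1 / 2) : ℝ))
        * X ^ (-(1 / 2) : ℝ) = M ^ (-2 * u) := by
      rw [hf]
      simp only [mul_assoc]
    rw [e6] at hc2
    have e7 : (-(1 / 2) + -1 + -(1 / 2) : ℝ) = -2 := by norm_num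
    have e8 : -2 * u = -(2 * u) := by ring
    rw [e7, e8] at hc2
    exact le_of_neg hX hM hc2
  -- Step 2
  have hMX : M ^ u ≤ X := by
    have := lh step1 (t := 1 / 2) (by norm_num) (by norm_num)
    rw [pmul hM, pmul hX] at this
    have e1 : 2 * u * (1 / 2) = u := by ring
    have e2 : (2 * (1 / 2) : ℝ) = 1 := by norm_num
    rwa [e1, e2, p1 hX] at this
  have hYi : X ^ (1 / 2 : ℝ) * M ^ (-1 : ℝ) * X ^ (1 / 2 : ℝ) = Y ^ (-1 : ℝ) := by
    apply inv_of_mul hY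
    have e1 : Y ^ (-(-1) : ℝ) = X ^ (-(1 / 2) : ℝ) * M * X ^ (-(1 / 2) : ℝ) := by
      rw [neg_neg, p1 hY, hMd]
      calc Y = 1 * Y * 1 := by rw [one_mul, mul_one]
        _ = (X ^ (-(1 / 2) : ℝ) * X ^ (1 / 2 : ℝ)) * Y
            * (X ^ (1 / 2 : ℝ) * X ^ (-(1 / 2) : ℝ)) := by
            rw [padd hX, padd hX, neg_add_cancel, add_neg_cancel, p0 hX]
        _ = _ := by simp only [mul_assoc]
    rw [e1]
    calc X ^ (1 / 2 : ℝ) * M ^ (-1 : ℝ) * X ^ (1 / 2 : ℝ)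
          * (X ^ (-(1 / 2) : ℝ) * M * X ^ (-(1 / 2) : ℝ))
        = X ^ (1 / 2 : ℝ) * (M ^ (-1 : ℝ) * ((X ^ (1 / 2 : ℝ) * X ^ (-(1 / 2) : ℝ)) * M))
          * X ^ (-(1 / 2) : ℝ) := by simp only [mul_assoc]
      _ = 1 := by
        rw [padd hX, add_neg_cancel, p0 hX, one_mul]
        nth_rewrite 2 [← p1 hM]
        rw [padd hM, neg_add_cancel, p0 hM, mul_one, padd hX, add_neg_cancel, p0 hX]
  have hf := flip (sp_rpow hX (1 / 2)) (sp_rpow hM (-(1 / 2))) (2 * θ)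
  have e1 : M ^ (-(1 / 2) : ℝ) * M ^ (-(1 / 2) : ℝ) = M ^ (-1 : ℝ) := by
    rw [padd hM]; exact pexp (by norm_num)
  rw [e1, hYi, hxx, pmul hY] at hf
  have h3 := conj_le (c := M ^ (-(1 / 2) : ℝ)) (psa _) hMX
  rw [padd hM, padd hM] at h3
  have h4 := lh h3 (t := 2 * θ - 1) (by linarith) (by linarith)
  rw [pmul hM] at h4
  have h5 := conj_le (c := M ^ (-(1 / 2) : ℝ)) (psa _) h4
  rw [padd hM, padd hM] at h5
  obtain ⟨w, hw⟩ : ∃ w, w = 2 * u * ((2 - θ) / 2) := ⟨_, rfl⟩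
  have e2 : -(1 / 2) + (-(1 / 2) + u + -(1 / 2)) * (2 * θ - 1) + -(1 / 2) = -w := by
    rw [hw, hu]
    field_simp
    ring
  rw [e2] at h5
  have h6 : M ^ w ≤ X ^ (2 - θ) := by
    have := lh step1 (t := (2 - θ) / 2) (by linarith) (by linarith)
    rw [pmul hM, pmul hX, ← hw] at this
    have e3 : 2 * ((2 - θ) / 2) = 2 - θ := by ring
    rwa [e3] at this
  have h7 : X ^ (-(2 - θ)) ≤ M ^ (-w) := by
    have := neg_le (sp_rpow hM w) h6 (t := 1) zero_le_one le_rfl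
    rw [pmul hM, pmul hX] at this
    have e3 : (2 - θ) * -1 = -(2 - θ) := by ring
    have e4 : w * -1 = -w := by ring
    rwa [e3, e4] at this
  have h8 := conj_le (c := X ^ (1 / 2 : ℝ)) (psa _) (h7.trans h5)
  rw [padd hX, padd hX] at h8
  have e5 : X ^ (1 / 2 : ℝ) * (M ^ (-(1 / 2) : ℝ) *
      (M ^ (-(1 / 2) : ℝ) * X * M ^ (-(1 / 2) : ℝ)) ^ (2 * θ - 1) * M ^ (-(1 / 2) : ℝ))
      * X ^ (1 / 2 : ℝ) = Y ^ (-1 * (2 * θ)) := by
    rw [hf]
    simp only [mul_assoc]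
  rw [e5] at h8
  have e6 : (1 / 2 + -(2 - θ) + 1 / 2 : ℝ) = -(1 - θ) := by ring
  have e7 : -1 * (2 * θ) = -(2 * θ) := by ring
  rw [e6, e7] at h8
  exact le_of_neg hX hY h8

/-- The key implication. -/
theorem imp {X Y : A} (hX : IsStrictlyPositive X) (hY : IsStrictlyPositive Y) {θ : ℝ}
    (h0 : 0 ≤ θ) (h1 : θ ≤ 1) (h : (Y * X * Y) ^ θ ≤ X) : Y ^ (2 * θ) ≤ X ^ (1 - θ) := by
  rcases le_total θ (1 / 2) with h2 | h2
  · exact imp_low hX hY h0 h2 h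
  · exact imp_high hX hY h2 h1 h

end Pool.Agent.X78.FurutaA
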