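import Mathlib
import Pool.Agent.X78.FurutaA

namespace Pool.Agent.X78.FurutaC

open Matrix exteriorPower Set
open scoped ComplexOrder MatrixOrder Matrix.Norms.L2Operator

variable {n : ℕ}

/-- The `k`-th compound matrix. -/
noncomputable def cmp (k : ℕ) (A : Matrix (Fin n) (Fin n) ℂ) :
    Matrix (powersetCard (Fin n) k) (powersetCard (Fin n) k) ℂ :=
  LinearMap.toMatrix ((Pi.basisFun ℂ (Fin n)).exteriorPower k)
    ((Pi.basisFun ℂ (Fin n)).exteriorPower k) (exteriorPower.map k (Matrix.toLin' A))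

lemma cmp_mul (k : ℕ) (A B : Matrix (Fin n) (Fin n) ℂ) : cmp k (A * B) = cmp k A * cmp k B := by
  rw [cmp, Matrix.toLin'_mul, exteriorPower.map_comp, LinearMap.toMatrix_comp _
    ((Pi.basisFun ℂ (Fin n)).exteriorPower k)]
  rfl

lemma cmp_one (k : ℕ) : cmp k (1 : Matrix (Fin n) (Fin n) ℂ) = 1 := by
  rw [cmp, Matrix.toLin'_one, exteriorPower.map_id, LinearMap.toMatrix_id]

lemma cmp_apply (k : ℕ) (A : Matrix (Fin n) (Fin n) ℂ) (s t : powersetCard (Fin n) k) :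
    cmp k A s t = (Matrix.of fun i j => A (powersetCard.ofFinEmbEquiv.symm s j)
      (powersetCard.ofFinEmbEquiv.symm t i)).det := by
  rw [cmp, LinearMap.toMatrix_apply, basis_apply, map_apply_ιMulti_family, basis_repr_apply,
    ιMulti_family, ιMultiDual_apply_ιMulti]
  congr 1
  ext i j
  simp [Matrix.toLin'_apply]

lemma cmp_conjTranspose (k : ℕ) (A : Matrix (Fin n) (Fin n) ℂ) :
    cmp k Aᴴ = (cmp k A)ᴴ := by
  ext s t
  rw [Matrix.conjTranspose_apply, cmp_apply, cmp_apply, ← Matrix.det_conjTranspose]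
  rfl

lemma cmp_diagonal (k : ℕ) (d : Fin n → ℂ) :
    cmp k (Matrix.diagonal d)
      = Matrix.diagonal (fun s => ∏ j, d (powersetCard.ofFinEmbEquiv.symm s j)) := by
  ext s t
  have h1 : (Matrix.of fun i j => (Matrix.diagonal d) (powersetCard.ofFinEmbEquiv.symm s j)
      (powersetCard.ofFinEmbEquiv.symm t i) : Matrix (Fin k) (Fin k) ℂ)
      = (Matrix.of fun i j => (1 : Matrix (Fin n) (Fin n) ℂ) (powersetCard.ofFinEmbEquiv.symm s j)
      (powersetCard.ofFinEmbEquiv.symm t i) : Matrix (Fin k) (Fin k) ℂ)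
      * Matrix.diagonal (fun j => d (powersetCard.ofFinEmbEquiv.symm s j)) := by
    ext i j
    rw [Matrix.mul_diagonal]
    simp only [Matrix.of_apply, Matrix.diagonal_apply, Matrix.one_apply]
    split_ifs <;> simp
  rw [cmp_apply, h1, Matrix.det_mul, Matrix.det_diagonal, ← cmp_apply, cmp_one]
  by_cases h : s = t
  · subst h
    simp
  · rw [Matrix.one_apply_ne h, Matrix.diagonal_apply_ne _ h, zero_mul]

variable {ι : Type*} [Fintype ι] [DecidableEq ι]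

/-- Real diagonal matrix. -/
noncomputable def dg (d : ι → ℝ) : Matrix ι ι ℂ := Matrix.diagonal (fun i => ((d i : ℝ) : ℂ))

lemma diag_unique {U V : Matrix ι ι ℂ} (hU : Uᴴ * U = 1) (hU' : U * Uᴴ = 1) (hV : Vᴴ * V = 1)
    (hV' : V * Vᴴ = 1) (l d : ι → ℝ) (h : U * dg l * Uᴴ = V * dg d * Vᴴ) (f : ℝ → ℝ) :
    U * dg (fun i => f (l i)) * Uᴴ = V * dg (fun i => f (d i)) * Vᴴ := by
  have h1 : dg l * (Uᴴ * V) = (Uᴴ * V) * dg d := by
    calc dg l * (Uᴴ * V) = (Uᴴ * U) * dg l * (Uᴴ * V) := by rw [hU, one_mul]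
      _ = Uᴴ * (U * dg l * Uᴴ) * V := by simp only [mul_assoc]
      _ = Uᴴ * (V * dg d * Vᴴ) * V := by rw [h]
      _ = (Uᴴ * V) * dg d * (Vᴴ * V) := by simp only [mul_assoc]
      _ = _ := by rw [hV, mul_one]
  have h2 : dg (fun i => f (l i)) * (Uᴴ * V) = (Uᴴ * V) * dg (fun i => f (d i)) := by
    ext i j
    have h3 := congrFun (congrFun h1 i) j
    rw [dg, dg, Matrix.diagonal_mul, Matrix.mul_diagonal] at h3
    rw [dg, dg, Matrix.diagonal_mul, Matrix.mul_diagonal]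
    by_cases hW : (Uᴴ * V) i j = 0
    · rw [hW, mul_zero, zero_mul]
    · rw [mul_comm] at h3
      have h4 : l i = d j := by
        have := mul_left_cancel₀ hW h3
        exact_mod_cast this
      rw [h4, mul_comm]
  calc U * dg (fun i => f (l i)) * Uᴴ = U * (dg (fun i => f (l i)) * (Uᴴ * V)) * Vᴴ := by
        rw [← mul_assoc, ← mul_assoc, mul_assoc _ V, hV', mul_one]
    _ = (U * Uᴴ) * V * dg (fun i => f (d i)) * Vᴴ := by
        rw [h2]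
        simp only [mul_assoc]
    _ = _ := by rw [hU', one_mul]

omit [Fintype ι] in
lemma dg_psd {d : ι → ℝ} (hd : ∀ i, 0 ≤ d i) : (dg d).PosSemidef := by
  rw [dg, Matrix.posSemidef_diagonal_iff]
  intro i
  exact_mod_cast hd i

lemma conj_psd {V : Matrix ι ι ℂ} {d : ι → ℝ} (hd : ∀ i, 0 ≤ d i) :
    (V * dg d * Vᴴ).PosSemidef := (dg_psd hd).mul_mul_conjTranspose_same V

lemma rpow_diag {V : Matrix ι ι ℂ} (hV : Vᴴ * V = 1) (hV' : V * Vᴴ = 1) {d : ι → ℝ}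
    (hd : ∀ i, 0 ≤ d i) (t : ℝ) :
    (V * dg d * Vᴴ) ^ t = V * dg (fun i => d i ^ t) * Vᴴ := by
  have hpsd := conj_psd (V := V) hd
  have h0 : 0 ≤ V * dg d * Vᴴ := hpsd.nonneg
  have hH := hpsd.isHermitian
  rw [CFC.rpow_eq_cfc_real h0, hH.cfc_eq, Matrix.IsHermitian.cfc, Unitary.conjStarAlgAut_apply]
  have hs := hH.spectral_theorem
  rw [Unitary.conjStarAlgAut_apply] at hs
  have hU : (hH.eigenvectorUnitary : Matrix ι ι ℂ)ᴴ * (hH.eigenvectorUnitary : Matrix ι ι ℂ) = 1 :=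
    Unitary.coe_star_mul_self _
  have hU' : (hH.eigenvectorUnitary : Matrix ι ι ℂ) * (hH.eigenvectorUnitary : Matrix ι ι ℂ)ᴴ = 1 :=
    Unitary.coe_mul_star_self _
  exact diag_unique hU hU' hV hV' hH.eigenvalues d hs.symm (fun x => x ^ t)

lemma exists_diag {A : Matrix ι ι ℂ} (hA : A.PosSemidef) :
    ∃ (V : Matrix ι ι ℂ) (d : ι → ℝ), Vᴴ * V = 1 ∧ V * Vᴴ = 1 ∧ (∀ i, 0 ≤ d i) ∧
      A = V * dg d * Vᴴ := by
  have hH := hA.isHermitian
  have hs := hH.spectral_theorem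
  rw [Unitary.conjStarAlgAut_apply] at hs
  exact ⟨hH.eigenvectorUnitary, hH.eigenvalues, Unitary.coe_star_mul_self _,
    Unitary.coe_mul_star_self _, hA.eigenvalues_nonneg, hs⟩

lemma exists_diag_pos {A : Matrix ι ι ℂ} (hA : A.PosDef) :
    ∃ (V : Matrix ι ι ℂ) (d : ι → ℝ), Vᴴ * V = 1 ∧ V * Vᴴ = 1 ∧ (∀ i, 0 < d i) ∧
      A = V * dg d * Vᴴ := by
  have hH := hA.isHermitian
  have hs := hH.spectral_theorem
  rw [Unitary.conjStarAlgAut_apply] at hs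
  exact ⟨hH.eigenvectorUnitary, hH.eigenvalues, Unitary.coe_star_mul_self _,
    Unitary.coe_mul_star_self _, hA.eigenvalues_pos, hs⟩

omit [Fintype ι] in
lemma smul_dg (r : ℝ) (d : ι → ℝ) : (r : ℂ) • dg d = dg (fun i => r * d i) := by
  ext i j
  by_cases h : i = j
  · subst h
    simp [dg]
  · simp [dg, h]

lemma smul_rpow {A : Matrix ι ι ℂ} (hA : A.PosSemidef) {r : ℝ} (hr : 0 ≤ r) (t : ℝ) :
    ((r : ℂ) • A) ^ t = ((r ^ t : ℝ) : ℂ) • A ^ t := by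
  obtain ⟨V, d, hV, hV', hd, rfl⟩ := exists_diag hA
  have h1 : (r : ℂ) • (V * dg d * Vᴴ) = V * dg (fun i => r * d i) * Vᴴ := by
    rw [← smul_dg, Matrix.mul_smul, Matrix.smul_mul]
  rw [h1, rpow_diag hV hV' hd, rpow_diag hV hV' (fun i => mul_nonneg hr (hd i)),
    ← Matrix.smul_mul, ← Matrix.mul_smul, smul_dg]
  congr 3
  ext i
  exact Real.mul_rpow hr (hd i)

lemma cmp_dg (k : ℕ) (d : Fin n → ℝ) :
    cmp k (dg d) = dg (fun s : powersetCard (Fin n) k =>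
      ∏ j, d (powersetCard.ofFinEmbEquiv.symm s j)) := by
  rw [dg, cmp_diagonal, dg]
  congr 1
  ext s
  push_cast
  rfl

lemma cmp_conj (k : ℕ) (V : Matrix (Fin n) (Fin n) ℂ) (d : Fin n → ℝ) :
    cmp k (V * dg d * Vᴴ) = cmp k V * dg (fun s : powersetCard (Fin n) k =>
      ∏ j, d (powersetCard.ofFinEmbEquiv.symm s j)) * (cmp k V)ᴴ := by
  rw [cmp_mul, cmp_mul, cmp_dg, cmp_conjTranspose]

lemma cmp_unitary (k : ℕ) {V : Matrix (Fin n) (Fin n) ℂ} (hV : Vᴴ * V = 1) :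
    (cmp k V)ᴴ * cmp k V = 1 := by
  rw [← cmp_conjTranspose, ← cmp_mul, hV, cmp_one]

lemma cmp_unitary' (k : ℕ) {V : Matrix (Fin n) (Fin n) ℂ} (hV : V * Vᴴ = 1) :
    cmp k V * (cmp k V)ᴴ = 1 := by
  rw [← cmp_conjTranspose, ← cmp_mul, hV, cmp_one]

lemma cmp_rpow (k : ℕ) {A : Matrix (Fin n) (Fin n) ℂ} (hA : A.PosSemidef) (t : ℝ) :
    cmp k (A ^ t) = (cmp k A) ^ t := by
  obtain ⟨V, d, hV, hV', hd, rfl⟩ := exists_diag hA
  rw [rpow_diag hV hV' hd, cmp_conj, cmp_conj, rpow_diag (cmp_unitary k hV) (cmp_unitary' k hV')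
    (fun s => Finset.prod_nonneg (fun j _ => hd _))]
  congr 3
  ext s
  exact (Real.finsetProd_rpow _ _ (fun j _ => hd _) t)

lemma posDef_conj {V : Matrix ι ι ℂ} (hV : Vᴴ * V = 1) (hV' : V * Vᴴ = 1) {d : ι → ℝ}
    (hd : ∀ i, 0 < d i) : (V * dg d * Vᴴ).PosDef := by
  have h1 : (dg d).PosDef := by
    rw [dg, Matrix.posDef_diagonal_iff]
    intro i
    exact_mod_cast hd i
  have hU : IsUnit V := ⟨⟨V, Vᴴ, hV', hV⟩, rfl⟩
  exact (hU.posDef_star_right_conjugate_iff (x := dg d)).2 h1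

lemma cmp_posDef (k : ℕ) {A : Matrix (Fin n) (Fin n) ℂ} (hA : A.PosDef) : (cmp k A).PosDef := by
  obtain ⟨V, d, hV, hV', hd, rfl⟩ := exists_diag_pos hA
  rw [cmp_conj]
  exact posDef_conj (cmp_unitary k hV) (cmp_unitary' k hV')
    (fun s => Finset.prod_pos (fun j _ => hd _))

omit [DecidableEq ι] in
lemma smul_mono {A B : Matrix ι ι ℂ} (h : A ≤ B) {r : ℝ} (hr : 0 ≤ r) :
    (r : ℂ) • A ≤ (r : ℂ) • B := by
  rw [Matrix.le_iff] at h ⊢
  rw [← smul_sub]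
  exact h.smul (by exact_mod_cast hr)

lemma imp_scaled {X Y : Matrix ι ι ℂ} (hX : X.PosDef) (hY : Y.PosDef) {θ c : ℝ} (h0 : 0 ≤ θ)
    (h1 : θ ≤ 1) (hc : 0 < c) (h : (Y * X * Y) ^ θ ≤ (c : ℂ) • X) :
    Y ^ (2 * θ) ≤ (c : ℂ) • X ^ (1 - θ) := by
  have hXs := hX.isStrictlyPositive
  have hYs := hY.isStrictlyPositive
  have hGs := FurutaA.sp_conj hYs hXs
  rcases h0.eq_or_lt with h2 | h2
  · rw [← h2] at h ⊢
    rw [FurutaA.p0 hGs] at h
    rw [mul_zero, sub_zero, FurutaA.p0 hYs, FurutaA.p1 hXs]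
    exact h
  · obtain ⟨r, hr⟩ : ∃ r, r = c ^ (-(1 / (2 * θ))) := ⟨_, rfl⟩
    have hr0 : 0 < r := by rw [hr]; exact Real.rpow_pos_of_pos hc _
    have hr1 : (r * r) ^ θ = c⁻¹ := by
      rw [hr, ← Real.rpow_add hc, ← Real.rpow_mul hc.le, ← Real.rpow_neg_one]
      congr 1
      field_simp
      ring
    have hr2 : r ^ (2 * θ) = c⁻¹ := by
      rw [hr, ← Real.rpow_mul hc.le, ← Real.rpow_neg_one]
      congr 1
      field_simp
    have hY' : ((r : ℂ) • Y).PosDef := hY.smul (by exact_mod_cast hr0)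
    have h3 : ((r : ℂ) • Y) * X * ((r : ℂ) • Y) = ((r * r : ℝ) : ℂ) • (Y * X * Y) := by
      rw [Matrix.smul_mul, Matrix.smul_mul, Matrix.mul_smul, smul_smul]
      push_cast
      rfl
    have hG : (Y * X * Y).PosSemidef := by
      exact (Matrix.isStrictlyPositive_iff_posDef.1 hGs).posSemidef
    have h4 : (((r : ℂ) • Y) * X * ((r : ℂ) • Y)) ^ θ ≤ X := by
      rw [h3, smul_rpow hG (by positivity), hr1]
      have h5 := smul_mono h (r := c⁻¹) (by positivity)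
      rw [smul_smul, ← Complex.ofReal_mul, inv_mul_cancel₀ hc.ne', Complex.ofReal_one,
        one_smul] at h5
      exact h5
    have h6 := FurutaA.imp hXs hY'.isStrictlyPositive h0 h1 h4
    rw [smul_rpow hY.posSemidef hr0.le, hr2] at h6
    have h7 := smul_mono h6 (r := c) hc.le
    rwa [smul_smul, ← Complex.ofReal_mul, mul_inv_cancel₀ hc.ne', Complex.ofReal_one,
      one_smul] at h7

lemma dg_le_iff {d : ι → ℝ} {c : ℝ} : dg d ≤ (c : ℂ) • (1 : Matrix ι ι ℂ) ↔ ∀ i, d i ≤ c := by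
  have h1 : (c : ℂ) • (1 : Matrix ι ι ℂ) - dg d = Matrix.diagonal (fun i => ((c - d i : ℝ) : ℂ)) := by
    ext i j
    by_cases h : i = j
    · subst h
      simp [dg]
    · simp [dg, h]
  rw [Matrix.le_iff, h1, Matrix.posSemidef_diagonal_iff]
  constructor
  · intro h i
    have := h i
    have h2 : (0 : ℝ) ≤ c - d i := by exact_mod_cast this
    linarith
  · intro h i
    have : (0 : ℝ) ≤ c - d i := by linarith [h i]
    exact_mod_cast this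

lemma conj_mono {A B : Matrix ι ι ℂ} (h : A ≤ B) (V : Matrix ι ι ℂ) : V * A * Vᴴ ≤ V * B * Vᴴ := by
  rw [Matrix.le_iff] at h ⊢
  have := h.mul_mul_conjTranspose_same V
  rwa [Matrix.mul_sub, Matrix.sub_mul] at this

lemma conj_le_iff {V : Matrix ι ι ℂ} (hV : Vᴴ * V = 1) (hV' : V * Vᴴ = 1) {d : ι → ℝ} {c : ℝ} :
    V * dg d * Vᴴ ≤ (c : ℂ) • (1 : Matrix ι ι ℂ) ↔ ∀ i, d i ≤ c := by
  rw [← dg_le_iff]
  constructor
  · intro h
    have h1 := conj_mono h Vᴴ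
    rw [Matrix.conjTranspose_conjTranspose] at h1
    have e1 : Vᴴ * (V * dg d * Vᴴ) * V = dg d := by
      calc Vᴴ * (V * dg d * Vᴴ) * V = (Vᴴ * V) * dg d * (Vᴴ * V) := by simp only [mul_assoc]
        _ = _ := by rw [hV, one_mul, mul_one]
    have e2 : Vᴴ * ((c : ℂ) • (1 : Matrix ι ι ℂ)) * V = (c : ℂ) • (1 : Matrix ι ι ℂ) := by
      rw [Matrix.mul_smul, Matrix.smul_mul, mul_one, hV]
    rwa [e1, e2] at h1
  · intro h
    have h1 := conj_mono h V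
    have e2 : V * ((c : ℂ) • (1 : Matrix ι ι ℂ)) * Vᴴ = (c : ℂ) • (1 : Matrix ι ι ℂ) := by
      rw [Matrix.mul_smul, Matrix.smul_mul, mul_one, hV']
    rwa [e2] at h1

/-- The two positive definite matrices compared by log-majorization. -/
noncomputable def Z1 (X Y : Matrix (Fin n) (Fin n) ℂ) (θ : ℝ) : Matrix (Fin n) (Fin n) ℂ :=
  X ^ (-(1 / 2) : ℝ) * (Y * X * Y) ^ θ * X ^ (-(1 / 2) : ℝ)

noncomputable def Z2 (X Y : Matrix (Fin n) (Fin n) ℂ) (θ : ℝ) : Matrix (Fin n) (Fin n) ℂ :=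
  X ^ (-((1 - θ) / 2) : ℝ) * Y ^ (2 * θ) * X ^ (-((1 - θ) / 2) : ℝ)

lemma top_le {X Y : Matrix (Fin n) (Fin n) ℂ} (hX : X.PosDef) (hY : Y.PosDef) {θ : ℝ}
    (h0 : 0 ≤ θ) (h1 : θ ≤ 1) {U V : Matrix (Fin n) (Fin n) ℂ} (hU : Uᴴ * U = 1)
    (hU' : U * Uᴴ = 1) (hV : Vᴴ * V = 1) (hV' : V * Vᴴ = 1) {ν μ : Fin n → ℝ}
    (hZ1 : Z1 X Y θ = U * dg ν * Uᴴ) (hZ2 : Z2 X Y θ = V * dg μ * Vᴴ) (k : ℕ) {c : ℝ}
    (hc : 0 < c)
    (hle : ∀ t : powersetCard (Fin n) k, ∏ j, ν (powersetCard.ofFinEmbEquiv.symm t j) ≤ c)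
    (s : powersetCard (Fin n) k) : ∏ j, μ (powersetCard.ofFinEmbEquiv.symm s j) ≤ c := by
  have hX' := cmp_posDef k hX
  have hY' := cmp_posDef k hY
  have hXs := hX'.isStrictlyPositive
  have hG : (Y * X * Y).PosDef :=
    Matrix.isStrictlyPositive_iff_posDef.1
      (FurutaA.sp_conj hY.isStrictlyPositive hX.isStrictlyPositive)
  have e1 : cmp k (Z1 X Y θ) = (cmp k X) ^ (-(1 / 2) : ℝ)
      * (cmp k Y * cmp k X * cmp k Y) ^ θ * (cmp k X) ^ (-(1 / 2) : ℝ) := by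
    rw [Z1, cmp_mul, cmp_mul, cmp_rpow k hX.posSemidef, cmp_rpow k hG.posSemidef, cmp_mul,
      cmp_mul]
  have e2 : cmp k (Z2 X Y θ) = (cmp k X) ^ (-((1 - θ) / 2) : ℝ)
      * (cmp k Y) ^ (2 * θ) * (cmp k X) ^ (-((1 - θ) / 2) : ℝ) := by
    rw [Z2, cmp_mul, cmp_mul, cmp_rpow k hX.posSemidef, cmp_rpow k hY.posSemidef]
  have h2 : cmp k (Z1 X Y θ) ≤ (c : ℂ) • 1 := by
    rw [hZ1, cmp_conj]
    exact (conj_le_iff (cmp_unitary k hU) (cmp_unitary' k hU')).2 hle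
  rw [e1] at h2
  have h3 := FurutaA.conj_le (c := (cmp k X) ^ (1 / 2 : ℝ)) (FurutaA.psa _) h2
  have e3 : (cmp k X) ^ (1 / 2 : ℝ) * ((cmp k X) ^ (-(1 / 2) : ℝ)
      * (cmp k Y * cmp k X * cmp k Y) ^ θ * (cmp k X) ^ (-(1 / 2) : ℝ)) * (cmp k X) ^ (1 / 2 : ℝ)
      = (cmp k Y * cmp k X * cmp k Y) ^ θ := by
    calc _ = ((cmp k X) ^ (1 / 2 : ℝ) * (cmp k X) ^ (-(1 / 2) : ℝ))
        * (cmp k Y * cmp k X * cmp k Y) ^ θ
        * ((cmp k X) ^ (-(1 / 2) : ℝ) * (cmp k X) ^ (1 / 2 : ℝ)) := by simp only [mul_assoc]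
      _ = _ := by
        rw [FurutaA.padd hXs, FurutaA.padd hXs, add_neg_cancel, neg_add_cancel, FurutaA.p0 hXs,
          one_mul, mul_one]
  have e4 : (cmp k X) ^ (1 / 2 : ℝ) * ((c : ℂ) • 1) * (cmp k X) ^ (1 / 2 : ℝ)
      = (c : ℂ) • cmp k X := by
    rw [Matrix.mul_smul, Matrix.smul_mul, mul_one, FurutaA.padd hXs]
    norm_num
    rw [FurutaA.p1 hXs]
  rw [e3, e4] at h3
  have h4 := imp_scaled hX' hY' h0 h1 hc h3
  have h5 := FurutaA.conj_le (c := (cmp k X) ^ (-((1 - θ) / 2) : ℝ)) (FurutaA.psa _) h4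
  rw [← e2, hZ2, cmp_conj] at h5
  have e5 : (cmp k X) ^ (-((1 - θ) / 2) : ℝ) * ((c : ℂ) • (cmp k X) ^ (1 - θ))
      * (cmp k X) ^ (-((1 - θ) / 2) : ℝ) = (c : ℂ) • 1 := by
    rw [Matrix.mul_smul, Matrix.smul_mul, FurutaA.padd hXs, FurutaA.padd hXs]
    have e6 : -((1 - θ) / 2) + (1 - θ) + -((1 - θ) / 2) = 0 := by ring
    rw [e6, FurutaA.p0 hXs]
  rw [e5] at h5
  exact (conj_le_iff (cmp_unitary k hV) (cmp_unitary' k hV')).1 h5 s

end Pool.Agent.X78.FurutaC
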