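import Mathlib
import Pool.Agent.X78.FurutaC

namespace Pool.Agent.X78.HlawkaA

open Matrix
open Pool.Agent.X78.FurutaC
open scoped ComplexOrder ENNReal NNReal

/-- The Schatten `p`-norm of a complex `N × M` matrix, `(∑ σ_i(X)^p)^(1/p)`, where the `σ_i(X)` are
the square roots of the eigenvalues of `Xᴴ X`. -/
noncomputable def schatten (p : ℝ) {N M : ℕ} (X : Matrix (Fin N) (Fin M) ℂ) : ℝ :=
  (∑ i, Real.sqrt ((isHermitian_conjTranspose_mul_self X).eigenvalues i) ^ p) ^ (1 / p)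

/-- `D₂(X,Y) = ‖X‖ + ‖Y‖ - ‖X+Y‖`. -/
noncomputable def D2 (p : ℝ) {N M : ℕ} (X Y : Matrix (Fin N) (Fin M) ℂ) : ℝ :=
  schatten p X + schatten p Y - schatten p (X + Y)

/-- `D₃(X,Y,Z) = ‖X‖ + ‖Y‖ + ‖Z‖ - ‖X+Y+Z‖`. -/
noncomputable def D3 (p : ℝ) {N M : ℕ} (X Y Z : Matrix (Fin N) (Fin M) ℂ) : ℝ :=
  schatten p X + schatten p Y + schatten p Z - schatten p (X + Y + Z)

lemma trace_conj {n : ℕ} {V : Matrix (Fin n) (Fin n) ℂ} (hV : Vᴴ * V = 1) (d : Fin n → ℝ) :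
    (V * dg d * Vᴴ).trace = ((∑ i, d i : ℝ) : ℂ) := by
  rw [Matrix.trace_mul_comm, ← mul_assoc, hV, one_mul, dg, Matrix.trace_diagonal]
  push_cast
  rfl

lemma schatten_one {N M : ℕ} {X : Matrix (Fin N) (Fin M) ℂ} {P : Matrix (Fin M) (Fin M) ℂ}
    (hP : P.PosSemidef) (h : P * P = Xᴴ * X) : schatten 1 X = P.trace.re := by
  have hH := isHermitian_conjTranspose_mul_self X
  have hs := hH.spectral_theorem
  rw [Unitary.conjStarAlgAut_apply] at hs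
  have hU : (hH.eigenvectorUnitary : Matrix (Fin M) (Fin M) ℂ)ᴴ
      * (hH.eigenvectorUnitary : Matrix (Fin M) (Fin M) ℂ) = 1 :=
    Unitary.coe_star_mul_self _
  have hU' : (hH.eigenvectorUnitary : Matrix (Fin M) (Fin M) ℂ)
      * (hH.eigenvectorUnitary : Matrix (Fin M) (Fin M) ℂ)ᴴ = 1 :=
    Unitary.coe_mul_star_self _
  obtain ⟨V, d, hV, hV', hd, hPd⟩ := exists_diag hP
  have h1 : P * P = V * dg (fun i => d i ^ 2) * Vᴴ := by
    have h2 : dg d * dg d = dg (fun i => d i ^ 2) := by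
      rw [dg, Matrix.diagonal_mul_diagonal, dg]
      congr 1
      ext i
      push_cast
      ring
    calc P * P = V * (dg d * (Vᴴ * V) * dg d) * Vᴴ := by
          rw [hPd]
          simp only [mul_assoc]
      _ = _ := by rw [hV, mul_one, h2]
  have h2 := diag_unique hU hU' hV hV' hH.eigenvalues (fun i => d i ^ 2)
    (by rw [← h1, h]; exact hs.symm) Real.sqrt
  have h3 := congrArg Matrix.trace h2
  rw [trace_conj hU, trace_conj hV] at h3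
  have h4 : (∑ i, Real.sqrt (hH.eigenvalues i)) = ∑ i, d i := by
    have h5 : (∑ i, Real.sqrt (hH.eigenvalues i)) = ∑ i, Real.sqrt (d i ^ 2) := by
      exact_mod_cast h3
    rw [h5]
    apply Finset.sum_congr rfl
    intro i _
    exact Real.sqrt_sq (hd i)
  rw [schatten, hPd, trace_conj hV, Complex.ofReal_re]
  simp only [Real.rpow_one, div_one]
  exact h4

/-- The building blocks of the example. -/
noncomputable def Wm (a b : ℝ) : Matrix (Fin 3) (Fin 3) ℂ :=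
  !![(b : ℂ) * b, -(a * b), 0; -(a * b), a * a, 0; 0, 0, 0]

noncomputable def Bm (σ τ a b : ℝ) : Matrix (Fin 3) (Fin 3) ℂ :=
  !![(σ : ℂ) * (a * a), σ * (a * b), Complex.I * (τ * a);
     σ * (a * b), σ * (b * b), Complex.I * (τ * b);
     Complex.I * (τ * a), Complex.I * (τ * b), 0]

noncomputable def Dm (τ a b : ℝ) : Matrix (Fin 3) (Fin 3) ℂ :=
  !![(τ : ℂ) ^ 2 * (a * a), τ ^ 2 * (a * b), 0;
     τ ^ 2 * (a * b), τ ^ 2 * (b * b), 0;
     0, 0, τ ^ 2 * (a * a + b * b)]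

lemma Wm_psd (a b : ℝ) : (Wm a b).PosSemidef := by
  have h : Wm a b = vecMulVec (![(-b : ℂ), a, 0]) (star (![(-b : ℂ), a, 0])) := by
    ext i j
    fin_cases i <;> fin_cases j <;> simp [Wm, vecMulVec_apply, mul_comm]
  rw [h]
  exact posSemidef_vecMulVec_self_star _

lemma Dm_psd (τ a b : ℝ) : (Dm τ a b).PosSemidef := by
  have h : Dm τ a b = vecMulVec (![(τ * a : ℂ), τ * b, 0]) (star (![(τ * a : ℂ), τ * b, 0]))
      + (vecMulVec (![(0 : ℂ), 0, τ * a]) (star (![(0 : ℂ), 0, τ * a]))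
      + vecMulVec (![(0 : ℂ), 0, τ * b]) (star (![(0 : ℂ), 0, τ * b]))) := by
    ext i j
    simp only [Matrix.add_apply, vecMulVec_apply, Pi.star_apply]
    fin_cases i <;> fin_cases j <;> simp [Dm] <;> ring
  rw [h]
  exact (posSemidef_vecMulVec_self_star _).add
    ((posSemidef_vecMulVec_self_star _).add (posSemidef_vecMulVec_self_star _))

lemma WW (a b : ℝ) : Wm a b * Wm a b = (((a * a + b * b : ℝ)) : ℂ) • Wm a b := by
  ext i j
  fin_cases i <;> fin_cases j <;>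
    simp [Wm, Matrix.mul_apply, Fin.sum_univ_succ] <;> ring

lemma BhB (σ τ a b : ℝ) : (Bm σ τ a b)ᴴ * Bm σ τ a b =
    !![((σ : ℂ) ^ 2 * (a * a + b * b) + τ ^ 2) * (a * a),
        ((σ : ℂ) ^ 2 * (a * a + b * b) + τ ^ 2) * (a * b),
        Complex.I * (σ * τ * (a * a + b * b) * a);
       ((σ : ℂ) ^ 2 * (a * a + b * b) + τ ^ 2) * (a * b),
        ((σ : ℂ) ^ 2 * (a * a + b * b) + τ ^ 2) * (b * b),
        Complex.I * (σ * τ * (a * a + b * b) * b);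
       -(Complex.I * (σ * τ * (a * a + b * b) * a)),
        -(Complex.I * (σ * τ * (a * a + b * b) * b)),
        (τ : ℂ) ^ 2 * (a * a + b * b)] := by
  have hI : Complex.I * Complex.I = -1 := Complex.I_mul_I
  ext i j
  fin_cases i <;> fin_cases j <;>
    simp [Bm, Matrix.mul_apply, Fin.sum_univ_succ] <;> ring_nf <;>
    simp only [Complex.I_sq] <;> ring

/-- `Q = BᴴB + D`. -/
noncomputable def Qm (σ τ a b : ℝ) : Matrix (Fin 3) (Fin 3) ℂ :=
  (Bm σ τ a b)ᴴ * Bm σ τ a b + Dm τ a b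

lemma Qm_psd (σ τ a b : ℝ) : (Qm σ τ a b).PosSemidef :=
  (posSemidef_conjTranspose_mul_self _).add (Dm_psd τ a b)

lemma Qm_eq (σ τ a b : ℝ) : Qm σ τ a b =
    !![((σ : ℂ) ^ 2 * (a * a + b * b) + 2 * τ ^ 2) * (a * a),
        ((σ : ℂ) ^ 2 * (a * a + b * b) + 2 * τ ^ 2) * (a * b),
        Complex.I * (σ * τ * (a * a + b * b) * a);
       ((σ : ℂ) ^ 2 * (a * a + b * b) + 2 * τ ^ 2) * (a * b),
        ((σ : ℂ) ^ 2 * (a * a + b * b) + 2 * τ ^ 2) * (b * b),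
        Complex.I * (σ * τ * (a * a + b * b) * b);
       -(Complex.I * (σ * τ * (a * a + b * b) * a)),
        -(Complex.I * (σ * τ * (a * a + b * b) * b)),
        2 * (τ : ℂ) ^ 2 * (a * a + b * b)] := by
  rw [Qm, BhB, Dm]
  ext i j
  fin_cases i <;> fin_cases j <;> simp <;> ring

lemma QQ (σ τ a b : ℝ) : Qm σ τ a b * Qm σ τ a b
    = (((σ ^ 2 * (a * a + b * b) ^ 2 + 4 * τ ^ 2 * (a * a + b * b) : ℝ)) : ℂ)
      • ((Bm σ τ a b)ᴴ * Bm σ τ a b) := by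
  rw [Qm_eq, BhB]
  ext i j
  fin_cases i <;> fin_cases j <;>
    simp [Matrix.mul_apply, Fin.sum_univ_succ] <;> ring_nf <;>
    simp only [Complex.I_sq] <;> ring

lemma WQ (σ τ a b : ℝ) : Wm a b * Qm σ τ a b = 0 := by
  rw [Qm_eq]
  ext i j
  fin_cases i <;> fin_cases j <;>
    simp [Wm, Matrix.mul_apply, Fin.sum_univ_succ] <;> ring

lemma QW (σ τ a b : ℝ) : Qm σ τ a b * Wm a b = 0 := by
  rw [Qm_eq]
  ext i j
  fin_cases i <;> fin_cases j <;>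
    simp [Wm, Matrix.mul_apply, Fin.sum_univ_succ] <;> ring

/-- The matrix `ρ w wᵀ + σ u uᵀ + i τ (u eᵀ + e uᵀ)` with `u = (a,b,0)`, `w = (-b,a,0)`,
`e = (0,0,1)`. -/
noncomputable def Mm (ρ σ τ a b : ℝ) : Matrix (Fin 3) (Fin 3) ℂ := (ρ : ℂ) • Wm a b + Bm σ τ a b

lemma MhM (ρ σ τ a b : ℝ) : (Mm ρ σ τ a b)ᴴ * Mm ρ σ τ a b
    = ((ρ ^ 2 * (a * a + b * b) : ℝ) : ℂ) • Wm a b + (Bm σ τ a b)ᴴ * Bm σ τ a b := by
  rw [BhB]
  ext i j
  fin_cases i <;> fin_cases j <;>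
    simp [Mm, Wm, Bm, Matrix.mul_apply, Fin.sum_univ_succ] <;> ring_nf <;>
    simp only [Complex.I_sq] <;> ring

lemma norm_Mm {ρ σ τ a b : ℝ} (hρ : 0 ≤ ρ) (hσ : 0 < σ) (hn : 0 < a * a + b * b) :
    schatten 1 (Mm ρ σ τ a b)
      = ρ * (a * a + b * b)
        + Real.sqrt (σ ^ 2 * (a * a + b * b) ^ 2 + 4 * τ ^ 2 * (a * a + b * b)) := by
  obtain ⟨s, hs⟩ : ∃ s, s = Real.sqrt (σ ^ 2 * (a * a + b * b) ^ 2
    + 4 * τ ^ 2 * (a * a + b * b)) := ⟨_, rfl⟩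
  have hpos : 0 < σ ^ 2 * (a * a + b * b) ^ 2 + 4 * τ ^ 2 * (a * a + b * b) := by positivity
  have hs0 : 0 < s := by rw [hs]; exact Real.sqrt_pos.2 hpos
  have hs2 : s ^ 2 = σ ^ 2 * (a * a + b * b) ^ 2 + 4 * τ ^ 2 * (a * a + b * b) := by
    rw [hs]; exact Real.sq_sqrt hpos.le
  rw [← hs]
  have hP : (((ρ : ℂ) • Wm a b + ((s⁻¹ : ℝ) : ℂ) • Qm σ τ a b)).PosSemidef := by
    refine ((Wm_psd a b).smul ?_).add ((Qm_psd σ τ a b).smul ?_)
    · exact_mod_cast hρ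
    · exact_mod_cast (inv_pos.2 hs0).le
  have hPP : ((ρ : ℂ) • Wm a b + ((s⁻¹ : ℝ) : ℂ) • Qm σ τ a b)
      * ((ρ : ℂ) • Wm a b + ((s⁻¹ : ℝ) : ℂ) • Qm σ τ a b)
      = (Mm ρ σ τ a b)ᴴ * Mm ρ σ τ a b := by
    rw [MhM, Matrix.add_mul, Matrix.mul_add, Matrix.mul_add]
    simp only [Matrix.smul_mul, Matrix.mul_smul, WW, QQ, WQ, QW, smul_zero, add_zero, zero_add,
      smul_smul]
    congr 1
    · congr 1
      push_cast
      ring
    · rw [← hs2, ← Complex.ofReal_mul, ← Complex.ofReal_mul]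
      have h1 : s⁻¹ * (s⁻¹ * s ^ 2) = 1 := by
        field_simp
      rw [h1, Complex.ofReal_one, one_smul]
  rw [schatten_one hP hPP, Matrix.trace_add, Matrix.trace_smul, Matrix.trace_smul, Qm_eq]
  have h2 : (Wm a b).trace = ((a * a + b * b : ℝ) : ℂ) := by
    simp [Wm, Matrix.trace, Fin.sum_univ_succ]
    ring
  rw [h2]
  have h3 : (!![((σ : ℂ) ^ 2 * (a * a + b * b) + 2 * τ ^ 2) * (a * a),
        ((σ : ℂ) ^ 2 * (a * a + b * b) + 2 * τ ^ 2) * (a * b),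
        Complex.I * (σ * τ * (a * a + b * b) * a);
       ((σ : ℂ) ^ 2 * (a * a + b * b) + 2 * τ ^ 2) * (a * b),
        ((σ : ℂ) ^ 2 * (a * a + b * b) + 2 * τ ^ 2) * (b * b),
        Complex.I * (σ * τ * (a * a + b * b) * b);
       -(Complex.I * (σ * τ * (a * a + b * b) * a)),
        -(Complex.I * (σ * τ * (a * a + b * b) * b)),
        2 * (τ : ℂ) ^ 2 * (a * a + b * b)] : Matrix (Fin 3) (Fin 3) ℂ).trace = ((s ^ 2 : ℝ) : ℂ) := by
    rw [hs2]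
    simp [Matrix.trace, Fin.sum_univ_succ]
    ring
  rw [h3, smul_eq_mul, smul_eq_mul, ← Complex.ofReal_mul, ← Complex.ofReal_mul,
    ← Complex.ofReal_add, Complex.ofReal_re]
  congr 1
  field_simp

end Pool.Agent.X78.HlawkaA
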