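import Mathlib
import Pool.Agent.X78.HlawkaA

namespace Pool.Agent.X78.HlawkaB

open Matrix
open Pool.Agent.X78.HlawkaA
open scoped ComplexOrder ENNReal NNReal

lemma addXY (ε : ℝ) : Mm 0 1 (2 * ε) 1 2 + Mm 0 1 (2 * ε) (-2) (-1)
    = Mm (9 / 8) (1 / 8) ε (-2) 2 := by
  ext i j
  fin_cases i <;> fin_cases j <;> simp [Mm, Wm, Bm] <;> ring

lemma addXZ (ε : ℝ) : Mm 0 1 (2 * ε) 1 2 + Mm 0 1 ε 2 (-2)
    = Mm (9 / 20) (1 / 5) ε 4 2 := by
  ext i j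
  fin_cases i <;> fin_cases j <;> simp [Mm, Wm, Bm] <;> ring

lemma addYZ (ε : ℝ) : Mm 0 1 (2 * ε) (-2) (-1) + Mm 0 1 ε 2 (-2)
    = Mm (9 / 20) (1 / 5) ε (-2) (-4) := by
  ext i j
  fin_cases i <;> fin_cases j <;> simp [Mm, Wm, Bm] <;> ring

lemma addXYZ (ε : ℝ) : Mm 0 1 (2 * ε) 1 2 + Mm 0 1 (2 * ε) (-2) (-1) + Mm 0 1 ε 2 (-2)
    = Mm 9 9 0 1 0 := by
  ext i j
  fin_cases i <;> fin_cases j <;> simp [Mm, Wm, Bm] <;> ring

theorem exists_example (C : ℝ) : ∃ X Y Z : Matrix (Fin 3) (Fin 3) ℂ,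
    C * (D2 1 X Y + D2 1 X Z + D2 1 Y Z) < D3 1 X Y Z := by
  obtain ⟨x, hx⟩ : ∃ x, x = 1 / (20 * (|C| + 1)) := ⟨_, rfl⟩
  have hC : 0 ≤ |C| := abs_nonneg C
  have hx0 : 0 < x := by rw [hx]; positivity
  have hx1 : x ≤ 1 / 20 := by
    rw [hx]
    apply one_div_le_one_div_of_le (by norm_num)
    linarith
  have hCx : |C| * x ≤ 1 / 20 := by
    rw [hx, mul_one_div, div_le_div_iff₀ (by positivity) (by norm_num)]
    linarith
  obtain ⟨ε, hε⟩ : ∃ ε, ε = Real.sqrt x := ⟨_, rfl⟩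
  have hε2 : ε ^ 2 = x := by rw [hε]; exact Real.sq_sqrt hx0.le
  refine ⟨Mm 0 1 (2 * ε) 1 2, Mm 0 1 (2 * ε) (-2) (-1), Mm 0 1 ε 2 (-2), ?_⟩
  have n1 : schatten 1 (Mm 0 1 (2 * ε) 1 2) = Real.sqrt (25 + 80 * x) := by
    rw [norm_Mm (le_refl 0) one_pos (by norm_num), ← hε2]
    norm_num
    congr 1
    ring
  have n2 : schatten 1 (Mm 0 1 (2 * ε) (-2) (-1)) = Real.sqrt (25 + 80 * x) := by
    rw [norm_Mm (le_refl 0) one_pos (by norm_num), ← hε2]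
    norm_num
    congr 1
    ring
  have n3 : schatten 1 (Mm 0 1 ε 2 (-2)) = Real.sqrt (64 + 32 * x) := by
    rw [norm_Mm (le_refl 0) one_pos (by norm_num), ← hε2]
    norm_num
    congr 1
    ring
  have n12 : schatten 1 (Mm (9 / 8) (1 / 8) ε (-2) 2) = 9 + Real.sqrt (1 + 32 * x) := by
    rw [norm_Mm (by norm_num) (by norm_num) (by norm_num), ← hε2]
    norm_num
    congr 1
    ring
  have n13 : schatten 1 (Mm (9 / 20) (1 / 5) ε 4 2) = 9 + Real.sqrt (16 + 80 * x) := by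
    rw [norm_Mm (by norm_num) (by norm_num) (by norm_num), ← hε2]
    norm_num
    congr 1
    ring
  have n23 : schatten 1 (Mm (9 / 20) (1 / 5) ε (-2) (-4)) = 9 + Real.sqrt (16 + 80 * x) := by
    rw [norm_Mm (by norm_num) (by norm_num) (by norm_num), ← hε2]
    norm_num
    congr 1
    ring
  have n123 : schatten 1 (Mm 9 9 0 1 0) = 18 := by
    rw [norm_Mm (by norm_num) (by norm_num) (by norm_num)]
    have : Real.sqrt (9 ^ 2 * (1 * 1 + 0 * 0) ^ 2 + 4 * 0 ^ 2 * (1 * 1 + 0 * 0)) = 9 := by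
      rw [show (9 : ℝ) ^ 2 * (1 * 1 + 0 * 0) ^ 2 + 4 * 0 ^ 2 * (1 * 1 + 0 * 0) = 9 ^ 2 by norm_num]
      exact Real.sqrt_sq (by norm_num)
    rw [this]
    norm_num
  rw [D2, D2, D2, D3, addXYZ, addXY, addXZ, addYZ, n1, n2, n3, n12, n13, n23, n123]
  have u1 : Real.sqrt (25 + 80 * x) ≤ 5 + 8 * x := by
    rw [Real.sqrt_le_left (by positivity)]
    nlinarith
  have l1 : 5 + 4 * x ≤ Real.sqrt (25 + 80 * x) := by
    apply Real.le_sqrt_of_sq_le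
    nlinarith
  have u3 : Real.sqrt (64 + 32 * x) ≤ 8 + 2 * x := by
    rw [Real.sqrt_le_left (by positivity)]
    nlinarith
  have l3 : 8 + x ≤ Real.sqrt (64 + 32 * x) := by
    apply Real.le_sqrt_of_sq_le
    nlinarith
  have l12 : 1 + 16 * x - 128 * x ^ 2 ≤ Real.sqrt (1 + 32 * x) := by
    apply Real.le_sqrt_of_sq_le
    have h3 : 0 ≤ x ^ 3 * (4096 - 16384 * x) := mul_nonneg (by positivity) (by linarith)
    have h4 : (1 + 16 * x - 128 * x ^ 2) ^ 2 = 1 + 32 * x - x ^ 3 * (4096 - 16384 * x) := by ring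
    linarith
  have l13 : 4 + 10 * x - 13 * x ^ 2 ≤ Real.sqrt (16 + 80 * x) := by
    apply Real.le_sqrt_of_sq_le
    have h3 : 0 ≤ x ^ 2 * (4 + x * (260 - 169 * x)) := by
      apply mul_nonneg (by positivity)
      have : 0 ≤ x * (260 - 169 * x) := mul_nonneg hx0.le (by linarith)
      linarith
    have h4 : (4 + 10 * x - 13 * x ^ 2) ^ 2
        = 16 + 80 * x - x ^ 2 * (4 + x * (260 - 169 * x)) := by ring
    linarith
  obtain ⟨s1, hs1⟩ : ∃ s, s = Real.sqrt (25 + 80 * x) := ⟨_, rfl⟩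
  obtain ⟨s3, hs3⟩ : ∃ s, s = Real.sqrt (64 + 32 * x) := ⟨_, rfl⟩
  obtain ⟨t1, ht1⟩ : ∃ s, s = Real.sqrt (1 + 32 * x) := ⟨_, rfl⟩
  obtain ⟨t2, ht2⟩ : ∃ s, s = Real.sqrt (16 + 80 * x) := ⟨_, rfl⟩
  rw [← hs1] at u1 l1
  rw [← hs3] at u3 l3
  rw [← ht1] at l12
  rw [← ht2] at l13
  rw [← hs1, ← hs3, ← ht1, ← ht2]
  obtain ⟨S, hS⟩ : ∃ S, S = s1 + s1 - (9 + t1) + (s1 + s3 - (9 + t2)) + (s1 + s3 - (9 + t2)) :=
    ⟨_, rfl⟩
  rw [← hS]
  have hSu : S ≤ 154 * x ^ 2 := by rw [hS]; linarith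
  have hD : 9 * x ≤ s1 + s1 + s3 - 18 := by linarith
  have hSl : -(154 * x ^ 2) ≤ S := by
    have a1 : 5 + 8 * x - 7 * x ^ 2 ≤ s1 := by
      rw [hs1]
      apply Real.le_sqrt_of_sq_le
      have h3 : 0 ≤ x ^ 2 * (6 + x * (112 - 49 * x)) := by
        apply mul_nonneg (by positivity)
        have : 0 ≤ x * (112 - 49 * x) := mul_nonneg hx0.le (by linarith)
        linarith
      have h4 : (5 + 8 * x - 7 * x ^ 2) ^ 2
          = 25 + 80 * x - x ^ 2 * (6 + x * (112 - 49 * x)) := by ring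
      linarith
    have a2 : 8 + 2 * x - x ^ 2 ≤ s3 := by
      rw [hs3]
      apply Real.le_sqrt_of_sq_le
      have h3 : 0 ≤ x ^ 2 * (12 + x * (4 - x)) := by
        apply mul_nonneg (by positivity)
        have : 0 ≤ x * (4 - x) := mul_nonneg hx0.le (by linarith)
        linarith
      have h4 : (8 + 2 * x - x ^ 2) ^ 2
          = 64 + 32 * x - x ^ 2 * (12 + x * (4 - x)) := by ring
      linarith
    have a3 : t1 ≤ 1 + 16 * x := by
      rw [ht1, Real.sqrt_le_left (by positivity)]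
      nlinarith
    have a4 : t2 ≤ 4 + 10 * x := by
      rw [ht2, Real.sqrt_le_left (by positivity)]
      nlinarith
    rw [hS]
    linarith [sq_nonneg x]
  have hkey : C * S ≤ |C| * (154 * x ^ 2) := by
    calc C * S ≤ |C * S| := le_abs_self _
      _ = |C| * |S| := abs_mul _ _
      _ ≤ |C| * (154 * x ^ 2) := mul_le_mul_of_nonneg_left (abs_le.2 ⟨hSl, hSu⟩) hC
  have h5 : |C| * (154 * x ^ 2) ≤ 7.7 * x := by
    have : |C| * (154 * x ^ 2) = 154 * x * (|C| * x) := by ring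
    rw [this]
    nlinarith
  linarith

end Pool.Agent.X78.HlawkaB
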