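import Mathlib

namespace Pool.Agent.X78.HlawkaS

/-- Mazur map on the reals. -/
noncomputable def mz (p a : ℝ) : ℝ := if 0 ≤ a then a ^ (p / 2) else -((-a) ^ (p / 2))

/-- Derivative of `|x|^p`. -/
noncomputable def dph (p b : ℝ) : ℝ := if 0 ≤ b then p * b ^ (p - 1) else -(p * (-b) ^ (p - 1))

/-- Scalar Bregman divergence of `|x|^p`. -/
noncomputable def brg (p a b : ℝ) : ℝ := |a| ^ p - |b| ^ p - dph p b * (a - b)

lemma mz_neg {p : ℝ} (hp : 0 < p) (a : ℝ) : mz p (-a) = -mz p a := by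
  unfold mz
  rcases lt_trichotomy a 0 with h | h | h
  · rw [if_pos (by linarith), if_neg (by linarith), neg_neg]
  · subst h
    simp [Real.zero_rpow (show p / 2 ≠ 0 by linarith)]
  · rw [if_neg (by linarith), if_pos h.le, neg_neg]

lemma dph_neg {p : ℝ} (hp : 1 < p) (a : ℝ) : dph p (-a) = -dph p a := by
  unfold dph
  rcases lt_trichotomy a 0 with h | h | h
  · rw [if_pos (by linarith), if_neg (by linarith), neg_neg]
  · subst h
    simp [Real.zero_rpow (show p - 1 ≠ 0 by linarith)]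
  · rw [if_neg (by linarith), if_pos h.le, neg_neg]

lemma brg_neg {p : ℝ} (hp : 1 < p) (a b : ℝ) : brg p (-a) (-b) = brg p a b := by
  unfold brg
  rw [abs_neg, abs_neg, dph_neg hp]
  ring

lemma amgm_i {p a b : ℝ} (hp : 2 ≤ p) (ha : 0 < a) (hb : 0 < b) :
    p * (a * b ^ (p - 1)) ≤ 2 * (a ^ (p / 2) * b ^ (p / 2)) + (p - 2) * b ^ p := by
  have hp0 : 0 < p := by linarith
  have h := Real.geom_mean_le_arith_mean2_weighted (w₁ := 2 / p) (w₂ := 1 - 2 / p)
    (p₁ := a ^ (p / 2) * b ^ (p / 2)) (p₂ := b ^ p) (by positivity)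
    (by rw [sub_nonneg, div_le_one hp0]; exact hp) (by positivity) (by positivity) (by ring)
  have h2 : (a ^ (p / 2) * b ^ (p / 2)) ^ (2 / p) * (b ^ p) ^ (1 - 2 / p) = a * b ^ (p - 1) := by
    rw [Real.mul_rpow (by positivity) (by positivity), ← Real.rpow_mul ha.le,
      ← Real.rpow_mul hb.le, ← Real.rpow_mul hb.le, mul_assoc, ← Real.rpow_add hb]
    have e1 : p / 2 * (2 / p) = 1 := by field_simp
    have e2 : 1 + p * (1 - 2 / p) = p - 1 := by
      field_simp
      ring
    rw [e1, e2, Real.rpow_one]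
  rw [h2] at h
  have h3 := mul_le_mul_of_nonneg_left h hp0.le
  have h4 : p * (2 / p * (a ^ (p / 2) * b ^ (p / 2)) + (1 - 2 / p) * b ^ p)
      = 2 * (a ^ (p / 2) * b ^ (p / 2)) + (p - 2) * b ^ p := by
    field_simp
  rwa [h4] at h3

lemma amgm_ii {p a b : ℝ} (hp1 : 1 < p) (hp : p ≤ 2) (ha : 0 < a) (hb : 0 < b) :
    2 * (a ^ (p / 2) * b ^ (p / 2)) ≤ p * (a * b ^ (p - 1)) + (2 - p) * b ^ p := by
  have hp0 : 0 < p := by linarith
  have h := Real.geom_mean_le_arith_mean2_weighted (w₁ := p / 2) (w₂ := 1 - p / 2)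
    (p₁ := a * b ^ (p - 1)) (p₂ := b ^ p) (by positivity)
    (by linarith) (by positivity) (by positivity) (by ring)
  have h2 : (a * b ^ (p - 1)) ^ (p / 2) * (b ^ p) ^ (1 - p / 2) = a ^ (p / 2) * b ^ (p / 2) := by
    rw [Real.mul_rpow (by positivity) (by positivity),
      ← Real.rpow_mul hb.le, ← Real.rpow_mul hb.le, mul_assoc, ← Real.rpow_add hb]
    have e2 : (p - 1) * (p / 2) + p * (1 - p / 2) = p / 2 := by ring
    rw [e2]
  rw [h2] at h
  linarith

lemma amgm_iii {p a b : ℝ} (hp1 : 1 < p) (hp : p ≤ 2) (ha : 0 < a) (hb : 0 < b) :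
    p * (a * b ^ (p - 1)) ≤ (2 - p) * a ^ p + 2 * (p - 1) * (a ^ (p / 2) * b ^ (p / 2)) := by
  have hp0 : 0 < p := by linarith
  have h := Real.geom_mean_le_arith_mean2_weighted (w₁ := (2 - p) / p) (w₂ := 2 * (p - 1) / p)
    (p₁ := a ^ p) (p₂ := a ^ (p / 2) * b ^ (p / 2)) (by
      apply div_nonneg <;> linarith)
    (by apply div_nonneg <;> linarith) (by positivity) (by positivity) (by
      field_simp
      ring)
  have h2 : (a ^ p) ^ ((2 - p) / p) * (a ^ (p / 2) * b ^ (p / 2)) ^ (2 * (p - 1) / p)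
      = a * b ^ (p - 1) := by
    rw [Real.mul_rpow (by positivity) (by positivity), ← Real.rpow_mul ha.le,
      ← Real.rpow_mul ha.le, ← Real.rpow_mul hb.le, ← mul_assoc, ← Real.rpow_add ha]
    have e1 : p * ((2 - p) / p) + p / 2 * (2 * (p - 1) / p) = 1 := by
      field_simp
      ring
    have e2 : p / 2 * (2 * (p - 1) / p) = p - 1 := by
      field_simp
    rw [e1, e2, Real.rpow_one]
  rw [h2] at h
  have h3 := mul_le_mul_of_nonneg_left h hp0.le
  have h4 : p * ((2 - p) / p * a ^ p + 2 * (p - 1) / p * (a ^ (p / 2) * b ^ (p / 2)))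
      = (2 - p) * a ^ p + 2 * (p - 1) * (a ^ (p / 2) * b ^ (p / 2)) := by
    field_simp
  rwa [h4] at h3

lemma amgm_iv {p a b : ℝ} (hp : 2 ≤ p) (ha : 0 < a) (hb : 0 < b) :
    2 * (p - 1) * (a ^ (p / 2) * b ^ (p / 2)) ≤ (p - 2) * a ^ p + p * (a * b ^ (p - 1)) := by
  have hp0 : 0 < p := by linarith
  have hp1 : 0 < p - 1 := by linarith
  have h := Real.geom_mean_le_arith_mean2_weighted (w₁ := (p - 2) / (2 * (p - 1)))
    (w₂ := p / (2 * (p - 1)))
    (p₁ := a ^ p) (p₂ := a * b ^ (p - 1)) (by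
      apply div_nonneg <;> linarith)
    (by apply div_nonneg <;> linarith) (by positivity) (by positivity) (by
      field_simp
      ring)
  have h2 : (a ^ p) ^ ((p - 2) / (2 * (p - 1))) * (a * b ^ (p - 1)) ^ (p / (2 * (p - 1)))
      = a ^ (p / 2) * b ^ (p / 2) := by
    rw [Real.mul_rpow (by positivity) (by positivity), ← Real.rpow_mul ha.le,
      ← Real.rpow_mul hb.le, ← mul_assoc, ← Real.rpow_add ha]
    have e1 : p * ((p - 2) / (2 * (p - 1))) + p / (2 * (p - 1)) = p / 2 := by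
      field_simp
      ring
    have e2 : (p - 1) * (p / (2 * (p - 1))) = p / 2 := by
      field_simp
    rw [e1, e2]
  rw [h2] at h
  have h3 := mul_le_mul_of_nonneg_left h (by linarith : 0 ≤ 2 * (p - 1))
  have h4 : 2 * (p - 1) * ((p - 2) / (2 * (p - 1)) * a ^ p
      + p / (2 * (p - 1)) * (a * b ^ (p - 1)))
      = (p - 2) * a ^ p + p * (a * b ^ (p - 1)) := by
    field_simp
  rwa [h4] at h3

/-- Lower constant. -/
noncomputable def lc (p : ℝ) : ℝ := min 1 (p - 1) / 2

lemma lc_pos {p : ℝ} (hp : 1 < p) : 0 < lc p := by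
  unfold lc
  have : 0 < min 1 (p - 1) := lt_min one_pos (by linarith)
  linarith

lemma lc_le1 (p : ℝ) : 2 * lc p ≤ 1 := by
  unfold lc
  have : min 1 (p - 1) ≤ 1 := min_le_left _ _
  linarith

lemma lc_le2 (p : ℝ) : 2 * lc p ≤ p - 1 := by
  unfold lc
  have : min 1 (p - 1) ≤ p - 1 := min_le_right _ _
  linarith

lemma sq_rpow {p a : ℝ} (ha : 0 ≤ a) : a ^ p = (a ^ (p / 2)) ^ 2 := by
  rw [← Real.rpow_natCast, ← Real.rpow_mul ha]
  congr 1
  push_cast
  ring

lemma same {p a b : ℝ} (hp : 1 < p) (ha : 0 ≤ a) (hb : 0 ≤ b) :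
    lc p * (mz p a - mz p b) ^ 2 ≤ brg p a b ∧ brg p a b ≤ 2 * p * (mz p a - mz p b) ^ 2 := by
  have hc := lc_pos hp
  have hc1 := lc_le1 p
  have hc2 := lc_le2 p
  rw [brg, mz, mz, dph, if_pos ha, if_pos hb, if_pos hb, abs_of_nonneg ha, abs_of_nonneg hb]
  have e : a ^ p - b ^ p - p * b ^ (p - 1) * (a - b)
      = a ^ p + (p - 1) * b ^ p - p * (a * b ^ (p - 1)) := by
    rcases hb.eq_or_lt with h | h
    · rw [← h, Real.zero_rpow (by linarith), Real.zero_rpow (by linarith)]
      ring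
    · have : b ^ p = b ^ (p - 1) * b := by
        nth_rewrite 3 [← Real.rpow_one b]
        rw [← Real.rpow_add h]
        congr 1
        ring
      rw [this]
      ring
  rw [e]
  rcases ha.eq_or_lt with h1 | h1
  · rw [← h1, Real.zero_rpow (by linarith), Real.zero_rpow (by linarith),
      sq_rpow (p := p) hb]
    have h0 := sq_nonneg (b ^ (p / 2))
    constructor
    · nlinarith
    · nlinarith
  · rcases hb.eq_or_lt with h2 | h2
    · rw [← h2, Real.zero_rpow (by linarith), Real.zero_rpow (by linarith),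
        Real.zero_rpow (by linarith),
        sq_rpow (p := p) ha]
      have h0 := sq_nonneg (a ^ (p / 2))
      constructor
      · nlinarith
      · nlinarith
    · have hs := sq_rpow (p := p) ha
      have ht := sq_rpow (p := p) hb
      have hsq := sq_nonneg (a ^ (p / 2) - b ^ (p / 2))
      rcases le_total p 2 with h3 | h3
      · have i2 := amgm_ii hp h3 h1 h2
        have i3 := amgm_iii hp h3 h1 h2
        rw [hs] at i3 ⊢
        rw [ht] at i2 ⊢
        constructor
        · nlinarith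
        · nlinarith
      · have i1 := amgm_i h3 h1 h2
        have i4 := amgm_iv h3 h1 h2
        rw [hs] at i4 ⊢
        rw [ht] at i1 ⊢
        constructor
        · nlinarith
        · nlinarith

lemma opp {p a b : ℝ} (hp : 1 < p) (ha : 0 ≤ a) (hb : 0 ≤ b) :
    lc p * (mz p (-a) - mz p b) ^ 2 ≤ brg p (-a) b ∧
      brg p (-a) b ≤ 2 * p * (mz p (-a) - mz p b) ^ 2 := by
  have hc := lc_pos hp
  have hc1 := lc_le1 p
  have hc2 := lc_le2 p
  rw [mz_neg (by linarith)]
  rw [brg, mz, mz, dph, if_pos ha, if_pos hb, if_pos hb, abs_neg, abs_of_nonneg ha,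
    abs_of_nonneg hb]
  have e : a ^ p - b ^ p - p * b ^ (p - 1) * (-a - b)
      = a ^ p + (p - 1) * b ^ p + p * (a * b ^ (p - 1)) := by
    rcases hb.eq_or_lt with h | h
    · rw [← h, Real.zero_rpow (by linarith), Real.zero_rpow (by linarith)]
      ring
    · have : b ^ p = b ^ (p - 1) * b := by
        nth_rewrite 3 [← Real.rpow_one b]
        rw [← Real.rpow_add h]
        congr 1
        ring
      rw [this]
      ring
  rw [e]
  rcases ha.eq_or_lt with h1 | h1
  · rw [← h1, Real.zero_rpow (by linarith), Real.zero_rpow (by linarith),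
      sq_rpow (p := p) hb]
    have h0 := sq_nonneg (b ^ (p / 2))
    constructor
    · nlinarith
    · nlinarith
  · rcases hb.eq_or_lt with h2 | h2
    · rw [← h2, Real.zero_rpow (by linarith), Real.zero_rpow (by linarith),
        Real.zero_rpow (by linarith),
        sq_rpow (p := p) ha]
      have h0 := sq_nonneg (a ^ (p / 2))
      constructor
      · nlinarith
      · nlinarith
    · have hs := sq_rpow (p := p) ha
      have ht := sq_rpow (p := p) hb
      have hs0 : 0 ≤ a ^ (p / 2) := by positivity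
      have ht0 : 0 ≤ b ^ (p / 2) := by positivity
      have hK : 0 ≤ a * b ^ (p - 1) := by positivity
      have hst := mul_nonneg hs0 ht0
      obtain ⟨s, hs'⟩ : ∃ s, s = a ^ (p / 2) := ⟨_, rfl⟩
      obtain ⟨t, ht'⟩ : ∃ t, t = b ^ (p / 2) := ⟨_, rfl⟩
      obtain ⟨K, hK'⟩ : ∃ K, K = a * b ^ (p - 1) := ⟨_, rfl⟩
      have hlow : lc p * (-s - t) ^ 2 ≤ s ^ 2 + (p - 1) * t ^ 2 + p * K := by
        have h5 : (-s - t) ^ 2 ≤ 2 * (s ^ 2 + t ^ 2) := by nlinarith [sq_nonneg (s - t)]
        have h6 : lc p * (-s - t) ^ 2 ≤ lc p * (2 * (s ^ 2 + t ^ 2)) :=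
          mul_le_mul_of_nonneg_left h5 hc.le
        have h7 : 0 ≤ p * K := by
          rw [hK']
          exact mul_nonneg (by linarith) hK
        nlinarith [sq_nonneg s, sq_nonneg t]
      have hup : s ^ 2 + (p - 1) * t ^ 2 + p * K ≤ 2 * p * (-s - t) ^ 2 := by
        rw [← hs', ← ht'] at hst
        rcases le_total p 2 with h3 | h3
        · have i3 := amgm_iii hp h3 h1 h2
          rw [hs, ← hs', ← ht', ← hK'] at i3
          nlinarith [sq_nonneg s, sq_nonneg t]
        · have i1 := amgm_i h3 h1 h2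
          rw [ht, ← hs', ← ht', ← hK'] at i1
          nlinarith [sq_nonneg s, sq_nonneg t]
      rw [hs, ht, ← hs', ← ht', ← hK']
      exact ⟨hlow, hup⟩

theorem scal {p : ℝ} (hp : 1 < p) (a b : ℝ) :
    lc p * (mz p a - mz p b) ^ 2 ≤ brg p a b ∧ brg p a b ≤ 2 * p * (mz p a - mz p b) ^ 2 := by
  rcases le_total 0 a with ha | ha <;> rcases le_total 0 b with hb | hb
  · exact same hp ha hb
  · have h := opp hp ha (neg_nonneg.2 hb)
    rw [brg_neg hp, mz_neg (by linarith), mz_neg (by linarith)] at h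
    have e : (-mz p a - -mz p b) ^ 2 = (mz p a - mz p b) ^ 2 := by ring
    rwa [e] at h
  · have h := opp hp (neg_nonneg.2 ha) hb
    rwa [neg_neg] at h
  · have h := same hp (neg_nonneg.2 ha) (neg_nonneg.2 hb)
    rw [brg_neg hp, mz_neg (by linarith), mz_neg (by linarith)] at h
    have e : (-mz p a - -mz p b) ^ 2 = (mz p a - mz p b) ^ 2 := by ring
    rwa [e] at h

end Pool.Agent.X78.HlawkaS
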