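import Mathlib
import Pool.Agent.X78.FurutaC
import Pool.Agent.X78.HlawkaS

namespace Pool.Agent.X78.HlawkaM

open Matrix
open Pool.Agent.X78.FurutaC Pool.Agent.X78.HlawkaS
open scoped ComplexOrder

variable {ι : Type*} [Fintype ι] [DecidableEq ι]

/-- Squared Hilbert-Schmidt norm. -/
noncomputable def hs (C : Matrix ι ι ℂ) : ℝ := ∑ i, ∑ j, Complex.normSq (C i j)

omit [DecidableEq ι] in
lemma hs_trace (C : Matrix ι ι ℂ) : ((hs C : ℝ) : ℂ) = (Cᴴ * C).trace := by
  rw [hs, Matrix.trace, Finset.sum_comm]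
  push_cast
  apply Finset.sum_congr rfl
  intro j _
  rw [Matrix.diag_apply, Matrix.mul_apply]
  apply Finset.sum_congr rfl
  intro i _
  rw [Matrix.conjTranspose_apply, Complex.normSq_eq_conj_mul_self]
  rfl

lemma hs_mul_left {U : Matrix ι ι ℂ} (hU : Uᴴ * U = 1) (C : Matrix ι ι ℂ) : hs (U * C) = hs C := by
  have h : ((hs (U * C) : ℝ) : ℂ) = ((hs C : ℝ) : ℂ) := by
    rw [hs_trace, hs_trace, Matrix.conjTranspose_mul]
    congr 1
    calc Cᴴ * Uᴴ * (U * C) = Cᴴ * (Uᴴ * U) * C := by simp only [mul_assoc]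
      _ = _ := by rw [hU, mul_one]
  exact_mod_cast h

lemma hs_mul_right {V : Matrix ι ι ℂ} (hV : V * Vᴴ = 1) (C : Matrix ι ι ℂ) :
    hs (C * V) = hs C := by
  have h : ((hs (C * V) : ℝ) : ℂ) = ((hs C : ℝ) : ℂ) := by
    rw [hs_trace, hs_trace, Matrix.conjTranspose_mul]
    calc (Vᴴ * Cᴴ * (C * V)).trace = (Vᴴ * (Cᴴ * C * V)).trace := by simp only [mul_assoc]
      _ = ((Cᴴ * C * V) * Vᴴ).trace := Matrix.trace_mul_comm _ _
      _ = _ := by rw [mul_assoc, hV, mul_one]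
  exact_mod_cast h

/-- The weights. -/
noncomputable def wt (U V : Matrix ι ι ℂ) (i j : ι) : ℝ := Complex.normSq ((Uᴴ * V) i j)

lemma wt_nonneg (U V : Matrix ι ι ℂ) (i j : ι) : 0 ≤ wt U V i j := Complex.normSq_nonneg _

lemma wt_row {U V : Matrix ι ι ℂ} (hU : Uᴴ * U = 1) (hV' : V * Vᴴ = 1) (i : ι) :
    ∑ j, wt U V i j = 1 := by
  have h1 : (Uᴴ * V) * (Uᴴ * V)ᴴ = 1 := by
    rw [Matrix.conjTranspose_mul, Matrix.conjTranspose_conjTranspose]
    calc Uᴴ * V * (Vᴴ * U) = Uᴴ * (V * Vᴴ) * U := by simp only [mul_assoc]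
      _ = 1 := by rw [hV', mul_one, hU]
  have h2 := congrFun (congrFun h1 i) i
  rw [Matrix.mul_apply, Matrix.one_apply_eq] at h2
  have h3 : ((∑ j, wt U V i j : ℝ) : ℂ) = 1 := by
    rw [← h2]
    push_cast
    apply Finset.sum_congr rfl
    intro j _
    rw [wt, Matrix.conjTranspose_apply, Complex.normSq_eq_conj_mul_self, mul_comm]
    rfl
  exact_mod_cast h3

lemma wt_col {U V : Matrix ι ι ℂ} (hU' : U * Uᴴ = 1) (hV : Vᴴ * V = 1) (j : ι) :
    ∑ i, wt U V i j = 1 := by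
  have h1 : (Uᴴ * V)ᴴ * (Uᴴ * V) = 1 := by
    rw [Matrix.conjTranspose_mul, Matrix.conjTranspose_conjTranspose]
    calc Vᴴ * U * (Uᴴ * V) = Vᴴ * (U * Uᴴ) * V := by simp only [mul_assoc]
      _ = 1 := by rw [hU', mul_one, hV]
  have h2 := congrFun (congrFun h1 j) j
  rw [Matrix.mul_apply, Matrix.one_apply_eq] at h2
  have h3 : ((∑ i, wt U V i j : ℝ) : ℂ) = 1 := by
    rw [← h2]
    push_cast
    apply Finset.sum_congr rfl
    intro i _
    rw [wt, Matrix.conjTranspose_apply, Complex.normSq_eq_conj_mul_self]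
    rfl
  exact_mod_cast h3

lemma hs_diff {U V : Matrix ι ι ℂ} (hU : Uᴴ * U = 1) (hU' : U * Uᴴ = 1) (hV : Vᴴ * V = 1)
    (hV' : V * Vᴴ = 1) (a b : ι → ℝ) :
    hs (U * dg a * Uᴴ - V * dg b * Vᴴ) = ∑ i, ∑ j, wt U V i j * (a i - b j) ^ 2 := by
  have hUU : (Uᴴ)ᴴ * Uᴴ = 1 := by rw [Matrix.conjTranspose_conjTranspose]; exact hU'
  rw [← hs_mul_left hUU, ← hs_mul_right hV']
  have h1 : Uᴴ * (U * dg a * Uᴴ - V * dg b * Vᴴ) * V = dg a * (Uᴴ * V) - (Uᴴ * V) * dg b := by
    rw [Matrix.mul_sub, Matrix.sub_mul]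
    congr 1
    · calc Uᴴ * (U * dg a * Uᴴ) * V = (Uᴴ * U) * dg a * (Uᴴ * V) := by simp only [mul_assoc]
        _ = _ := by rw [hU, one_mul]
    · calc Uᴴ * (V * dg b * Vᴴ) * V = (Uᴴ * V) * dg b * (Vᴴ * V) := by simp only [mul_assoc]
        _ = _ := by rw [hV, mul_one]
  rw [h1, hs]
  apply Finset.sum_congr rfl
  intro i _
  apply Finset.sum_congr rfl
  intro j _
  rw [Matrix.sub_apply, dg, dg, Matrix.diagonal_mul, Matrix.mul_diagonal]
  have h2 : ((a i : ℝ) : ℂ) * (Uᴴ * V) i j - (Uᴴ * V) i j * ((b j : ℝ) : ℂ)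
      = (Uᴴ * V) i j * (((a i - b j : ℝ)) : ℂ) := by
    push_cast
    ring
  rw [h2, Complex.normSq_mul, Complex.normSq_ofReal, wt]
  ring

lemma tr_mix (U V : Matrix ι ι ℂ) (a b : ι → ℝ) :
    ((U * dg a * Uᴴ) * (V * dg b * Vᴴ)).trace
      = ((∑ i, ∑ j, wt U V i j * (a i * b j) : ℝ) : ℂ) := by
  have h1 : ((U * dg a * Uᴴ) * (V * dg b * Vᴴ)).trace
      = (dg a * ((Uᴴ * V) * dg b * (Uᴴ * V)ᴴ)).trace := by
    rw [Matrix.conjTranspose_mul, Matrix.conjTranspose_conjTranspose]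
    calc ((U * dg a * Uᴴ) * (V * dg b * Vᴴ)).trace
        = (U * (dg a * Uᴴ * (V * dg b * Vᴴ))).trace := by simp only [mul_assoc]
      _ = ((dg a * Uᴴ * (V * dg b * Vᴴ)) * U).trace := Matrix.trace_mul_comm _ _
      _ = _ := by simp only [mul_assoc]
  rw [h1, Matrix.trace]
  push_cast
  apply Finset.sum_congr rfl
  intro i _
  rw [Matrix.diag_apply, dg, Matrix.diagonal_mul, Matrix.mul_apply, Finset.mul_sum]
  apply Finset.sum_congr rfl
  intro j _
  rw [dg, Matrix.mul_diagonal, Matrix.conjTranspose_apply, wt, Complex.normSq_eq_conj_mul_self]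
  have : star ((Uᴴ * V) i j) = (starRingEnd ℂ) ((Uᴴ * V) i j) := rfl
  rw [this]
  ring

/-- Spectral data of a Hermitian matrix. -/
structure Spec (A : Matrix ι ι ℂ) where
  U : Matrix ι ι ℂ
  l : ι → ℝ
  h1 : Uᴴ * U = 1
  h2 : U * Uᴴ = 1
  h3 : A = U * dg l * Uᴴ

noncomputable def specOf {A : Matrix ι ι ℂ} (hH : A.IsHermitian) : Spec A where
  U := hH.eigenvectorUnitary
  l := hH.eigenvalues
  h1 := Unitary.coe_star_mul_self _
  h2 := Unitary.coe_mul_star_self _
  h3 := by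
    have hs := hH.spectral_theorem
    rwa [Unitary.conjStarAlgAut_apply] at hs

variable {A B D m : Matrix ι ι ℂ}

/-- `tr |A|^p`. -/
noncomputable def Fp (p : ℝ) (a : Spec A) : ℝ := ∑ i, |a.l i| ^ p

noncomputable def Mz (p : ℝ) (a : Spec A) : Matrix ι ι ℂ :=
  a.U * dg (fun i => mz p (a.l i)) * a.Uᴴ

noncomputable def Dp (p : ℝ) (a : Spec A) : Matrix ι ι ℂ :=
  a.U * dg (fun i => dph p (a.l i)) * a.Uᴴ

/-- Bregman divergence. -/
noncomputable def BR (p : ℝ) (a : Spec A) (b : Spec B) : ℝ :=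
  Fp p a - Fp p b - ((A - B) * Dp p b).trace.re

lemma BR_eq (p : ℝ) (a : Spec A) (b : Spec B) :
    BR p a b = ∑ i, ∑ j, wt a.U b.U i j * brg p (a.l i) (b.l j) := by
  have e1 : Fp p a = ∑ i, ∑ j, wt a.U b.U i j * |a.l i| ^ p := by
    rw [Fp]
    apply Finset.sum_congr rfl
    intro i _
    rw [← Finset.sum_mul, wt_row a.h1 b.h2, one_mul]
  have e2 : Fp p b = ∑ i, ∑ j, wt a.U b.U i j * |b.l j| ^ p := by
    rw [Fp, Finset.sum_comm]
    apply Finset.sum_congr rfl
    intro j _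
    rw [← Finset.sum_mul, wt_col a.h2 b.h1, one_mul]
  have e3 : (A * Dp p b).trace.re = ∑ i, ∑ j, wt a.U b.U i j * (a.l i * dph p (b.l j)) := by
    conv_lhs => rw [a.h3, Dp, tr_mix]
    rw [Complex.ofReal_re]
  have e4 : (B * Dp p b).trace.re = ∑ i, ∑ j, wt a.U b.U i j * (b.l j * dph p (b.l j)) := by
    have e5 : (B * Dp p b).trace.re = ∑ j, b.l j * dph p (b.l j) := by
      have e6 : B * Dp p b = b.U * dg (fun j => b.l j * dph p (b.l j)) * b.Uᴴ := by
        have e7 : dg b.l * dg (fun j => dph p (b.l j)) = dg (fun j => b.l j * dph p (b.l j)) := by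
          rw [dg, dg, Matrix.diagonal_mul_diagonal, dg]
          congr 1
          ext j
          push_cast
          rfl
        calc B * Dp p b = (b.U * dg b.l * b.Uᴴ) * (b.U * dg (fun j => dph p (b.l j)) * b.Uᴴ) := by
              rw [← b.h3, Dp]
          _ = b.U * (dg b.l * (b.Uᴴ * b.U) * dg (fun j => dph p (b.l j))) * b.Uᴴ := by
              simp only [mul_assoc]
          _ = _ := by rw [b.h1, mul_one, e7]
      rw [e6, Matrix.trace_mul_comm, ← mul_assoc, b.h1, one_mul, dg, Matrix.trace_diagonal,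
        ← Complex.ofReal_sum, Complex.ofReal_re]
    rw [e5, Finset.sum_comm]
    apply Finset.sum_congr rfl
    intro j _
    rw [← Finset.sum_mul, wt_col a.h2 b.h1, one_mul]
  rw [BR, Matrix.sub_mul, Matrix.trace_sub, Complex.sub_re, e1, e2, e3, e4,
    ← Finset.sum_sub_distrib, ← Finset.sum_sub_distrib, ← Finset.sum_sub_distrib]
  apply Finset.sum_congr rfl
  intro i _
  rw [← Finset.sum_sub_distrib, ← Finset.sum_sub_distrib, ← Finset.sum_sub_distrib]
  apply Finset.sum_congr rfl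
  intro j _
  rw [brg]
  ring

lemma BR_bounds {p : ℝ} (hp : 1 < p) (a : Spec A) (b : Spec B) :
    lc p * hs (Mz p a - Mz p b) ≤ BR p a b ∧ BR p a b ≤ 2 * p * hs (Mz p a - Mz p b) := by
  rw [BR_eq, Mz, Mz, hs_diff a.h1 a.h2 b.h1 b.h2, Finset.mul_sum, Finset.mul_sum]
  constructor
  · apply Finset.sum_le_sum
    intro i _
    rw [Finset.mul_sum]
    apply Finset.sum_le_sum
    intro j _
    have := mul_le_mul_of_nonneg_left (scal hp (a.l i) (b.l j)).1 (wt_nonneg a.U b.U i j)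
    linarith
  · apply Finset.sum_le_sum
    intro i _
    rw [Finset.mul_sum]
    apply Finset.sum_le_sum
    intro j _
    have := mul_le_mul_of_nonneg_left (scal hp (a.l i) (b.l j)).2 (wt_nonneg a.U b.U i j)
    linarith

omit [DecidableEq ι] in
lemma hs_nonneg (C : Matrix ι ι ℂ) : 0 ≤ hs C :=
  Finset.sum_nonneg (fun _ _ => Finset.sum_nonneg (fun _ _ => Complex.normSq_nonneg _))

lemma BR_nonneg {p : ℝ} (hp : 1 < p) (a : Spec A) (b : Spec B) : 0 ≤ BR p a b :=
  le_trans (mul_nonneg (lc_pos hp).le (hs_nonneg _)) (BR_bounds hp a b).1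

omit [DecidableEq ι] in
lemma hs_par {x y : ℝ} (hx : 0 ≤ x) (hy : 0 ≤ y) (hxy : 0 < x + y) (P Q R : Matrix ι ι ℂ) :
    x * y / (x + y) * hs (P - Q) ≤ x * hs (P - R) + y * hs (Q - R) := by
  rw [hs, hs, hs, Finset.mul_sum, Finset.mul_sum, Finset.mul_sum, ← Finset.sum_add_distrib]
  apply Finset.sum_le_sum
  intro i _
  rw [Finset.mul_sum, Finset.mul_sum, Finset.mul_sum, ← Finset.sum_add_distrib]
  apply Finset.sum_le_sum
  intro j _
  rw [div_mul_eq_mul_div, div_le_iff₀ hxy]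
  simp only [Matrix.sub_apply, Complex.normSq_apply, Complex.sub_re, Complex.sub_im]
  nlinarith [sq_nonneg (x * ((P i j).re - (R i j).re) + y * ((Q i j).re - (R i j).re)),
    sq_nonneg (x * ((P i j).im - (R i j).im) + y * ((Q i j).im - (R i j).im))]

lemma jensen2 {p : ℝ} (hp : 1 < p) (a : Spec A) (b : Spec B) (c : Spec m) {x y : ℝ}
    (hx : 0 ≤ x) (hy : 0 ≤ y) (hxy : 0 < x + y)
    (h : ((x + y : ℝ) : ℂ) • m = (x : ℂ) • A + (y : ℂ) • B) :
    lc p * (x * y / (x + y) * hs (Mz p a - Mz p b))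
      ≤ x * Fp p a + y * Fp p b - (x + y) * Fp p c := by
  have e : x * Fp p a + y * Fp p b - (x + y) * Fp p c = x * BR p a c + y * BR p b c := by
    have h1 : x * ((A - m) * Dp p c).trace.re + y * ((B - m) * Dp p c).trace.re = 0 := by
      have h2 : (x : ℂ) * ((A - m) * Dp p c).trace + (y : ℂ) * ((B - m) * Dp p c).trace = 0 := by
        have h3 : (x : ℂ) • (A - m) + (y : ℂ) • (B - m) = 0 := by
          rw [smul_sub, smul_sub]
          have h4 : (x : ℂ) • A - (x : ℂ) • m + ((y : ℂ) • B - (y : ℂ) • m)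
              = ((x : ℂ) • A + (y : ℂ) • B) - (((x + y : ℝ) : ℂ) • m) := by
            push_cast
            rw [add_smul]
            abel
          rw [h4, h, sub_self]
        have h5 := congrArg (fun Z => (Z * Dp p c).trace) h3
        simpa [Matrix.add_mul, Matrix.smul_mul, Matrix.trace_add, Matrix.trace_smul] using h5
      have h6 := congrArg Complex.re h2
      rw [Complex.add_re, Complex.re_ofReal_mul, Complex.re_ofReal_mul, Complex.zero_re] at h6
      exact h6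
    rw [BR, BR]
    linarith
  rw [e]
  have h1 := mul_le_mul_of_nonneg_left (BR_bounds hp a c).1 hx
  have h2 := mul_le_mul_of_nonneg_left (BR_bounds hp b c).1 hy
  have h3 := mul_le_mul_of_nonneg_left (hs_par hx hy hxy (Mz p a) (Mz p b) (Mz p c)) (lc_pos hp).le
  linarith

lemma jensen3 {p : ℝ} (hp : 1 < p) (a : Spec A) (b : Spec B) (d : Spec D) (c : Spec m)
    {x y z : ℝ} (hx : 0 ≤ x) (hy : 0 ≤ y) (hz : 0 ≤ z)
    (h : ((x + y + z : ℝ) : ℂ) • m = (x : ℂ) • A + (y : ℂ) • B + (z : ℂ) • D) :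
    0 ≤ x * Fp p a + y * Fp p b + z * Fp p d - (x + y + z) * Fp p c ∧
    x * Fp p a + y * Fp p b + z * Fp p d - (x + y + z) * Fp p c
      ≤ 2 * p * (y * hs (Mz p b - Mz p a) + z * hs (Mz p d - Mz p a)) := by
  have key : ∀ (Z : Matrix ι ι ℂ), x * ((A - m) * Z).trace.re + y * ((B - m) * Z).trace.re
      + z * ((D - m) * Z).trace.re = 0 := by
    intro Z
    have h2 : (x : ℂ) * ((A - m) * Z).trace + (y : ℂ) * ((B - m) * Z).trace
        + (z : ℂ) * ((D - m) * Z).trace = 0 := by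
      have h3 : (x : ℂ) • (A - m) + (y : ℂ) • (B - m) + (z : ℂ) • (D - m) = 0 := by
        rw [smul_sub, smul_sub, smul_sub]
        have h4 : (x : ℂ) • A - (x : ℂ) • m + ((y : ℂ) • B - (y : ℂ) • m)
            + ((z : ℂ) • D - (z : ℂ) • m)
            = ((x : ℂ) • A + (y : ℂ) • B + (z : ℂ) • D) - (((x + y + z : ℝ) : ℂ) • m) := by
          push_cast
          rw [add_smul, add_smul]
          abel
        rw [h4, h, sub_self]
      have h5 := congrArg (fun W => (W * Z).trace) h3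
      simpa [Matrix.add_mul, Matrix.smul_mul, Matrix.trace_add, Matrix.trace_smul] using h5
    have h6 := congrArg Complex.re h2
    rw [Complex.add_re, Complex.add_re, Complex.re_ofReal_mul, Complex.re_ofReal_mul,
      Complex.re_ofReal_mul, Complex.zero_re] at h6
    exact h6
  constructor
  · have e : x * Fp p a + y * Fp p b + z * Fp p d - (x + y + z) * Fp p c
        = x * BR p a c + y * BR p b c + z * BR p d c := by
      have := key (Dp p c)
      rw [BR, BR, BR]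
      linarith
    rw [e]
    have h1 := mul_nonneg hx (BR_nonneg hp a c)
    have h2 := mul_nonneg hy (BR_nonneg hp b c)
    have h3 := mul_nonneg hz (BR_nonneg hp d c)
    linarith
  · have hs0 : 0 ≤ x + y + z := by linarith
    have e : x * Fp p a + y * Fp p b + z * Fp p d - (x + y + z) * Fp p c
        = y * BR p b a + z * BR p d a - (x + y + z) * BR p c a := by
      have h1 := key (Dp p a)
      rw [BR, BR, BR]
      have h2 : ((B - A) * Dp p a).trace.re
          = ((B - m) * Dp p a).trace.re - ((A - m) * Dp p a).trace.re := by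
        rw [← Complex.sub_re, ← Matrix.trace_sub, ← Matrix.sub_mul]
        congr 3
        abel
      have h3 : ((D - A) * Dp p a).trace.re
          = ((D - m) * Dp p a).trace.re - ((A - m) * Dp p a).trace.re := by
        rw [← Complex.sub_re, ← Matrix.trace_sub, ← Matrix.sub_mul]
        congr 3
        abel
      have h4 : ((m - A) * Dp p a).trace.re = - ((A - m) * Dp p a).trace.re := by
        rw [← Complex.neg_re, ← Matrix.trace_neg, ← Matrix.neg_mul]
        congr 3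
        abel
      rw [h2, h3, h4]
      linarith
    rw [e]
    have h1 := mul_le_mul_of_nonneg_left (BR_bounds hp b a).2 hy
    have h2 := mul_le_mul_of_nonneg_left (BR_bounds hp d a).2 hz
    have h3 := mul_nonneg hs0 (BR_nonneg hp c a)
    linarith

lemma Fp_eq (p : ℝ) (a : Spec A) {U : Matrix ι ι ℂ} (hU : Uᴴ * U = 1) (hU' : U * Uᴴ = 1)
    {l : ι → ℝ} (h : A = U * dg l * Uᴴ) : Fp p a = ∑ i, |l i| ^ p := by
  have h1 := diag_unique a.h1 a.h2 hU hU' a.l l (by rw [← a.h3, h]) (fun x => |x| ^ p)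
  have h2 := congrArg Matrix.trace h1
  have h3 : ∀ {V : Matrix ι ι ℂ} (_ : Vᴴ * V = 1) (d : ι → ℝ),
      (V * dg d * Vᴴ).trace = ((∑ i, d i : ℝ) : ℂ) := by
    intro V hV d
    rw [Matrix.trace_mul_comm, ← mul_assoc, hV, one_mul, dg, Matrix.trace_diagonal]
    push_cast
    rfl
  rw [h3 a.h1, h3 hU] at h2
  exact_mod_cast h2

lemma Fp_smul {p : ℝ} {r : ℝ} (hr : 0 ≤ r) (a : Spec A) (b : Spec ((r : ℂ) • A)) :
    Fp p b = r ^ p * Fp p a := by
  have h : (r : ℂ) • A = a.U * dg (fun i => r * a.l i) * a.Uᴴ := by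
    conv_lhs => rw [a.h3]
    rw [← smul_dg, Matrix.mul_smul, Matrix.smul_mul]
  rw [Fp_eq p b a.h1 a.h2 h, Fp, Finset.mul_sum]
  apply Finset.sum_congr rfl
  intro i _
  rw [abs_mul, abs_of_nonneg hr, Real.mul_rpow hr (abs_nonneg _)]

end Pool.Agent.X78.HlawkaM
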