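import Mathlib
import Pool.Agent.X78.HlawkaM
import Pool.Agent.X78.HlawkaA

namespace Pool.Agent.X78.HlawkaU

open Matrix
open Pool.Agent.X78.FurutaC Pool.Agent.X78.HlawkaS Pool.Agent.X78.HlawkaM Pool.Agent.X78.HlawkaA
open scoped ComplexOrder

variable {N M : ℕ}

/-- Hermitian dilation. -/
noncomputable def dil (X : Matrix (Fin N) (Fin M) ℂ) :
    Matrix (Fin N ⊕ Fin M) (Fin N ⊕ Fin M) ℂ := Matrix.fromBlocks 0 X Xᴴ 0

lemma dil_herm (X : Matrix (Fin N) (Fin M) ℂ) : (dil X).IsHermitian := by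
  rw [Matrix.IsHermitian, dil, Matrix.fromBlocks_conjTranspose]
  simp

lemma dil_add (X Y : Matrix (Fin N) (Fin M) ℂ) : dil (X + Y) = dil X + dil Y := by
  rw [dil, dil, dil, Matrix.fromBlocks_add, Matrix.conjTranspose_add]
  simp

lemma dil_zero : dil (0 : Matrix (Fin N) (Fin M) ℂ) = 0 := by
  rw [dil, Matrix.conjTranspose_zero, Matrix.fromBlocks_zero]

lemma dil_sq (X : Matrix (Fin N) (Fin M) ℂ) :
    dil X * dil X = Matrix.fromBlocks (X * Xᴴ) 0 0 (Xᴴ * X) := by
  rw [dil, Matrix.fromBlocks_multiply]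
  simp

lemma blk_pow {n m : ℕ} (P : Matrix (Fin n) (Fin n) ℂ) (Q : Matrix (Fin m) (Fin m) ℂ) (k : ℕ) :
    (Matrix.fromBlocks P 0 0 Q) ^ k = Matrix.fromBlocks (P ^ k) 0 0 (Q ^ k) := by
  induction k with
  | zero => rw [pow_zero, pow_zero, pow_zero, Matrix.fromBlocks_one]
  | succ k ih =>
    rw [pow_succ, ih, Matrix.fromBlocks_multiply]
    simp [pow_succ]

lemma comm_pow (X : Matrix (Fin N) (Fin M) ℂ) (k : ℕ) : (X * Xᴴ) ^ (k + 1)
    = X * (Xᴴ * X) ^ k * Xᴴ := by
  induction k with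
  | zero => simp
  | succ k ih =>
    rw [pow_succ, ih, pow_succ]
    simp only [Matrix.mul_assoc]

lemma trace_pow_comm (X : Matrix (Fin N) (Fin M) ℂ) (k : ℕ) :
    ((X * Xᴴ) ^ (k + 1)).trace = ((Xᴴ * X) ^ (k + 1)).trace := by
  rw [comm_pow, Matrix.trace_mul_comm, ← Matrix.mul_assoc, ← pow_succ']

lemma spec_pow {ι : Type*} [Fintype ι] [DecidableEq ι] {A : Matrix ι ι ℂ} (a : Spec A) (k : ℕ) :
    A ^ k = a.U * dg (fun i => a.l i ^ k) * a.Uᴴ := by
  induction k with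
  | zero =>
    have : dg (fun i => a.l i ^ 0) = 1 := by
      rw [dg]
      simp
    rw [pow_zero, this, mul_one, a.h2]
  | succ k ih =>
    have h2 : dg (fun i => a.l i ^ k) * dg a.l = dg (fun i => a.l i ^ (k + 1)) := by
      rw [dg, dg, Matrix.diagonal_mul_diagonal, dg]
      congr 1
      ext i
      push_cast
      ring
    rw [pow_succ, ih]
    calc a.U * dg (fun i => a.l i ^ k) * a.Uᴴ * A
        = a.U * dg (fun i => a.l i ^ k) * a.Uᴴ * (a.U * dg a.l * a.Uᴴ) :=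
          congrArg (fun Z => a.U * dg (fun i => a.l i ^ k) * a.Uᴴ * Z) a.h3
      _ = a.U * (dg (fun i => a.l i ^ k) * (a.Uᴴ * a.U) * dg a.l) * a.Uᴴ := by
          simp only [mul_assoc]
      _ = _ := by rw [a.h1, mul_one, h2]

lemma spec_trace_pow {ι : Type*} [Fintype ι] [DecidableEq ι] {A : Matrix ι ι ℂ} (a : Spec A)
    (k : ℕ) : (A ^ k).trace = ((∑ i, a.l i ^ k : ℝ) : ℂ) := by
  rw [spec_pow a k, Matrix.trace_mul_comm, ← mul_assoc, a.h1, one_mul, dg,
    Matrix.trace_diagonal]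
  push_cast
  rfl

lemma pow_sums (X : Matrix (Fin N) (Fin M) ℂ) (a : Spec (dil X)) (b : Spec (Xᴴ * X)) (k : ℕ) :
    ∑ i, (a.l i ^ 2) ^ (k + 1) = 2 * ∑ i, b.l i ^ (k + 1) := by
  have h1 := spec_trace_pow a (2 * (k + 1))
  have h2 := spec_trace_pow b (k + 1)
  have htr : ∀ (P : Matrix (Fin N) (Fin N) ℂ) (Q : Matrix (Fin M) (Fin M) ℂ),
      (Matrix.fromBlocks P 0 0 Q).trace = P.trace + Q.trace := by
    intro P Q
    simp [Matrix.trace, Fintype.sum_sum_type]
  rw [pow_mul, pow_two, dil_sq, blk_pow, htr, trace_pow_comm, h2] at h1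
  have h3 : ∑ i, a.l i ^ (2 * (k + 1)) = (∑ i, b.l i ^ (k + 1)) + ∑ i, b.l i ^ (k + 1) := by
    exact_mod_cast h1.symm
  rw [two_mul, ← h3]
  apply Finset.sum_congr rfl
  intro i _
  rw [← pow_mul]

lemma poly_sums (X : Matrix (Fin N) (Fin M) ℂ) (a : Spec (dil X)) (b : Spec (Xᴴ * X))
    (q : Polynomial ℝ) (hq : q.eval 0 = 0) :
    ∑ i, q.eval (a.l i ^ 2) = 2 * ∑ i, q.eval (b.l i) := by
  have hq0 : q.coeff 0 = 0 := by rwa [Polynomial.coeff_zero_eq_eval_zero]
  simp only [Polynomial.eval_eq_sum_range]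
  rw [Finset.sum_comm, Finset.sum_comm (s := (Finset.univ : Finset (Fin M))), Finset.mul_sum]
  apply Finset.sum_congr rfl
  intro k _
  rcases k with _ | k
  · simp [hq0]
  · rw [← Finset.mul_sum, ← Finset.mul_sum, pow_sums X a b k]
    ring

lemma Fp_dil {p : ℝ} (hp : 0 < p) (X : Matrix (Fin N) (Fin M) ℂ) (a : Spec (dil X)) :
    Fp p a = 2 * ∑ i, Real.sqrt ((isHermitian_conjTranspose_mul_self X).eigenvalues i) ^ p := by
  classical
  obtain ⟨b, hb⟩ : ∃ b : Spec (Xᴴ * X), b = specOf (isHermitian_conjTranspose_mul_self X) :=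
    ⟨_, rfl⟩
  have hbl : ∀ i, (isHermitian_conjTranspose_mul_self X).eigenvalues i = b.l i := by
    intro i
    rw [hb]
    rfl
  have hb0 : ∀ i, 0 ≤ b.l i := by
    intro i
    rw [← hbl]
    exact (posSemidef_conjTranspose_mul_self X).eigenvalues_nonneg i
  obtain ⟨S, hS⟩ : ∃ S : Finset ℝ, S = (Finset.univ.image (fun i => a.l i ^ 2)
      ∪ Finset.univ.image (fun i => b.l i)) ∪ {0} := ⟨_, rfl⟩
  obtain ⟨q, hq⟩ : ∃ q : Polynomial ℝ, ∀ y ∈ S, q.eval y = y ^ (p / 2) := by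
    refine ⟨Lagrange.interpolate S id (fun y => y ^ (p / 2)), ?_⟩
    intro y hy
    exact Lagrange.eval_interpolate_at_node (fun y : ℝ => y ^ (p / 2))
      (Set.injOn_id _) hy
  have hq0 : q.eval 0 = 0 := by
    rw [hq 0 (by rw [hS]; simp)]
    exact Real.zero_rpow (by positivity)
  have h := poly_sums X a b q hq0
  have e1 : Fp p a = ∑ i, q.eval (a.l i ^ 2) := by
    rw [Fp]
    apply Finset.sum_congr rfl
    intro i _
    rw [hq (a.l i ^ 2) (by
      rw [hS]
      simp only [Finset.mem_union, Finset.mem_image, Finset.mem_univ, true_and]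
      exact Or.inl (Or.inl ⟨i, rfl⟩))]
    rw [← sq_abs, ← Real.rpow_natCast, ← Real.rpow_mul (abs_nonneg _)]
    congr 1
    push_cast
    ring
  have e2 : ∑ i, q.eval (b.l i)
      = ∑ i, Real.sqrt ((isHermitian_conjTranspose_mul_self X).eigenvalues i) ^ p := by
    apply Finset.sum_congr rfl
    intro i _
    rw [hq (b.l i) (by
      rw [hS]
      simp only [Finset.mem_union, Finset.mem_image, Finset.mem_univ, true_and]
      exact Or.inl (Or.inr ⟨i, rfl⟩)), hbl, Real.sqrt_eq_rpow, ← Real.rpow_mul (hb0 i)]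
    congr 1
    ring
  rw [e1, h, e2]

lemma schatten_nonneg (p : ℝ) (X : Matrix (Fin N) (Fin M) ℂ) : 0 ≤ schatten p X :=
  Real.rpow_nonneg (Finset.sum_nonneg (fun _ _ => Real.rpow_nonneg (Real.sqrt_nonneg _) _)) _

lemma schatten_rpow {p : ℝ} (hp : 0 < p) (X : Matrix (Fin N) (Fin M) ℂ) : schatten p X ^ p
    = ∑ i, Real.sqrt ((isHermitian_conjTranspose_mul_self X).eigenvalues i) ^ p := by
  have h0 : 0 ≤ ∑ i, Real.sqrt ((isHermitian_conjTranspose_mul_self X).eigenvalues i) ^ p :=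
    Finset.sum_nonneg (fun _ _ => Real.rpow_nonneg (Real.sqrt_nonneg _) _)
  rw [schatten, ← Real.rpow_mul h0, one_div, inv_mul_cancel₀ hp.ne', Real.rpow_one]

lemma Fp_dil' {p : ℝ} (hp : 0 < p) (X : Matrix (Fin N) (Fin M) ℂ) (a : Spec (dil X)) :
    Fp p a = 2 * schatten p X ^ p := by
  rw [Fp_dil hp, schatten_rpow hp]

lemma eq_zero_of_schatten {p : ℝ} (hp : 0 < p) {X : Matrix (Fin N) (Fin M) ℂ}
    (h : schatten p X = 0) : X = 0 := by
  have h1 := schatten_rpow hp X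
  rw [h, Real.zero_rpow hp.ne'] at h1
  have h2 : ∀ i, (isHermitian_conjTranspose_mul_self X).eigenvalues i = 0 := by
    intro i
    have h3 := (Finset.sum_eq_zero_iff_of_nonneg (fun i _ =>
      Real.rpow_nonneg (Real.sqrt_nonneg _) _)).1 h1.symm i (Finset.mem_univ i)
    rw [Real.rpow_eq_zero (Real.sqrt_nonneg _) hp.ne'] at h3
    exact (Real.sqrt_eq_zero ((posSemidef_conjTranspose_mul_self X).eigenvalues_nonneg i)).1 h3
  have h3 : Xᴴ * X = 0 := by
    have h4 := (specOf (isHermitian_conjTranspose_mul_self X)).h3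
    have h5 : dg (specOf (isHermitian_conjTranspose_mul_self X)).l = 0 := by
      rw [dg]
      ext i j
      by_cases hij : i = j
      · subst hij
        rw [Matrix.diagonal_apply_eq]
        have : (specOf (isHermitian_conjTranspose_mul_self X)).l i = 0 := h2 i
        rw [this]
        simp
      · rw [Matrix.diagonal_apply_ne _ hij]
        rfl
    rw [h5, mul_zero, zero_mul] at h4
    exact h4
  exact Matrix.conjTranspose_mul_self_eq_zero.1 h3

/-- A unit vector in the direction of `Y`. -/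
lemma exists_unit {p : ℝ} (hp : 0 < p) {X : Matrix (Fin N) (Fin M) ℂ} (hX : 0 < schatten p X)
    (Y : Matrix (Fin N) (Fin M) ℂ) :
    ∃ (B : Matrix (Fin N ⊕ Fin M) (Fin N ⊕ Fin M) ℂ) (b : Spec B), Fp p b = 2 ∧
      ((schatten p Y : ℝ) : ℂ) • B = dil Y := by
  have key : ∀ W : Matrix (Fin N) (Fin M) ℂ, 0 < schatten p W →
      ∃ (B : Matrix (Fin N ⊕ Fin M) (Fin N ⊕ Fin M) ℂ) (b : Spec B), Fp p b = 2 ∧
      ((schatten p W : ℝ) : ℂ) • B = dil W := by
    intro W hW
    have hH : ((((schatten p W)⁻¹ : ℝ) : ℂ) • dil W).IsHermitian := by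
      rw [Matrix.IsHermitian, Matrix.conjTranspose_smul, (dil_herm W).eq]
      congr 1
      exact Complex.conj_ofReal _
    refine ⟨_, specOf hH, ?_, ?_⟩
    · rw [Fp_smul (inv_nonneg.2 hW.le) (specOf (dil_herm W)) (specOf hH), Fp_dil' hp,
        Real.inv_rpow hW.le]
      have : schatten p W ^ p ≠ 0 := (Real.rpow_pos_of_pos hW p).ne'
      field_simp
    · rw [smul_smul, ← Complex.ofReal_mul, mul_inv_cancel₀ hW.ne', Complex.ofReal_one, one_smul]
  rcases (schatten_nonneg p Y).eq_or_lt with h | h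
  · obtain ⟨B, b, hb, -⟩ := key X hX
    refine ⟨B, b, hb, ?_⟩
    rw [← h, eq_zero_of_schatten hp h.symm, dil_zero, Complex.ofReal_zero, zero_smul]
  · exact key Y h

/-- Upper/lower control of `D₂`. -/
lemma D2_lower {p : ℝ} (hp : 1 < p) {X Y : Matrix (Fin N) (Fin M) ℂ}
    {A B : Matrix (Fin N ⊕ Fin M) (Fin N ⊕ Fin M) ℂ} (a : Spec A) (b : Spec B)
    (ha : Fp p a = 2) (hb : Fp p b = 2) (hA : ((schatten p X : ℝ) : ℂ) • A = dil X)
    (hB : ((schatten p Y : ℝ) : ℂ) • B = dil Y) (hpos : 0 < schatten p X + schatten p Y) :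
    lc p * (schatten p X * schatten p Y / (schatten p X + schatten p Y)
      * hs (Mz p a - Mz p b)) ≤ 2 * p * D2 p X Y := by
  have hp0 : 0 < p := by linarith
  obtain ⟨x, hx⟩ : ∃ x, x = schatten p X := ⟨_, rfl⟩
  obtain ⟨y, hy⟩ : ∃ y, y = schatten p Y := ⟨_, rfl⟩
  obtain ⟨w, hw⟩ : ∃ w, w = schatten p (X + Y) := ⟨_, rfl⟩
  have hx0 : 0 ≤ x := by rw [hx]; exact schatten_nonneg _ _
  have hy0 : 0 ≤ y := by rw [hy]; exact schatten_nonneg _ _
  have hw0 : 0 ≤ w := by rw [hw]; exact schatten_nonneg _ _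
  rw [← hx] at hA
  rw [← hy] at hB
  rw [D2, ← hx, ← hy, ← hw]
  rw [← hx, ← hy] at hpos
  have hH : ((((x + y)⁻¹ : ℝ) : ℂ) • dil (X + Y)).IsHermitian := by
    rw [Matrix.IsHermitian, Matrix.conjTranspose_smul, (dil_herm (X + Y)).eq]
    congr 1
    exact Complex.conj_ofReal _
  have hc : Fp p (specOf hH) = 2 * (w / (x + y)) ^ p := by
    rw [Fp_smul (inv_nonneg.2 hpos.le) (specOf (dil_herm (X + Y))) (specOf hH), Fp_dil' hp0,
      ← hw, Real.inv_rpow hpos.le, Real.div_rpow hw0 hpos.le]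
    ring
  have hm : ((x + y : ℝ) : ℂ) • ((((x + y)⁻¹ : ℝ) : ℂ) • dil (X + Y))
      = (x : ℂ) • A + (y : ℂ) • B := by
    rw [smul_smul, ← Complex.ofReal_mul, mul_inv_cancel₀ hpos.ne', Complex.ofReal_one, one_smul,
      dil_add, hA, hB]
  have hJ := jensen2 hp a b (specOf hH) hx0 hy0 hpos hm
  rw [ha, hb, hc] at hJ
  have hr0 : 0 ≤ w / (x + y) := div_nonneg hw0 hpos.le
  have hB1 := one_add_mul_self_le_rpow_one_add (s := w / (x + y) - 1) (by linarith)
    (p := p) hp.le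
  have e1 : 1 + (w / (x + y) - 1) = w / (x + y) := by ring
  rw [e1] at hB1
  have hB2 := mul_le_mul_of_nonneg_left hB1 hpos.le
  have e2 : (x + y) * (1 + p * (w / (x + y) - 1)) = (x + y) + p * (w - (x + y)) := by
    field_simp
  rw [e2] at hB2
  linarith

lemma D3_upper {p : ℝ} (hp : 1 < p) {X Y Z : Matrix (Fin N) (Fin M) ℂ}
    {A B D : Matrix (Fin N ⊕ Fin M) (Fin N ⊕ Fin M) ℂ} (a : Spec A) (b : Spec B) (d : Spec D)
    (ha : Fp p a = 2) (hb : Fp p b = 2) (hd : Fp p d = 2)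
    (hA : ((schatten p X : ℝ) : ℂ) • A = dil X)
    (hB : ((schatten p Y : ℝ) : ℂ) • B = dil Y) (hD : ((schatten p Z : ℝ) : ℂ) • D = dil Z)
    (hpos : 0 < schatten p X + schatten p Y + schatten p Z) :
    D3 p X Y Z ≤ p * (schatten p Y * hs (Mz p b - Mz p a)
      + schatten p Z * hs (Mz p d - Mz p a)) := by
  have hp0 : 0 < p := by linarith
  obtain ⟨x, hx⟩ : ∃ x, x = schatten p X := ⟨_, rfl⟩
  obtain ⟨y, hy⟩ : ∃ y, y = schatten p Y := ⟨_, rfl⟩
  obtain ⟨z, hz⟩ : ∃ z, z = schatten p Z := ⟨_, rfl⟩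
  obtain ⟨w, hw⟩ : ∃ w, w = schatten p (X + Y + Z) := ⟨_, rfl⟩
  have hx0 : 0 ≤ x := by rw [hx]; exact schatten_nonneg _ _
  have hy0 : 0 ≤ y := by rw [hy]; exact schatten_nonneg _ _
  have hz0 : 0 ≤ z := by rw [hz]; exact schatten_nonneg _ _
  have hw0 : 0 ≤ w := by rw [hw]; exact schatten_nonneg _ _
  rw [← hx] at hA
  rw [← hy] at hB
  rw [← hz] at hD
  rw [D3, ← hx, ← hy, ← hz, ← hw]
  rw [← hx, ← hy, ← hz] at hpos
  have hH : ((((x + y + z)⁻¹ : ℝ) : ℂ) • dil (X + Y + Z)).IsHermitian := by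
    rw [Matrix.IsHermitian, Matrix.conjTranspose_smul, (dil_herm (X + Y + Z)).eq]
    congr 1
    exact Complex.conj_ofReal _
  have hc : Fp p (specOf hH) = 2 * (w / (x + y + z)) ^ p := by
    rw [Fp_smul (inv_nonneg.2 hpos.le) (specOf (dil_herm (X + Y + Z))) (specOf hH), Fp_dil' hp0,
      ← hw, Real.inv_rpow hpos.le, Real.div_rpow hw0 hpos.le]
    ring
  have hm : ((x + y + z : ℝ) : ℂ) • ((((x + y + z)⁻¹ : ℝ) : ℂ) • dil (X + Y + Z))
      = (x : ℂ) • A + (y : ℂ) • B + (z : ℂ) • D := by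
    rw [smul_smul, ← Complex.ofReal_mul, mul_inv_cancel₀ hpos.ne', Complex.ofReal_one, one_smul,
      dil_add, dil_add, hA, hB, hD]
  obtain ⟨hJ1, hJ2⟩ := jensen3 hp a b d (specOf hH) hx0 hy0 hz0 hm
  rw [ha, hb, hd, hc] at hJ1 hJ2
  obtain ⟨r, hr⟩ : ∃ r, r = w / (x + y + z) := ⟨_, rfl⟩
  have hr0 : 0 ≤ r := by rw [hr]; exact div_nonneg hw0 hpos.le
  rw [← hr] at hJ1 hJ2
  have hwr : w = (x + y + z) * r := by
    rw [hr]
    field_simp
  have hrp : r ^ p ≤ 1 := by
    have : 0 ≤ (x + y + z) * (2 * (1 - r ^ p)) := by linarith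
    have := nonneg_of_mul_nonneg_right this hpos
    linarith
  have hr1 : r ≤ 1 := by
    by_contra hcon
    push Not at hcon
    have := Real.one_lt_rpow hcon hp0
    linarith
  have hrr : r ^ p ≤ r := by
    have := Real.rpow_le_rpow_of_exponent_ge' hr0 hr1 zero_le_one hp.le
    rwa [Real.rpow_one] at this
  have h5 := mul_le_mul_of_nonneg_left hrr hpos.le
  rw [hwr]
  linarith

lemma hs_comm {ι : Type*} [Fintype ι] (P Q : Matrix ι ι ℂ) : hs (P - Q) = hs (Q - P) := by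
  rw [hs, hs]
  apply Finset.sum_congr rfl
  intro i _
  apply Finset.sum_congr rfl
  intro j _
  rw [Matrix.sub_apply, Matrix.sub_apply, ← Complex.normSq_neg]
  congr 1
  ring

lemma schatten_zero {p : ℝ} (hp : 0 < p) : schatten p (0 : Matrix (Fin N) (Fin M) ℂ) = 0 := by
  have h1 := schatten_rpow hp (0 : Matrix (Fin N) (Fin M) ℂ)
  have h2 := Fp_dil' hp (0 : Matrix (Fin N) (Fin M) ℂ) (specOf (dil_herm 0))
  have h3 : Fp p (specOf (dil_herm (0 : Matrix (Fin N) (Fin M) ℂ))) = 0 := by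
    have h4 : dil (0 : Matrix (Fin N) (Fin M) ℂ) = 1 * dg (fun _ => (0 : ℝ)) * (1)ᴴ := by
      rw [dil_zero]
      have : dg (fun _ : Fin N ⊕ Fin M => (0 : ℝ)) = 0 := by
        rw [dg]
        simp
      rw [this]
      simp
    rw [Fp_eq p (specOf (dil_herm (0 : Matrix (Fin N) (Fin M) ℂ))) (by simp) (by simp) h4]
    simp [Real.zero_rpow hp.ne']
  rw [h3] at h2
  have h4 : schatten p (0 : Matrix (Fin N) (Fin M) ℂ) ^ p = 0 := by linarith
  exact (Real.rpow_eq_zero (schatten_nonneg _ _) hp.ne').1 h4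

lemma D2_nonneg {p : ℝ} (hp : 1 < p) (X Y : Matrix (Fin N) (Fin M) ℂ) : 0 ≤ D2 p X Y := by
  have hp0 : 0 < p := by linarith
  have main : ∀ X Y : Matrix (Fin N) (Fin M) ℂ, 0 < schatten p X → 0 ≤ D2 p X Y := by
    intro X Y hX
    obtain ⟨A, a, ha, hA⟩ := exists_unit hp0 hX X
    obtain ⟨B, b, hb, hB⟩ := exists_unit hp0 hX Y
    have hy := schatten_nonneg p Y
    have h := D2_lower hp a b ha hb hA hB (by linarith)
    have h1 : 0 ≤ lc p * (schatten p X * schatten p Y / (schatten p X + schatten p Y)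
        * hs (Mz p a - Mz p b)) := by
      apply mul_nonneg (lc_pos hp).le
      apply mul_nonneg _ (hs_nonneg _)
      apply div_nonneg (mul_nonneg hX.le hy)
      linarith
    have h2 : 0 ≤ 2 * p * D2 p X Y := le_trans h1 h
    exact nonneg_of_mul_nonneg_right h2 (by linarith)
  rcases (schatten_nonneg p X).eq_or_lt with h | h
  · rw [D2, eq_zero_of_schatten hp0 h.symm, zero_add, schatten_zero hp0]
    linarith
  · exact main X Y h

lemma half_le {x y : ℝ} (hy : 0 ≤ y) (hxy : y ≤ x) (hx : 0 < x) : y ≤ 2 * (x * y / (x + y)) := by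
  rw [← mul_div_assoc, le_div_iff₀ (by linarith)]
  nlinarith

lemma main1 {p : ℝ} (hp : 1 < p) (X Y Z : Matrix (Fin N) (Fin M) ℂ)
    (hY : schatten p Y ≤ schatten p X) (hZ : schatten p Z ≤ schatten p X) :
    D3 p X Y Z ≤ 4 * p ^ 2 / lc p * (D2 p X Y + D2 p X Z) := by
  have hp0 : 0 < p := by linarith
  have hl := lc_pos hp
  rcases (schatten_nonneg p X).eq_or_lt with h | h
  · have hX0 := eq_zero_of_schatten hp0 h.symm
    have hY0 := eq_zero_of_schatten hp0 (le_antisymm (hY.trans h.symm.le) (schatten_nonneg p Y))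
    have hZ0 := eq_zero_of_schatten hp0 (le_antisymm (hZ.trans h.symm.le) (schatten_nonneg p Z))
    rw [hX0, hY0, hZ0, D3, D2, add_zero, add_zero, schatten_zero hp0]
    simp
  · obtain ⟨A, a, ha, hA⟩ := exists_unit hp0 h X
    obtain ⟨B, b, hb, hB⟩ := exists_unit hp0 h Y
    obtain ⟨D, d, hd, hD⟩ := exists_unit hp0 h Z
    have hy := schatten_nonneg p Y
    have hz := schatten_nonneg p Z
    have h1 := D2_lower hp a b ha hb hA hB (by linarith)
    have h2 := D2_lower hp a d ha hd hA hD (by linarith)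
    have h3 := D3_upper hp a b d ha hb hd hA hB hD (by linarith)
    rw [hs_comm (Mz p b), hs_comm (Mz p d)] at h3
    have h4 := mul_le_mul_of_nonneg_right (half_le hy hY h) (hs_nonneg (Mz p a - Mz p b))
    have h5 := mul_le_mul_of_nonneg_right (half_le hz hZ h) (hs_nonneg (Mz p a - Mz p d))
    have h6 : D3 p X Y Z ≤ p * (2 * (schatten p X * schatten p Y
        / (schatten p X + schatten p Y)) * hs (Mz p a - Mz p b)
        + 2 * (schatten p X * schatten p Z
        / (schatten p X + schatten p Z)) * hs (Mz p a - Mz p d)) :=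
      h3.trans (mul_le_mul_of_nonneg_left (add_le_add h4 h5) hp0.le)
    obtain ⟨P, hP⟩ : ∃ P, P = schatten p X * schatten p Y
        / (schatten p X + schatten p Y) * hs (Mz p a - Mz p b) := ⟨_, rfl⟩
    obtain ⟨Q, hQ⟩ : ∃ Q, Q = schatten p X * schatten p Z
        / (schatten p X + schatten p Z) * hs (Mz p a - Mz p d) := ⟨_, rfl⟩
    rw [← hP] at h1
    rw [← hQ] at h2
    have h7 : D3 p X Y Z ≤ 2 * p * (P + Q) := by
      rw [hP, hQ]
      linarith
    have h8 : lc p * (P + Q) ≤ 2 * p * (D2 p X Y + D2 p X Z) := by linarith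
    rw [div_mul_eq_mul_div, le_div_iff₀ hl]
    have h9 := mul_le_mul_of_nonneg_left h8 (by linarith : 0 ≤ 2 * p)
    have h10 := mul_le_mul_of_nonneg_right h7 hl.le
    nlinarith

theorem main {p : ℝ} (hp : 1 < p) (X Y Z : Matrix (Fin N) (Fin M) ℂ) :
    D3 p X Y Z ≤ 4 * p ^ 2 / lc p * (D2 p X Y + D2 p X Z + D2 p Y Z) := by
  have hl := lc_pos hp
  have hC : 0 ≤ 4 * p ^ 2 / lc p := by positivity
  have hc2 : ∀ X Y : Matrix (Fin N) (Fin M) ℂ, D2 p X Y = D2 p Y X := by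
    intro X Y
    rw [D2, D2, add_comm X Y]
    ring
  have hXY := D2_nonneg hp X Y
  have hXZ := D2_nonneg hp X Z
  have hYZ := D2_nonneg hp Y Z
  rcases le_total (schatten p Y) (schatten p X) with h1 | h1
  · rcases le_total (schatten p Z) (schatten p X) with h2 | h2
    · have h := main1 hp X Y Z h1 h2
      have h3 := mul_nonneg hC hYZ
      linarith
    · have h := main1 hp Z X Y h2 (h1.trans h2)
      have e : D3 p Z X Y = D3 p X Y Z := by
        rw [D3, D3]
        have : Z + X + Y = X + Y + Z := by abel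
        rw [this]
        ring
      rw [e, hc2 Z X, hc2 Z Y] at h
      have h3 := mul_nonneg hC hXY
      linarith
  · rcases le_total (schatten p Z) (schatten p Y) with h2 | h2
    · have h := main1 hp Y X Z h1 h2
      have e : D3 p Y X Z = D3 p X Y Z := by
        rw [D3, D3]
        have : Y + X + Z = X + Y + Z := by abel
        rw [this]
        ring
      rw [e, hc2 Y X] at h
      have h3 := mul_nonneg hC hXZ
      linarith
    · have h := main1 hp Z X Y (h1.trans h2) h2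
      have e : D3 p Z X Y = D3 p X Y Z := by
        rw [D3, D3]
        have : Z + X + Y = X + Y + Z := by abel
        rw [this]
        ring
      rw [e, hc2 Z X, hc2 Z Y] at h
      have h3 := mul_nonneg hC hXY
      linarith

end Pool.Agent.X78.HlawkaU
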