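import Mathlib

/-!
# Contact equivalence of pairs of plane power series: tools

Helper file for `MP_3155f9_ag` and `MP_65bbe4_ag`.
-/

namespace Pool.Agent.X78.Contact

open MvPowerSeries

noncomputable section

variable {F : Type*} [Field F]

/-- Contact equivalence of two pairs of formal power series in the two variables `X 0 = x`,
`X 1 = y` over the field `F`: there are an invertible `2 × 2` matrix `U` over `F[[x,y]]` and an
`F`-algebra automorphism `φ` of `F[[x,y]]` with `g = U · φ(f)`, where `φ(f) = (φ(f₁), φ(f₂))`. -/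
def ContactEquiv (f g : Fin 2 → MvPowerSeries (Fin 2) F) : Prop :=
  ∃ (U : Matrix.GeneralLinearGroup (Fin 2) (MvPowerSeries (Fin 2) F))
    (φ : MvPowerSeries (Fin 2) F ≃ₐ[F] MvPowerSeries (Fin 2) F),
    g = Matrix.mulVec (U : Matrix (Fin 2) (Fin 2) (MvPowerSeries (Fin 2) F)) (fun i => φ (f i))

theorem ContactEquiv.trans {f g h : Fin 2 → MvPowerSeries (Fin 2) F}
    (h1 : ContactEquiv f g) (h2 : ContactEquiv g h) : ContactEquiv f h := by
  obtain ⟨U, φ, rfl⟩ := h1
  obtain ⟨V, ψ, rfl⟩ := h2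
  refine ⟨V * Matrix.GeneralLinearGroup.map (ψ : MvPowerSeries (Fin 2) F →+*
    MvPowerSeries (Fin 2) F) U, φ.trans ψ, ?_⟩
  rw [Units.val_mul, ← Matrix.mulVec_mulVec]
  congr 1
  ext1 i
  simp [Matrix.mulVec, dotProduct, Fin.sum_univ_two]

/-- A pair of zero-constant-term images defines an automorphism as soon as a second such pair
is a formal inverse. -/
theorem exists_algEquiv {A B A' B' : MvPowerSeries (Fin 2) F}
    (hA : constantCoeff A = 0) (hB : constantCoeff B = 0)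
    (hA' : constantCoeff A' = 0) (hB' : constantCoeff B' = 0)
    (h1 : ∀ φ : MvPowerSeries (Fin 2) F →ₐ[F] MvPowerSeries (Fin 2) F,
      φ (X 0) = A → φ (X 1) = B → φ A' = X 0 ∧ φ B' = X 1)
    (h2 : ∀ φ : MvPowerSeries (Fin 2) F →ₐ[F] MvPowerSeries (Fin 2) F,
      φ (X 0) = A' → φ (X 1) = B' → φ A = X 0 ∧ φ B = X 1) :
    ∃ φ : MvPowerSeries (Fin 2) F ≃ₐ[F] MvPowerSeries (Fin 2) F,
      φ (X 0) = A ∧ φ (X 1) = B := by
  have ha : HasSubst ![A, B] := hasSubst_of_constantCoeff_zero (by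
    intro i; fin_cases i
    · simpa using hA
    · simpa using hB)
  have hb : HasSubst ![A', B'] := hasSubst_of_constantCoeff_zero (by
    intro i; fin_cases i
    · simpa using hA'
    · simpa using hB')
  have ea0 : (substAlgHom ha : MvPowerSeries (Fin 2) F →ₐ[F] MvPowerSeries (Fin 2) F) (X 0) = A := by
    rw [substAlgHom_X]; rfl
  have ea1 : (substAlgHom ha : MvPowerSeries (Fin 2) F →ₐ[F] MvPowerSeries (Fin 2) F) (X 1) = B := by
    rw [substAlgHom_X]; rfl
  have eb0 : (substAlgHom hb : MvPowerSeries (Fin 2) F →ₐ[F] MvPowerSeries (Fin 2) F) (X 0) = A' := by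
    rw [substAlgHom_X]; rfl
  have eb1 : (substAlgHom hb : MvPowerSeries (Fin 2) F →ₐ[F] MvPowerSeries (Fin 2) F) (X 1) = B' := by
    rw [substAlgHom_X]; rfl
  have k1 := h1 (substAlgHom ha) ea0 ea1
  have k2 := h2 (substAlgHom hb) eb0 eb1
  refine ⟨AlgEquiv.ofAlgHom (substAlgHom ha) (substAlgHom hb) ?_ ?_, ?_, ?_⟩
  · ext1 f
    rw [AlgHom.comp_apply, substAlgHom_comp_substAlgHom_apply, coe_substAlgHom]
    have : (fun s => (substAlgHom ha : MvPowerSeries (Fin 2) F →ₐ[F] MvPowerSeries (Fin 2) F)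
        (![A', B'] s)) = X := by
      ext1 s
      fin_cases s
      · exact k1.1
      · exact k1.2
    rw [this, subst_self]
    rfl
  · ext1 f
    rw [AlgHom.comp_apply, substAlgHom_comp_substAlgHom_apply, coe_substAlgHom]
    have : (fun s => (substAlgHom hb : MvPowerSeries (Fin 2) F →ₐ[F] MvPowerSeries (Fin 2) F)
        (![A, B] s)) = X := by
      ext1 s
      fin_cases s
      · exact k2.1
      · exact k2.2
    rw [this, subst_self]
    rfl
  · exact ea0
  · exact ea1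

/-- `h` lies in `m · (g₁, g₂)`. -/
def MI (g₁ g₂ h : MvPowerSeries (Fin 2) F) : Prop :=
  ∃ α β : MvPowerSeries (Fin 2) F, constantCoeff α = 0 ∧ constantCoeff β = 0 ∧
    h = α * g₁ + β * g₂

theorem MI.add {g₁ g₂ h k : MvPowerSeries (Fin 2) F} (h1 : MI g₁ g₂ h) (h2 : MI g₁ g₂ k) :
    MI g₁ g₂ (h + k) := by
  obtain ⟨α, β, ha, hb, rfl⟩ := h1
  obtain ⟨α', β', ha', hb', rfl⟩ := h2
  exact ⟨α + α', β + β', by simp [ha, ha'], by simp [hb, hb'], by ring⟩

theorem MI.mul {g₁ g₂ h : MvPowerSeries (Fin 2) F} (k : MvPowerSeries (Fin 2) F)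
    (h1 : MI g₁ g₂ h) : MI g₁ g₂ (k * h) := by
  obtain ⟨α, β, ha, hb, rfl⟩ := h1
  exact ⟨k * α, k * β, by simp [ha], by simp [hb], by ring⟩

theorem MI.cancel {g₁ g₂ h u : MvPowerSeries (Fin 2) F} (hu : constantCoeff u ≠ 0)
    (h1 : MI g₁ g₂ (u * h)) : MI g₁ g₂ h := by
  have := h1.mul u⁻¹
  rwa [← mul_assoc, MvPowerSeries.inv_mul_cancel u hu, one_mul] at this

theorem contact_of_MI {f g : Fin 2 → MvPowerSeries (Fin 2) F}
    (φ : MvPowerSeries (Fin 2) F ≃ₐ[F] MvPowerSeries (Fin 2) F)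
    {a b c d h k : MvPowerSeries (Fin 2) F}
    (h0 : φ (f 0) = a * g 0 + b * g 1 + h) (h1 : φ (f 1) = c * g 0 + d * g 1 + k)
    (hh : MI (g 0) (g 1) h) (hk : MI (g 0) (g 1) k)
    (hdet : constantCoeff a * constantCoeff d - constantCoeff b * constantCoeff c ≠ 0) :
    ContactEquiv f g := by
  obtain ⟨α, β, ha, hb, rfl⟩ := hh
  obtain ⟨γ, δ, hc, hd, rfl⟩ := hk
  set M : Matrix (Fin 2) (Fin 2) (MvPowerSeries (Fin 2) F) := !![a + α, b + β; c + γ, d + δ]
    with hM
  have hMdet : IsUnit M.det := by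
    rw [MvPowerSeries.isUnit_iff_constantCoeff, hM, Matrix.det_fin_two_of]
    simp only [map_sub, map_mul, map_add, ha, hb, hc, hd, add_zero]
    exact isUnit_iff_ne_zero.2 hdet
  refine ⟨(Matrix.GeneralLinearGroup.mk'' M hMdet)⁻¹, φ, ?_⟩
  have key : (fun i => φ (f i)) = M.mulVec g := by
    ext1 i
    fin_cases i
    · simp [hM, Matrix.mulVec, dotProduct, Fin.sum_univ_two, h0]; ring
    · simp [hM, Matrix.mulVec, dotProduct, Fin.sum_univ_two, h1]; ring
  rw [key, Matrix.mulVec_mulVec]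
  have : ((Matrix.GeneralLinearGroup.mk'' M hMdet)⁻¹ :
      Matrix.GeneralLinearGroup (Fin 2) (MvPowerSeries (Fin 2) F)).val * M = 1 := by
    have := congrArg Units.val (inv_mul_cancel (Matrix.GeneralLinearGroup.mk'' M hMdet))
    rw [Units.val_mul] at this
    exact this
  rw [this, Matrix.one_mulVec]

end

end Pool.Agent.X78.Contact
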