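import Pool.Agent.X78.PC1

namespace PCyc

open SimpleGraph

variable {V : Type}

theorem walkOf2 {G : SimpleGraph V} (m : ℕ) : ∀ (f : ℕ → V), FP G f m →
    ∃ p : G.Walk (f 0) (f m), p.IsPath ∧ p.length = m ∧ ∀ i ≤ m, p.getVert i = f i := by
  induction m with
  | zero =>
    intro f _
    exact ⟨Walk.nil, Walk.IsPath.nil, rfl, fun i hi => by
      have : i = 0 := by omega
      subst this; rfl⟩
  | succ m ih =>
    intro f hf
    obtain ⟨p, hp, hl, hv⟩ := ih (fun i => f (i + 1))
      ⟨fun i hi => hf.1 (i + 1) (by omega), fun i j hi hj h => by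
        have := hf.2 (i + 1) (j + 1) (by omega) (by omega) h
        omega⟩
    have h0 : G.Adj (f 0) (f (0 + 1)) := hf.1 0 (by omega)
    refine ⟨Walk.cons h0 p, ?_, ?_, ?_⟩
    · rw [Walk.cons_isPath_iff]
      refine ⟨hp, fun h => ?_⟩
      rw [Walk.mem_support_iff_exists_getVert] at h
      obtain ⟨i, he, hi⟩ := h
      rw [hl] at hi
      rw [hv i hi] at he
      have := hf.2 (i + 1) 0 (by omega) (by omega) he
      omega
    · simp [hl]
    · intro i hi
      rcases i with _ | i
      · rfl
      · rw [Walk.getVert_cons_succ]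
        exact hv i (by omega)

theorem close_of_FP {G : SimpleGraph V} {u v : V} (p : G.Walk u v) (f : ℕ → V)
    (m : ℕ) (hm : 2 ≤ m) (hlm : p.length ≤ m) (hf : FP G f m)
    (hfp : ∀ i ≤ p.length, f i = p.getVert i) (hclose : G.Adj (f m) (f 0)) : Closes p := by
  obtain ⟨q, hq, hlen, hv⟩ := walkOf2 m f hf
  have hqadj : ∀ i < m, q.toSubgraph.Adj (f i) (f (i + 1)) := by
    intro i hi
    have := q.toSubgraph_adj_getVert (i := i) (by omega)
    rwa [hv i (by omega), hv (i + 1) (by omega)] at this
  refine ⟨f m, Walk.cons hclose q, ?_, ?_⟩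
  · rw [Walk.cons_isCycle_iff]
    refine ⟨hq, fun h => ?_⟩
    rw [← Walk.adj_toSubgraph_iff_mem_edges, Walk.toSubgraph_adj_iff] at h
    obtain ⟨i, h1, h2⟩ := h
    rw [hlen] at h2
    rw [hv i (by omega), hv (i + 1) (by omega), Sym2.eq_iff] at h1
    rcases h1 with ⟨h3, h4⟩ | ⟨h3, h4⟩
    · have := hf.2 i m (by omega) (by omega) h3
      omega
    · have h5 := hf.2 i 0 (by omega) (by omega) h3
      have h6 := hf.2 (i + 1) m (by omega) (by omega) h4
      omega
  · constructor
    · intro x hx
      rw [Walk.mem_verts_toSubgraph, Walk.mem_support_iff_exists_getVert] at hx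
      obtain ⟨i, hi, hil⟩ := hx
      rw [Walk.mem_verts_toSubgraph, Walk.support_cons, List.mem_cons]
      right
      rw [Walk.mem_support_iff_exists_getVert]
      exact ⟨i, by rw [hv i (by omega), hfp i hil, hi], by omega⟩
    · intro x y hxy
      rw [Walk.toSubgraph_adj_iff] at hxy
      obtain ⟨i, h1, h2⟩ := hxy
      rw [← hfp i (by omega), ← hfp (i + 1) (by omega), Sym2.eq_iff] at h1
      have h3 := hqadj i (by omega)
      rw [Walk.toSubgraph, Subgraph.sup_adj]
      right
      rcases h1 with ⟨rfl, rfl⟩ | ⟨rfl, rfl⟩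
      · exact h3
      · exact h3.symm

theorem rtg_not {G : SimpleGraph V} {R : Set V} {a b : V} (ha : a ∉ R)
    (h : Relation.ReflTransGen (stp G R) a b) : b ∉ R := by
  cases h with
  | refl => exact ha
  | tail _ h => exact h.2.2

theorem rtg_path {G : SimpleGraph V} {R : Set V} {a b : V} (ha : a ∉ R)
    (h : Relation.ReflTransGen (stp G R) a b) :
    ∃ r : G.Walk a b, r.IsPath ∧ ∀ x ∈ r.support, x ∉ R := by
  classical
  have : ∃ r : G.Walk a b, ∀ x ∈ r.support, x ∉ R := by
    induction h with
    | refl => exact ⟨Walk.nil, by simpa using ha⟩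
    | tail hab hbc ih =>
      obtain ⟨r, hr⟩ := ih
      refine ⟨r.concat hbc.1, ?_⟩
      intro x hx
      simp only [Walk.support_concat, List.mem_append,
        List.mem_singleton] at hx
      rcases hx with hx | hx
      · exact hr x hx
      · rw [hx]; exact hbc.2.2
  obtain ⟨r, hr⟩ := this
  exact ⟨r.bypass, r.bypass_isPath, fun x hx => hr x (r.support_bypass_subset_support hx)⟩

theorem close_two {G : SimpleGraph V} {u v : V} (p : G.Walk u v) (hp : p.IsPath)
    (hl : 1 ≤ p.length) (r : G.Walk v u) (hr : r.IsPath)
    (hd : ∀ x ∈ r.support, x ∈ p.support → x = u ∨ x = v) (h3 : 3 ≤ p.length + r.length) :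
    Closes p := by
  have hpi : ∀ i j, i ≤ p.length → j ≤ p.length → p.getVert i = p.getVert j → i = j :=
    fun i j hi hj h => hp.getVert_injOn hi hj h
  have hri : ∀ i j, i ≤ r.length → j ≤ r.length → r.getVert i = r.getVert j → i = j :=
    fun i j hi hj h => hr.getVert_injOn hi hj h
  have huv : u ≠ v := by
    intro h
    have := hpi 0 p.length (by omega) (le_refl _) (by simpa using h)
    omega
  have hr1 : 1 ≤ r.length := by
    by_contra h
    have h0 : r.length = 0 := by omega
    exact huv (Walk.eq_of_length_eq_zero h0).symm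
  have hps : ∀ i, i ≤ p.length → p.getVert i ∈ p.support := fun i _ => p.getVert_mem_support i
  have hrs : ∀ i, i ≤ r.length → r.getVert i ∈ r.support := fun i _ => r.getVert_mem_support i
  let f : ℕ → V := fun i => if i ≤ p.length then p.getVert i else r.getVert (i - p.length)
  have hf1 : ∀ i ≤ p.length, f i = p.getVert i := fun i hi => if_pos hi
  have hf2 : ∀ i, f (p.length + i) = r.getVert i := by
    intro i
    rcases Nat.eq_zero_or_pos i with rfl | hi
    · rw [hf1 _ (by omega)]; simp
    · simp only [f]
      rw [if_neg (by omega)]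
      congr 1
      omega
  have hf0 : f 0 = u := by rw [hf1 0 (by omega)]; simp
  have hadj : ∀ i < p.length + r.length - 1, G.Adj (f i) (f (i + 1)) := by
    intro i hi
    rcases Nat.lt_or_ge i p.length with h | h
    · rw [hf1 i (by omega), hf1 (i + 1) (by omega)]
      exact p.adj_getVert_succ h
    · obtain ⟨j, rfl⟩ : ∃ j, i = p.length + j := ⟨i - p.length, by omega⟩
      rw [hf2 j, show p.length + j + 1 = p.length + (j + 1) by ring, hf2 (j + 1)]
      exact r.adj_getVert_succ (by omega)
  refine close_of_FP p f (p.length + r.length - 1) (by omega) (by omega) ⟨hadj, ?_⟩ hf1 ?_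
  · have key : ∀ i j, i ≤ p.length + r.length - 1 → j ≤ p.length + r.length - 1 → i < j →
        f i ≠ f j := by
      intro i j hi hj hij h
      rcases Nat.lt_or_ge p.length j with hjl | hjl
      · obtain ⟨j', rfl⟩ : ∃ j', j = p.length + j' := ⟨j - p.length, by omega⟩
        rw [hf2] at h
        rcases Nat.lt_or_ge i p.length with hil | hil
        · rw [hf1 i (by omega)] at h
          have hx := hd (r.getVert j') (hrs _ (by omega)) (h ▸ hps i (by omega))
          rcases hx with hx | hx
          · have : r.getVert j' = r.getVert r.length := by rw [hx, Walk.getVert_length]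
            have := hri _ _ (by omega) (by omega) this
            omega
          · have : r.getVert j' = r.getVert 0 := by rw [hx, Walk.getVert_zero]
            have := hri _ _ (by omega) (by omega) this
            omega
        · obtain ⟨i', rfl⟩ : ∃ j', i = p.length + j' := ⟨i - p.length, by omega⟩
          rw [hf2] at h
          have := hri _ _ (by omega) (by omega) h
          omega
      · rw [hf1 i (by omega), hf1 j hjl] at h
        have := hpi _ _ (by omega) (by omega) h
        omega
    intro i j hi hj h
    rcases lt_trichotomy i j with h' | h' | h'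
    · exact absurd h (key i j hi hj h')
    · exact h'
    · exact absurd h.symm (key j i hj hi h')
  · rw [show p.length + r.length - 1 = p.length + (r.length - 1) by omega, hf2, hf0]
    have := r.adj_getVert_succ (i := r.length - 1) (by omega)
    rw [show r.length - 1 + 1 = r.length by omega, Walk.getVert_length] at this
    exact this

/-- interior of a path -/
def inter {G : SimpleGraph V} {u v : V} (p : G.Walk u v) : Set V :=
  {x | ∃ i, 1 ≤ i ∧ i < p.length ∧ x = p.getVert i}

theorem inter_not {G : SimpleGraph V} {u v : V} (p : G.Walk u v) (hp : p.IsPath)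
    (i : ℕ) (hi : i = 0 ∨ i = p.length) : p.getVert i ∉ inter p := by
  rintro ⟨j, h1, h2, h3⟩
  have := hp.getVert_injOn (show i ≤ p.length by omega) (show j ≤ p.length by omega) h3
  omega

theorem close_rtg {G : SimpleGraph V} {u v : V} (p : G.Walk u v) (hp : p.IsPath)
    (hl : 2 ≤ p.length) (h : Relation.ReflTransGen (stp G (inter p)) v u) : Closes p := by
  have hv : v ∉ inter p := by
    have := inter_not p hp p.length (Or.inr rfl)
    rwa [Walk.getVert_length] at this
  obtain ⟨r, hr, hrI⟩ := rtg_path hv h
  have huv : u ≠ v := by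
    intro h
    have := hp.getVert_injOn (show 0 ≤ p.length by omega) (show p.length ≤ p.length by omega)
      (by simpa using h)
    omega
  have hr1 : 1 ≤ r.length := by
    by_contra h
    have h0 : r.length = 0 := by omega
    exact huv (Walk.eq_of_length_eq_zero h0).symm
  refine close_two p hp (by omega) r hr ?_ (by omega)
  intro x hx hxp
  rw [Walk.mem_support_iff_exists_getVert] at hxp
  obtain ⟨i, rfl, hi⟩ := hxp
  by_cases h0 : i = 0
  · left; rw [h0]; simp
  · by_cases h1 : i = p.length
    · right; rw [h1]; simp
    · exact absurd ⟨i, by omega, by omega, rfl⟩ (hrI _ hx)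

theorem inter_card [Finite V] {G : SimpleGraph V} {u v : V} (p : G.Walk u v) :
    (inter p).ncard ≤ p.length - 1 := by
  classical
  have : inter p ⊆ (fun i => p.getVert i) '' (↑(Finset.Ico 1 p.length) : Set ℕ) := by
    rintro x ⟨i, h1, h2, rfl⟩
    exact ⟨i, by simp [h1, h2], rfl⟩
  have h1 := Set.ncard_le_ncard this ((Finset.finite_toSet _).image _)
  have h2 := Set.ncard_image_le (f := fun i => p.getVert i)
    (s := (↑(Finset.Ico 1 p.length) : Set ℕ)) (Finset.finite_toSet _)
  rw [Set.ncard_coe_finset, Nat.card_Ico] at h2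
  omega

theorem low1 {d k l : ℕ} (hl : 2 ≤ l) (hlk : l ≤ k) : l ∈ S d k := by
  intro V hV G hG hK u v p hp hlen
  rcases hK with h0 | ⟨_, hK⟩
  · omega
  have h1 := inter_card p
  have h2 := (conn_iff G _).1 (hK (inter p) (by omega))
  refine close_rtg p hp (by omega) (h2.2 _ _ ?_ ?_)
  · have := inter_not p hp p.length (Or.inr rfl)
    rwa [Walk.getVert_length] at this
  · have := inter_not p hp 0 (Or.inl rfl)
    rwa [Walk.getVert_zero] at this

/-- extension of short paths -/
theorem low_ext {d k l : ℕ} (hd : 2 ≤ d) (hl : l ≤ 1) (h : l + 1 ∈ S d k) : l ∈ S d k := by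
  intro V hV G hG hK u v p hp hlen
  have hex : ∃ w, G.Adj v w ∧ w ∉ p.support := by
    by_contra hcon
    push Not at hcon
    have hsub : G.neighborSet v ⊆ {u} := by
      intro w hw
      have h1 := hcon w hw
      rw [Walk.mem_support_iff_exists_getVert] at h1
      obtain ⟨i, hi, hil⟩ := h1
      have hwv : w ≠ v := (show G.Adj v w from hw).ne.symm
      have : i ≠ p.length := by
        intro h; rw [h, Walk.getVert_length] at hi; exact hwv hi.symm
      have hi0 : i = 0 := by omega
      rw [hi0, Walk.getVert_zero] at hi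
      exact hi.symm
    have := Set.ncard_le_ncard hsub (Set.toFinite _)
    rw [Set.ncard_singleton, hG v] at this
    omega
  obtain ⟨w, hvw, hw⟩ := hex
  obtain ⟨z, c, hc, hle⟩ := h V G hG hK u w (p.concat hvw)
    (by
      rw [Walk.concat_isPath_iff]
      exact ⟨hp, hw⟩)
    (by rw [Walk.length_concat, hlen])
  refine ⟨z, c, hc, le_trans ?_ hle⟩
  constructor
  · intro x hx
    rw [Walk.mem_verts_toSubgraph] at hx ⊢
    simp only [Walk.support_concat, List.mem_append]
    left; exact hx
  · intro x y hxy
    rw [Walk.adj_toSubgraph_iff_mem_edges] at hxy ⊢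
    simp only [Walk.edges_concat, List.concat_eq_append, List.mem_append]
    left; exact hxy

theorem low33 : 4 ∈ S 3 3 := by
  intro V hV G hG hK u v p hp hlen
  rcases hK with h0 | ⟨_, hK⟩
  · omega
  by_contra hcl
  have hno : ¬ Relation.ReflTransGen (stp G (inter p)) v u :=
    fun h => hcl (close_rtg p hp (by omega) h)
  have hinj : ∀ i j, i ≤ 4 → j ≤ 4 → p.getVert i = p.getVert j → i = j :=
    fun i j hi hj h => hp.getVert_injOn (show i ≤ p.length by omega) (show j ≤ p.length by omega) h
  have hu : p.getVert 0 = u := by simp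
  have hv : p.getVert 4 = v := by rw [← hlen, Walk.getVert_length]
  have huI : u ∉ inter p := by
    have := inter_not p hp 0 (Or.inl rfl)
    rwa [Walk.getVert_zero] at this
  have hvI : v ∉ inter p := by
    have := inter_not p hp p.length (Or.inr rfl)
    rwa [Walk.getVert_length] at this
  -- third neighbour of p2
  have h12 := p.adj_getVert_succ (i := 1) (by omega)
  have h23 := p.adj_getVert_succ (i := 2) (by omega)
  have hz : ∃ z, ∀ x, G.Adj (p.getVert 2) x → x = p.getVert 1 ∨ x = p.getVert 3 ∨ x = z := by
    have h1 : (G.neighborSet (p.getVert 2) \ {p.getVert 1, p.getVert 3}).ncard = 1 := by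
      rw [Set.ncard_sdiff (by
        intro x hx
        rcases hx with rfl | rfl
        · exact h12.symm
        · exact h23) (Set.toFinite _), hG, Set.ncard_pair (by
          intro h; have := hinj 1 3 (by omega) (by omega) h; omega)]
    obtain ⟨z, hz⟩ := Set.ncard_eq_one.1 h1
    refine ⟨z, fun x hx => ?_⟩
    by_contra hcon
    push Not at hcon
    have : x ∈ G.neighborSet (p.getVert 2) \ {p.getVert 1, p.getVert 3} :=
      ⟨hx, by
        rintro (h | h)
        · exact hcon.1 h
        · exact hcon.2.1 h⟩
    rw [hz] at this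
    exact hcon.2.2 this
  obtain ⟨z, hz⟩ := hz
  -- key: if the component of `a` misses z, contradiction
  have key : ∀ a b, a ∉ inter p → b ∉ inter p → b ≠ p.getVert 2 →
      ¬ Relation.ReflTransGen (stp G (inter p)) a b →
      ¬ Relation.ReflTransGen (stp G (inter p)) a z → False := by
    intro a b ha hb hb2 hab haz
    let R : Set V := {p.getVert 1, p.getVert 3}
    have hR : R.ncard < 3 := by
      rw [Set.ncard_pair (by
        intro h; have := hinj 1 3 (by omega) (by omega) h; omega)]
      omega
    have hRI : ∀ x, x ∉ R → x ≠ p.getVert 2 → x ∉ inter p := by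
      rintro x hx hx2 ⟨i, h1, h2, rfl⟩
      rw [hlen] at h2
      rcases (show i = 1 ∨ i = 2 ∨ i = 3 by omega) with rfl | rfl | rfl
      · exact hx (Or.inl rfl)
      · exact hx2 rfl
      · exact hx (Or.inr rfl)
    have hIR : ∀ x, x ∉ inter p → x ∉ R := by
      intro x hx
      rintro (h | h)
      · exact hx ⟨1, by omega, by omega, h⟩
      · exact hx ⟨3, by omega, by omega, h⟩
    have hc := ((conn_iff G R).1 (hK R hR)).2 a b (hIR a ha) (hIR b hb)
    have : Relation.ReflTransGen (stp G (inter p)) a b := by
      have h7 : ∀ y, Relation.ReflTransGen (stp G R) a y →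
          Relation.ReflTransGen (stp G (inter p)) a y := by
        intro y hy
        induction hy with
        | refl => exact Relation.ReflTransGen.refl
        | tail hab' hbc ih =>
          rename_i c e
          have hcI : c ∉ inter p := rtg_not ha ih
          by_cases he : e = p.getVert 2
          · subst he
            exfalso
            rcases hz c hbc.1.symm with h | h | h
            · exact hbc.2.1 (Or.inl h)
            · exact hbc.2.1 (Or.inr h)
            · exact haz (h ▸ ih)
          · exact ih.tail ⟨hbc.1, hcI, hRI e hbc.2.2 he⟩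
      exact h7 b hc
    exact hab this
  by_cases h1 : Relation.ReflTransGen (stp G (inter p)) v z
  · refine key u v huI hvI ?_ (fun h => hno (rtg_symm h)) (fun h => hno (h1.trans (rtg_symm h)))
    intro h
    have := hinj 4 2 (by omega) (by omega) (hv.trans h)
    omega
  · refine key v u hvI huI ?_ hno h1
    intro h
    have := hinj 0 2 (by omega) (by omega) (hu.trans h)
    omega

end PCyc
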