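import Pool.Agent.X78.PC5
import Pool.Agent.X78.PC6

namespace PCyc

open SimpleGraph

variable {V : Type}

theorem low_even {d k : ℕ} (hd : 2 ≤ d) (hde : d % 2 = 0) : 1 ∈ S d k := by
  classical
  intro V hV G hG _ u v p hp hlen
  have := Fintype.ofFinite V
  have huv : G.Adj u v := by
    have := p.adj_getVert_succ (i := 0) (by omega)
    rw [Walk.getVert_zero, show 0 + 1 = p.length by omega, Walk.getVert_length] at this
    exact this
  let H : SimpleGraph V :=
    { Adj := fun x y => G.Adj x y ∧ ¬ (x = u ∧ y = v) ∧ ¬ (x = v ∧ y = u)
      symm := ⟨fun x y h => ⟨h.1.symm, fun h' => h.2.2 ⟨h'.2, h'.1⟩, fun h' => h.2.1 ⟨h'.2, h'.1⟩⟩⟩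
      loopless := ⟨fun x h => G.loopless.irrefl x h.1⟩ }
  have hle : H ≤ G := fun x y h => h.1
  by_cases hr : H.Reachable v u
  · obtain ⟨r', hr'⟩ := hr.exists_isPath
    refine close_two p hp (by omega) (r'.mapLe hle) (by
      rw [Walk.isPath_mapLe]; exact hr') ?_ ?_
    · intro x _ hx
      rw [Walk.mem_support_iff_exists_getVert] at hx
      obtain ⟨i, rfl, hi⟩ := hx
      rcases (show i = 0 ∨ i = p.length by omega) with h | h
      · left; rw [h]; simp
      · right; rw [h]; simp
    · rw [Walk.length_map]
      have h0 : r'.length ≠ 0 := fun h => huv.ne (Walk.eq_of_length_eq_zero h).symm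
      have h1 : r'.length ≠ 1 := by
        intro h
        have := Walk.adj_of_length_eq_one h
        exact this.2.2 ⟨rfl, rfl⟩
      omega
  · exfalso
    let A : Set V := {x | H.Reachable u x}
    have hvA : v ∉ A := fun h => hr (h.symm)
    have huA : u ∈ A := Reachable.refl _
    let K : SimpleGraph V :=
      { Adj := fun a b => H.Adj a b ∧ a ∈ A ∧ b ∈ A
        symm := ⟨fun a b h => ⟨h.1.symm, h.2.2, h.2.1⟩⟩
        loopless := ⟨fun a h => H.loopless.irrefl a h.1⟩ }
    have hodd : ∀ a (inst : Fintype (K.neighborSet a)),
        Odd (@SimpleGraph.degree V K a inst) ↔ a = u := by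
      intro a inst
      have hd' : K.degree a = (K.neighborSet a).ncard := by
        rw [← SimpleGraph.card_neighborSet_eq_degree, Set.ncard_eq_toFinset_card',
          Set.toFinset_card]
      rw [hd']
      by_cases haA : a ∈ A
      · have h1 : K.neighborSet a = H.neighborSet a := by
          ext b
          constructor
          · intro h; exact h.1
          · intro h; exact ⟨h, haA, haA.trans (Adj.reachable h)⟩
        rw [h1]
        by_cases hau : a = u
        · subst hau
          have h2 : H.neighborSet a = G.neighborSet a \ {v} := by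
            ext b
            simp only [mem_neighborSet, Set.mem_sdiff, Set.mem_singleton_iff]
            constructor
            · intro h; exact ⟨h.1, fun h' => h.2.1 ⟨rfl, h'⟩⟩
            · rintro ⟨h, h'⟩
              exact ⟨h, fun h'' => h' h''.2, fun h'' => huv.ne h''.1⟩
          rw [h2, Set.ncard_sdiff_singleton_of_mem (show v ∈ G.neighborSet a from huv), hG a]
          simp only [iff_true]
          rw [Nat.odd_iff]
          omega
        · have hav : a ≠ v := fun h => hvA (h ▸ haA)
          have h2 : H.neighborSet a = G.neighborSet a := by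
            ext b
            constructor
            · intro h; exact h.1
            · intro h
              exact ⟨h, fun h' => hau h'.1, fun h' => hav h'.1⟩
          rw [h2, hG a]
          simp only [hau, iff_false, Nat.not_odd_iff]
          exact hde
      · have h1 : K.neighborSet a = ∅ := by
          ext b
          simp only [Set.mem_empty_iff_false, iff_false]
          intro h
          exact haA h.2.1
        rw [h1, Set.ncard_empty]
        constructor
        · intro h; exact absurd h (by decide)
        · rintro rfl; exact absurd huA haA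
    have hev := K.even_card_odd_degree_vertices
    simp only [hodd] at hev
    have h9 : ∀ (T : Finset V), (∀ a, a ∈ T ↔ a = u) → T.card = 1 := by
      intro T hT
      rw [Finset.card_eq_one]
      exact ⟨u, by ext a; simp [hT]⟩
    rw [h9 _ (by intro a; simp)] at hev
    exact absurd hev (by decide)

theorem low_two {k l : ℕ} : l ∈ S 2 k := by
  intro V hV G hG _ u v p hp hlen
  by_contra hcl
  have key : ∀ t, ∃ f, FP G f (p.length + t) ∧ ∀ i ≤ p.length, f i = p.getVert i := by
    intro t
    induction t with
    | zero =>
      exact ⟨p.getVert, ⟨fun i hi => p.adj_getVert_succ hi,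
        fun i j hi hj h => hp.getVert_injOn hi hj h⟩, fun _ _ => rfl⟩
    | succ t ih =>
      obtain ⟨f, hf, hfp⟩ := ih
      set m := p.length + t with hm
      have hs : ∃ s, G.Adj (f m) s ∧ (1 ≤ m → s ≠ f (m - 1)) := by
        have h2 : (G.neighborSet (f m) \ {f (m - 1)}).ncard ≠ 0 := by
          have := Set.ncard_le_ncard_sdiff_add_ncard (G.neighborSet (f m)) {f (m - 1)}
          rw [hG, Set.ncard_singleton] at this
          omega
        obtain ⟨s, hs⟩ := Set.nonempty_of_ncard_ne_zero h2
        exact ⟨s, hs.1, fun _ => hs.2⟩
      obtain ⟨s, hs, hsm⟩ := hs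
      by_cases hold : ∃ i ≤ m, s = f i
      · exfalso
        obtain ⟨i, him, rfl⟩ := hold
        have h1 : i ≠ m := by rintro rfl; exact hs.ne rfl
        have h2 : i ≠ m - 1 := by
          intro h; exact hsm (by omega) (by rw [h])
        rcases Nat.eq_zero_or_pos i with rfl | hi0
        · exact hcl (close_of_FP p f m (by omega) (by omega) hf hfp hs)
        · have h3 : ({f (i - 1), f (i + 1), f m} : Set V) ⊆ G.neighborSet (f i) := by
            rintro x (rfl | rfl | rfl)
            · have := (hf.1 (i - 1) (by omega)).symm
              rwa [show i - 1 + 1 = i by omega] at this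
            · exact hf.1 i (by omega)
            · exact hs.symm
          have h4 := Set.ncard_le_ncard h3 (Set.toFinite _)
          rw [hG, Set.ncard_insert_of_notMem, Set.ncard_pair] at h4
          · omega
          · intro h; have := hf.2 _ _ (by omega) (by omega) h; omega
          · rintro (h | h)
            · have := hf.2 _ _ (by omega) (by omega) h; omega
            · have := hf.2 _ _ (by omega) (by omega) h; omega
      · push Not at hold
        refine ⟨fun j => if j ≤ m then f j else s, ⟨?_, ?_⟩, ?_⟩
        · intro i hi
          rcases Nat.lt_or_ge i m with h | h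
          · simp only [show i ≤ m by omega, show i + 1 ≤ m by omega, if_true]
            exact hf.1 i h
          · have : i = m := by omega
            subst this
            simp only [le_refl, if_true]
            rw [if_neg (by omega)]
            exact hs
        · intro i j hi hj h
          simp only at h
          split_ifs at h with h1 h2 h2
          · exact hf.2 i j h1 h2 h
          · exact absurd h.symm (hold i h1)
          · exact absurd h (hold j h2)
          · omega
        · intro i hi
          simp only [show i ≤ m by omega, if_true]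
          exact hfp i hi
  obtain ⟨f, hf, -⟩ := key (Nat.card V)
  have hinj : Function.Injective (fun i : Fin (Nat.card V + 1) => f i.1) := by
    intro i j h
    exact Fin.ext (hf.2 _ _ (by have := i.2; omega) (by have := j.2; omega) h)
  have := Nat.card_le_card_of_injective _ hinj
  rw [Nat.card_fin] at this
  omega

theorem no_close [Finite V] {d : ℕ} (hd : d ≤ 1) {G : SimpleGraph V} (hG : Reg G d) {u v : V}
    (p : G.Walk u v) : ¬ Closes p := by
  rintro ⟨w, c, hc, -⟩
  have h2 := hc.ncard_neighborSet_toSubgraph_eq_two c.start_mem_support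
  have h3 : c.toSubgraph.neighborSet w ⊆ G.neighborSet w := fun x hx => c.toSubgraph.adj_sub hx
  have h4 := Set.ncard_le_ncard h3 (Set.toFinite _)
  rw [hG w] at h4
  omega

theorem case0 : S 0 0 = {l | 1 ≤ l} := by
  ext l
  simp only [Set.mem_ofPred_eq]
  constructor
  · intro h
    by_contra hl
    have hl0 : l = 0 := by omega
    subst hl0
    have hreg : Reg (⊥ : SimpleGraph Unit) 0 := by
      intro v
      have : (⊥ : SimpleGraph Unit).neighborSet v = ∅ := by ext; simp
      rw [this, Set.ncard_empty]
    exact no_close (by omega) hreg _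
      (h Unit ⊥ hreg (Or.inl rfl) () () Walk.nil Walk.IsPath.nil rfl)
  · intro hl V hV G hG _ u v p hp hlen
    exfalso
    have h1 := p.adj_getVert_succ (i := 0) (by omega)
    have h2 := hG (p.getVert 0)
    rw [Set.ncard_eq_zero (Set.toFinite _)] at h2
    have : p.getVert (0 + 1) ∈ G.neighborSet (p.getVert 0) := h1
    rw [h2] at this
    exact this

theorem case1 {k : ℕ} (hk : k ≤ 1) : S 1 k = {l | 2 ≤ l} := by
  ext l
  simp only [Set.mem_ofPred_eq]
  have hreg : Reg (⊤ : SimpleGraph (Fin 2)) 1 := by
    intro v
    have := top_deg v
    omega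
  have hcon : KConn (⊤ : SimpleGraph (Fin 2)) k := by
    rcases Nat.eq_zero_or_pos k with h | h
    · exact Or.inl h
    · right
      refine ⟨by simp; omega, fun R hR => ?_⟩
      have hR0 : R = ∅ := by
        rw [← Set.ncard_eq_zero (Set.toFinite _)]
        omega
      subst hR0
      rw [conn_iff]
      refine ⟨⟨0, by simp⟩, fun a b ha hb => ?_⟩
      by_cases hab : a = b
      · rw [hab]
      · exact Relation.ReflTransGen.single ⟨hab, ha, hb⟩
  constructor
  · intro h
    by_contra hl
    rcases (show l = 0 ∨ l = 1 by omega) with rfl | rfl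
    · exact no_close (by omega) hreg _
        (h (Fin 2) ⊤ hreg hcon 0 0 Walk.nil Walk.IsPath.nil rfl)
    · have hadj : (⊤ : SimpleGraph (Fin 2)).Adj 0 1 := by simp
      exact no_close (by omega) hreg _
        (h (Fin 2) ⊤ hreg hcon 0 1 (Walk.cons hadj Walk.nil) (by simp) rfl)
  · intro hl V hV G hG _ u v p hp hlen
    exfalso
    have h0 := p.adj_getVert_succ (i := 0) (by omega)
    have h1 := p.adj_getVert_succ (i := 1) (by omega)
    have h2 := hG (p.getVert 1)
    have h3 : ({p.getVert 0, p.getVert 2} : Set V) ⊆ G.neighborSet (p.getVert 1) := by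
      rintro x (rfl | rfl)
      · exact h0.symm
      · exact h1
    have h4 := Set.ncard_le_ncard h3 (Set.toFinite _)
    rw [h2, Set.ncard_pair] at h4
    · omega
    · intro h
      have := hp.getVert_injOn (show 0 ≤ p.length by omega) (show 2 ≤ p.length by omega) h
      omega

theorem kconn_le1 {G : SimpleGraph V} {k : ℕ} (hk : k ≤ 1) (h : KConn G 1) : KConn G k := by
  rcases Nat.eq_zero_or_pos k with h0 | h0
  · exact Or.inl h0
  · rw [show k = 1 by omega]; exact h

theorem case_odd {d k : ℕ} (hd : 3 ≤ d) (hk : k ≤ 1) (hdo : d % 2 = 1) : S d k = ∅ := by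
  ext l
  simp only [Set.mem_empty_iff_false, iff_false]
  rcases Nat.eq_zero_or_pos l with rfl | hl
  · intro h
    exact base_odd0 hd (h _ _ (II_reg (k := 1) (by omega) (by omega) hdo)
      (kconn_le1 hk (II_conn (k := 1) (by omega) (by omega) (by omega) hdo)) _ _ Walk.nil
      Walk.IsPath.nil rfl)
  · refine not_mem (l0 := 1) (by omega) (by omega) (le_refl _) ?_ hl
    exact ⟨_, inferInstance, _, II_reg (k := 1) (by omega) (by omega) hdo,
      (kconn_le1 hk (II_conn (k := 1) (by omega) (by omega) (by omega) hdo)), base_odd1 hd⟩

theorem case_even {d k : ℕ} (hd : 3 ≤ d) (hk : k ≤ 1) (hde : d % 2 = 0) :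
    S d k = {l | l ≤ 1} := by
  ext l
  simp only [Set.mem_ofPred_eq]
  constructor
  · intro h
    by_contra hl
    refine not_mem (l0 := 2) (by omega) (by omega) (by omega) ?_ (by omega) h
    obtain ⟨V, hV, G, h1, h2, h3⟩ := base_all (d := d) (k := 1) (by omega) (by omega) hd
      (by omega) (fun _ => hde)
    exact ⟨V, hV, G, h1, kconn_le1 hk h2, h3⟩
  · intro hl
    rcases (show l = 0 ∨ l = 1 by omega) with rfl | rfl
    · exact low_ext (by omega) (by omega) (low_even (by omega) hde)
    · exact low_even (by omega) hde

/-- Determination of `S(d,k)` for all `d ≥ k ≥ 0`. -/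
theorem main (d k : ℕ) (hkd : k ≤ d) : S d k =
    if d = 0 then {l | 1 ≤ l}
    else if d = 1 then {l | 2 ≤ l}
    else if d = 2 then Set.univ
    else if k ≤ 1 then (if Even d then {l | l ≤ 1} else ∅)
    else if d = 3 ∧ k = 3 then {l | l ≤ 4}
    else {l | l ≤ k} := by
  split_ifs with h0 h1 h2 hk he h33
  · subst h0
    have : k = 0 := by omega
    subst this
    exact case0
  · subst h1
    exact case1 hkd
  · subst h2
    exact Set.eq_univ_of_forall (fun l => low_two)
  · exact case_even (by omega) hk (Nat.even_iff.1 he)
  · exact case_odd (by omega) hk (Nat.odd_iff.1 (Nat.not_even_iff_odd.1 he))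
  · obtain ⟨rfl, rfl⟩ := h33
    ext l
    simp only [Set.mem_ofPred_eq]
    constructor
    · intro h
      by_contra hl
      refine not_mem (l0 := 5) (by omega) (by omega) (by omega) ?_ (by omega) h
      exact ⟨_, inferInstance, prism, prism_reg, prism_conn, prism_cert⟩
    · intro hl
      have a2 : 2 ∈ S 3 3 := low1 (by omega) (by omega)
      have a1 : 1 ∈ S 3 3 := low_ext (by omega) (by omega) a2
      rcases (show l = 0 ∨ l = 1 ∨ l = 2 ∨ l = 3 ∨ l = 4 by omega) with
        rfl | rfl | rfl | rfl | rfl
      · exact low_ext (by omega) (by omega) a1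
      · exact a1
      · exact a2
      · exact low1 (by omega) (by omega)
      · exact low33
  · ext l
    simp only [Set.mem_ofPred_eq]
    constructor
    · intro h
      by_contra hl
      exact not_mem (l0 := k + 1) (by omega) (by omega) (by omega)
        (base_all (by omega) hkd (by omega) h33 (fun h => by omega)) (by omega) h
    · intro hl
      have a2 : 2 ∈ S d k := low1 (by omega) (by omega)
      have a1 : 1 ∈ S d k := low_ext (by omega) (by omega) a2
      rcases Nat.lt_or_ge l 2 with h | h
      · rcases (show l = 0 ∨ l = 1 by omega) with rfl | rfl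
        · exact low_ext (by omega) (by omega) a1
        · exact a1
      · exact low1 h hl

end PCyc
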