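import Mathlib

set_option linter.unusedVariables false

/-!
Random subsets of finite sets of integers: the weight of a subset, the probability that a given
set is contained in the random set, and the second moment method.
-/

namespace Pool.Agent.X78.RandSet

open Finset Filter Topology

/-- The probability that the `p`-random subset of `U` equals `A` (for `A ⊆ U`). -/
noncomputable def wt (p : ℝ) (U A : Finset ℕ) : ℝ := p ^ (#A) * (1 - p) ^ (#U - #A)

theorem wt_nonneg {p : ℝ} (h0 : 0 ≤ p) (h1 : p ≤ 1) (U A : Finset ℕ) : 0 ≤ wt p U A :=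
  mul_nonneg (pow_nonneg h0 _) (pow_nonneg (by linarith) _)

theorem sum_wt (p : ℝ) (U : Finset ℕ) : ∑ A ∈ U.powerset, wt p U A = 1 := by
  unfold wt
  rw [Finset.sum_pow_mul_eq_add_pow]
  simp

/-- Probability of a property `Q` of the `p`-random subset of `U`. -/
noncomputable def pr (p : ℝ) (U : Finset ℕ) (Q : Finset ℕ → Prop) : ℝ :=
  open Classical in ∑ A ∈ U.powerset with Q A, wt p U A

theorem pr_le_one {p : ℝ} (h0 : 0 ≤ p) (h1 : p ≤ 1) (U : Finset ℕ) (Q : Finset ℕ → Prop) :
    pr p U Q ≤ 1 := by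
  classical
  rw [← sum_wt p U]
  unfold pr
  exact Finset.sum_le_sum_of_subset_of_nonneg (Finset.filter_subset _ _)
    (fun A _ _ => wt_nonneg h0 h1 U A)

theorem pr_nonneg {p : ℝ} (h0 : 0 ≤ p) (h1 : p ≤ 1) (U : Finset ℕ) (Q : Finset ℕ → Prop) :
    0 ≤ pr p U Q :=
  Finset.sum_nonneg (fun A _ => wt_nonneg h0 h1 U A)

theorem pr_mono {p : ℝ} (h0 : 0 ≤ p) (h1 : p ≤ 1) (U : Finset ℕ) {Q R : Finset ℕ → Prop}
    (h : ∀ A, A ⊆ U → Q A → R A) : pr p U Q ≤ pr p U R := by
  classical
  unfold pr
  apply Finset.sum_le_sum_of_subset_of_nonneg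
  · intro A hA
    rw [Finset.mem_filter, Finset.mem_powerset] at hA ⊢
    exact ⟨hA.1, h A hA.1 hA.2⟩
  · exact (fun A _ _ => wt_nonneg h0 h1 U A)

theorem sum_wt_superset (p : ℝ) {U F : Finset ℕ} (hF : F ⊆ U) :
    ∑ A ∈ U.powerset with F ⊆ A, wt p U A = p ^ (#F) := by
  classical
  have h1 : U.powerset.filter (fun A => F ⊆ A) = (U \ F).powerset.image (F ∪ ·) := by
    rw [← Finset.Icc_eq_image_powerset hF]
    ext A
    simp only [Finset.mem_filter, Finset.mem_powerset, Finset.mem_Icc]
    tauto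
  rw [h1, Finset.sum_image]
  · have h2 : ∀ B ∈ (U \ F).powerset, wt p U (F ∪ B)
        = p ^ (#F) * (p ^ (#B) * (1 - p) ^ (#(U \ F) - #B)) := by
      intro B hB
      rw [Finset.mem_powerset] at hB
      have hd : Disjoint F B := by
        rw [Finset.disjoint_left]
        intro x hx hxB
        exact (Finset.mem_sdiff.1 (hB hxB)).2 hx
      unfold wt
      rw [Finset.card_union_of_disjoint hd, Finset.card_sdiff_of_subset hF, pow_add, mul_assoc]
      congr 3
      omega
    rw [Finset.sum_congr rfl h2, ← Finset.mul_sum, Finset.sum_pow_mul_eq_add_pow]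
    simp
  · intro B hB C hC hBC
    simp only [Finset.coe_powerset, Set.mem_preimage, Set.mem_powerset_iff,
      Finset.coe_subset] at hB hC
    have hdB : Disjoint F B := by
      rw [Finset.disjoint_left]
      intro x hx hxB
      exact (Finset.mem_sdiff.1 (hB hxB)).2 hx
    have hdC : Disjoint F C := by
      rw [Finset.disjoint_left]
      intro x hx hxB
      exact (Finset.mem_sdiff.1 (hC hxB)).2 hx
    have hB' : B = (F ∪ B) \ F := by
      rw [Finset.union_sdiff_left, Finset.sdiff_eq_self_of_disjoint hdB.symm]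
    have hC' : C = (F ∪ C) \ F := by
      rw [Finset.union_sdiff_left, Finset.sdiff_eq_self_of_disjoint hdC.symm]
    rw [hB', hC']
    simp only at hBC
    rw [hBC]

/-- The second moment method: the probability that the random set contains one of the sets
`F i`. -/
theorem second_moment {ι : Type*} (I : Finset ι) (F : ι → Finset ℕ) {U : Finset ℕ}
    (hF : ∀ i ∈ I, F i ⊆ U) {p : ℝ} (h0 : 0 ≤ p) (h1 : p ≤ 1) :
    (∑ i ∈ I, p ^ (#(F i))) ^ 2 ≤
      pr p U (fun A => ∃ i ∈ I, F i ⊆ A) * ∑ i ∈ I, ∑ j ∈ I, p ^ (#(F i ∪ F j)) := by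
  classical
  set X : Finset ℕ → ℝ := fun A => ∑ i ∈ I, if F i ⊆ A then (1 : ℝ) else 0 with hX
  have hE1 : ∑ i ∈ I, p ^ (#(F i)) = ∑ A ∈ U.powerset, wt p U A * X A := by
    simp only [hX, Finset.mul_sum]
    rw [Finset.sum_comm]
    apply Finset.sum_congr rfl
    intro i hi
    rw [← sum_wt_superset p (hF i hi), Finset.sum_filter]
    apply Finset.sum_congr rfl
    intro A _
    split_ifs <;> simp
  have hE2 : ∑ i ∈ I, ∑ j ∈ I, p ^ (#(F i ∪ F j)) = ∑ A ∈ U.powerset, wt p U A * X A ^ 2 := by
    have : ∀ A, X A ^ 2 = ∑ i ∈ I, ∑ j ∈ I, if F i ∪ F j ⊆ A then (1 : ℝ) else 0 := by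
      intro A
      simp only [hX, sq, Finset.sum_mul_sum]
      apply Finset.sum_congr rfl
      intro i _
      apply Finset.sum_congr rfl
      intro j _
      by_cases h : F i ⊆ A <;> by_cases h' : F j ⊆ A <;> simp [h, h', Finset.union_subset_iff]
    simp only [this, Finset.mul_sum]
    symm
    rw [Finset.sum_comm]
    apply Finset.sum_congr rfl
    intro i hi
    rw [Finset.sum_comm]
    apply Finset.sum_congr rfl
    intro j hj
    rw [← sum_wt_superset p (Finset.union_subset (hF i hi) (hF j hj)), Finset.sum_filter]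
    apply Finset.sum_congr rfl
    intro A _
    split_ifs <;> simp
  have hP : pr p U (fun A => ∃ i ∈ I, F i ⊆ A)
      = ∑ A ∈ U.powerset, wt p U A * (if ∃ i ∈ I, F i ⊆ A then (1 : ℝ) else 0) := by
    unfold pr
    rw [Finset.sum_filter]
    apply Finset.sum_congr rfl
    intro A _
    split_ifs <;> simp
  rw [hE1, hE2, hP]
  apply Finset.sum_sq_le_sum_mul_sum_of_sq_le_mul
  · intro A _
    exact mul_nonneg (wt_nonneg h0 h1 _ _) (by split_ifs <;> norm_num)
  · intro A _
    exact mul_nonneg (wt_nonneg h0 h1 _ _) (sq_nonneg _)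
  · intro A _
    apply le_of_eq
    by_cases h : ∃ i ∈ I, F i ⊆ A
    · rw [if_pos h]; ring
    · rw [if_neg h]
      have : X A = 0 := by
        apply Finset.sum_eq_zero
        intro i hi
        rw [if_neg]
        intro hc
        exact h ⟨i, hi, hc⟩
      rw [this]; ring

end Pool.Agent.X78.RandSet
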