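import Mathlib
import Pool.Agent.X78.RandSet

set_option linter.unusedVariables false

/-!
Copies of a multiplicative configuration inside a random set of integers: if `S` is a finite set
of exponent vectors and the generators range over disjoint sets of primes, the second moment
method bounds the probability that the random set contains a copy of the configuration.
-/

namespace Pool.Agent.X78.ProdSchur

open Finset Filter Topology Pool.Agent.X78.RandSet

variable {k : ℕ}

/-- The monomial with exponent vector `m` evaluated at `x`. -/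
def mono (x m : Fin k → ℕ) : ℕ := ∏ g, x g ^ m g

/-- The copy of the configuration `S` with generators `x`. -/
def copy (S : Finset (Fin k → ℕ)) (x : Fin k → ℕ) : Finset ℕ := S.image (mono x)

/-- The exponent vectors of `S` supported on `V`. -/
def sub (S : Finset (Fin k → ℕ)) (V : Finset (Fin k)) : Finset (Fin k → ℕ) :=
  S.filter (fun m => ∀ i, m i ≠ 0 → i ∈ V)

theorem prime_dvd_mono {x m : Fin k → ℕ} (hx : ∀ g, (x g).Prime) {q : ℕ} (hq : q.Prime)
    (h : q ∣ mono x m) : ∃ g, m g ≠ 0 ∧ q = x g := by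
  unfold mono at h
  obtain ⟨g, -, hg⟩ := (Prime.dvd_finsetProd_iff hq.prime _).1 h
  refine ⟨g, ?_, ?_⟩
  · intro h0
    rw [h0, pow_zero, Nat.dvd_one] at hg
    exact hq.one_lt.ne' hg
  · exact (Nat.prime_dvd_prime_iff_eq hq (hx g)).1 (hq.dvd_of_dvd_pow hg)

theorem mono_factorization {x m : Fin k → ℕ} (hx : ∀ g, (x g).Prime)
    (hinj : Function.Injective x) (g : Fin k) : (mono x m).factorization (x g) = m g := by
  unfold mono
  rw [Nat.factorization_prod (fun i _ => pow_ne_zero _ (hx i).ne_zero), Finsupp.finsetSum_apply]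
  rw [Finset.sum_eq_single g]
  · rw [(hx g).factorization_pow]
    simp
  · intro i _ hi
    rw [(hx i).factorization_pow]
    rw [Finsupp.single_apply, if_neg]
    intro h
    exact hi (hinj h)
  · intro h
    exact absurd (Finset.mem_univ g) h

theorem mono_injective {x : Fin k → ℕ} (hx : ∀ g, (x g).Prime)
    (hinj : Function.Injective x) : Function.Injective (mono x) := by
  intro m m' h
  funext g
  rw [← mono_factorization hx hinj g (m := m), ← mono_factorization hx hinj g (m := m'), h]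

theorem card_copy (S : Finset (Fin k → ℕ)) {x : Fin k → ℕ} (hx : ∀ g, (x g).Prime)
    (hinj : Function.Injective x) : #(copy S x) = #S :=
  Finset.card_image_of_injective _ (mono_injective hx hinj)

section

variable {P : Fin k → Finset ℕ} (hP : ∀ g, ∀ q ∈ P g, q.Prime)
  (hD : ∀ g h, g ≠ h → Disjoint (P g) (P h))

include hP hD

omit hP in
theorem inj_of_mem {x : Fin k → ℕ} (hx : x ∈ Fintype.piFinset P) : Function.Injective x := by
  intro g h hgh
  by_contra hne
  have h1 := (Fintype.mem_piFinset.1 hx) g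
  have h2 := (Fintype.mem_piFinset.1 hx) h
  rw [hgh] at h1
  exact (Finset.disjoint_left.1 (hD g h hne)) h1 h2

theorem card_inter (S : Finset (Fin k → ℕ)) {x y : Fin k → ℕ} (hx : x ∈ Fintype.piFinset P)
    (hy : y ∈ Fintype.piFinset P) :
    #(copy S x ∩ copy S y) ≤ #(sub S (Finset.univ.filter (fun g => x g = y g))) := by
  classical
  have hxp : ∀ g, (x g).Prime := fun g => hP g _ (Fintype.mem_piFinset.1 hx g)
  have hyp : ∀ g, (y g).Prime := fun g => hP g _ (Fintype.mem_piFinset.1 hy g)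
  have hsub : copy S x ∩ copy S y ⊆
      (sub S (Finset.univ.filter (fun g => x g = y g))).image (mono x) := by
    intro z hz
    rw [Finset.mem_inter] at hz
    obtain ⟨h1, h2⟩ := hz
    obtain ⟨m, hm, rfl⟩ := Finset.mem_image.1 h1
    obtain ⟨m', hm', he⟩ := Finset.mem_image.1 h2
    refine Finset.mem_image.2 ⟨m, ?_, rfl⟩
    unfold sub
    rw [Finset.mem_filter]
    refine ⟨hm, ?_⟩
    intro g hg
    rw [Finset.mem_filter]
    refine ⟨Finset.mem_univ _, ?_⟩
    have hdvd : x g ∣ mono x m := by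
      unfold mono
      exact dvd_trans (dvd_pow_self _ hg) (Finset.dvd_prod_of_mem _ (Finset.mem_univ g))
    rw [← he] at hdvd
    obtain ⟨g', -, hg'⟩ := prime_dvd_mono hyp (hxp g) hdvd
    by_cases hgg : g = g'
    · rw [hgg] at hg' ⊢; exact hg'
    · exfalso
      have h1 := (Fintype.mem_piFinset.1 hx) g
      have h2 := (Fintype.mem_piFinset.1 hy) g'
      rw [hg'] at h1
      exact (Finset.disjoint_left.1 (hD g g' hgg)) h1 h2
  calc #(copy S x ∩ copy S y) ≤ _ := Finset.card_le_card hsub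
    _ ≤ _ := Finset.card_image_le

theorem pr_lower (S : Finset (Fin k → ℕ)) {U : Finset ℕ}
    (hU : ∀ x ∈ Fintype.piFinset P, copy S x ⊆ U) (hne : ∀ g, (P g).Nonempty)
    {p : ℝ} (h0 : 0 < p) (h1 : p ≤ 1) :
    1 ≤ pr p U (fun A => ∃ x ∈ Fintype.piFinset P, copy S x ⊆ A) *
      ∑ V : Finset (Fin k), ((∏ g ∈ V, (#(P g) : ℝ)) * p ^ (#(sub S V)))⁻¹ := by
  classical
  set I := Fintype.piFinset P with hI
  set s := #S with hs
  have hNpos : ∀ g, (0 : ℝ) < #(P g) := fun g => by
    exact_mod_cast Finset.card_pos.2 (hne g)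
  have hcard : ∀ x ∈ I, #(copy S x) = s := by
    intro x hx
    exact card_copy S (fun g => hP g _ (Fintype.mem_piFinset.1 hx g)) (inj_of_mem hD hx)
  have hIcard : (#I : ℝ) = ∏ g, (#(P g) : ℝ) := by
    rw [hI, Fintype.card_piFinset]; push_cast; rfl
  have hIpos : (0 : ℝ) < #I := by
    rw [hIcard]; exact Finset.prod_pos (fun g _ => hNpos g)
  have hSM := second_moment I (copy S) hU h0.le h1
  have hL : ∑ i ∈ I, p ^ (#(copy S i)) = #I * p ^ s := by
    rw [Finset.sum_congr rfl (fun i hi => by rw [hcard i hi]), Finset.sum_const, nsmul_eq_mul]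
  rw [hL] at hSM
  have hsubs : ∀ V, #(sub S V) ≤ s := fun V => Finset.card_filter_le _ _
  -- bound on each pair
  have hpair : ∀ x ∈ I, ∀ y ∈ I, p ^ (#(copy S x ∪ copy S y)) ≤
      ∑ V : Finset (Fin k), if (∀ g ∈ V, y g = x g) then p ^ (2 * s - #(sub S V)) else 0 := by
    intro x hx y hy
    have hc := card_inter hP hD S hx hy
    have hu := Finset.card_union_add_card_inter (copy S x) (copy S y)
    rw [hcard x hx, hcard y hy] at hu
    set V0 := Finset.univ.filter (fun g => x g = y g) with hV0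
    have h2 : p ^ (#(copy S x ∪ copy S y)) ≤ p ^ (2 * s - #(sub S V0)) := by
      apply pow_le_pow_of_le_one h0.le h1
      omega
    refine h2.trans ?_
    have h3 : p ^ (2 * s - #(sub S V0)) =
        (fun V : Finset (Fin k) => if (∀ g ∈ V, y g = x g) then p ^ (2 * s - #(sub S V)) else 0) V0 := by
      simp only
      rw [if_pos]
      intro g hg
      rw [hV0, Finset.mem_filter] at hg
      exact hg.2.symm
    rw [h3]
    apply Finset.single_le_sum (f := (fun V : Finset (Fin k) =>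
      if (∀ g ∈ V, y g = x g) then p ^ (2 * s - #(sub S V)) else 0))
    · intro V _
      split_ifs
      · exact pow_nonneg h0.le _
      · exact le_rfl
    · exact Finset.mem_univ _
  -- counting
  have hcount : ∀ V : Finset (Fin k), ∀ x ∈ I,
      (#(I.filter (fun y => ∀ g ∈ V, y g = x g)) : ℝ) * ∏ g ∈ V, (#(P g) : ℝ) = #I := by
    intro V x hx
    have h1 : I.filter (fun y => ∀ g ∈ V, y g = x g)
        = Fintype.piFinset (fun g => if g ∈ V then {x g} else P g) := by
      ext y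
      rw [Finset.mem_filter, Fintype.mem_piFinset, Fintype.mem_piFinset]
      constructor
      · rintro ⟨ha, hb⟩ g
        by_cases hg : g ∈ V
        · rw [if_pos hg, Finset.mem_singleton]; exact hb g hg
        · rw [if_neg hg]; exact ha g
      · intro h
        constructor
        · intro g
          have := h g
          by_cases hg : g ∈ V
          · rw [if_pos hg, Finset.mem_singleton] at this
            rw [this]; exact Fintype.mem_piFinset.1 hx g
          · rw [if_neg hg] at this; exact this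
        · intro g hg
          have := h g
          rw [if_pos hg, Finset.mem_singleton] at this
          exact this
    rw [h1, Fintype.card_piFinset, hIcard]
    push_cast
    rw [← Finset.prod_filter_mul_prod_filter_not Finset.univ (fun g => g ∈ V)
      (fun g => (#(P g) : ℝ))]
    rw [← Finset.prod_filter_mul_prod_filter_not Finset.univ (fun g => g ∈ V)
      (fun g => (#(if g ∈ V then {x g} else P g) : ℝ))]
    have e1 : ∏ g ∈ Finset.univ.filter (fun g => g ∈ V), (#(if g ∈ V then {x g} else P g) : ℝ)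
        = 1 := by
      apply Finset.prod_eq_one
      intro g hg
      rw [Finset.mem_filter] at hg
      rw [if_pos hg.2]; simp
    have e2 : ∏ g ∈ Finset.univ.filter (fun g => ¬ g ∈ V), (#(if g ∈ V then {x g} else P g) : ℝ)
        = ∏ g ∈ Finset.univ.filter (fun g => ¬ g ∈ V), (#(P g) : ℝ) := by
      apply Finset.prod_congr rfl
      intro g hg
      rw [Finset.mem_filter] at hg
      rw [if_neg hg.2]
    have e3 : Finset.univ.filter (fun g => g ∈ V) = V := by ext g; simp
    rw [e1, e2, e3]; ring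
  have hVpos : ∀ V : Finset (Fin k), (0 : ℝ) < ∏ g ∈ V, (#(P g) : ℝ) :=
    fun V => Finset.prod_pos (fun g _ => hNpos g)
  have hE2 : ∑ i ∈ I, ∑ j ∈ I, p ^ (#(copy S i ∪ copy S j)) ≤
      (#I * p ^ s) ^ 2 * ∑ V : Finset (Fin k),
        ((∏ g ∈ V, (#(P g) : ℝ)) * p ^ (#(sub S V)))⁻¹ := by
    calc ∑ i ∈ I, ∑ j ∈ I, p ^ (#(copy S i ∪ copy S j))
        ≤ ∑ i ∈ I, ∑ j ∈ I, ∑ V : Finset (Fin k),
            (if (∀ g ∈ V, j g = i g) then p ^ (2 * s - #(sub S V)) else 0) :=
          Finset.sum_le_sum (fun i hi => Finset.sum_le_sum (fun j hj => hpair i hi j hj))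
      _ = ∑ i ∈ I, ∑ V : Finset (Fin k), ∑ j ∈ I,
            (if (∀ g ∈ V, j g = i g) then p ^ (2 * s - #(sub S V)) else 0) := by
          apply Finset.sum_congr rfl
          intro i _
          rw [Finset.sum_comm]
      _ = ∑ i ∈ I, ∑ V : Finset (Fin k),
            (#I * p ^ (2 * s)) * ((∏ g ∈ V, (#(P g) : ℝ)) * p ^ (#(sub S V)))⁻¹ := by
          apply Finset.sum_congr rfl
          intro i hi
          apply Finset.sum_congr rfl
          intro V _
          rw [← Finset.sum_filter, Finset.sum_const, nsmul_eq_mul]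
          have hc := hcount V i hi
          have hpp : p ^ (2 * s - #(sub S V)) = p ^ (2 * s) * (p ^ (#(sub S V)))⁻¹ := by
            rw [eq_mul_inv_iff_mul_eq₀ (pow_ne_zero _ h0.ne'), ← pow_add]
            congr 1
            have := hsubs V
            omega
          rw [hpp, ← hc]
          have := (hVpos V).ne'
          have := (pow_pos h0 (#(sub S V))).ne'
          field_simp
      _ = (#I * p ^ s) ^ 2 * ∑ V : Finset (Fin k),
            ((∏ g ∈ V, (#(P g) : ℝ)) * p ^ (#(sub S V)))⁻¹ := by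
          rw [Finset.sum_const, nsmul_eq_mul, ← Finset.mul_sum]
          ring
  have hq : (0 : ℝ) < (#I * p ^ s) ^ 2 := by positivity
  have hpr := pr_nonneg h0.le h1 U (fun A => ∃ x ∈ I, copy S x ⊆ A)
  have h5 := hSM.trans (mul_le_mul_of_nonneg_left hE2 hpr)
  have h6 : ((#I * p ^ s) ^ 2 : ℝ) * 1 ≤ (#I * p ^ s) ^ 2 *
      (pr p U (fun A => ∃ x ∈ I, copy S x ⊆ A) * ∑ V : Finset (Fin k),
        ((∏ g ∈ V, (#(P g) : ℝ)) * p ^ (#(sub S V)))⁻¹) := by
    calc ((#I * p ^ s) ^ 2 : ℝ) * 1 = (#I * p ^ s) ^ 2 := mul_one _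
      _ ≤ _ := h5
      _ = _ := by ring
  exact le_of_mul_le_mul_left h6 hq

end


/-- Chebyshev's lower bound in a weak form. -/
theorem pi_growth {δ : ℝ} (hδ : 0 < δ) {K : ℝ} (hK : 0 < K) :
    ∀ᶠ x : ℝ in atTop, K * x ^ (1 - δ) ≤ (Nat.primeCounting ⌊x⌋₊ : ℝ) := by
  have e1 : ∀ᶠ y : ℝ in atTop, Real.log y ≤ (1 / 16) * y := by
    have := Real.isLittleO_log_id_atTop.bound (show (0 : ℝ) < 1 / 16 by norm_num)
    filter_upwards [this, eventually_ge_atTop 1] with y hy hy1
    have h1 : Real.log y ≤ ‖Real.log y‖ := le_abs_self _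
    have h2 : ‖id y‖ = y := by
      rw [id, Real.norm_eq_abs, abs_of_nonneg (by linarith)]
    rw [h2] at hy
    linarith
  have e2 : ∀ᶠ x : ℝ in atTop, Real.log (x + 2) ≤ (1 / 16) * (x + 2) :=
    (tendsto_atTop_add_const_right atTop 2 tendsto_id).eventually e1
  have e3 : ∀ᶠ x : ℝ in atTop, Real.log x ≤ (1 / (4 * K)) * x ^ δ := by
    have := (isLittleO_log_rpow_atTop hδ).bound (show (0 : ℝ) < 1 / (4 * K) by positivity)
    filter_upwards [this, eventually_ge_atTop 1] with y hy hy1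
    have h1 : Real.log y ≤ ‖Real.log y‖ := le_abs_self _
    have h2 : ‖y ^ δ‖ = y ^ δ := by
      rw [Real.norm_eq_abs, abs_of_nonneg (Real.rpow_nonneg (by linarith) _)]
    rw [h2] at hy
    linarith
  filter_upwards [e2, e3, eventually_ge_atTop 4] with x h2 h3 h4
  have hlog : 0 < Real.log x := Real.log_pos (by linarith)
  have hx0 : (0 : ℝ) < x := by linarith
  refine le_trans ?_ (Chebyshev.pi_ge' (by linarith : 1 < x))
  rw [le_div_iff₀ hlog]
  have hl2 : (1 / 2 : ℝ) ≤ Real.log 2 := by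
    have := Real.log_two_gt_d9
    linarith
  have h5 : x / 4 ≤ (x - 1) * Real.log 2 - Real.log (x + 2) := by nlinarith
  have h6 : K * x ^ (1 - δ) * Real.log x ≤ x / 4 := by
    have hp : 0 < x ^ (1 - δ) := Real.rpow_pos_of_pos hx0 _
    calc K * x ^ (1 - δ) * Real.log x ≤ K * x ^ (1 - δ) * ((1 / (4 * K)) * x ^ δ) :=
          mul_le_mul_of_nonneg_left h3 (by positivity)
      _ = (x ^ (1 - δ) * x ^ δ) / 4 := by field_simp
      _ = x / 4 := by
          rw [← Real.rpow_add hx0]; simp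
  linarith


/-- Disjoint sets of primes below `n ^ β i`. -/
noncomputable def primeSet (β : Fin k → ℝ) (n : ℕ) (i : Fin k) : Finset ℕ :=
  (Finset.range (Nat.primeCounting ⌊(n : ℝ) ^ (β i)⌋₊ / k)).image
    (fun t => Nat.nth Nat.Prime (k * t + i))

theorem primeSet_prime (β : Fin k → ℝ) (n : ℕ) (i : Fin k) : ∀ q ∈ primeSet β n i, q.Prime := by
  intro q hq
  obtain ⟨t, -, rfl⟩ := Finset.mem_image.1 hq
  exact Nat.prime_nth_prime _

theorem primeSet_disjoint (β : Fin k → ℝ) (n : ℕ) (i j : Fin k) (hij : i ≠ j) :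
    Disjoint (primeSet β n i) (primeSet β n j) := by
  rw [Finset.disjoint_left]
  intro q hq hq'
  obtain ⟨t, -, rfl⟩ := Finset.mem_image.1 hq
  obtain ⟨t', -, ht'⟩ := Finset.mem_image.1 hq'
  have h := Nat.nth_injective Nat.infinite_setOfPred_prime ht'
  have hmod := congrArg (· % k) h
  simp only [Nat.mul_add_mod] at hmod
  rw [Nat.mod_eq_of_lt i.2, Nat.mod_eq_of_lt j.2] at hmod
  exact hij (Fin.ext hmod.symm)

theorem primeSet_card (β : Fin k → ℝ) (n : ℕ) (i : Fin k) :
    #(primeSet β n i) = Nat.primeCounting ⌊(n : ℝ) ^ (β i)⌋₊ / k := by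
  unfold primeSet
  rw [Finset.card_image_of_injective, Finset.card_range]
  intro t t' h
  have h2 := Nat.nth_injective Nat.infinite_setOfPred_prime h
  have hk : 0 < k := i.pos
  have : k * t = k * t' := by omega
  exact Nat.eq_of_mul_eq_mul_left hk this

theorem primeSet_le (β : Fin k → ℝ) (n : ℕ) (i : Fin k) :
    ∀ q ∈ primeSet β n i, (q : ℝ) ≤ (n : ℝ) ^ (β i) := by
  intro q hq
  obtain ⟨t, ht, rfl⟩ := Finset.mem_image.1 hq
  rw [Finset.mem_range] at ht
  set X := ⌊(n : ℝ) ^ (β i)⌋₊ with hX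
  have hk : 0 < k := i.pos
  have h1 : k * t + i < Nat.count Nat.Prime (X + 1) := by
    have h2 : k * (t + 1) ≤ Nat.primeCounting X := by
      calc k * (t + 1) ≤ k * (Nat.primeCounting X / k) := Nat.mul_le_mul_left _ ht
        _ ≤ Nat.primeCounting X := Nat.mul_div_le _ _
    have h3 : (i : ℕ) < k := i.2
    have h4 : Nat.primeCounting X = Nat.count Nat.Prime (X + 1) := rfl
    rw [← h4]
    calc k * t + i < k * t + k := by omega
      _ = k * (t + 1) := by ring
      _ ≤ _ := h2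
  have h5 := Nat.nth_lt_of_lt_count h1
  have h6 : Nat.nth Nat.Prime (k * t + i) ≤ X := by omega
  calc ((Nat.nth Nat.Prime (k * t + i) : ℕ) : ℝ) ≤ (X : ℝ) := by exact_mod_cast h6
    _ ≤ _ := Nat.floor_le (Real.rpow_nonneg (Nat.cast_nonneg n) _)

theorem primeSet_growth (β : Fin k → ℝ) (i : Fin k) (hβ : 0 < β i) {ε : ℝ} (hε : 0 < ε)
    (hεβ : ε ≤ β i) :
    ∀ᶠ n : ℕ in atTop, (n : ℝ) ^ (β i - ε) ≤ (#(primeSet β n i) : ℝ) := by
  have hk : 0 < k := i.pos
  have hk' : (0 : ℝ) < k := by exact_mod_cast hk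
  have h1 := pi_growth (div_pos hε hβ) (show (0 : ℝ) < 2 * k by positivity)
  have h2 : Tendsto (fun n : ℕ => (n : ℝ) ^ (β i)) atTop atTop :=
    (tendsto_rpow_atTop hβ).comp tendsto_natCast_atTop_atTop
  filter_upwards [h2.eventually h1, eventually_ge_atTop 1] with n hn hn1
  rw [primeSet_card]
  have hn1' : (1 : ℝ) ≤ n := by exact_mod_cast hn1
  have hnn : (0 : ℝ) ≤ n := by linarith
  have he : ((n : ℝ) ^ (β i)) ^ (1 - ε / β i) = (n : ℝ) ^ (β i - ε) := by
    rw [← Real.rpow_mul hnn]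
    congr 1
    field_simp
  rw [he] at hn
  have h3 : (1 : ℝ) ≤ (n : ℝ) ^ (β i - ε) := Real.one_le_rpow hn1' (by linarith)
  set N := Nat.primeCounting ⌊(n : ℝ) ^ (β i)⌋₊ with hN
  have h4 : (N : ℝ) < k * ((N / k : ℕ) : ℝ) + k := by
    have := Nat.lt_mul_div_succ N hk
    have h5 : (N : ℝ) < ((k * (N / k + 1) : ℕ) : ℝ) := by exact_mod_cast this
    push_cast at h5
    linarith
  have h6 : (2 : ℝ) * k * (n : ℝ) ^ (β i - ε) < k * ((N / k : ℕ) : ℝ) + k := lt_of_le_of_lt hn h4
  have h7 : (2 : ℝ) * (n : ℝ) ^ (β i - ε) < ((N / k : ℕ) : ℝ) + 1 := by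
    have h8 : (k : ℝ) * (2 * (n : ℝ) ^ (β i - ε)) < k * (((N / k : ℕ) : ℝ) + 1) := by linarith
    exact lt_of_mul_lt_mul_left h8 hk'.le
  linarith

/-- Product-Schur in the strong sense: in every 2-colouring there are distinct `a, b` with
`a, b, a * b` in the set and of the same colour. -/
def StrictProductSchur (A : Set ℕ) : Prop :=
  ∀ χ : ℕ → Bool, ∃ a ∈ A, ∃ b ∈ A, a ≠ b ∧ a * b ∈ A ∧ χ a = χ b ∧ χ b = χ (a * b)

theorem strict_of_copy {S : Finset (Fin k → ℕ)}
    (hcol : ∀ χ : (Fin k → ℕ) → Bool, ∃ x ∈ S, ∃ y ∈ S, x ≠ y ∧ x + y ∈ S ∧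
      χ x = χ y ∧ χ y = χ (x + y)) {x : Fin k → ℕ} (hx : ∀ g, (x g).Prime)
    (hinj : Function.Injective x) {A : Finset ℕ} (h : copy S x ⊆ A) :
    StrictProductSchur (A : Set ℕ) := by
  intro χ
  obtain ⟨m, hm, m', hm', hne, hadd, h1, h2⟩ := hcol (fun m => χ (mono x m))
  have hmul : mono x (m + m') = mono x m * mono x m' := by
    unfold mono
    rw [← Finset.prod_mul_distrib]
    apply Finset.prod_congr rfl
    intro g _
    rw [Pi.add_apply, pow_add]
  have hmem : ∀ v ∈ S, mono x v ∈ (A : Set ℕ) := fun v hv =>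
    Finset.mem_coe.2 (h (Finset.mem_image_of_mem _ hv))
  refine ⟨mono x m, hmem m hm, mono x m', hmem m' hm', ?_, ?_, h1, ?_⟩
  · exact fun he => hne (mono_injective hx hinj he)
  · rw [← hmul]; exact hmem _ hadd
  · rw [← hmul]; exact h2

theorem tendsto_one (S : Finset (Fin k → ℕ))
    (hcol : ∀ χ : (Fin k → ℕ) → Bool, ∃ x ∈ S, ∃ y ∈ S, x ≠ y ∧ x + y ∈ S ∧
      χ x = χ y ∧ χ y = χ (x + y))
    (β : Fin k → ℝ) (hβ : ∀ i, 0 < β i) {θ : ℝ} (hθ : 0 < θ)
    (hV : ∀ V : Finset (Fin k), V.Nonempty → (#(sub S V) : ℝ) * θ < ∑ i ∈ V, β i)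
    (h0 : sub S ∅ = ∅)
    (hm : ∀ m ∈ S, ∑ i, (m i : ℝ) * β i ≤ 1)
    (p : ℕ → ℝ) (hp : ∀ n, 0 ≤ p n ∧ p n ≤ 1)
    (hlow : ∀ᶠ n : ℕ in atTop, (n : ℝ) ^ (-θ) ≤ p n) :
    Tendsto (fun n : ℕ => pr (p n) (Finset.Icc 1 n) (fun A => StrictProductSchur (A : Set ℕ)))
      atTop (𝓝 1) := by
  classical
  -- choose the loss in the exponents
  have hε : ∀ᶠ ε : ℝ in 𝓝[>] 0, (∀ V : Finset (Fin k), V.Nonempty →
      (#(sub S V) : ℝ) * θ < ∑ i ∈ V, (β i - ε)) ∧ (∀ i, ε ≤ β i) ∧ 0 < ε := by
    refine Filter.Eventually.and ?_ (Filter.Eventually.and ?_ self_mem_nhdsWithin)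
    · rw [Filter.eventually_all]
      intro V
      by_cases hVn : V.Nonempty
      · have hc : Tendsto (fun ε : ℝ => ∑ i ∈ V, (β i - ε)) (𝓝[>] 0) (𝓝 (∑ i ∈ V, (β i - 0))) := by
          apply tendsto_finsetSum
          intro i _
          exact (tendsto_const_nhds.sub (tendsto_nhdsWithin_of_tendsto_nhds tendsto_id))
        have h2 : (#(sub S V) : ℝ) * θ < ∑ i ∈ V, (β i - 0) := by
          simpa using hV V hVn
        filter_upwards [hc.eventually (lt_mem_nhds h2)] with ε he _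
        exact he
      · exact Filter.Eventually.of_forall (fun ε h => absurd h hVn)
    · rw [Filter.eventually_all]
      intro i
      exact (tendsto_nhdsWithin_of_tendsto_nhds tendsto_id).eventually (ge_mem_nhds (hβ i))
  obtain ⟨ε, hεV, hεβ, hε0⟩ := hε.exists
  set c : Finset (Fin k) → ℝ := fun V => ∑ i ∈ V, (β i - ε) - (#(sub S V) : ℝ) * θ with hc
  -- the lower bound
  set b : ℕ → ℝ := fun n => ∑ V : Finset (Fin k), (n : ℝ) ^ (-(c V)) with hb
  have hblim : Tendsto b atTop (𝓝 1) := by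
    have h1 : (1 : ℝ) = ∑ V : Finset (Fin k), if V = ∅ then (1 : ℝ) else 0 := by
      simp
    rw [h1]
    apply tendsto_finsetSum
    intro V _
    by_cases hVe : V = ∅
    · rw [if_pos hVe]
      have : c V = 0 := by
        rw [hc]
        simp only
        rw [hVe, h0]; simp
      rw [this]
      simp
    · rw [if_neg hVe]
      have hVn := Finset.nonempty_iff_ne_empty.2 hVe
      have hcp : 0 < c V := by
        have := hεV V hVn
        rw [hc]; simp only; linarith
      exact (tendsto_rpow_neg_atTop hcp).comp tendsto_natCast_atTop_atTop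
  have hgrow : ∀ᶠ n : ℕ in atTop, ∀ i, (n : ℝ) ^ (β i - ε) ≤ (#(primeSet β n i) : ℝ) := by
    rw [Filter.eventually_all]
    intro i
    exact primeSet_growth β i (hβ i) hε0 (hεβ i)
  have hkey : ∀ᶠ n : ℕ in atTop, (b n)⁻¹ ≤
      pr (p n) (Finset.Icc 1 n) (fun A => StrictProductSchur (A : Set ℕ)) := by
    filter_upwards [hgrow, hlow, eventually_ge_atTop 1] with n hg hl hn
    have hn1 : (1 : ℝ) ≤ n := by exact_mod_cast hn
    have hn0 : (0 : ℝ) < n := by linarith
    have hp0 : 0 < p n := lt_of_lt_of_le (Real.rpow_pos_of_pos hn0 _) hl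
    have hpp := primeSet_prime β n
    have hpd := fun g h hgh => primeSet_disjoint β n g h hgh
    have hcardpos : ∀ g, 0 < (#(primeSet β n g) : ℝ) := fun g =>
      lt_of_lt_of_le (Real.rpow_pos_of_pos hn0 _) (hg g)
    have hne : ∀ g, (primeSet β n g).Nonempty := by
      intro g
      rw [← Finset.card_pos]
      exact_mod_cast hcardpos g
    have hU : ∀ x ∈ Fintype.piFinset (primeSet β n), copy S x ⊆ Finset.Icc 1 n := by
      intro x hx z hz
      obtain ⟨m, hmS, rfl⟩ := Finset.mem_image.1 hz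
      have hxm := Fintype.mem_piFinset.1 hx
      rw [Finset.mem_Icc]
      constructor
      · apply Nat.succ_le_of_lt
        unfold mono
        exact Finset.prod_pos (fun g _ => pow_pos (hpp g _ (hxm g)).pos _)
      · have h1 : ((mono x m : ℕ) : ℝ) ≤ (n : ℝ) ^ (∑ i, (m i : ℝ) * β i) := by
          unfold mono
          push_cast
          rw [Real.rpow_sum_of_pos hn0]
          apply Finset.prod_le_prod
          · intro g _; positivity
          · intro g _
            calc ((x g : ℕ) : ℝ) ^ (m g) ≤ ((n : ℝ) ^ (β g)) ^ (m g) :=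
                  pow_le_pow_left₀ (Nat.cast_nonneg _) (primeSet_le β n g _ (hxm g)) _
              _ = (n : ℝ) ^ ((m g : ℝ) * β g) := by
                  rw [← Real.rpow_natCast, ← Real.rpow_mul hn0.le, mul_comm]
        have h2 : (n : ℝ) ^ (∑ i, (m i : ℝ) * β i) ≤ (n : ℝ) ^ (1 : ℝ) :=
          Real.rpow_le_rpow_of_exponent_le hn1 (hm m hmS)
        rw [Real.rpow_one] at h2
        exact_mod_cast h1.trans h2
    have hlow := pr_lower hpp hpd S hU hne hp0 (hp n).2
    have hmono : pr (p n) (Finset.Icc 1 n)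
        (fun A => ∃ x ∈ Fintype.piFinset (primeSet β n), copy S x ⊆ A) ≤
        pr (p n) (Finset.Icc 1 n) (fun A => StrictProductSchur (A : Set ℕ)) := by
      apply pr_mono (hp n).1 (hp n).2
      rintro A _ ⟨x, hx, hA⟩
      exact strict_of_copy hcol (fun g => hpp g _ (Fintype.mem_piFinset.1 hx g))
        (inj_of_mem hpd hx) hA
    have hsum : ∑ V : Finset (Fin k), ((∏ g ∈ V, (#(primeSet β n g) : ℝ)) *
        (p n) ^ (#(sub S V)))⁻¹ ≤ b n := by
      rw [hb]
      apply Finset.sum_le_sum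
      intro V _
      rw [Real.rpow_neg hn0.le]
      apply inv_anti₀ (Real.rpow_pos_of_pos hn0 _)
      have e1 : (n : ℝ) ^ (c V) = (n : ℝ) ^ (∑ i ∈ V, (β i - ε)) *
          ((n : ℝ) ^ (-θ)) ^ (#(sub S V)) := by
        rw [← Real.rpow_natCast, ← Real.rpow_mul hn0.le, ← Real.rpow_add hn0]
        congr 1
        rw [hc]; simp only; ring
      rw [e1]
      apply mul_le_mul
      · rw [Real.rpow_sum_of_pos hn0]
        exact Finset.prod_le_prod (fun g _ => (Real.rpow_pos_of_pos hn0 _).le) (fun g _ => hg g)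
      · exact pow_le_pow_left₀ (Real.rpow_pos_of_pos hn0 _).le hl _
      · exact pow_nonneg (Real.rpow_pos_of_pos hn0 _).le _
      · exact Finset.prod_nonneg (fun g _ => (hcardpos g).le)
    have hbpos : 0 < b n := Finset.sum_pos (fun V _ => Real.rpow_pos_of_pos hn0 _)
      Finset.univ_nonempty
    have hprn := pr_nonneg (hp n).1 (hp n).2 (Finset.Icc 1 n)
      (fun A => ∃ x ∈ Fintype.piFinset (primeSet β n), copy S x ⊆ A)
    rw [inv_le_iff_one_le_mul₀ hbpos]
    calc (1 : ℝ) ≤ _ := hlow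
      _ ≤ pr (p n) (Finset.Icc 1 n)
          (fun A => ∃ x ∈ Fintype.piFinset (primeSet β n), copy S x ⊆ A) * b n :=
          mul_le_mul_of_nonneg_left hsum hprn
      _ ≤ _ := mul_le_mul_of_nonneg_right hmono hbpos.le
  have hbinv : Tendsto (fun n => (b n)⁻¹) atTop (𝓝 1) := by
    have := hblim.inv₀ one_ne_zero
    rwa [inv_one] at this
  exact tendsto_of_tendsto_of_tendsto_of_le_of_le' hbinv tendsto_const_nhds hkey
    (Filter.Eventually.of_forall (fun n => pr_le_one (hp n).1 (hp n).2 _ _))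


/-- Both values of a Boolean. -/
def all2 (f : Bool → Bool) : Bool := f true && f false

/-- Three equal Booleans. -/
def bad (a b c : Bool) : Bool := (a == b) && (b == c)

theorem all2_spec {f : Bool → Bool} (h : all2 f = true) (b : Bool) : f b = true := by
  unfold all2 at h
  rw [Bool.and_eq_true] at h
  cases b
  · exact h.2
  · exact h.1

theorem bad_res {a b c r : Bool} (h : (bad a b c || r) = true) (ha : ¬ (a = b ∧ b = c)) :
    r = true := by
  unfold bad at h
  rw [Bool.or_eq_true, Bool.and_eq_true, beq_iff_eq, beq_iff_eq] at h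
  exact h.resolve_left ha

theorem tree : (all2 fun x5 => all2 fun x0 => all2 fun x4 => bad x0 x4 x5 || (all2 fun x6 => all2 fun x7 => bad x0 x6 x7 || (all2 fun x12 => bad x4 x7 x12 || (bad x5 x6 x12 || (all2 fun x11 => bad x0 x11 x12 || (bad x4 x6 x11 || (all2 fun x15 => bad x6 x12 x15 || (bad x7 x11 x15 || (all2 fun x14 => bad x0 x14 x15 || (bad x6 x11 x14 || (all2 fun x16 => all2 fun x2 => bad x2 x14 x16 || (all2 fun x9 => bad x2 x6 x9 || (bad x9 x11 x16 || (all2 fun x17 => bad x6 x16 x17 || (bad x9 x14 x17 || (all2 fun x8 => all2 fun x1 => bad x1 x6 x8 || (all2 fun x13 => bad x1 x11 x13 || (bad x4 x8 x13 || (all2 fun x10 => bad x1 x9 x10 || (bad x2 x8 x10 || (all2 fun x3 => bad x1 x2 x3 || (bad x3 x6 x10 || (false))))))))))))))))))))))) = true := by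
  decide

theorem bool_lemma (x0 x1 x2 x3 x4 x5 x6 x7 x8 x9 x10 x11 x12 x13 x14 x15 x16 x17 : Bool)
    (h0 : ¬ (x0 = x4 ∧ x4 = x5))
    (h1 : ¬ (x0 = x6 ∧ x6 = x7))
    (h2 : ¬ (x0 = x11 ∧ x11 = x12))
    (h3 : ¬ (x0 = x14 ∧ x14 = x15))
    (h4 : ¬ (x1 = x2 ∧ x2 = x3))
    (h5 : ¬ (x1 = x6 ∧ x6 = x8))
    (h6 : ¬ (x1 = x9 ∧ x9 = x10))
    (h7 : ¬ (x1 = x11 ∧ x11 = x13))
    (h8 : ¬ (x2 = x6 ∧ x6 = x9))
    (h9 : ¬ (x2 = x8 ∧ x8 = x10))
    (h10 : ¬ (x2 = x14 ∧ x14 = x16))
    (h11 : ¬ (x3 = x6 ∧ x6 = x10))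
    (h12 : ¬ (x4 = x6 ∧ x6 = x11))
    (h13 : ¬ (x4 = x7 ∧ x7 = x12))
    (h14 : ¬ (x4 = x8 ∧ x8 = x13))
    (h15 : ¬ (x5 = x6 ∧ x6 = x12))
    (h16 : ¬ (x6 = x11 ∧ x11 = x14))
    (h17 : ¬ (x6 = x12 ∧ x12 = x15))
    (h18 : ¬ (x6 = x16 ∧ x16 = x17))
    (h19 : ¬ (x7 = x11 ∧ x11 = x15))
    (h20 : ¬ (x9 = x11 ∧ x11 = x16))
    (h21 : ¬ (x9 = x14 ∧ x14 = x17))
    : False := by
  have t0 := all2_spec tree x5
  have t1 := all2_spec t0 x0
  have t2 := all2_spec t1 x4
  have t3 := bad_res t2 h0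
  have t4 := all2_spec t3 x6
  have t5 := all2_spec t4 x7
  have t6 := bad_res t5 h1
  have t7 := all2_spec t6 x12
  have t8 := bad_res t7 h13
  have t9 := bad_res t8 h15
  have t10 := all2_spec t9 x11
  have t11 := bad_res t10 h2
  have t12 := bad_res t11 h12
  have t13 := all2_spec t12 x15
  have t14 := bad_res t13 h17
  have t15 := bad_res t14 h19
  have t16 := all2_spec t15 x14
  have t17 := bad_res t16 h3
  have t18 := bad_res t17 h16
  have t19 := all2_spec t18 x16
  have t20 := all2_spec t19 x2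
  have t21 := bad_res t20 h10
  have t22 := all2_spec t21 x9
  have t23 := bad_res t22 h8
  have t24 := bad_res t23 h20
  have t25 := all2_spec t24 x17
  have t26 := bad_res t25 h18
  have t27 := bad_res t26 h21
  have t28 := all2_spec t27 x8
  have t29 := all2_spec t28 x1
  have t30 := bad_res t29 h5
  have t31 := all2_spec t30 x13
  have t32 := bad_res t31 h7
  have t33 := bad_res t32 h14
  have t34 := all2_spec t33 x10
  have t35 := bad_res t34 h6
  have t36 := bad_res t35 h9
  have t37 := all2_spec t36 x3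
  have t38 := bad_res t37 h4
  have t39 := bad_res t38 h11
  exact Bool.false_ne_true t39

/-- The exponent vectors of the 18 element configuration. -/
def S18 : Finset (Fin 5 → ℕ) := {![0, 0, 0, 0, 1], ![0, 0, 0, 1, 0], ![0, 0, 1, 0, 0], ![0, 0, 1, 1, 0], ![0, 1, 0, 0, 0], ![0, 1, 0, 0, 1], ![1, 0, 0, 0, 0], ![1, 0, 0, 0, 1], ![1, 0, 0, 1, 0], ![1, 0, 1, 0, 0], ![1, 0, 1, 1, 0], ![1, 1, 0, 0, 0], ![1, 1, 0, 0, 1], ![1, 1, 0, 1, 0], ![2, 1, 0, 0, 0], ![2, 1, 0, 0, 1], ![2, 1, 1, 0, 0], ![3, 1, 1, 0, 0]}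

theorem S18_col (χ : (Fin 5 → ℕ) → Bool) : ∃ x ∈ S18, ∃ y ∈ S18, x ≠ y ∧ x + y ∈ S18 ∧ χ x = χ y ∧ χ y = χ (x + y) := by
  by_contra hno
  have key : ∀ x y z : Fin 5 → ℕ, x ∈ S18 → y ∈ S18 → z ∈ S18 → x ≠ y → x + y = z → ¬ (χ x = χ y ∧ χ y = χ z) := by
    intro x y z hx hy hz hxy hs hc
    subst hs
    exact hno ⟨x, hx, y, hy, hxy, hz, hc.1, hc.2⟩
  exact bool_lemma (χ ![0, 0, 0, 0, 1]) (χ ![0, 0, 0, 1, 0]) (χ ![0, 0, 1, 0, 0]) (χ ![0, 0, 1, 1, 0]) (χ ![0, 1, 0, 0, 0]) (χ ![0, 1, 0, 0, 1]) (χ ![1, 0, 0, 0, 0]) (χ ![1, 0, 0, 0, 1]) (χ ![1, 0, 0, 1, 0]) (χ ![1, 0, 1, 0, 0]) (χ ![1, 0, 1, 1, 0]) (χ ![1, 1, 0, 0, 0]) (χ ![1, 1, 0, 0, 1]) (χ ![1, 1, 0, 1, 0]) (χ ![2, 1, 0, 0, 0]) (χ ![2, 1, 0, 0, 1]) (χ ![2, 1, 1, 0, 0]) (χ ![3, 1, 1, 0, 0])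
    (key _ _ _ (by decide) (by decide) (by decide) (by decide) (by decide))
    (key _ _ _ (by decide) (by decide) (by decide) (by decide) (by decide))
    (key _ _ _ (by decide) (by decide) (by decide) (by decide) (by decide))
    (key _ _ _ (by decide) (by decide) (by decide) (by decide) (by decide))
    (key _ _ _ (by decide) (by decide) (by decide) (by decide) (by decide))
    (key _ _ _ (by decide) (by decide) (by decide) (by decide) (by decide))
    (key _ _ _ (by decide) (by decide) (by decide) (by decide) (by decide))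
    (key _ _ _ (by decide) (by decide) (by decide) (by decide) (by decide))
    (key _ _ _ (by decide) (by decide) (by decide) (by decide) (by decide))
    (key _ _ _ (by decide) (by decide) (by decide) (by decide) (by decide))
    (key _ _ _ (by decide) (by decide) (by decide) (by decide) (by decide))
    (key _ _ _ (by decide) (by decide) (by decide) (by decide) (by decide))
    (key _ _ _ (by decide) (by decide) (by decide) (by decide) (by decide))
    (key _ _ _ (by decide) (by decide) (by decide) (by decide) (by decide))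
    (key _ _ _ (by decide) (by decide) (by decide) (by decide) (by decide))
    (key _ _ _ (by decide) (by decide) (by decide) (by decide) (by decide))
    (key _ _ _ (by decide) (by decide) (by decide) (by decide) (by decide))
    (key _ _ _ (by decide) (by decide) (by decide) (by decide) (by decide))
    (key _ _ _ (by decide) (by decide) (by decide) (by decide) (by decide))
    (key _ _ _ (by decide) (by decide) (by decide) (by decide) (by decide))
    (key _ _ _ (by decide) (by decide) (by decide) (by decide) (by decide))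
    (key _ _ _ (by decide) (by decide) (by decide) (by decide) (by decide))

theorem S18_size (V : Finset (Fin 5)) : #(sub S18 V) ≤ ∑ i ∈ V, (![1, 3, 4, 5, 5] : Fin 5 → ℕ) i := by
  revert V
  decide

theorem S18_max : ∀ m ∈ S18, ∑ i, m i * (![1, 3, 4, 5, 5] : Fin 5 → ℕ) i ≤ 10 := by
  decide


end Pool.Agent.X78.ProdSchur
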