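import Mathlib
import Pool.Agent.X78.Contact

/-!
# Triangular and diagonal automorphisms of `F[[x,y]]`

Helper file for `MP_65bbe4_ag`.
-/

namespace Pool.Agent.X78.Contact

open MvPowerSeries

noncomputable section

variable {F : Type*} [Field F]

theorem algHom_C (φ : MvPowerSeries (Fin 2) F →ₐ[F] MvPowerSeries (Fin 2) F) (e : F) :
    φ (C e) = C e := by
  have := φ.commutes e
  simpa [MvPowerSeries.algebraMap_apply] using this

theorem algHom_inv (φ : MvPowerSeries (Fin 2) F →ₐ[F] MvPowerSeries (Fin 2) F)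
    {u : MvPowerSeries (Fin 2) F} (hu : constantCoeff u ≠ 0) (h : φ u = u) : φ u⁻¹ = u⁻¹ := by
  have hw := MvPowerSeries.mul_inv_cancel u hu
  have h1 : u * φ u⁻¹ = 1 := by
    have := congrArg φ hw
    rwa [map_mul, h, map_one] at this
  calc φ u⁻¹ = (u * u⁻¹) * φ u⁻¹ := by rw [hw, one_mul]
    _ = u⁻¹ * (u * φ u⁻¹) := by ring
    _ = u⁻¹ := by rw [h1, mul_one]

theorem exists_tri {u v : MvPowerSeries (Fin 2) F} (hu : constantCoeff u ≠ 0)
    (hv : constantCoeff v = 0)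
    (hfix : ∀ φ : MvPowerSeries (Fin 2) F →ₐ[F] MvPowerSeries (Fin 2) F, φ (X 1) = X 1 →
      φ u = u ∧ φ v = v) :
    ∃ φ : MvPowerSeries (Fin 2) F ≃ₐ[F] MvPowerSeries (Fin 2) F,
      φ (X 0) = X 0 * u + v ∧ φ (X 1) = X 1 := by
  have hw := MvPowerSeries.mul_inv_cancel u hu
  refine exists_algEquiv (A' := (X 0 - v) * u⁻¹) (B' := X 1) (by simp [hv]) (by simp)
    (by simp [hv]) (by simp) ?_ ?_
  · intro φ h0 h1
    refine ⟨?_, h1⟩
    obtain ⟨k1, k2⟩ := hfix φ h1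
    rw [map_mul, map_sub, algHom_inv φ hu k1, h0, k2]
    linear_combination (X 0) * hw
  · intro φ h0 h1
    refine ⟨?_, h1⟩
    obtain ⟨k1, k2⟩ := hfix φ h1
    rw [map_add, map_mul, k1, k2, h0]
    linear_combination (X 0 - v) * hw

theorem exists_scale {s : F} (hs : s ≠ 0) :
    ∃ φ : MvPowerSeries (Fin 2) F ≃ₐ[F] MvPowerSeries (Fin 2) F,
      φ (X 0) = C (s ^ 2) * X 0 ∧ φ (X 1) = C s * X 1 := by
  have e1 : (C ((s ^ 2)⁻¹) : MvPowerSeries (Fin 2) F) * C (s ^ 2) = 1 := by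
    rw [← map_mul, inv_mul_cancel₀ (pow_ne_zero 2 hs), map_one]
  have e2 : (C (s⁻¹) : MvPowerSeries (Fin 2) F) * C s = 1 := by
    rw [← map_mul, inv_mul_cancel₀ hs, map_one]
  refine exists_algEquiv (A' := C ((s ^ 2)⁻¹) * X 0) (B' := C (s⁻¹) * X 1) (by simp) (by simp)
    (by simp) (by simp) ?_ ?_
  · intro φ h0 h1
    constructor
    · rw [map_mul, algHom_C, h0, ← mul_assoc, e1, one_mul]
    · rw [map_mul, algHom_C, h1, ← mul_assoc, e2, one_mul]
  · intro φ h0 h1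
    constructor
    · rw [map_mul, algHom_C, h0, ← mul_assoc, mul_comm (C (s ^ 2)), e1, one_mul]
    · rw [map_mul, algHom_C, h1, ← mul_assoc, mul_comm (C s), e2, one_mul]

end

end Pool.Agent.X78.Contact
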