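import Mathlib

/-!
# Counting pairs `(a, d)` with prescribed blocks
-/

namespace Pool.Agent.X78.APBlocks

open Finset

/-- pairs `(u, d)` with `u, d ≥ 1` and `u + s d ≤ n` -/
def PP (s n : ℕ) : Finset (ℕ × ℕ) :=
  ((Icc 1 n) ×ˢ (Icc 1 n)).filter (fun p => p.1 + s * p.2 ≤ n)

lemma mem_PP {s n : ℕ} (hs : 1 ≤ s) (p : ℕ × ℕ) :
    p ∈ PP s n ↔ 1 ≤ p.1 ∧ 1 ≤ p.2 ∧ p.1 + s * p.2 ≤ n := by
  unfold PP
  rw [mem_filter, mem_product, mem_Icc, mem_Icc]
  constructor
  · rintro ⟨⟨⟨h1, _⟩, h3, _⟩, h5⟩
    exact ⟨h1, h3, h5⟩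
  · rintro ⟨h1, h2, h3⟩
    have : p.2 ≤ s * p.2 := Nat.le_mul_of_pos_left _ hs
    exact ⟨⟨⟨h1, by omega⟩, h2, by omega⟩, h3⟩

lemma card_PP (s n : ℕ) : (PP s n).card = ∑ d ∈ range n, (n - s * (d + 1)) := by
  have h1 : (PP s n).card = ∑ d ∈ Icc 1 n, (n - s * d) := by
    unfold PP
    rw [card_filter, sum_product_right]
    refine sum_congr rfl fun d _ => ?_
    rw [← card_filter]
    have : (Icc 1 n).filter (fun u => u + s * d ≤ n) = Icc 1 (n - s * d) := by
      ext u
      rw [mem_filter, mem_Icc, mem_Icc]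
      omega
    rw [this, Nat.card_Icc]
    omega
  rw [h1]
  have h2 : Icc 1 n = (range n).image (· + 1) := by
    ext d
    rw [mem_Icc, mem_image]
    constructor
    · rintro ⟨a, b⟩
      exact ⟨d - 1, mem_range.2 (by omega), by omega⟩
    · rintro ⟨e, he, rfl⟩
      rw [mem_range] at he
      omega
  rw [h2, sum_image (fun a _ b _ hab => by simpa using hab)]

lemma sum_upper (s n D : ℕ) :
    2 * s * ∑ d ∈ range D, (n - s * (d + 1)) + (n - s * D) ^ 2 ≤ n ^ 2 := by
  induction D with
  | zero => simp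
  | succ D ih =>
    rw [sum_range_succ]
    have key : 2 * s * (n - s * (D + 1)) + (n - s * (D + 1)) ^ 2 ≤ (n - s * D) ^ 2 := by
      rcases le_total (s * (D + 1)) n with h | h
      · obtain ⟨y, rfl⟩ := Nat.exists_eq_add_of_le h
        have e1 : s * (D + 1) + y - s * (D + 1) = y := by omega
        have e2 : s * (D + 1) + y - s * D = y + s := by
          rw [Nat.mul_succ]; omega
        rw [e1, e2]
        nlinarith
      · have e1 : n - s * (D + 1) = 0 := by omega
        rw [e1]; simp
    nlinarith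

lemma sum_lower {s : ℕ} (n D : ℕ) :
    n ^ 2 + s * (n - s * D) ≤
      2 * s * ∑ d ∈ range D, (n - s * (d + 1)) + s * n + (n - s * D) ^ 2 + s ^ 2 := by
  induction D with
  | zero => simp; nlinarith
  | succ D ih =>
    rw [sum_range_succ]
    have key : s * (n - s * (D + 1)) + (n - s * D) ^ 2 ≤ 2 * s * (n - s * (D + 1)) +
        (n - s * (D + 1)) ^ 2 + s * (n - s * D) := by
      rcases le_total (s * (D + 1)) n with h | h
      · obtain ⟨y, rfl⟩ := Nat.exists_eq_add_of_le h
        have e1 : s * (D + 1) + y - s * (D + 1) = y := by omega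
        have e2 : s * (D + 1) + y - s * D = y + s := by
          rw [Nat.mul_succ]; omega
        rw [e1, e2]
        nlinarith
      · have e1 : n - s * (D + 1) = 0 := by omega
        have e2 : n - s * D ≤ s := by rw [Nat.mul_succ] at h; omega
        rw [e1]; nlinarith
    nlinarith

lemma card_PP_upper (s n : ℕ) : 2 * s * (PP s n).card ≤ n ^ 2 := by
  rw [card_PP]
  have := sum_upper s n n
  omega

lemma card_PP_lower {s : ℕ} (hs : 1 ≤ s) (n : ℕ) :
    n ^ 2 ≤ 2 * s * (PP s n).card + 2 * s * n := by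
  rw [card_PP]
  rcases le_total s n with h | h
  · have := sum_lower (s := s) n n
    have e : n - s * n = 0 := by
      have : n ≤ s * n := Nat.le_mul_of_pos_left _ hs
      omega
    rw [e] at this
    nlinarith
  · have h1 : n ^ 2 ≤ s * n := by rw [sq]; exact Nat.mul_le_mul_right n h
    have h2 : s * n ≤ 2 * s * n := by
      rw [mul_assoc]; omega
    omega

/-- For `u ≤ P` there are exactly `t` values of `d` with `u + s d` in `(P, P + s t]`. -/
lemma card_hit {s : ℕ} (hs : 1 ≤ s) (t u P n : ℕ) (hu : u ≤ P) (hn : P + s * t ≤ n) :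
    ((Icc 1 n).filter (fun d => u + s * d ∈ Ioc P (P + s * t))).card = t := by
  have : (Icc 1 n).filter (fun d => u + s * d ∈ Ioc P (P + s * t))
      = Ioc ((P - u) / s) ((P - u) / s + t) := by
    ext d
    rw [mem_filter, mem_Icc, mem_Ioc, mem_Ioc]
    have h1 : (P - u) / s < d ↔ P < u + s * d := by
      rw [Nat.div_lt_iff_lt_mul (by omega), mul_comm d s]; omega
    have h2 : d ≤ (P - u) / s + t ↔ u + s * d ≤ P + s * t := by
      have : (P - u) / s + t = (P - u + s * t) / s := by
        rw [Nat.add_mul_div_left _ _ (by omega)]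
      rw [this, Nat.le_div_iff_mul_le (by omega), mul_comm d s]; omega
    rw [h1, h2]
    constructor
    · rintro ⟨_, h⟩; exact h
    · intro h
      refine ⟨⟨?_, ?_⟩, h⟩
      · by_contra h0
        have : d = 0 := by omega
        subst this; omega
      · have : d ≤ s * d := Nat.le_mul_of_pos_left _ hs
        omega
  rw [this, Nat.card_Ioc]; omega

end Pool.Agent.X78.APBlocks
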