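import Mathlib
import Pool.Agent.X78.APBlocks

/-!
# A weight on `{1, …, n}` whose pair correlation along `k`-term progressions is negative
-/

namespace Pool.Agent.X78.APNegative

open Finset Pool.Agent.X78.APBlocks

/-- indicator of the block `(P, P + l]` -/
def ind (P l x : ℕ) : ℤ := if x ∈ Ioc P (P + l) then 1 else 0

/-- the weight: `1` on the first block, `-2` on the second, `1` on the third -/
def g (X l x : ℕ) : ℤ := ind X l x - 2 * ind (X + 3 * l) l x + ind (X + 6 * l) l x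

/-- the number of progressions with `i`-th term in `(P, P+l]` and `j`-th term in `(Q, Q+l]` -/
def T (k n l i j P Q : ℕ) : ℤ :=
  ∑ p ∈ PP (k - 1) n, ind P l (p.1 + i * p.2) * ind Q l (p.1 + j * p.2)

lemma T_eq_card (k n l i j P Q : ℕ) : T k n l i j P Q =
    (((PP (k - 1) n).filter (fun p => p.1 + i * p.2 ∈ Ioc P (P + l) ∧
      p.1 + j * p.2 ∈ Ioc Q (Q + l))).card : ℤ) := by
  unfold T
  rw [card_filter]
  push_cast
  refine sum_congr rfl fun p _ => ?_
  unfold ind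
  by_cases h1 : p.1 + i * p.2 ∈ Ioc P (P + l) <;> by_cases h2 : p.1 + j * p.2 ∈ Ioc Q (Q + l) <;>
    simp [h1, h2]

lemma T_nonneg (k n l i j P Q : ℕ) : 0 ≤ T k n l i j P Q := by
  rw [T_eq_card]; positivity

/-- pairs within one block -/
lemma T_diag {k n l i j P : ℕ} (hk : 2 ≤ k) (hij : i < j) :
    2 * ((j : ℤ) - i) * T k n l i j P P ≤ (l : ℤ) ^ 2 := by
  rw [T_eq_card]
  obtain ⟨s, rfl⟩ := Nat.exists_eq_add_of_lt hij
  have hs1 : 1 ≤ s + 1 := by omega
  have h1 : ((PP (k - 1) n).filter (fun p => p.1 + i * p.2 ∈ Ioc P (P + l) ∧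
      p.1 + (i + s + 1) * p.2 ∈ Ioc P (P + l))).card ≤ (PP (s + 1) l).card := by
    refine card_le_card_of_injOn (fun p => (p.1 + i * p.2 - P, p.2)) ?_ ?_
    · intro p hp
      rw [mem_coe, mem_filter, mem_PP (by omega), mem_Ioc, mem_Ioc] at hp
      rw [mem_coe, mem_PP hs1]
      obtain ⟨⟨a1, a2, a3⟩, ⟨a4, a5⟩, a6, a7⟩ := hp
      have e : p.1 + (i + s + 1) * p.2 = p.1 + i * p.2 + (s + 1) * p.2 := by ring
      rw [e] at a6 a7
      refine ⟨?_, a2, ?_⟩
      · show 1 ≤ p.1 + i * p.2 - P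
        omega
      · show p.1 + i * p.2 - P + (s + 1) * p.2 ≤ l
        omega
    · intro p hp q hq hpq
      rw [mem_coe, mem_filter, mem_PP (by omega), mem_Ioc, mem_Ioc] at hp hq
      simp only [Prod.mk.injEq] at hpq
      obtain ⟨e1, e2⟩ := hpq
      rw [e2] at e1 hp
      refine Prod.ext ?_ e2
      omega
  have h2 := card_PP_upper (s + 1) l
  have h3 : 2 * (s + 1) * ((PP (k - 1) n).filter (fun p => p.1 + i * p.2 ∈ Ioc P (P + l) ∧
      p.1 + (i + s + 1) * p.2 ∈ Ioc P (P + l))).card ≤ l ^ 2 :=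
    le_trans (Nat.mul_le_mul_left _ h1) h2
  have h4 : ((2 * (s + 1) * ((PP (k - 1) n).filter (fun p => p.1 + i * p.2 ∈ Ioc P (P + l) ∧
      p.1 + (i + s + 1) * p.2 ∈ Ioc P (P + l))).card : ℕ) : ℤ) ≤ ((l ^ 2 : ℕ) : ℤ) := by
    exact_mod_cast h3
  push_cast at h4 ⊢
  have e : ((i : ℤ) + s + 1 - i) = s + 1 := by ring
  rw [e]
  exact h4

/-- the pairs `(u, d)` with `u ∈ (P, P+l]` and `u + s d ∈ (Q, Q+l]` -/
lemma card_cross {s l t P Q n : ℕ} (hs : 1 ≤ s) (hl : l = s * t) (hPQ : P + l ≤ Q)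
    (hn : Q + l ≤ n) :
    s * (((Ioc P (P + l)) ×ˢ (Icc 1 n)).filter
      (fun p => p.1 + s * p.2 ∈ Ioc Q (Q + l))).card = l ^ 2 := by
  rw [card_filter, sum_product]
  have : ∀ u ∈ Ioc P (P + l), ∑ d ∈ Icc 1 n, (if u + s * d ∈ Ioc Q (Q + l) then 1 else 0) = t := by
    intro u hu
    rw [mem_Ioc] at hu
    rw [← card_filter, hl]
    exact card_hit hs t u Q n (by omega) (by omega)
  rw [sum_congr rfl this, sum_const, Nat.card_Ioc, smul_eq_mul]
  have : P + l - P = l := by omega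
  rw [this, sq]
  calc s * (l * t) = l * (s * t) := by ring
    _ = l * l := by rw [← hl]

/-- upper bound for pairs of different blocks -/
lemma T_cross_upper {k n l i j P Q : ℕ} (hk : 2 ≤ k) (hij : i < j) (hjk : j < k)
    (hdvd : (j - i) ∣ l) (hPQ : P + l ≤ Q) (hn : Q + l ≤ n) :
    ((j : ℤ) - i) * T k n l i j P Q ≤ (l : ℤ) ^ 2 := by
  rw [T_eq_card]
  obtain ⟨s, rfl⟩ := Nat.exists_eq_add_of_lt hij
  have hs : i + s + 1 - i = s + 1 := by omega
  rw [hs] at hdvd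
  obtain ⟨t, ht⟩ := hdvd
  have h1 : ((PP (k - 1) n).filter (fun p => p.1 + i * p.2 ∈ Ioc P (P + l) ∧
      p.1 + (i + s + 1) * p.2 ∈ Ioc Q (Q + l))).card ≤
      (((Ioc P (P + l)) ×ˢ (Icc 1 n)).filter
      (fun p => p.1 + (s + 1) * p.2 ∈ Ioc Q (Q + l))).card := by
    refine card_le_card_of_injOn (fun p => (p.1 + i * p.2, p.2)) ?_ ?_
    · intro p hp
      rw [mem_coe, mem_filter] at hp
      rw [mem_coe, mem_filter, mem_product]
      obtain ⟨a1, a4, a6⟩ := hp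
      have e : p.1 + (i + s + 1) * p.2 = p.1 + i * p.2 + (s + 1) * p.2 := by ring
      rw [e] at a6
      refine ⟨⟨a4, ?_⟩, a6⟩
      unfold PP at a1
      exact (mem_product.1 (mem_filter.1 a1).1).2
    · intro p hp q hq hpq
      simp only [Prod.mk.injEq] at hpq
      obtain ⟨e1, e2⟩ := hpq
      rw [e2] at e1
      refine Prod.ext ?_ e2
      omega
  have h2 := card_cross (s := s + 1) (by omega) ht hPQ hn
  have h3 := Nat.mul_le_mul_left (s + 1) h1
  rw [h2] at h3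
  have h4 : (((s + 1) * ((PP (k - 1) n).filter (fun p => p.1 + i * p.2 ∈ Ioc P (P + l) ∧
      p.1 + (i + s + 1) * p.2 ∈ Ioc Q (Q + l))).card : ℕ) : ℤ) ≤ ((l ^ 2 : ℕ) : ℤ) := by
    exact_mod_cast h3
  push_cast at h4 ⊢
  have e : ((i : ℤ) + s + 1 - i) = s + 1 := by ring
  rw [e]
  exact h4

/-- lower bound for pairs of neighbouring blocks -/
lemma T_cross_lower {k n l i j P Q : ℕ} (hk : 2 ≤ k) (hij : i < j) (hjk : j < k)
    (hdvd : (j - i) ∣ l) (hPQ : P + l ≤ Q) (hQ : Q ≤ P + 3 * l) (hP : 4 * (k - 2) * l ≤ P)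
    (hn : Q + l + 4 * (k - 1) * l ≤ n) :
    (l : ℤ) ^ 2 ≤ ((j : ℤ) - i) * T k n l i j P Q := by
  rw [T_eq_card]
  obtain ⟨s, rfl⟩ := Nat.exists_eq_add_of_lt hij
  have hs : i + s + 1 - i = s + 1 := by omega
  rw [hs] at hdvd
  obtain ⟨t, ht⟩ := hdvd
  have h1 : (((Ioc P (P + l)) ×ˢ (Icc 1 n)).filter
      (fun p => p.1 + (s + 1) * p.2 ∈ Ioc Q (Q + l))).card ≤
      ((PP (k - 1) n).filter (fun p => p.1 + i * p.2 ∈ Ioc P (P + l) ∧
      p.1 + (i + s + 1) * p.2 ∈ Ioc Q (Q + l))).card := by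
    have hkey : ∀ p ∈ (((Ioc P (P + l)) ×ˢ (Icc 1 n)).filter
      (fun p => p.1 + (s + 1) * p.2 ∈ Ioc Q (Q + l))), i * p.2 < p.1 ∧
        p.1 - i * p.2 + (k - 1) * p.2 ≤ n := by
      intro p hp
      rw [mem_filter, mem_product, mem_Ioc, mem_Icc, mem_Ioc] at hp
      obtain ⟨⟨⟨a1, a2⟩, a3, a4⟩, a5, a6⟩ := hp
      have hd : p.2 ≤ (s + 1) * p.2 := Nat.le_mul_of_pos_left _ (by omega)
      have hd4 : p.2 < 4 * l := by omega
      have hd5 : p.2 ≤ 4 * l := hd4.le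
      have b1 : i * p.2 ≤ (k - 2) * (4 * l) := Nat.mul_le_mul (by omega) hd5
      have b2 : (k - 2) * (4 * l) = 4 * (k - 2) * l := by ring
      have b3 : (k - 1) * p.2 ≤ (k - 1) * (4 * l) := Nat.mul_le_mul_left _ hd5
      have b4 : (k - 1) * (4 * l) = 4 * (k - 1) * l := by ring
      constructor
      · omega
      · omega
    refine card_le_card_of_injOn (fun p => (p.1 - i * p.2, p.2)) ?_ ?_
    · intro p hp
      rw [mem_coe] at hp
      obtain ⟨c1, c2⟩ := hkey p hp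
      rw [mem_filter, mem_product] at hp
      obtain ⟨⟨a1, a3⟩, a5⟩ := hp
      rw [mem_coe, mem_filter, mem_PP (by omega)]
      rw [mem_Icc] at a3
      refine ⟨⟨?_, a3.1, c2⟩, ?_, ?_⟩
      · show 1 ≤ p.1 - i * p.2
        omega
      · show p.1 - i * p.2 + i * p.2 ∈ Ioc P (P + l)
        rw [Nat.sub_add_cancel c1.le]; exact a1
      · show p.1 - i * p.2 + (i + s + 1) * p.2 ∈ Ioc Q (Q + l)
        have e : p.1 - i * p.2 + (i + s + 1) * p.2 = p.1 - i * p.2 + i * p.2 + (s + 1) * p.2 := by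
          ring
        rw [e, Nat.sub_add_cancel c1.le]; exact a5
    · intro p hp q hq hpq
      rw [mem_coe] at hp hq
      have c1 := (hkey p hp).1
      have c2 := (hkey q hq).1
      simp only [Prod.mk.injEq] at hpq
      obtain ⟨e1, e2⟩ := hpq
      rw [e2] at e1 c1
      refine Prod.ext ?_ e2
      omega
  have h2 := card_cross (s := s + 1) (n := n) (by omega) ht hPQ (by omega)
  have h3 := Nat.mul_le_mul_left (s + 1) h1
  rw [h2] at h3
  have h4 : ((l ^ 2 : ℕ) : ℤ) ≤ (((s + 1) * ((PP (k - 1) n).filter (fun p =>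
      p.1 + i * p.2 ∈ Ioc P (P + l) ∧
      p.1 + (i + s + 1) * p.2 ∈ Ioc Q (Q + l))).card : ℕ) : ℤ) := by
    exact_mod_cast h3
  push_cast at h4 ⊢
  have e : ((i : ℤ) + s + 1 - i) = s + 1 := by ring
  rw [e]
  exact h4

/-- a vanishing count -/
lemma T_zero_of_lt {k n l i j P Q : ℕ} (hij : i ≤ j) (hQP : Q + l ≤ P) :
    T k n l i j P Q = 0 := by
  rw [T_eq_card]
  have : ((PP (k - 1) n).filter (fun p => p.1 + i * p.2 ∈ Ioc P (P + l) ∧
      p.1 + j * p.2 ∈ Ioc Q (Q + l))) = ∅ := by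
    rw [filter_eq_empty_iff]
    rintro p _ ⟨h1, h2⟩
    rw [mem_Ioc] at h1 h2
    have : i * p.2 ≤ j * p.2 := Nat.mul_le_mul_right _ hij
    omega
  rw [this]; simp

/-- the count of the far blocks vanishes for the last two terms -/
lemma T_far_zero {k n l : ℕ} (hk : 3 ≤ k) :
    T k n l (k - 2) (k - 1) (4 * (k - 2) * l) (4 * (k - 2) * l + 6 * l) = 0 := by
  rw [T_eq_card]
  have : ((PP (k - 1) n).filter (fun p =>
      p.1 + (k - 2) * p.2 ∈ Ioc (4 * (k - 2) * l) (4 * (k - 2) * l + l) ∧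
      p.1 + (k - 1) * p.2 ∈ Ioc (4 * (k - 2) * l + 6 * l) (4 * (k - 2) * l + 6 * l + l))) = ∅ := by
    rw [filter_eq_empty_iff]
    rintro p hp ⟨h1, h2⟩
    rw [mem_Ioc] at h1 h2
    obtain ⟨m, rfl⟩ : ∃ m, k = m + 3 := ⟨k - 3, by omega⟩
    have e1 : m + 3 - 2 = m + 1 := by omega
    have e2 : m + 3 - 1 = m + 2 := by omega
    rw [e1] at h1 h2
    rw [e2] at h2
    have e3 : (m + 2) * p.2 = (m + 1) * p.2 + p.2 := by ring
    rw [e3] at h2
    have hd : 5 * l < p.2 := by omega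
    have hm : (m + 1) * (5 * l) ≤ (m + 1) * p.2 := Nat.mul_le_mul_left _ hd.le
    have e4 : (m + 1) * (5 * l) = 4 * (m + 1) * l + (m + 1) * l := by ring
    have e5 : l ≤ (m + 1) * l := Nat.le_mul_of_pos_left _ (by omega)
    rw [mem_PP (by omega)] at hp
    omega
  rw [this]; simp

lemma g_mul (k n l i j X : ℕ) :
    ∑ p ∈ PP (k - 1) n, g X l (p.1 + i * p.2) * g X l (p.1 + j * p.2) =
      T k n l i j X X + 4 * T k n l i j (X + 3 * l) (X + 3 * l)
      + T k n l i j (X + 6 * l) (X + 6 * l)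
      - 2 * T k n l i j X (X + 3 * l) - 2 * T k n l i j (X + 3 * l) (X + 6 * l)
      + T k n l i j X (X + 6 * l)
      - 2 * T k n l i j (X + 3 * l) X - 2 * T k n l i j (X + 6 * l) (X + 3 * l)
      + T k n l i j (X + 6 * l) X := by
  unfold T g
  simp only [mul_sum, ← sum_add_distrib, ← sum_sub_distrib]
  refine sum_congr rfl fun p _ => ?_
  ring

/-- **The pair correlation is negative.** -/
theorem corr_neg {k n l : ℕ} (hk : 3 ≤ k) (hdvd : ∀ s, 1 ≤ s → s < k → s ∣ l)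
    (hn : 8 * k * l ≤ n) :
    ∑ j ∈ range k, ∑ i ∈ range j, ∑ p ∈ PP (k - 1) n,
      g (4 * (k - 2) * l) l (p.1 + i * p.2) * g (4 * (k - 2) * l) l (p.1 + j * p.2)
      ≤ - (l : ℤ) ^ 2 := by
  set X := 4 * (k - 2) * l with hX
  have hXn : X + 6 * l + l + 4 * (k - 1) * l ≤ n := by
    have : X + 6 * l + l + 4 * (k - 1) * l ≤ 8 * k * l := by
      rw [hX]
      obtain ⟨m, rfl⟩ : ∃ m, k = m + 3 := ⟨k - 3, by omega⟩
      have e1 : m + 3 - 2 = m + 1 := by omega
      have e2 : m + 3 - 1 = m + 2 := by omega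
      rw [e1, e2]
      nlinarith
    omega
  have hterm : ∀ i j, i < j → j < k → ∑ p ∈ PP (k - 1) n,
      g X l (p.1 + i * p.2) * g X l (p.1 + j * p.2) ≤
      if i = k - 2 then - (l : ℤ) ^ 2 else 0 := by
    intro i j hij hjk
    rw [g_mul]
    have hd : (j - i) ∣ l := hdvd _ (by omega) (by omega)
    have z1 := T_zero_of_lt (k := k) (n := n) (l := l) (P := X + 3 * l) (Q := X) hij.le (by omega)
    have z2 := T_zero_of_lt (k := k) (n := n) (l := l) (P := X + 6 * l) (Q := X + 3 * l) hij.le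
      (by omega)
    have z3 := T_zero_of_lt (k := k) (n := n) (l := l) (P := X + 6 * l) (Q := X) hij.le (by omega)
    rw [z1, z2, z3]
    have d1 := T_diag (n := n) (l := l) (P := X) (by omega : 2 ≤ k) hij
    have d2 := T_diag (n := n) (l := l) (P := X + 3 * l) (by omega : 2 ≤ k) hij
    have d3 := T_diag (n := n) (l := l) (P := X + 6 * l) (by omega : 2 ≤ k) hij
    have c1 := T_cross_lower (n := n) (P := X) (Q := X + 3 * l) (by omega : 2 ≤ k) hij hjk hd
      (by omega) (by omega) (by omega) (by omega)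
    have c2 := T_cross_lower (n := n) (P := X + 3 * l) (Q := X + 6 * l) (by omega : 2 ≤ k) hij hjk
      hd (by omega) (by omega) (by omega) (by omega)
    have c3 := T_cross_upper (n := n) (P := X) (Q := X + 6 * l) (by omega : 2 ≤ k) hij hjk hd
      (by omega) (by omega)
    have hs : (1 : ℤ) ≤ (j : ℤ) - i := by omega
    split_ifs with hi
    · have hj : j = k - 1 := by omega
      have hfar := T_far_zero (n := n) (l := l) hk
      rw [← hX] at hfar
      subst hi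
      subst hj
      rw [hfar]
      have hs1 : ((k - 1 : ℕ) : ℤ) - ((k - 2 : ℕ) : ℤ) = 1 := by omega
      rw [hs1] at d1 d2 d3 c1 c2
      linarith
    · by_contra hcon
      push Not at hcon
      have := mul_pos (by linarith : (0 : ℤ) < (j : ℤ) - i) hcon
      nlinarith
  have hsum : ∑ j ∈ range k, ∑ i ∈ range j, ∑ p ∈ PP (k - 1) n,
      g X l (p.1 + i * p.2) * g X l (p.1 + j * p.2) ≤
      ∑ j ∈ range k, ∑ i ∈ range j, if i = k - 2 then - (l : ℤ) ^ 2 else 0 := by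
    refine sum_le_sum fun j hj => sum_le_sum fun i hi => ?_
    rw [mem_range] at hj hi
    exact hterm i j hi hj
  refine hsum.trans ?_
  obtain ⟨m, rfl⟩ : ∃ m, k = m + 3 := ⟨k - 3, by omega⟩
  rw [sum_range_succ]
  have e1 : m + 3 - 2 = m + 1 := by omega
  rw [e1]
  have h1 : ∑ i ∈ range (m + 2), (if i = m + 1 then - (l : ℤ) ^ 2 else 0) = - (l : ℤ) ^ 2 := by
    rw [sum_ite_eq' (range (m + 2)) (m + 1) (fun _ => - (l : ℤ) ^ 2), if_pos (by simp)]
  rw [h1]
  have h2 : ∑ j ∈ range (m + 2), ∑ i ∈ range j, (if i = m + 1 then - (l : ℤ) ^ 2 else 0) ≤ 0 := by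
    refine sum_nonpos fun j _ => sum_nonpos fun i _ => ?_
    split_ifs
    · nlinarith [sq_nonneg (l : ℤ)]
    · exact le_rfl
  linarith

end Pool.Agent.X78.APNegative
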