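import Mathlib

/-!
# Second order expansion of a product, and choosing a colouring below the average
-/

namespace Pool.Agent.X78.ProdExpand

open Finset

/-- Second order expansion of `∏ (1 + u_i)`. -/
lemma prod_expand (k : ℕ) : ∃ C : ℝ, 0 ≤ C ∧ ∀ (η : ℝ), 0 ≤ η → η ≤ 1 → ∀ u : ℕ → ℝ,
    (∀ i < k, |u i| ≤ η) →
    |∏ i ∈ range k, (1 + u i) - 1 - ∑ i ∈ range k, u i
      - ∑ j ∈ range k, ∑ i ∈ range j, u i * u j| ≤ C * η ^ 3 := by
  induction k with
  | zero => exact ⟨0, le_rfl, fun η _ _ u _ => by simp⟩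
  | succ k ih =>
    obtain ⟨C, hC, h⟩ := ih
    refine ⟨2 * C + k ^ 2, by positivity, fun η h0 h1 u hu => ?_⟩
    have hR := h η h0 h1 u (fun i hi => hu i (by omega))
    set P := ∏ i ∈ range k, (1 + u i) with hP
    set S := ∑ i ∈ range k, u i with hS
    set E := ∑ j ∈ range k, ∑ i ∈ range j, u i * u j with hE
    rw [prod_range_succ, sum_range_succ, sum_range_succ, ← hP, ← hS, ← hE]
    have hlast : ∑ i ∈ range k, u i * u k = S * u k := by rw [hS, sum_mul]
    rw [hlast]
    have hEb : |E| ≤ k ^ 2 * η ^ 2 := by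
      rw [hE]
      calc |∑ j ∈ range k, ∑ i ∈ range j, u i * u j|
          ≤ ∑ j ∈ range k, |∑ i ∈ range j, u i * u j| := abs_sum_le_sum_abs _ _
        _ ≤ ∑ j ∈ range k, ∑ i ∈ range j, |u i * u j| :=
            sum_le_sum fun j _ => abs_sum_le_sum_abs _ _
        _ ≤ ∑ j ∈ range k, ∑ i ∈ range j, η ^ 2 := by
            refine sum_le_sum fun j hj => sum_le_sum fun i hi => ?_
            rw [mem_range] at hj hi
            rw [abs_mul, sq]
            exact mul_le_mul (hu i (by omega)) (hu j (by omega)) (abs_nonneg _) h0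
        _ ≤ ∑ j ∈ range k, (k : ℝ) * η ^ 2 := by
            refine sum_le_sum fun j hj => ?_
            rw [mem_range] at hj
            rw [sum_const, card_range, nsmul_eq_mul]
            have : (j : ℝ) ≤ k := by exact_mod_cast hj.le
            nlinarith [sq_nonneg η]
        _ = k ^ 2 * η ^ 2 := by
            rw [sum_const, card_range, nsmul_eq_mul]; ring
    have huk := hu k (by omega)
    have e : P * (1 + u k) - 1 - (S + u k) - (E + S * u k) =
        (P - 1 - S - E) + u k * (P - 1 - S - E) + u k * E := by ring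
    rw [e]
    calc |(P - 1 - S - E) + u k * (P - 1 - S - E) + u k * E|
        ≤ |(P - 1 - S - E) + u k * (P - 1 - S - E)| + |u k * E| := abs_add_le _ _
      _ ≤ |P - 1 - S - E| + |u k * (P - 1 - S - E)| + |u k * E| := by
          gcongr; exact abs_add_le _ _
      _ = |P - 1 - S - E| + |u k| * |P - 1 - S - E| + |u k| * |E| := by
          rw [abs_mul, abs_mul]
      _ ≤ C * η ^ 3 + 1 * (C * η ^ 3) + η * (k ^ 2 * η ^ 2) := by
          gcongr
          exact huk.trans h1
      _ = (2 * C + k ^ 2) * η ^ 3 := by ring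

/-- Averaging: for weights `p x c ≥ 0` with `∑_c p x c = 1` there is a colouring of `{0, …, n}` whose
number of monochromatic members of a family of finite sets is at most the expected number. -/
lemma exists_coloring {r n : ℕ} (p : Fin (n + 1) → Fin r → ℝ) (hp : ∀ x c, 0 ≤ p x c)
    (hp1 : ∀ x, ∑ c, p x c = 1) {ι : Type*} (I : Finset ι) (S : ι → Finset (Fin (n + 1)))
    (hS : ∀ i ∈ I, (S i).Nonempty) :
    ∃ φ : Fin (n + 1) → Fin r,
      ((I.filter (fun i => ∃ c, ∀ x ∈ S i, φ x = c)).card : ℝ) ≤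
        ∑ i ∈ I, ∑ c, ∏ x ∈ S i, p x c := by
  classical
  set w : (Fin (n + 1) → Fin r) → ℝ := fun φ => ∏ x, p x (φ x) with hw
  have hw0 : ∀ φ, 0 ≤ w φ := fun φ => prod_nonneg fun x _ => hp _ _
  have hw1 : ∑ φ, w φ = 1 := by
    have := Finset.prod_univ_sum (fun _ : Fin (n + 1) => (univ : Finset (Fin r))) (fun x c => p x c)
    rw [Fintype.piFinset_univ] at this
    rw [hw, ← this]
    exact prod_eq_one fun x _ => hp1 x
  have hcount : ∀ φ : Fin (n + 1) → Fin r,
      ((I.filter (fun i => ∃ c, ∀ x ∈ S i, φ x = c)).card : ℝ)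
        = ∑ i ∈ I, ∑ c, if ∀ x ∈ S i, φ x = c then (1 : ℝ) else 0 := by
    intro φ
    rw [card_filter]
    push_cast
    refine sum_congr rfl fun i hi => ?_
    obtain ⟨x0, hx0⟩ := hS i hi
    split_ifs with h
    · obtain ⟨c, hc⟩ := h
      rw [sum_eq_single c]
      · rw [if_pos hc]
      · intro b _ hb
        rw [if_neg]
        intro h'
        exact hb ((h' x0 hx0).symm.trans (hc x0 hx0))
      · intro h'; exact absurd (mem_univ c) h'
    · refine (sum_eq_zero fun c _ => ?_).symm
      rw [if_neg]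
      intro h'
      exact h ⟨c, h'⟩
  have hone : ∀ (A : Finset (Fin (n + 1))) (c : Fin r),
      ∑ φ, w φ * (if ∀ x ∈ A, φ x = c then (1 : ℝ) else 0) = ∏ x ∈ A, p x c := by
    intro A c
    have h1 : ∀ φ : Fin (n + 1) → Fin r, w φ * (if ∀ x ∈ A, φ x = c then (1 : ℝ) else 0)
        = ∏ x, (p x (φ x) * (if x ∈ A → φ x = c then (1 : ℝ) else 0)) := by
      intro φ
      rw [prod_mul_distrib, hw]
      congr 1
      split_ifs with h
      · refine (prod_eq_one fun x _ => ?_).symm
        rw [if_pos (h x)]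
      · push Not at h
        obtain ⟨x, hx, hxc⟩ := h
        refine (prod_eq_zero (mem_univ x) ?_).symm
        rw [if_neg]
        intro h'
        exact hxc (h' hx)
    rw [sum_congr rfl fun φ _ => h1 φ]
    have h2 := Finset.prod_univ_sum (fun _ : Fin (n + 1) => (univ : Finset (Fin r)))
      (fun x d => p x d * (if x ∈ A → d = c then (1 : ℝ) else 0))
    rw [Fintype.piFinset_univ] at h2
    rw [← h2]
    have h3 : ∀ x, ∑ d, p x d * (if x ∈ A → d = c then (1 : ℝ) else 0)
        = if x ∈ A then p x c else 1 := by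
      intro x
      split_ifs with hx
      · rw [sum_eq_single c]
        · simp
        · intro b _ hb
          simp [hx, hb]
        · intro h'; exact absurd (mem_univ c) h'
      · have h4 : ∑ d, p x d * (if x ∈ A → d = c then (1 : ℝ) else 0) = ∑ d, p x d := by
          refine sum_congr rfl fun d _ => ?_
          simp [hx]
        rw [h4, hp1 x]
    rw [prod_congr rfl fun x _ => h3 x, prod_ite, prod_const_one, mul_one]
    refine prod_congr ?_ fun _ _ => rfl
    ext x; simp
  have havg : ∑ φ, w φ * ((I.filter (fun i => ∃ c, ∀ x ∈ S i, φ x = c)).card : ℝ)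
      = ∑ i ∈ I, ∑ c, ∏ x ∈ S i, p x c := by
    simp only [hcount, mul_sum]
    rw [sum_comm]
    refine sum_congr rfl fun i _ => ?_
    rw [sum_comm]
    exact sum_congr rfl fun c _ => hone (S i) c
  by_contra hcon
  push Not at hcon
  set E := ∑ i ∈ I, ∑ c, ∏ x ∈ S i, p x c with hE
  have hlt : ∑ φ, w φ * E < ∑ φ, w φ * ((I.filter (fun i => ∃ c, ∀ x ∈ S i, φ x = c)).card : ℝ) := by
    obtain ⟨φ0, hφ0⟩ : ∃ φ, 0 < w φ := by
      by_contra h
      push Not at h
      have : ∑ φ, w φ ≤ 0 := sum_nonpos fun φ _ => h φ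
      linarith
    refine sum_lt_sum (fun φ _ => mul_le_mul_of_nonneg_left (hcon φ).le (hw0 φ)) ⟨φ0, mem_univ _, ?_⟩
    exact mul_lt_mul_of_pos_left (hcon φ0) hφ0
  rw [havg, ← sum_mul, hw1, one_mul] at hlt
  exact lt_irrefl _ hlt

end Pool.Agent.X78.ProdExpand
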