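import Mathlib

set_option linter.unusedVariables false

/-!
Edge colourings of complete graphs with few vertices covered by `s` colours: the colour sets of the
vertices are unions, over the points of a line of a (dual affine) plane, of majority subsets of a
fibre.
-/

namespace Pool.Agent.X78.CoverCol

open Finset

/-! ### Binomial coefficients -/

theorem choose_step {m k : ℕ} (h : m + 1 ≤ 6 * (m + 1 - k)) :
    (m + 1).choose k ≤ 6 * m.choose k := by
  have h1 := Nat.choose_mul_succ_eq m k
  -- m.choose k * (m + 1) = (m + 1).choose k * (m + 1 - k)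
  have hpos : 0 < m + 1 - k := by omega
  have h2 : (m + 1).choose k * (m + 1 - k) ≤ 6 * m.choose k * (m + 1 - k) := by
    calc (m + 1).choose k * (m + 1 - k) = m.choose k * (m + 1) := h1.symm
      _ ≤ m.choose k * (6 * (m + 1 - k)) := Nat.mul_le_mul_left _ h
      _ = _ := by ring
  exact Nat.le_of_mul_le_mul_right h2 hpos

theorem choose_ineq (t : ℕ) : ∀ u : ℕ, 2 * u ≤ t →
    (2 * t + 1).choose (t + 1) ≤ 6 ^ u * (2 * t + 1 - u).choose (t + 1)
  | 0, _ => by simp
  | u + 1, hu => by
    have ih := choose_ineq t u (by omega)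
    have e : 2 * t + 1 - u = (2 * t + 1 - (u + 1)) + 1 := by omega
    have hs := choose_step (m := 2 * t + 1 - (u + 1)) (k := t + 1) (by omega)
    rw [← e] at hs
    calc (2 * t + 1).choose (t + 1) ≤ 6 ^ u * (2 * t + 1 - u).choose (t + 1) := ih
      _ ≤ 6 ^ u * (6 * (2 * t + 1 - (u + 1)).choose (t + 1)) := Nat.mul_le_mul_left _ hs
      _ = _ := by ring

/-! ### The plane -/

/-- Points: the affine plane and the directions. -/
abbrev Pt (p : ℕ) := (ZMod p × ZMod p) ⊕ ZMod p

/-- Lines `y = a x + b`. -/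
abbrev Ln (p : ℕ) := ZMod p × ZMod p

/-- Incidence. -/
def On {p : ℕ} (l : Ln p) : Pt p → Prop
  | Sum.inl q => q.2 = l.1 * q.1 + l.2
  | Sum.inr a => a = l.1

theorem common {p : ℕ} [Fact p.Prime] (l l' : Ln p) : ∃ x, On l x ∧ On l' x := by
  by_cases h : l.1 = l'.1
  · exact ⟨Sum.inr l.1, rfl, h⟩
  · have hne : l.1 - l'.1 ≠ 0 := sub_ne_zero.2 h
    refine ⟨Sum.inl ((l'.2 - l.2) / (l.1 - l'.1), l.1 * ((l'.2 - l.2) / (l.1 - l'.1)) + l.2),
      rfl, ?_⟩
    show l.1 * ((l'.2 - l.2) / (l.1 - l'.1)) + l.2 = l'.1 * ((l'.2 - l.2) / (l.1 - l'.1)) + l'.2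
    field_simp
    ring

open Classical in
theorem lines_through {p : ℕ} [Fact p.Prime] (x : Pt p) :
    #(Finset.univ.filter (fun l : Ln p => On l x)) ≤ p := by
  have hc : #(Finset.univ : Finset (ZMod p)) = p := by
    rw [Finset.card_univ, ZMod.card]
  calc #(Finset.univ.filter (fun l : Ln p => On l x)) ≤ #(Finset.univ : Finset (ZMod p)) := ?_
    _ = p := hc
  rcases x with q | a
  · apply Finset.card_le_card_of_injOn (fun l => l.1) (fun _ _ => Finset.mem_univ _)
    intro l hl l' hl' h
    have h1 : q.2 = l.1 * q.1 + l.2 := (Finset.mem_filter.1 hl).2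
    have h2 : q.2 = l'.1 * q.1 + l'.2 := (Finset.mem_filter.1 hl').2
    simp only at h
    refine Prod.ext h ?_
    rw [h1, h] at h2
    exact add_left_cancel h2
  · apply Finset.card_le_card_of_injOn (fun l => l.2) (fun _ _ => Finset.mem_univ _)
    intro l hl l' hl' h
    have h1 : a = l.1 := (Finset.mem_filter.1 hl).2
    have h2 : a = l'.1 := (Finset.mem_filter.1 hl').2
    exact Prod.ext (h1.symm.trans h2) h

/-! ### Majority sets -/

/-- The subsets of `Fin (2 t + 1)` with `t + 1` elements. -/
abbrev Am (t : ℕ) := {A : Finset (Fin (2 * t + 1)) // #A = t + 1}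

theorem card_Am (t : ℕ) : Fintype.card (Am t) = (2 * t + 1).choose (t + 1) := by
  rw [Fintype.card_finset_len, Fintype.card_fin]

theorem Am_inter {t : ℕ} (A B : Am t) : (A.1 ∩ B.1).Nonempty := by
  rw [← Finset.card_pos]
  have h := Finset.card_union_add_card_inter A.1 B.1
  have h2 : #(A.1 ∪ B.1) ≤ 2 * t + 1 := by
    calc #(A.1 ∪ B.1) ≤ #(Finset.univ : Finset (Fin (2 * t + 1))) :=
          Finset.card_le_card (Finset.subset_univ _)
      _ = _ := by rw [Finset.card_univ, Fintype.card_fin]
  rw [A.2, B.2] at h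
  omega

theorem card_avoid {t : ℕ} (T : Finset (Fin (2 * t + 1))) :
    #(Finset.univ.filter (fun A : Am t => Disjoint A.1 T)) = (2 * t + 1 - #T).choose (t + 1) := by
  have h : #(Finset.univ.filter (fun A : Am t => Disjoint A.1 T))
      = #(Finset.powersetCard (t + 1) Tᶜ) := by
    apply Finset.card_bij (fun A _ => A.1)
    · intro A hA
      rw [Finset.mem_powersetCard]
      refine ⟨?_, A.2⟩
      have := (Finset.mem_filter.1 hA).2
      intro i hi
      rw [Finset.mem_compl]
      exact Finset.disjoint_left.1 this hi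
    · intro A _ B _ h
      exact Subtype.ext h
    · intro B hB
      rw [Finset.mem_powersetCard] at hB
      refine ⟨⟨B, hB.2⟩, ?_, rfl⟩
      rw [Finset.mem_filter]
      refine ⟨Finset.mem_univ _, ?_⟩
      rw [Finset.disjoint_left]
      intro i hi hiT
      exact (Finset.mem_compl.1 (hB.1 hi)) hiT
  rw [h, Finset.card_powersetCard, Finset.card_compl, Fintype.card_fin]

/-! ### Types -/

/-- The types of vertices. -/
abbrev Ty (p t : ℕ) := Ln p × (Pt p → Am t)

section count

variable {p t : ℕ} [Fact p.Prime]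

open Classical in
/-- The types whose colour set avoids `T`. -/
noncomputable def miss (T : Pt p → Finset (Fin (2 * t + 1))) : Finset (Ty p t) :=
  Finset.univ.filter (fun τ => ∀ x, On τ.1 x → Disjoint (τ.2 x).1 (T x))

open Classical in
/-- The weight of a line. -/
noncomputable def wgt (T : Pt p → Finset (Fin (2 * t + 1))) (l : Ln p) : ℕ :=
  ∑ x, if On l x then #(T x) else 0

open Classical in
theorem sum_wgt (T : Pt p → Finset (Fin (2 * t + 1))) :
    ∑ l, wgt T l ≤ p * ∑ x, #(T x) := by
  unfold wgt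
  rw [Finset.sum_comm, Finset.mul_sum]
  apply Finset.sum_le_sum
  intro x _
  rw [← Finset.sum_filter, Finset.sum_const, smul_eq_mul]
  exact Nat.mul_le_mul_right _ (lines_through x)

open Classical in
theorem line_count (T : Pt p → Finset (Fin (2 * t + 1))) (l : Ln p) (hl : 2 * wgt T l ≤ t) :
    Fintype.card (Am t) ^ Fintype.card (Pt p) ≤ 6 ^ t *
      #(Finset.univ.filter (fun A : Pt p → Am t => ∀ x, On l x → Disjoint (A x).1 (T x))) := by
  have h1 : Finset.univ.filter (fun A : Pt p → Am t => ∀ x, On l x → Disjoint (A x).1 (T x))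
      = Fintype.piFinset (fun x => Finset.univ.filter
        (fun A : Am t => On l x → Disjoint A.1 (T x))) := by
    ext A
    simp [Fintype.mem_piFinset]
  rw [h1, Fintype.card_piFinset]
  have hx : ∀ x, On l x → #(T x) ≤ wgt T l := by
    intro x hx
    unfold wgt
    calc #(T x) = (if On l x then #(T x) else 0) := by rw [if_pos hx]
      _ ≤ _ := Finset.single_le_sum (f := fun x => if On l x then #(T x) else 0)
          (fun _ _ => Nat.zero_le _) (Finset.mem_univ x)
  have h2 : ∀ x, Fintype.card (Am t) ≤ 6 ^ (if On l x then #(T x) else 0) *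
      #(Finset.univ.filter (fun A : Am t => On l x → Disjoint A.1 (T x))) := by
    intro x
    by_cases h : On l x
    · rw [if_pos h]
      have h3 : Finset.univ.filter (fun A : Am t => On l x → Disjoint A.1 (T x))
          = Finset.univ.filter (fun A : Am t => Disjoint A.1 (T x)) := by
        ext A; simp [h]
      rw [h3, card_avoid, card_Am]
      exact choose_ineq t _ (by have := hx x h; omega)
    · rw [if_neg h]
      have h3 : Finset.univ.filter (fun A : Am t => On l x → Disjoint A.1 (T x))
          = Finset.univ := by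
        ext A; simp [h]
      rw [h3, pow_zero, one_mul, Finset.card_univ]
  calc Fintype.card (Am t) ^ Fintype.card (Pt p)
      = ∏ x : Pt p, Fintype.card (Am t) := by rw [Finset.prod_const, Finset.card_univ]
    _ ≤ ∏ x : Pt p, (6 ^ (if On l x then #(T x) else 0) *
        #(Finset.univ.filter (fun A : Am t => On l x → Disjoint A.1 (T x)))) :=
        Finset.prod_le_prod' (fun x _ => h2 x)
    _ = 6 ^ (wgt T l) *
        ∏ x : Pt p, #(Finset.univ.filter (fun A : Am t => On l x → Disjoint A.1 (T x))) := by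
        rw [Finset.prod_mul_distrib, Finset.prod_pow_eq_pow_sum]; rfl
    _ ≤ _ := Nat.mul_le_mul_right _ (Nat.pow_le_pow_right (by norm_num) (by omega))

open Classical in
theorem card_miss (T : Pt p → Finset (Fin (2 * t + 1))) {s : ℕ} (hs : ∑ x, #(T x) ≤ s)
    (hpt : 4 * s ≤ p * t) (ht : 0 < t) :
    Fintype.card (Ty p t) ≤ 2 * 6 ^ t * #(miss T) := by
  set K := Fintype.card (Am t) ^ Fintype.card (Pt p) with hK
  set good := Finset.univ.filter (fun l : Ln p => 2 * wgt T l ≤ t) with hgood
  have hTy : Fintype.card (Ty p t) = Fintype.card (Ln p) * K := by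
    rw [Fintype.card_prod, Fintype.card_fun]
  have hLn : Fintype.card (Ln p) = p * p := by
    rw [Fintype.card_prod, ZMod.card]
  -- number of good lines
  have hgc : Fintype.card (Ln p) ≤ 2 * Finset.card good := by
    have hbad : t * #(Finset.univ.filter (fun l : Ln p => ¬ 2 * wgt T l ≤ t)) ≤
        2 * (p * s) := by
      calc t * #(Finset.univ.filter (fun l : Ln p => ¬ 2 * wgt T l ≤ t))
          = ∑ l ∈ Finset.univ.filter (fun l : Ln p => ¬ 2 * wgt T l ≤ t), t := by
            rw [Finset.sum_const, smul_eq_mul, mul_comm]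
        _ ≤ ∑ l ∈ Finset.univ.filter (fun l : Ln p => ¬ 2 * wgt T l ≤ t), 2 * wgt T l := by
            apply Finset.sum_le_sum
            intro l hl
            have := (Finset.mem_filter.1 hl).2
            omega
        _ ≤ ∑ l, 2 * wgt T l :=
            Finset.sum_le_sum_of_subset (Finset.filter_subset _ _)
        _ = 2 * ∑ l, wgt T l := by rw [Finset.mul_sum]
        _ ≤ 2 * (p * ∑ x, #(T x)) := Nat.mul_le_mul_left _ (sum_wgt T)
        _ ≤ 2 * (p * s) := Nat.mul_le_mul_left _ (Nat.mul_le_mul_left _ hs)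
    have hsplit := Finset.card_filter_add_card_filter_not (s := (Finset.univ : Finset (Ln p)))
      (fun l => 2 * wgt T l ≤ t)
    rw [Finset.card_univ] at hsplit
    have h2 : 2 * #(Finset.univ.filter (fun l : Ln p => ¬ 2 * wgt T l ≤ t)) ≤ p * p := by
      have h3 : t * (2 * #(Finset.univ.filter (fun l : Ln p => ¬ 2 * wgt T l ≤ t))) ≤
          t * (p * p) := by
        calc t * (2 * #(Finset.univ.filter (fun l : Ln p => ¬ 2 * wgt T l ≤ t)))
            = 2 * (t * #(Finset.univ.filter (fun l : Ln p => ¬ 2 * wgt T l ≤ t))) := by ring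
          _ ≤ 2 * (2 * (p * s)) := Nat.mul_le_mul_left _ hbad
          _ = p * (4 * s) := by ring
          _ ≤ p * (p * t) := Nat.mul_le_mul_left _ hpt
          _ = t * (p * p) := by ring
      exact Nat.le_of_mul_le_mul_left h3 ht
    rw [hLn] at hsplit ⊢
    rw [← hgood] at hsplit
    omega
  have hmiss : Finset.card good * K ≤ 6 ^ t * #(miss T) := by
    have h1 : ∑ l : Ln p, #(Finset.univ.filter
        (fun A : Pt p → Am t => ∀ x, On l x → Disjoint (A x).1 (T x))) = #(miss T) := by
      symm
      unfold miss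
      rw [Finset.card_filter, Fintype.sum_prod_type]
      apply Finset.sum_congr rfl
      intro l _
      rw [Finset.card_filter]
    rw [← h1, Finset.mul_sum]
    calc Finset.card good * K = ∑ l ∈ good, K := by rw [Finset.sum_const, smul_eq_mul]
      _ ≤ ∑ l ∈ good, 6 ^ t * #(Finset.univ.filter
        (fun A : Pt p → Am t => ∀ x, On l x → Disjoint (A x).1 (T x))) := by
          apply Finset.sum_le_sum
          intro l hl
          exact line_count T l (Finset.mem_filter.1 hl).2
      _ ≤ _ := Finset.sum_le_sum_of_subset (Finset.filter_subset _ _)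
  calc Fintype.card (Ty p t) = Fintype.card (Ln p) * K := hTy
    _ ≤ (2 * Finset.card good) * K := Nat.mul_le_mul_right _ hgc
    _ = 2 * (Finset.card good * K) := by ring
    _ ≤ 2 * (6 ^ t * #(miss T)) := Nat.mul_le_mul_left _ hmiss
    _ = _ := by ring

end count

/-! ### The colouring -/

/-- An element of a set of colours. -/
noncomputable def pick {r : ℕ} (d : Fin r) (s : Finset (Fin r)) : Fin r :=
  if h : s.Nonempty then s.min' h else d

theorem pick_mem {r : ℕ} (d : Fin r) {s : Finset (Fin r)} (h : s.Nonempty) : pick d s ∈ s := by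
  unfold pick
  rw [dif_pos h]
  exact Finset.min'_mem s h

open Classical in
/-- The colour set of a type. -/
noncomputable def colset {p t r : ℕ} [Fact p.Prime] (φ : Pt p × Fin (2 * t + 1) ↪ Fin r)
    (τ : Ty p t) : Finset (Fin r) :=
  (Finset.univ.filter (fun q : Pt p × Fin (2 * t + 1) => On τ.1 q.1 ∧ q.2 ∈ (τ.2 q.1).1)).map φ

theorem colset_inter {p t r : ℕ} [Fact p.Prime] (φ : Pt p × Fin (2 * t + 1) ↪ Fin r)
    (τ τ' : Ty p t) : (colset φ τ ∩ colset φ τ').Nonempty := by
  classical
  obtain ⟨x, hx, hx'⟩ := common τ.1 τ'.1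
  obtain ⟨i, hi⟩ := Am_inter (τ.2 x) (τ'.2 x)
  rw [Finset.mem_inter] at hi
  refine ⟨φ (x, i), ?_⟩
  unfold colset
  rw [Finset.mem_inter]
  exact ⟨Finset.mem_map_of_mem φ (Finset.mem_filter.2 ⟨Finset.mem_univ _, hx, hi.1⟩),
    Finset.mem_map_of_mem φ (Finset.mem_filter.2 ⟨Finset.mem_univ _, hx', hi.2⟩)⟩

open Classical in
/-- The number of vertices covered by the set of colours `S`. -/
noncomputable def covered {n r : ℕ} (c : Fin n → Fin n → Fin r) (S : Finset (Fin r)) : ℕ :=
  #(Finset.univ.filter (fun v : Fin n => ∃ u, u ≠ v ∧ c v u ∈ S))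

theorem exists_colouring {p t r s : ℕ} (hp : p.Prime) (ht : 0 < t)
    (hr : (p * p + p) * (2 * t + 1) ≤ r) (hpt : 4 * s ≤ p * t) :
    ∃ n₀ : ℕ, ∀ n ≥ n₀, ∃ c : Fin n → Fin n → Fin r, (∀ u v, c u v = c v u) ∧
      ∀ S : Finset (Fin r), #S ≤ s → n ≤ 4 * 6 ^ t * (n - covered c S) := by
  classical
  have : Fact p.Prime := ⟨hp⟩
  have hcard : Fintype.card (Pt p × Fin (2 * t + 1)) ≤ Fintype.card (Fin r) := by
    rw [Fintype.card_prod, Fintype.card_sum, Fintype.card_prod, ZMod.card, Fintype.card_fin,
      Fintype.card_fin]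
    exact hr
  obtain ⟨φ⟩ := Function.Embedding.nonempty_of_card_le hcard
  have hrpos : 0 < r := by
    have : 0 < (p * p + p) * (2 * t + 1) := by
      have := hp.pos
      positivity
    omega
  set d : Fin r := ⟨0, hrpos⟩
  set N := Fintype.card (Ty p t) with hN
  have hNpos : 0 < N := by
    rw [hN, Fintype.card_pos_iff]
    have : Nonempty (Am t) := by
      rw [← Fintype.card_pos_iff, card_Am]
      exact Nat.choose_pos (by omega)
    exact ⟨((0, 0), fun _ => Classical.choice this)⟩
  set e : Ty p t ≃ Fin N := Fintype.equivFin _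
  refine ⟨N, fun n hn => ?_⟩
  set τ : Fin n → Ty p t := fun v => e.symm ⟨v.1 % N, Nat.mod_lt _ hNpos⟩ with hτ
  refine ⟨fun u v => pick d (colset φ (τ u) ∩ colset φ (τ v)), ?_, ?_⟩
  · intro u v
    simp only
    rw [Finset.inter_comm]
  intro S hS
  set c : Fin n → Fin n → Fin r := fun u v => pick d (colset φ (τ u) ∩ colset φ (τ v)) with hc
  set T : Pt p → Finset (Fin (2 * t + 1)) :=
    fun x => Finset.univ.filter (fun i => φ (x, i) ∈ S) with hT
  have hTs : ∑ x, #(T x) ≤ s := by
    refine le_trans ?_ hS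
    have h1 : ∑ x, #(T x) = #(Finset.univ.filter
        (fun q : Pt p × Fin (2 * t + 1) => φ q ∈ S)) := by
      rw [Finset.card_filter, Fintype.sum_prod_type]
      apply Finset.sum_congr rfl
      intro x _
      rw [hT]
      simp only
      rw [Finset.card_filter]
    rw [h1]
    apply Finset.card_le_card_of_injOn φ
    · intro q hq
      exact (Finset.mem_filter.1 hq).2
    · exact φ.injective.injOn
  have hM := card_miss T hTs hpt ht
  rw [← hN] at hM
  -- vertices with missing types are not covered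
  have huncov : ∀ v : Fin n, τ v ∈ miss T → ¬ ∃ u, u ≠ v ∧ c v u ∈ S := by
    rintro v hv ⟨u, -, hu⟩
    have h1 : c v u ∈ colset φ (τ v) ∩ colset φ (τ u) := pick_mem d (colset_inter φ _ _)
    have h2 := (Finset.mem_inter.1 h1).1
    unfold colset at h2
    rw [Finset.mem_map] at h2
    obtain ⟨⟨x, i⟩, hxi, hφ⟩ := h2
    have h3 := (Finset.mem_filter.1 hxi).2
    have h4 := (Finset.mem_filter.1 hv).2 x h3.1
    refine Finset.disjoint_left.1 h4 h3.2 ?_
    rw [hT]
    simp only [Finset.mem_filter, Finset.mem_univ, true_and]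
    rw [hφ]
    exact hu
  have hUcard : #(Finset.univ.filter (fun v : Fin n => τ v ∈ miss T)) ≤ n - covered c S := by
    have h1 := Finset.card_filter_add_card_filter_not (s := (Finset.univ : Finset (Fin n)))
      (fun v => ∃ u, u ≠ v ∧ c v u ∈ S)
    rw [Finset.card_univ, Fintype.card_fin] at h1
    have h2 : #(Finset.univ.filter (fun v : Fin n => τ v ∈ miss T)) ≤
        #(Finset.univ.filter (fun v : Fin n => ¬ ∃ u, u ≠ v ∧ c v u ∈ S)) := by
      apply Finset.card_le_card
      intro v hv
      rw [Finset.mem_filter] at hv ⊢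
      exact ⟨hv.1, huncov v hv.2⟩
    unfold covered
    omega
  -- count the vertices with missing types
  have hcount : (n / N) * #(miss T) ≤ #(Finset.univ.filter (fun v : Fin n => τ v ∈ miss T)) := by
    have hlt : ∀ q : Fin (n / N) × Ty p t, q.1.1 * N + (e q.2).1 < n := by
      intro q
      have h1 := q.1.2
      have h2 := (e q.2).2
      have h3 : (q.1.1 + 1) * N ≤ (n / N) * N := Nat.mul_le_mul_right _ h1
      have h4 : (n / N) * N ≤ n := Nat.div_mul_le_self n N
      have h5 : (q.1.1 + 1) * N = q.1.1 * N + N := by ring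
      omega
    have hmod : ∀ q : Fin (n / N) × Ty p t, (q.1.1 * N + (e q.2).1) % N = (e q.2).1 := by
      intro q
      rw [Nat.mul_comm, Nat.mul_add_mod, Nat.mod_eq_of_lt (e q.2).2]
    have h1 : (n / N) * #(miss T) = #((Finset.univ : Finset (Fin (n / N))) ×ˢ (miss T)) := by
      rw [Finset.card_product, Finset.card_univ, Fintype.card_fin]
    rw [h1]
    apply Finset.card_le_card_of_injOn (fun q => (⟨q.1.1 * N + (e q.2).1, hlt q⟩ : Fin n))
    · intro q hq
      have hq2 := (Finset.mem_product.1 hq).2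
      rw [Finset.mem_coe, Finset.mem_filter]
      refine ⟨Finset.mem_univ _, ?_⟩
      have : τ ⟨q.1.1 * N + (e q.2).1, hlt q⟩ = q.2 := by
        rw [hτ]
        simp only
        have : (⟨(q.1.1 * N + (e q.2).1) % N, Nat.mod_lt _ hNpos⟩ : Fin N) = e q.2 :=
          Fin.ext (hmod q)
        rw [this, Equiv.symm_apply_apply]
      rw [this]
      exact hq2
    · intro q _ q' _ h
      have h0 : q.1.1 * N + (e q.2).1 = q'.1.1 * N + (e q'.2).1 := congrArg Fin.val h
      have h2 : (e q.2).1 = (e q'.2).1 := by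
        rw [← hmod q, ← hmod q', h0]
      have h3 : q.1.1 = q'.1.1 := by
        rw [h2] at h0
        exact Nat.eq_of_mul_eq_mul_right hNpos (Nat.add_right_cancel h0)
      exact Prod.ext (Fin.ext h3) (e.injective (Fin.ext h2))
  -- conclusion
  have hdiv : n ≤ 2 * ((n / N) * N) := by
    have h1 := Nat.div_add_mod n N
    have h2 := Nat.mod_lt n hNpos
    have h3 : 1 ≤ n / N := (Nat.one_le_div_iff hNpos).2 hn
    have h4 : N ≤ (n / N) * N := by
      calc N = 1 * N := (one_mul N).symm
        _ ≤ _ := Nat.mul_le_mul_right _ h3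
    have h5 : N * (n / N) = (n / N) * N := Nat.mul_comm _ _
    omega
  calc n ≤ 2 * ((n / N) * N) := hdiv
    _ ≤ 2 * ((n / N) * (2 * 6 ^ t * #(miss T))) :=
        Nat.mul_le_mul_left _ (Nat.mul_le_mul_left _ hM)
    _ = 4 * 6 ^ t * ((n / N) * #(miss T)) := by ring
    _ ≤ 4 * 6 ^ t * (n - covered c S) := Nat.mul_le_mul_left _ (hcount.trans hUcard)

end Pool.Agent.X78.CoverCol
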