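import Mathlib

/-!
Random subsets of a finite set: weights, probabilities, union bounds.
-/

namespace Pool.Agent.X78.RandSub

open Finset

set_option linter.unusedSectionVars false

variable {α : Type*} [DecidableEq α]

/-- The probability that the `p`-random subset of `U` equals `A` (for `A ⊆ U`). -/
noncomputable def wt (p : ℝ) (U A : Finset α) : ℝ := p ^ (Finset.card A) * (1 - p) ^ (Finset.card U - Finset.card A)

theorem wt_nonneg {p : ℝ} (h0 : 0 ≤ p) (h1 : p ≤ 1) (U A : Finset α) : 0 ≤ wt p U A :=
  mul_nonneg (pow_nonneg h0 _) (pow_nonneg (by linarith) _)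

theorem sum_wt (p : ℝ) (U : Finset α) : ∑ A ∈ U.powerset, wt p U A = 1 := by
  unfold wt
  rw [Finset.sum_pow_mul_eq_add_pow]
  simp

open Classical in
/-- Probability of a property `Q` of the `p`-random subset of `U`. -/
noncomputable def pr (p : ℝ) (U : Finset α) (Q : Finset α → Prop) : ℝ :=
  ∑ A ∈ U.powerset with Q A, wt p U A

theorem pr_eq_sum (p : ℝ) (U : Finset α) {Q : Finset α → Prop} (S : Finset (Finset α))
    (h : ∀ A, A ∈ S ↔ A ⊆ U ∧ Q A) : pr p U Q = ∑ A ∈ S, wt p U A := by
  classical
  unfold pr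
  apply Finset.sum_congr _ fun _ _ => rfl
  ext A
  rw [Finset.mem_filter, Finset.mem_powerset, h]

theorem pr_mono {p : ℝ} (h0 : 0 ≤ p) (h1 : p ≤ 1) (U : Finset α) {Q R : Finset α → Prop}
    (h : ∀ A, A ⊆ U → Q A → R A) : pr p U Q ≤ pr p U R := by
  classical
  unfold pr
  apply Finset.sum_le_sum_of_subset_of_nonneg
  · intro A hA
    rw [Finset.mem_filter, Finset.mem_powerset] at hA ⊢
    exact ⟨hA.1, h A hA.1 hA.2⟩
  · exact (fun A _ _ => wt_nonneg h0 h1 U A)

theorem exists_of_pr_lt_one {p : ℝ} (U : Finset α) {Q : Finset α → Prop} (h : pr p U Q < 1) :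
    ∃ A ⊆ U, ¬ Q A := by
  classical
  by_contra hcon
  push Not at hcon
  have : pr p U Q = 1 := by
    unfold pr
    rw [← sum_wt p U]
    congr 1
    apply Finset.filter_true_of_mem
    intro A hA
    exact hcon A (Finset.mem_powerset.1 hA)
  linarith

theorem pr_eq_ite (p : ℝ) (U : Finset α) (Q : Finset α → Prop) [DecidablePred Q] :
    pr p U Q = ∑ A ∈ U.powerset, if Q A then wt p U A else 0 := by
  rw [← Finset.sum_filter]
  exact pr_eq_sum p U _ (fun A => by rw [Finset.mem_filter, Finset.mem_powerset])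

theorem pr_or_le {p : ℝ} (h0 : 0 ≤ p) (h1 : p ≤ 1) (U : Finset α) (Q R : Finset α → Prop) :
    pr p U (fun A => Q A ∨ R A) ≤ pr p U Q + pr p U R := by
  classical
  rw [pr_eq_ite, pr_eq_ite p U Q, pr_eq_ite p U R, ← Finset.sum_add_distrib]
  apply Finset.sum_le_sum
  intro A _
  have := wt_nonneg h0 h1 U A
  by_cases hQ : Q A <;> by_cases hR : R A <;> simp [hQ, hR, this]

theorem pr_exists_le {p : ℝ} (h0 : 0 ≤ p) (h1 : p ≤ 1) (U : Finset α) {ι : Type*} (I : Finset ι)
    (Q : ι → Finset α → Prop) :
    pr p U (fun A => ∃ i ∈ I, Q i A) ≤ ∑ i ∈ I, pr p U (Q i) := by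
  classical
  have h : ∀ i ∈ I, pr p U (Q i) = ∑ A ∈ U.powerset, if Q i A then wt p U A else 0 :=
    fun i _ => pr_eq_ite p U (Q i)
  rw [Finset.sum_congr rfl h, Finset.sum_comm, pr_eq_ite]
  apply Finset.sum_le_sum
  intro A _
  split_ifs with hA
  · obtain ⟨i, hi, hQ⟩ := hA
    refine le_trans ?_ (Finset.single_le_sum (f := fun i => if Q i A then wt p U A else 0) ?_ hi)
    · simp only [if_pos hQ, le_refl]
    · intro j _
      show 0 ≤ if Q j A then wt p U A else 0
      split_ifs
      · exact wt_nonneg h0 h1 U A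
      · exact le_rfl
  · apply Finset.sum_nonneg
    intro j _
    split_ifs
    · exact wt_nonneg h0 h1 U A
    · exact le_rfl

theorem pr_superset (p : ℝ) {U F : Finset α} (hF : F ⊆ U) :
    pr p U (fun A => F ⊆ A) = p ^ (Finset.card F) := by
  classical
  rw [pr_eq_sum p U ((U \ F).powerset.image (F ∪ ·)) (by
    intro A
    rw [← Finset.Icc_eq_image_powerset hF, Finset.mem_Icc]
    tauto), Finset.sum_image]
  · have h2 : ∀ B ∈ (U \ F).powerset, wt p U (F ∪ B)
        = p ^ (Finset.card F) * (p ^ (Finset.card B) * (1 - p) ^ (Finset.card (U \ F) - Finset.card B)) := by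
      intro B hB
      rw [Finset.mem_powerset] at hB
      have hd : Disjoint F B := by
        rw [Finset.disjoint_left]
        intro x hx hxB
        exact (Finset.mem_sdiff.1 (hB hxB)).2 hx
      unfold wt
      rw [Finset.card_union_of_disjoint hd, Finset.card_sdiff_of_subset hF, pow_add, mul_assoc]
      congr 3
      omega
    rw [Finset.sum_congr rfl h2, ← Finset.mul_sum, Finset.sum_pow_mul_eq_add_pow]
    simp
  · intro B hB C hC hBC
    simp only [Finset.coe_powerset, Set.mem_preimage, Set.mem_powerset_iff,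
      Finset.coe_subset] at hB hC
    have hdB : Disjoint F B := by
      rw [Finset.disjoint_left]
      intro x hx hxB
      exact (Finset.mem_sdiff.1 (hB hxB)).2 hx
    have hdC : Disjoint F C := by
      rw [Finset.disjoint_left]
      intro x hx hxB
      exact (Finset.mem_sdiff.1 (hC hxB)).2 hx
    have hB' : B = (F ∪ B) \ F := by
      rw [Finset.union_sdiff_left, Finset.sdiff_eq_self_of_disjoint hdB.symm]
    have hC' : C = (F ∪ C) \ F := by
      rw [Finset.union_sdiff_left, Finset.sdiff_eq_self_of_disjoint hdC.symm]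
    rw [hB', hC']
    simp only at hBC
    rw [hBC]

theorem pr_superset_le {p : ℝ} (h0 : 0 ≤ p) (U F : Finset α) :
    pr p U (fun A => F ⊆ A) ≤ p ^ (Finset.card F) := by
  by_cases hF : F ⊆ U
  · exact (pr_superset p hF).le
  · rw [pr_eq_sum p U ∅ (by
      intro A
      simp only [Finset.notMem_empty, false_iff, not_and]
      exact fun hA hFA => hF (hFA.trans hA)), Finset.sum_empty]
    exact pow_nonneg h0 _

theorem pr_disjoint (p : ℝ) {U F : Finset α} (hF : F ⊆ U) :
    pr p U (fun A => Disjoint F A) = (1 - p) ^ (Finset.card F) := by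
  classical
  rw [pr_eq_sum p U (U \ F).powerset (by
    intro A
    rw [Finset.mem_powerset, Finset.subset_sdiff, disjoint_comm])]
  have h2 : ∀ B ∈ (U \ F).powerset, wt p U B
      = (1 - p) ^ (Finset.card F) * (p ^ (Finset.card B) * (1 - p) ^ (Finset.card (U \ F) - Finset.card B)) := by
    intro B hB
    rw [Finset.mem_powerset] at hB
    have hB1 := Finset.card_le_card hB
    have hF1 := Finset.card_le_card hF
    have hc := Finset.card_sdiff_of_subset hF
    unfold wt
    have : Finset.card U - Finset.card B = Finset.card F + (Finset.card (U \ F) - Finset.card B) := by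
      omega
    rw [this, pow_add]
    ring
  rw [Finset.sum_congr rfl h2, ← Finset.mul_sum, Finset.sum_pow_mul_eq_add_pow]
  simp

end Pool.Agent.X78.RandSub
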