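import Mathlib
import Pool.Agent.X78.RandSub

/-!
Sum-free sets in finite groups of exponent two which meet all sets of a given family.
-/

namespace Pool.Agent.X78.SumFreeHit

open Finset Pool.Agent.X78.RandSub

theorem exists_hitting {ι α : Type*} [DecidableEq α] (T : Finset ι) (F : ι → Finset α)
    (k s : ℕ) (hne : ∀ i ∈ T, (F i).Nonempty) (hcard : ∀ i ∈ T, Finset.card (F i) ≤ k)
    (hns : ∀ P ⊆ T, Finset.card P = s → ¬ (P : Set ι).PairwiseDisjoint F) :
    ∃ W : Finset α, Finset.card W ≤ k * s ∧ (∀ w ∈ W, ∃ i ∈ T, w ∈ F i) ∧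
      ∀ i ∈ T, ∃ w ∈ F i, w ∈ W := by
  classical
  obtain ⟨P, hP, hmax⟩ := Finset.exists_max_image
    (T.powerset.filter (fun P : Finset ι => (P : Set ι).PairwiseDisjoint F)) Finset.card
    ⟨∅, by simp⟩
  rw [Finset.mem_filter, Finset.mem_powerset] at hP
  have hPs : Finset.card P < s := by
    by_contra hcon
    push Not at hcon
    obtain ⟨P', hP'1, hP'2⟩ := Finset.exists_subset_card_eq hcon
    exact hns P' (hP'1.trans hP.1) hP'2 (hP.2.subset (Finset.coe_subset.2 hP'1))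
  refine ⟨P.biUnion F, ?_, ?_, ?_⟩
  · calc Finset.card (P.biUnion F) ≤ ∑ i ∈ P, Finset.card (F i) := Finset.card_biUnion_le
      _ ≤ ∑ i ∈ P, k := Finset.sum_le_sum fun i hi => hcard i (hP.1 hi)
      _ = Finset.card P * k := by simp
      _ ≤ k * s := by rw [mul_comm]; exact Nat.mul_le_mul_left _ hPs.le
  · intro w hw
    obtain ⟨i, hi, hwi⟩ := Finset.mem_biUnion.1 hw
    exact ⟨i, hP.1 hi, hwi⟩
  · intro i hi
    by_contra hcon
    push Not at hcon
    have hiP : i ∉ P := by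
      intro hiP
      obtain ⟨w, hw⟩ := hne i hi
      exact hcon w hw (Finset.mem_biUnion.2 ⟨i, hiP, hw⟩)
    have h1 : insert i P ∈ T.powerset.filter
        (fun P : Finset ι => (P : Set ι).PairwiseDisjoint F) := by
      rw [Finset.mem_filter, Finset.mem_powerset]
      refine ⟨Finset.insert_subset hi hP.1, ?_⟩
      rw [Finset.coe_insert, Set.pairwiseDisjoint_insert]
      refine ⟨hP.2, fun j hj _ => ?_⟩
      rw [Finset.disjoint_left]
      intro w hw hwj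
      exact hcon w hw (Finset.mem_biUnion.2 ⟨j, hj, hwj⟩)
    have h2 := hmax _ h1
    rw [Finset.card_insert_of_notMem hiP] at h2
    omega

set_option linter.unusedSectionVars false

variable {G : Type*} [AddCommGroup G] [Fintype G] [DecidableEq G]

/-- Bad event: many disjoint pairs with sum `w`. -/
def E1 (T : ℕ) (A : Finset G) : Prop :=
  ∃ q ∈ (Finset.univ : Finset G) ×ˢ Finset.powersetCard T (Finset.univ : Finset G), q.1 ≠ 0 ∧
    (q.2 : Set G).PairwiseDisjoint (fun y => ({y, y + q.1} : Finset G)) ∧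
    q.2.biUnion (fun y => ({y, y + q.1} : Finset G)) ⊆ A

/-- The triple. -/
def tri (q : G × G) : Finset G := {q.1, q.2, q.1 + q.2}

/-- Bad event: many disjoint triples which meet `V`. -/
def E3 (s : ℕ) (V A : Finset G) : Prop :=
  ∃ P ∈ Finset.powersetCard s (V ×ˢ (Finset.univ : Finset G)),
    (P : Set (G × G)).PairwiseDisjoint tri ∧ (∀ q ∈ P, Finset.card (tri q) = 3) ∧
    P.biUnion tri ⊆ A

/-- Bad event: few points in `V`. -/
def E2 (m : ℕ) (V A : Finset G) : Prop :=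
  ∃ S ∈ Finset.powersetCard m V, Disjoint (V \ S) A

theorem choose_le (n k : ℕ) : ((n.choose k : ℕ) : ℝ) ≤ (n : ℝ) ^ k := by
  have h := Nat.choose_le_pow_div (α := ℝ) k n
  refine h.trans (div_le_self (by positivity) ?_)
  exact_mod_cast Nat.one_le_iff_ne_zero.2 (Nat.factorial_ne_zero k)

theorem pr_E1 {p : ℝ} (h0 : 0 ≤ p) (h1 : p ≤ 1) (U : Finset G) (T : ℕ) :
    pr p U (E1 T) ≤ (Fintype.card G : ℝ) * ((Fintype.card G : ℝ) * p ^ 2) ^ T := by
  classical
  unfold E1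
  refine (pr_exists_le h0 h1 U _ _).trans ?_
  have h : ∀ q ∈ (Finset.univ : Finset G) ×ˢ Finset.powersetCard T (Finset.univ : Finset G),
      pr p U (fun A => q.1 ≠ 0 ∧
        (q.2 : Set G).PairwiseDisjoint (fun y => ({y, y + q.1} : Finset G)) ∧
        q.2.biUnion (fun y => ({y, y + q.1} : Finset G)) ⊆ A) ≤ p ^ (2 * T) := by
    intro q hq
    rw [Finset.mem_product, Finset.mem_powersetCard] at hq
    by_cases hc : q.1 ≠ 0 ∧ (q.2 : Set G).PairwiseDisjoint (fun y => ({y, y + q.1} : Finset G))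
    · refine (pr_mono h0 h1 U (fun A _ hA => hA.2.2)).trans ((pr_superset_le h0 U _).trans ?_)
      rw [Finset.card_biUnion hc.2, Finset.sum_congr rfl (g := fun _ => 2), Finset.sum_const,
        hq.2.2, smul_eq_mul, mul_comm]
      intro y _
      apply Finset.card_pair
      intro hy
      exact hc.1 (by simpa using hy.symm)
    · rw [pr_eq_sum p U ∅ (by
        intro A
        simp only [Finset.notMem_empty, false_iff, not_and]
        exact fun _ h2 h3 => absurd ⟨h2, h3⟩ hc), Finset.sum_empty]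
      exact pow_nonneg h0 _
  refine (Finset.sum_le_sum h).trans ?_
  rw [Finset.sum_const, Finset.card_product, Finset.card_powersetCard, Finset.card_univ,
    nsmul_eq_mul, Nat.cast_mul, mul_assoc]
  apply mul_le_mul_of_nonneg_left _ (Nat.cast_nonneg _)
  calc (((Fintype.card G).choose T : ℕ) : ℝ) * p ^ (2 * T)
      ≤ (Fintype.card G : ℝ) ^ T * p ^ (2 * T) :=
        mul_le_mul_of_nonneg_right (choose_le _ _) (pow_nonneg h0 _)
    _ = ((Fintype.card G : ℝ) * p ^ 2) ^ T := by rw [pow_mul, ← mul_pow]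

theorem pr_E3 {p : ℝ} (h0 : 0 ≤ p) (h1 : p ≤ 1) (U V : Finset G) (s : ℕ) :
    pr p U (E3 s V) ≤ ((Finset.card V : ℝ) * (Fintype.card G : ℝ) * p ^ 3) ^ s := by
  classical
  unfold E3
  refine (pr_exists_le h0 h1 U _ _).trans ?_
  have h : ∀ P ∈ Finset.powersetCard s (V ×ˢ (Finset.univ : Finset G)),
      pr p U (fun A => (P : Set (G × G)).PairwiseDisjoint tri ∧
        (∀ q ∈ P, Finset.card (tri q) = 3) ∧ P.biUnion tri ⊆ A) ≤ p ^ (3 * s) := by
    intro P hP
    rw [Finset.mem_powersetCard] at hP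
    by_cases hc : (P : Set (G × G)).PairwiseDisjoint tri ∧ ∀ q ∈ P, Finset.card (tri q) = 3
    · refine (pr_mono h0 h1 U (fun A _ hA => hA.2.2)).trans ((pr_superset_le h0 U _).trans ?_)
      rw [Finset.card_biUnion hc.1, Finset.sum_congr rfl hc.2, Finset.sum_const,
        hP.2, smul_eq_mul, mul_comm]
    · rw [pr_eq_sum p U ∅ (by
        intro A
        simp only [Finset.notMem_empty, false_iff, not_and]
        exact fun _ h2 h3 => absurd ⟨h2, h3⟩ hc), Finset.sum_empty]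
      exact pow_nonneg h0 _
  refine (Finset.sum_le_sum h).trans ?_
  rw [Finset.sum_const, Finset.card_powersetCard, Finset.card_product, Finset.card_univ,
    nsmul_eq_mul]
  calc (((Finset.card V * Fintype.card G).choose s : ℕ) : ℝ) * p ^ (3 * s)
      ≤ ((Finset.card V * Fintype.card G : ℕ) : ℝ) ^ s * p ^ (3 * s) :=
        mul_le_mul_of_nonneg_right (choose_le _ _) (pow_nonneg h0 _)
    _ = ((Finset.card V : ℝ) * (Fintype.card G : ℝ) * p ^ 3) ^ s := by
        rw [pow_mul, ← mul_pow, Nat.cast_mul]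

theorem pr_E2 {p : ℝ} (h0 : 0 ≤ p) (h1 : p ≤ 1) {U V : Finset G} (hV : V ⊆ U) (m : ℕ) :
    pr p U (E2 m V) ≤ (Finset.card V : ℝ) ^ m * (1 - p) ^ (Finset.card V - m) := by
  classical
  unfold E2
  refine (pr_exists_le h0 h1 U _ _).trans ?_
  have h : ∀ S ∈ Finset.powersetCard m V,
      pr p U (fun A => Disjoint (V \ S) A) = (1 - p) ^ (Finset.card V - m) := by
    intro S hS
    rw [Finset.mem_powersetCard] at hS
    rw [pr_disjoint p (Finset.sdiff_subset.trans hV), Finset.card_sdiff_of_subset hS.1, hS.2]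
  rw [Finset.sum_congr rfl h, Finset.sum_const, Finset.card_powersetCard, nsmul_eq_mul]
  exact mul_le_mul_of_nonneg_right (choose_le _ _) (pow_nonneg (by linarith) _)

theorem hit_of_good (h2 : ∀ x : G, x + x = 0) {A V : Finset G} {T s m : ℕ}
    (hA0 : (0 : G) ∉ A) (hm : 3 * s + 12 * s * T ≤ m) (hmV : m ≤ Finset.card V)
    (hE1 : ¬ E1 T A) (hE2 : ¬ E2 m V A) (hE3 : ¬ E3 s V A) :
    ∃ x ∈ V, x ∈ A ∧ ∀ y ∈ A, x + y ∉ A := by
  classical
  by_contra hcon
  push Not at hcon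
  have hB : m < Finset.card (V ∩ A) := by
    by_contra h
    push Not at h
    obtain ⟨S, hS1, hS2, hS3⟩ := Finset.exists_subsuperset_card_eq
      (Finset.inter_subset_left : V ∩ A ⊆ V) h hmV
    apply hE2
    refine ⟨S, Finset.mem_powersetCard.2 ⟨hS2, hS3⟩, ?_⟩
    rw [Finset.disjoint_left]
    intro x hx hxA
    rw [Finset.mem_sdiff] at hx
    exact hx.2 (hS1 (Finset.mem_inter.2 ⟨hx.1, hxA⟩))
  -- degrees
  have hN : ∀ w : G, w ≠ 0 → Finset.card (A.filter (fun x => x + w ∈ A)) ≤ 4 * T := by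
    intro w hw
    obtain ⟨W, hW1, -, hW3⟩ := exists_hitting (A.filter (fun x => x + w ∈ A))
      (fun y => ({y, y + w} : Finset G)) 2 T (fun i _ => ⟨i, by simp⟩)
      (fun i _ => Finset.card_le_two) (by
        intro P hP hPT hPd
        apply hE1
        refine ⟨(w, P), Finset.mem_product.2 ⟨Finset.mem_univ _,
          Finset.mem_powersetCard.2 ⟨Finset.subset_univ _, hPT⟩⟩, hw, hPd, ?_⟩
        intro z hz
        obtain ⟨y, hy, hzy⟩ := Finset.mem_biUnion.1 hz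
        have hy' := Finset.mem_filter.1 (hP hy)
        simp only [Finset.mem_insert, Finset.mem_singleton] at hzy
        rcases hzy with rfl | rfl
        · exact hy'.1
        · exact hy'.2)
    have hsub : A.filter (fun x => x + w ∈ A) ⊆ W ∪ W.image (fun z => z + w) := by
      intro x hx
      obtain ⟨z, hz, hzW⟩ := hW3 x hx
      simp only [Finset.mem_insert, Finset.mem_singleton] at hz
      rw [Finset.mem_union, Finset.mem_image]
      rcases hz with rfl | rfl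
      · exact Or.inl hzW
      · exact Or.inr ⟨x + w, hzW, by rw [add_assoc, h2, add_zero]⟩
    calc Finset.card (A.filter (fun x => x + w ∈ A)) ≤ Finset.card (W ∪ W.image (fun z => z + w)) :=
          Finset.card_le_card hsub
      _ ≤ Finset.card W + Finset.card (W.image (fun z => z + w)) := Finset.card_union_le _ _
      _ ≤ Finset.card W + Finset.card W := Nat.add_le_add_left Finset.card_image_le _
      _ ≤ 4 * T := by omega
  have hdist : ∀ b y : G, b ∈ A → y ∈ A → b + y ∈ A → Finset.card (tri (b, y)) = 3 := by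
    intro b y hb hy hby
    have hb0 : b ≠ 0 := fun h => hA0 (h ▸ hb)
    have hy0 : y ≠ 0 := fun h => hA0 (h ▸ hy)
    have hbne : b ≠ y := by
      rintro rfl
      rw [h2] at hby
      exact hA0 hby
    have h3 : b ≠ b + y := fun h => hy0 (by simpa using h.symm)
    have h4 : y ≠ b + y := fun h => hb0 (by simpa using h.symm)
    exact Finset.card_eq_three.2 ⟨b, y, b + y, hbne, h3, h4, rfl⟩
  obtain ⟨W, hW1, hW2, hW3⟩ := exists_hitting
    ((V ×ˢ (Finset.univ : Finset G)).filter (fun q => q.1 ∈ A ∧ q.2 ∈ A ∧ q.1 + q.2 ∈ A)) tri 3 s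
    (fun i _ => ⟨i.1, by simp [tri]⟩) (by
      rintro ⟨b, y⟩ hq
      obtain ⟨-, h3, h4, h5⟩ := Finset.mem_filter.1 hq
      exact (hdist b y h3 h4 h5).le) (by
      intro P hP hPs hPd
      apply hE3
      refine ⟨P, Finset.mem_powersetCard.2 ⟨hP.trans (Finset.filter_subset _ _), hPs⟩, hPd, ?_, ?_⟩
      · rintro ⟨b, y⟩ hq
        obtain ⟨-, h3, h4, h5⟩ := Finset.mem_filter.1 (hP hq)
        exact hdist b y h3 h4 h5
      · intro z hz
        obtain ⟨⟨b, y⟩, hq, hzq⟩ := Finset.mem_biUnion.1 hz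
        obtain ⟨-, h3, h4, h5⟩ := Finset.mem_filter.1 (hP hq)
        simp only [tri, Finset.mem_insert, Finset.mem_singleton] at hzq
        rcases hzq with rfl | rfl | rfl
        · exact h3
        · exact h4
        · exact h5)
  have hW0 : ∀ w ∈ W, w ≠ 0 := by
    intro w hw h0
    obtain ⟨⟨b, y⟩, hq, hwq⟩ := hW2 w hw
    obtain ⟨-, h3, h4, h5⟩ := Finset.mem_filter.1 hq
    subst h0
    simp only [tri, Finset.mem_insert, Finset.mem_singleton] at hwq
    rcases hwq with h | h | h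
    · exact hA0 (h ▸ h3)
    · exact hA0 (h ▸ h4)
    · exact hA0 (h ▸ h5)
  have hsub : V ∩ A ⊆ W ∪ W.biUnion (fun w => A.filter (fun x => x + w ∈ A)) := by
    intro b hb
    rw [Finset.mem_inter] at hb
    obtain ⟨y, hy, hby⟩ := hcon b hb.1 hb.2
    obtain ⟨z, hz, hzW⟩ := hW3 (b, y) (Finset.mem_filter.2
      ⟨Finset.mem_product.2 ⟨hb.1, Finset.mem_univ _⟩, hb.2, hy, hby⟩)
    simp only [tri, Finset.mem_insert, Finset.mem_singleton] at hz
    rw [Finset.mem_union, Finset.mem_biUnion]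
    rcases hz with rfl | rfl | rfl
    · exact Or.inl hzW
    · exact Or.inr ⟨z, hzW, Finset.mem_filter.2 ⟨hb.2, hby⟩⟩
    · refine Or.inr ⟨b + y, hzW, Finset.mem_filter.2 ⟨hb.2, ?_⟩⟩
      rw [← add_assoc, h2, zero_add]
      exact hy
  have hcard : Finset.card (V ∩ A) ≤ 3 * s + 12 * s * T := by
    calc Finset.card (V ∩ A)
        ≤ Finset.card (W ∪ W.biUnion (fun w => A.filter (fun x => x + w ∈ A))) :=
          Finset.card_le_card hsub
      _ ≤ Finset.card W + Finset.card (W.biUnion (fun w => A.filter (fun x => x + w ∈ A))) :=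
          Finset.card_union_le _ _
      _ ≤ Finset.card W + ∑ w ∈ W, Finset.card (A.filter (fun x => x + w ∈ A)) :=
          Nat.add_le_add_left Finset.card_biUnion_le _
      _ ≤ Finset.card W + ∑ w ∈ W, 4 * T :=
          Nat.add_le_add_left (Finset.sum_le_sum fun w hw => hN w (hW0 w hw)) _
      _ = Finset.card W + Finset.card W * (4 * T) := by rw [Finset.sum_const, smul_eq_mul]
      _ ≤ 3 * s + 3 * s * (4 * T) :=
          Nat.add_le_add hW1 (Nat.mul_le_mul_right _ hW1)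
      _ = 3 * s + 12 * s * T := by ring
  omega

/-- The general existence theorem. -/
theorem exists_sumfree (h2 : ∀ x : G, x + x = 0) (𝓥 : Finset (Finset G)) {p : ℝ} (hp0 : 0 ≤ p)
    (hp1 : p ≤ 1) (T s m v : ℕ) (hV0 : ∀ V ∈ 𝓥, (0 : G) ∉ V) (hVc : ∀ V ∈ 𝓥, Finset.card V = v)
    (hm : 3 * s + 12 * s * T ≤ m) (hmv : m ≤ v)
    (hlt : (Fintype.card G : ℝ) * ((Fintype.card G : ℝ) * p ^ 2) ^ T +
      (Finset.card 𝓥 : ℝ) * ((v : ℝ) ^ m * (1 - p) ^ (v - m) +
        ((v : ℝ) * (Fintype.card G : ℝ) * p ^ 3) ^ s) < 1) :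
    ∃ A : Finset G, (0 : G) ∉ A ∧ (∀ x ∈ A, ∀ y ∈ A, x + y ∉ A) ∧ ∀ V ∈ 𝓥, ∃ x ∈ V, x ∈ A := by
  classical
  set U : Finset G := Finset.univ.erase 0 with hU
  have hVU : ∀ V ∈ 𝓥, V ⊆ U := fun V hV x hx => Finset.mem_erase.2
    ⟨fun h => hV0 V hV (h ▸ hx), Finset.mem_univ _⟩
  have hpr : pr p U (fun A => E1 T A ∨ ∃ V ∈ 𝓥, (E2 m V A ∨ E3 s V A)) < 1 := by
    refine lt_of_le_of_lt ?_ hlt
    refine (pr_or_le hp0 hp1 U _ _).trans (add_le_add (pr_E1 hp0 hp1 U T) ?_)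
    refine (pr_exists_le hp0 hp1 U _ _).trans ?_
    have h : ∀ V ∈ 𝓥, pr p U (fun A => E2 m V A ∨ E3 s V A) ≤
        (v : ℝ) ^ m * (1 - p) ^ (v - m) + ((v : ℝ) * (Fintype.card G : ℝ) * p ^ 3) ^ s := by
      intro V hV
      refine (pr_or_le hp0 hp1 U _ _).trans (add_le_add ?_ ?_)
      · have := pr_E2 hp0 hp1 (hVU V hV) m
        rwa [hVc V hV] at this
      · have := pr_E3 hp0 hp1 U V s
        rwa [hVc V hV] at this
    refine (Finset.sum_le_sum h).trans ?_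
    rw [Finset.sum_const, nsmul_eq_mul]
  obtain ⟨A, hAU, hA⟩ := exists_of_pr_lt_one U hpr
  push Not at hA
  have hA0 : (0 : G) ∉ A := fun h => (Finset.mem_erase.1 (hAU h)).1 rfl
  refine ⟨A.filter (fun x => ∀ y ∈ A, x + y ∉ A), fun h => hA0 (Finset.mem_filter.1 h).1, ?_, ?_⟩
  · intro x hx y hy hxy
    exact (Finset.mem_filter.1 hx).2 y (Finset.mem_filter.1 hy).1 (Finset.mem_filter.1 hxy).1
  · intro V hV
    obtain ⟨x, hx1, hx2, hx3⟩ := hit_of_good h2 hA0 hm (by rw [hVc V hV]; exact hmv) hA.1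
      (hA.2 V hV).1 (hA.2 V hV).2
    exact ⟨x, hx1, Finset.mem_filter.2 ⟨hx2, hx3⟩⟩

open Filter Topology

theorem eventually_pow_le (C : ℝ) (k : ℕ) {c : ℝ} (hc : 0 < c) :
    ∀ᶠ d : ℕ in atTop, C * (d : ℝ) ^ k ≤ (2 : ℝ) ^ (c * (d : ℝ)) := by
  have hb : 0 < Real.log 2 * c := mul_pos (Real.log_pos (by norm_num)) hc
  have h1 := (isLittleO_pow_exp_pos_mul_atTop k hb).comp_tendsto
    (tendsto_natCast_atTop_atTop (R := ℝ))
  have h2 := h1.bound (c := 1 / (|C| + 1)) (by positivity)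
  filter_upwards [h2] with d hd
  simp only [Function.comp_apply, Real.norm_eq_abs] at hd
  rw [abs_of_nonneg (by positivity : (0 : ℝ) ≤ (d : ℝ) ^ k), abs_of_pos (Real.exp_pos _)] at hd
  have h3 : (2 : ℝ) ^ (c * (d : ℝ)) = Real.exp (Real.log 2 * c * d) := by
    rw [Real.rpow_def_of_pos (by norm_num), mul_assoc]
  rw [h3]
  have h4 : C * (d : ℝ) ^ k ≤ (|C| + 1) * (d : ℝ) ^ k :=
    mul_le_mul_of_nonneg_right (by linarith [le_abs_self C]) (by positivity)
  refine h4.trans ?_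
  have h5 : 0 < |C| + 1 := by positivity
  calc (|C| + 1) * (d : ℝ) ^ k ≤ (|C| + 1) * (1 / (|C| + 1) * Real.exp (Real.log 2 * c * d)) :=
        mul_le_mul_of_nonneg_left hd h5.le
    _ = Real.exp (Real.log 2 * c * d) := by field_simp

/-- The numerical part. -/
theorem eventually_lt {ε : ℝ} (hε : 0 < ε) :
    ∃ T K : ℕ, ∀ᶠ d : ℕ in atTop, ∀ n N : ℕ, (n : ℝ) ≤ (2 - ε) * d → N ≤ 2 ^ (n * d) →
      ∃ p : ℝ, 0 ≤ p ∧ p ≤ 1 ∧ 3 * (T * d) + 12 * (T * d) * T ≤ K * d ∧ K * d ≤ 2 ^ d - 1 ∧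
        ((2 ^ n : ℕ) : ℝ) * (((2 ^ n : ℕ) : ℝ) * p ^ 2) ^ T +
          (N : ℝ) * (((2 ^ d - 1 : ℕ) : ℝ) ^ (K * d) * (1 - p) ^ (2 ^ d - 1 - K * d) +
            (((2 ^ d - 1 : ℕ) : ℝ) * ((2 ^ n : ℕ) : ℝ) * p ^ 3) ^ (T * d)) < 1 := by
  set T : ℕ := ⌈8 / ε⌉₊ with hT
  have hT8 : 8 / ε ≤ T := Nat.le_ceil _
  have hTε : 8 ≤ T * ε := by
    rw [div_le_iff₀ hε] at hT8
    exact hT8
  have hT1 : 1 ≤ T := by
    by_contra h
    have : T = 0 := by omega
    rw [this] at hTε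
    norm_num at hTε
  set K : ℕ := 15 * T ^ 2 with hK
  set L : ℝ := 2 * K + 2 * T ^ 2 + 8 with hL
  have hL0 : 0 < L := by positivity
  refine ⟨T, K, ?_⟩
  filter_upwards [eventually_pow_le L 2 (c := 1) one_pos, eventually_pow_le (2 * (K + 1)) 1
    (c := 1) one_pos, eventually_pow_le (L ^ 3) 6 (c := ε / 2) (by positivity),
    eventually_pow_le (L ^ 2) 4 (c := ε / 2) (by positivity), eventually_ge_atTop 1]
    with d h1 h2 h3 h4 hd n N hn hN
  have hd1 : (1 : ℝ) ≤ d := by exact_mod_cast hd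
  rw [one_mul, Real.rpow_natCast] at h1 h2
  rw [pow_one] at h2
  have h2' : 2 * (K * d + 1) ≤ 2 ^ d := by
    have : ((2 * (K * d + 1) : ℕ) : ℝ) ≤ ((2 ^ d : ℕ) : ℝ) := by
      push_cast
      nlinarith
    exact_mod_cast this
  have hpow : (0 : ℝ) < 2 ^ d := by positivity
  set p : ℝ := L * (d : ℝ) ^ 2 / 2 ^ d with hp
  have hp0 : 0 ≤ p := by positivity
  have hp1 : p ≤ 1 := by rw [hp, div_le_one hpow]; exact h1
  have hv : ((2 ^ d - 1 : ℕ) : ℝ) ≤ 2 ^ d := by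
    have : (2 ^ d - 1 : ℕ) ≤ 2 ^ d := Nat.sub_le _ _
    exact_mod_cast this
  have hv0 : (0 : ℝ) ≤ ((2 ^ d - 1 : ℕ) : ℝ) := Nat.cast_nonneg _
  have hG : ((2 ^ n : ℕ) : ℝ) ≤ (2 : ℝ) ^ ((2 - ε) * (d : ℝ)) := by
    push_cast
    rw [← Real.rpow_natCast]
    exact Real.rpow_le_rpow_of_exponent_le (by norm_num) hn
  have hG0 : (0 : ℝ) < ((2 ^ n : ℕ) : ℝ) := by positivity
  have hpd : (2 : ℝ) ^ d = (2 : ℝ) ^ ((d : ℝ)) := (Real.rpow_natCast _ _).symm
  -- the two basic ratios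
  have hq : ((2 ^ n : ℕ) : ℝ) * p ^ 2 ≤ (2 : ℝ) ^ (-(ε / 2) * (d : ℝ)) := by
    calc ((2 ^ n : ℕ) : ℝ) * p ^ 2 ≤ (2 : ℝ) ^ ((2 - ε) * (d : ℝ)) * p ^ 2 :=
          mul_le_mul_of_nonneg_right hG (by positivity)
      _ = (L ^ 2 * (d : ℝ) ^ 4) * ((2 : ℝ) ^ ((2 - ε) * (d : ℝ)) / ((2 : ℝ) ^ ((d : ℝ))) ^ 2) := by
          rw [hp, hpd]; ring
      _ = (L ^ 2 * (d : ℝ) ^ 4) * (2 : ℝ) ^ (-ε * (d : ℝ)) := by
          congr 1
          rw [← Real.rpow_natCast ((2 : ℝ) ^ ((d : ℝ))) 2, ← Real.rpow_mul (by norm_num),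
            ← Real.rpow_sub (by norm_num)]
          congr 1
          push_cast
          ring
      _ ≤ (2 : ℝ) ^ (ε / 2 * (d : ℝ)) * (2 : ℝ) ^ (-ε * (d : ℝ)) :=
          mul_le_mul_of_nonneg_right h4 (by positivity)
      _ = (2 : ℝ) ^ (-(ε / 2) * (d : ℝ)) := by
          rw [← Real.rpow_add (by norm_num)]
          congr 1
          ring
  have hr : ((2 ^ d - 1 : ℕ) : ℝ) * ((2 ^ n : ℕ) : ℝ) * p ^ 3 ≤
      (2 : ℝ) ^ (-(ε / 2) * (d : ℝ)) := by
    calc ((2 ^ d - 1 : ℕ) : ℝ) * ((2 ^ n : ℕ) : ℝ) * p ^ 3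
        ≤ (2 : ℝ) ^ d * (2 : ℝ) ^ ((2 - ε) * (d : ℝ)) * p ^ 3 := by
          apply mul_le_mul_of_nonneg_right _ (by positivity)
          exact mul_le_mul hv hG hG0.le hpow.le
      _ = (L ^ 3 * (d : ℝ) ^ 6) * ((2 : ℝ) ^ ((d : ℝ)) * (2 : ℝ) ^ ((2 - ε) * (d : ℝ)) /
            ((2 : ℝ) ^ ((d : ℝ))) ^ 3) := by
          rw [hp, hpd]; ring
      _ = (L ^ 3 * (d : ℝ) ^ 6) * (2 : ℝ) ^ (-ε * (d : ℝ)) := by
          congr 1
          rw [← Real.rpow_natCast ((2 : ℝ) ^ ((d : ℝ))) 3, ← Real.rpow_mul (by norm_num),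
            ← Real.rpow_add (by norm_num), ← Real.rpow_sub (by norm_num)]
          congr 1
          push_cast
          ring
      _ ≤ (2 : ℝ) ^ (ε / 2 * (d : ℝ)) * (2 : ℝ) ^ (-ε * (d : ℝ)) :=
          mul_le_mul_of_nonneg_right h3 (by positivity)
      _ = (2 : ℝ) ^ (-(ε / 2) * (d : ℝ)) := by
          rw [← Real.rpow_add (by norm_num)]
          congr 1
          ring
  have hNle : (N : ℝ) ≤ (2 : ℝ) ^ (2 * (d : ℝ) ^ 2) := by
    have e1 : (N : ℝ) ≤ ((2 ^ (n * d) : ℕ) : ℝ) := by exact_mod_cast hN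
    refine e1.trans ?_
    push_cast
    rw [← Real.rpow_natCast]
    apply Real.rpow_le_rpow_of_exponent_le (by norm_num)
    push_cast
    nlinarith
  have hN0 : (0 : ℝ) ≤ N := Nat.cast_nonneg _
  refine ⟨p, hp0, hp1, ?_, by omega, ?_⟩
  · have e1 : T ≤ T ^ 2 := by nlinarith
    have e2 : 3 * (T * d) + 12 * (T * d) * T ≤ 3 * (T ^ 2 * d) + 12 * (T * d) * T :=
      Nat.add_le_add_right (Nat.mul_le_mul_left _ (Nat.mul_le_mul_right _ e1)) _
    refine e2.trans (le_of_eq ?_)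
    rw [hK]; ring
  -- first term
  have t1 : ((2 ^ n : ℕ) : ℝ) * (((2 ^ n : ℕ) : ℝ) * p ^ 2) ^ T ≤ 1 / 4 := by
    calc ((2 ^ n : ℕ) : ℝ) * (((2 ^ n : ℕ) : ℝ) * p ^ 2) ^ T
        ≤ (2 : ℝ) ^ ((2 - ε) * (d : ℝ)) * ((2 : ℝ) ^ (-(ε / 2) * (d : ℝ))) ^ T :=
          mul_le_mul hG (pow_le_pow_left₀ (by positivity) hq _) (by positivity) (by positivity)
      _ = (2 : ℝ) ^ ((2 - ε) * (d : ℝ) + -(ε / 2) * (d : ℝ) * T) := by
          rw [← Real.rpow_natCast ((2 : ℝ) ^ (-(ε / 2) * (d : ℝ))) T, ← Real.rpow_mul (by norm_num),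
            ← Real.rpow_add (by norm_num)]
      _ ≤ (2 : ℝ) ^ (-2 : ℝ) := by
          apply Real.rpow_le_rpow_of_exponent_le (by norm_num)
          nlinarith
      _ = 1 / 4 := by rw [Real.rpow_neg (by norm_num)]; norm_num
  -- third term
  have t3 : (N : ℝ) * (((2 ^ d - 1 : ℕ) : ℝ) * ((2 ^ n : ℕ) : ℝ) * p ^ 3) ^ (T * d) ≤ 1 / 4 := by
    calc (N : ℝ) * (((2 ^ d - 1 : ℕ) : ℝ) * ((2 ^ n : ℕ) : ℝ) * p ^ 3) ^ (T * d)
        ≤ (2 : ℝ) ^ (2 * (d : ℝ) ^ 2) * ((2 : ℝ) ^ (-(ε / 2) * (d : ℝ))) ^ (T * d) :=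
          mul_le_mul hNle (pow_le_pow_left₀ (by positivity) hr _) (by positivity) (by positivity)
      _ = (2 : ℝ) ^ (2 * (d : ℝ) ^ 2 + -(ε / 2) * (d : ℝ) * ((T * d : ℕ) : ℝ)) := by
          rw [← Real.rpow_natCast ((2 : ℝ) ^ (-(ε / 2) * (d : ℝ))) (T * d),
            ← Real.rpow_mul (by norm_num), ← Real.rpow_add (by norm_num)]
      _ ≤ (2 : ℝ) ^ (-2 : ℝ) := by
          apply Real.rpow_le_rpow_of_exponent_le (by norm_num)
          push_cast
          have e1 : 0 ≤ (T * ε - 8) * (d : ℝ) ^ 2 := mul_nonneg (by linarith) (by positivity)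
          nlinarith
      _ = 1 / 4 := by rw [Real.rpow_neg (by norm_num)]; norm_num
  -- second term
  have t2 : (N : ℝ) * (((2 ^ d - 1 : ℕ) : ℝ) ^ (K * d) * (1 - p) ^ (2 ^ d - 1 - K * d)) ≤
      1 / 4 := by
    have e1 : (1 - p) ^ (2 ^ d - 1 - K * d) ≤ Real.exp (-(L * (d : ℝ) ^ 2 / 2)) := by
      calc (1 - p) ^ (2 ^ d - 1 - K * d) ≤ (Real.exp (-p)) ^ (2 ^ d - 1 - K * d) :=
            pow_le_pow_left₀ (by linarith) (by have := Real.add_one_le_exp (-p); linarith) _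
        _ = Real.exp (-(p * ((2 ^ d - 1 - K * d : ℕ) : ℝ))) := by
            rw [← Real.exp_nat_mul]; congr 1; ring
        _ ≤ Real.exp (-(L * (d : ℝ) ^ 2 / 2)) := by
            apply Real.exp_le_exp.2
            have e2 : (2 : ℝ) ^ d / 2 ≤ ((2 ^ d - 1 - K * d : ℕ) : ℝ) := by
              have e3 : 2 ^ d ≤ 2 * (2 ^ d - 1 - K * d) := by omega
              have e4 : ((2 ^ d : ℕ) : ℝ) ≤ ((2 * (2 ^ d - 1 - K * d) : ℕ) : ℝ) := by
                exact_mod_cast e3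
              have e5 : ((2 * (2 ^ d - 1 - K * d) : ℕ) : ℝ) = 2 * ((2 ^ d - 1 - K * d : ℕ) : ℝ) := by
                rw [Nat.cast_mul]; norm_num
              have e6 : ((2 ^ d : ℕ) : ℝ) ≤ 2 * ((2 ^ d - 1 - K * d : ℕ) : ℝ) := by
                rw [← e5]; exact_mod_cast e3
              push_cast at e6
              push_cast
              linarith
            have e7 : p * ((2 : ℝ) ^ d / 2) = L * (d : ℝ) ^ 2 / 2 := by
              rw [hp]; field_simp
            have e8 := mul_le_mul_of_nonneg_left e2 hp0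
            linarith
    have e2 : ((2 ^ d - 1 : ℕ) : ℝ) ^ (K * d) ≤ Real.exp (K * (d : ℝ) ^ 2) := by
      calc ((2 ^ d - 1 : ℕ) : ℝ) ^ (K * d) ≤ ((2 : ℝ) ^ d) ^ (K * d) :=
            pow_le_pow_left₀ hv0 hv _
        _ ≤ ((Real.exp 1) ^ d) ^ (K * d) := by
            apply pow_le_pow_left₀ (by positivity)
            apply pow_le_pow_left₀ (by norm_num)
            have := Real.add_one_le_exp 1
            linarith
        _ = Real.exp (K * (d : ℝ) ^ 2) := by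
            rw [← pow_mul, ← Real.exp_nat_mul]
            congr 1
            push_cast
            ring
    have e3 : (N : ℝ) ≤ Real.exp (2 * (d : ℝ) ^ 2) := by
      refine hNle.trans ?_
      rw [Real.rpow_def_of_pos (by norm_num)]
      apply Real.exp_le_exp.2
      have : Real.log 2 ≤ 1 := by
        have := Real.log_two_lt_d9
        linarith
      nlinarith [sq_nonneg (d : ℝ)]
    calc (N : ℝ) * (((2 ^ d - 1 : ℕ) : ℝ) ^ (K * d) * (1 - p) ^ (2 ^ d - 1 - K * d))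
        ≤ Real.exp (2 * (d : ℝ) ^ 2) * (Real.exp (K * (d : ℝ) ^ 2) *
            Real.exp (-(L * (d : ℝ) ^ 2 / 2))) := by
          apply mul_le_mul e3 _ (mul_nonneg (pow_nonneg hv0 _) (pow_nonneg (by linarith) _))
            (Real.exp_pos _).le
          exact mul_le_mul e2 e1 (pow_nonneg (by linarith) _) (Real.exp_pos _).le
      _ = Real.exp (-((T : ℝ) ^ 2 + 2) * (d : ℝ) ^ 2) := by
          rw [← Real.exp_add, ← Real.exp_add]
          congr 1
          rw [hL]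
          ring
      _ ≤ Real.exp (-2) := by
          apply Real.exp_le_exp.2
          nlinarith [sq_nonneg (T : ℝ), sq_nonneg (d : ℝ)]
      _ ≤ 1 / 4 := by
          rw [Real.exp_neg]
          have h5 := Real.exp_one_gt_d9
          have h6 : Real.exp 2 = Real.exp 1 * Real.exp 1 := by rw [← Real.exp_add]; norm_num
          rw [h6, inv_eq_one_div]
          apply one_div_le_one_div_of_le (by norm_num)
          nlinarith
  rw [mul_add]
  linarith

end Pool.Agent.X78.SumFreeHit
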