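import Mathlib

set_option autoImplicit false

/-!
# A fractional form of the theorem of Alon, Frankl and Lovasz

If any `r` members (repetition allowed) of a weighted family of nonnegative vectors in `R^q` have
a coordinate with sum at least `B`, then `B` times the total weight is at most
`(r - 1) max tau + sum tau`, where `tau` is the weighted sum of the vectors.
-/

namespace Pool.Agent.X78.ConnA

open Finset

variable {ι : Type*} [Fintype ι] {q : ℕ}

/-- One reduction step for the support. -/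
theorem step (y : ι → Fin q → ℝ) (hy : ∀ i j, 0 ≤ y i j)
    (hy0 : ∀ i, ∃ j, 0 < y i j) (z : ι → ℝ) (hz : ∀ i, 0 ≤ z i)
    (hc : q < (univ.filter (fun i => z i ≠ 0)).card) :
    ∃ z' : ι → ℝ, (∀ i, 0 ≤ z' i) ∧ (∀ j, ∑ i, z' i * y i j = ∑ i, z i * y i j) ∧
      (∑ i, z i ≤ ∑ i, z' i) ∧
      (univ.filter (fun i => z' i ≠ 0)).card < (univ.filter (fun i => z i ≠ 0)).card := by
  classical
  set s := univ.filter (fun i => z i ≠ 0) with hs
  have hli : ¬ LinearIndependent ℝ (fun i : {i // i ∈ s} => y i) := by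
    intro h
    have h1 := h.fintype_card_le_finrank
    rw [Module.finrank_fin_fun, Fintype.card_coe] at h1
    omega
  rw [Fintype.not_linearIndependent_iff] at hli
  obtain ⟨g, hg, i0, hi0⟩ := hli
  have key : ∃ c : ι → ℝ, (∀ i, i ∉ s → c i = 0) ∧ (∀ j, ∑ i, c i * y i j = 0) ∧
      (∃ i, c i ≠ 0) ∧ 0 ≤ ∑ i, c i := by
    let c0 : ι → ℝ := fun i => if h : i ∈ s then g ⟨i, h⟩ else 0
    have h1 : ∀ i, i ∉ s → c0 i = 0 := fun i hi => by simp [c0, hi]
    have h2 : ∀ j, ∑ i, c0 i * y i j = 0 := by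
      intro j
      have h3 := congrFun hg j
      simp only [Finset.sum_apply, Pi.smul_apply, smul_eq_mul, Pi.zero_apply] at h3
      rw [← h3]
      rw [← Finset.sum_subset (Finset.subset_univ s)
        (fun i _ hi => by rw [h1 i hi, zero_mul])]
      rw [← Finset.sum_coe_sort s]
      refine Finset.sum_congr rfl ?_
      rintro ⟨i, hi⟩ _
      simp [c0, hi]
    have h3 : c0 i0 ≠ 0 := by
      simp only [c0, i0.2, dif_pos]
      exact hi0
    rcases le_total 0 (∑ i, c0 i) with h | h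
    · exact ⟨c0, h1, h2, ⟨i0, h3⟩, h⟩
    · refine ⟨fun i => - c0 i, fun i hi => by simp [h1 i hi], fun j => ?_, ⟨i0, by simpa using h3⟩, ?_⟩
      · have : ∑ i, -c0 i * y i j = - ∑ i, c0 i * y i j := by
          rw [← Finset.sum_neg_distrib]
          exact Finset.sum_congr rfl (fun i _ => by ring)
        rw [this, h2 j, neg_zero]
      · rw [Finset.sum_neg_distrib]
        linarith
  obtain ⟨c, hc1, hc2, ⟨i1, hi1⟩, hc3⟩ := key
  have hneg : (univ.filter (fun i => c i < 0)).Nonempty := by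
    by_contra hne
    rw [Finset.not_nonempty_iff_eq_empty, Finset.filter_eq_empty_iff] at hne
    have hpos : ∀ i, 0 ≤ c i := fun i => not_lt.mp (hne (mem_univ i))
    obtain ⟨j, hj⟩ := hy0 i1
    have h4 : 0 < ∑ i, c i * y i j := by
      refine Finset.sum_pos' (fun i _ => mul_nonneg (hpos i) (hy i j)) ⟨i1, mem_univ _, ?_⟩
      exact mul_pos (lt_of_le_of_ne (hpos i1) (Ne.symm hi1)) hj
    rw [hc2 j] at h4
    exact lt_irrefl _ h4
  obtain ⟨i2, hi2, hmin⟩ := Finset.exists_min_image _ (fun i => z i / (- c i)) hneg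
  rw [Finset.mem_filter] at hi2
  have hci2 := hi2.2
  set t := z i2 / (- c i2) with ht
  have ht0 : 0 ≤ t := div_nonneg (hz i2) (by linarith)
  refine ⟨fun i => z i + t * c i, ?_, ?_, ?_, ?_⟩
  · intro i
    rcases lt_or_ge (c i) 0 with h | h
    · have h5 := hmin i (by simp [h])
      have h6 : t * (- c i) ≤ z i := by
        have : t ≤ z i / (- c i) := h5
        rwa [le_div_iff₀ (by linarith)] at this
      nlinarith
    · have := mul_nonneg ht0 h
      have := hz i
      linarith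
  · intro j
    have : ∑ i, (z i + t * c i) * y i j = ∑ i, z i * y i j + t * ∑ i, c i * y i j := by
      rw [Finset.mul_sum, ← Finset.sum_add_distrib]
      exact Finset.sum_congr rfl (fun i _ => by ring)
    rw [this, hc2 j, mul_zero, add_zero]
  · have : ∑ i, (z i + t * c i) = ∑ i, z i + t * ∑ i, c i := by
      rw [Finset.mul_sum, ← Finset.sum_add_distrib]
    rw [this]
    have := mul_nonneg ht0 hc3
    linarith
  · apply Finset.card_lt_card
    rw [Finset.ssubset_iff_of_subset]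
    · refine ⟨i2, ?_, ?_⟩
      · by_contra h
        exact (ne_of_lt hci2) (hc1 i2 h)
      · rw [Finset.mem_filter]
        push Not
        intro _
        have h7 : c i2 ≠ 0 := ne_of_lt hci2
        rw [ht, div_neg, neg_mul, div_mul_cancel₀ _ h7]
        ring
    · intro i hi
      by_contra h
      rw [Finset.mem_filter] at hi
      apply hi.2
      show z i + t * c i = 0
      rw [hc1 i h, mul_zero, add_zero]
      by_contra h8
      exact h (by rw [hs, Finset.mem_filter]; exact ⟨mem_univ _, h8⟩)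

/-- The support can be reduced to at most `q` elements. -/
theorem reduce (y : ι → Fin q → ℝ) (hy : ∀ i j, 0 ≤ y i j)
    (hy0 : ∀ i, ∃ j, 0 < y i j) : ∀ (k : ℕ) (z : ι → ℝ), (∀ i, 0 ≤ z i) →
    (univ.filter (fun i => z i ≠ 0)).card ≤ k →
    ∃ z' : ι → ℝ, (∀ i, 0 ≤ z' i) ∧ (∀ j, ∑ i, z' i * y i j = ∑ i, z i * y i j) ∧
      (∑ i, z i ≤ ∑ i, z' i) ∧ (univ.filter (fun i => z' i ≠ 0)).card ≤ q := by
  intro k
  induction k with
  | zero => intro z hz hk; exact ⟨z, hz, fun _ => rfl, le_rfl, by omega⟩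
  | succ k ih =>
    intro z hz hk
    rcases Nat.lt_or_ge q (univ.filter (fun i => z i ≠ 0)).card with h | h
    · obtain ⟨z1, h1, h2, h3, h4⟩ := step y hy hy0 z hz h
      obtain ⟨z2, h5, h6, h7, h8⟩ := ih z1 h1 (by omega)
      exact ⟨z2, h5, fun j => (h6 j).trans (h2 j), h3.trans h7, h8⟩
    · exact ⟨z, hz, fun _ => rfl, le_rfl, h⟩

/-- The total weight of a fractional packing is at most `r - 1 + q`. -/
theorem cap {r : ℕ} (hr : 1 ≤ r) (y : ι → Fin q → ℝ) (hy : ∀ i j, 0 ≤ y i j)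
    (B : ℝ) (hB : 0 < B) (hstar : ∀ f : Fin r → ι, ∃ j, B ≤ ∑ i, y (f i) j)
    (z : ι → ℝ) (hz : ∀ i, 0 ≤ z i) (hlt : ∀ j, ∑ i, z i * y i j < B) :
    ∑ i, z i ≤ (r : ℝ) - 1 + q := by
  classical
  have hy0 : ∀ i, ∃ j, 0 < y i j := by
    intro i
    obtain ⟨j, hj⟩ := hstar (fun _ => i)
    refine ⟨j, ?_⟩
    by_contra h
    have h0 : y i j = 0 := le_antisymm (not_lt.mp h) (hy i j)
    simp only [h0, Finset.sum_const_zero] at hj
    linarith
  obtain ⟨z', h1, h2, h3, h4⟩ := reduce y hy hy0 _ z hz le_rfl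
  refine h3.trans ?_
  have h5 : ∑ i, ⌊z' i⌋₊ ≤ r - 1 := by
    by_contra hcon
    have h6 : r ≤ Fintype.card (Σ i, Fin ⌊z' i⌋₊) := by
      rw [Fintype.card_sigma]
      simp only [Fintype.card_fin]
      omega
    have h7 : Nonempty (Fin r ↪ (Σ i, Fin ⌊z' i⌋₊)) := by
      rw [Function.Embedding.nonempty_iff_card_le]
      simpa using h6
    obtain ⟨e⟩ := h7
    obtain ⟨j, hj⟩ := hstar (fun k => (e k).1)
    have h8 : ∑ k, y (e k).1 j ≤ ∑ x : (Σ i, Fin ⌊z' i⌋₊), y x.1 j := by
      have h9 : ∑ k, y (e k).1 j = ∑ x ∈ univ.map e, y x.1 j := by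
        rw [Finset.sum_map]
      rw [h9]
      exact Finset.sum_le_sum_of_subset_of_nonneg (Finset.subset_univ _)
        (fun x _ _ => hy x.1 j)
    have h10 : ∑ x : (Σ i, Fin ⌊z' i⌋₊), y x.1 j ≤ ∑ i, z' i * y i j := by
      rw [Fintype.sum_sigma]
      refine Finset.sum_le_sum (fun i _ => ?_)
      have h9 : ∑ _c : Fin ⌊z' i⌋₊, y i j = (⌊z' i⌋₊ : ℝ) * y i j := by
        rw [Finset.sum_const, Finset.card_univ, Fintype.card_fin, nsmul_eq_mul]
      refine h9.le.trans ?_
      exact mul_le_mul_of_nonneg_right (Nat.floor_le (h1 i)) (hy i j)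
    have h11 := hlt j
    rw [← h2 j] at h11
    linarith
  have h12 : ∑ i, z' i ≤ ∑ i ∈ univ.filter (fun i => z' i ≠ 0), ((⌊z' i⌋₊ : ℝ) + 1) := by
    rw [← Finset.sum_filter_ne_zero]
    exact Finset.sum_le_sum (fun i _ => (Nat.lt_floor_add_one _).le)
  have h13 : ∑ i ∈ univ.filter (fun i => z' i ≠ 0), ((⌊z' i⌋₊ : ℝ) + 1)
      ≤ ((∑ i, ⌊z' i⌋₊ : ℕ) : ℝ) + (univ.filter (fun i => z' i ≠ 0)).card := by
    rw [Finset.sum_add_distrib, Finset.sum_const, nsmul_eq_mul, mul_one]
    push_cast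
    have := Finset.sum_le_sum_of_subset_of_nonneg
      (Finset.subset_univ (univ.filter (fun i => z' i ≠ 0)))
      (fun i _ _ => (Nat.cast_nonneg ⌊z' i⌋₊ : (0:ℝ) ≤ _))
    linarith
  have h14 : ((∑ i, ⌊z' i⌋₊ : ℕ) : ℝ) ≤ (r : ℝ) - 1 := by
    have : ((∑ i, ⌊z' i⌋₊ : ℕ) : ℝ) ≤ ((r - 1 : ℕ) : ℝ) := by exact_mod_cast h5
    rw [Nat.cast_sub hr] at this
    simpa using this
  have h15 : ((univ.filter (fun i => z' i ≠ 0)).card : ℝ) ≤ q := by exact_mod_cast h4
  linarith

/-- The fractional Alon-Frankl-Lovasz inequality. -/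
theorem frac {r : ℕ} (hr : 1 ≤ r) (y : ι → Fin q → ℝ) (hy : ∀ i j, 0 ≤ y i j)
    (B : ℝ) (hB : 0 < B) (hstar : ∀ f : Fin r → ι, ∃ j, B ≤ ∑ i, y (f i) j)
    (z : ι → ℝ) (hz : ∀ i, 0 ≤ z i) (N : ℝ) (hN : 0 < N)
    (htau : ∀ j, ∑ i, z i * y i j ≤ N) :
    B * ∑ i, z i ≤ ((r : ℝ) - 1) * N + ∑ j, ∑ i, z i * y i j := by
  classical
  set tau : Fin q → ℝ := fun j => ∑ i, z i * y i j with htaudef
  let y' : ι ⊕ Fin q → Fin q → ℝ := Sum.elim y (fun j k => if k = j then B else 0)
  let z' : ι ⊕ Fin q → ℝ := Sum.elim z (fun j => (N - tau j) / B)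
  have hy' : ∀ i j, 0 ≤ y' i j := by
    rintro (i | i) j
    · exact hy i j
    · simp only [y', Sum.elim_inr]
      split_ifs <;> linarith
  have hz' : ∀ i, 0 ≤ z' i := by
    rintro (i | i)
    · exact hz i
    · simp only [z', Sum.elim_inr]
      exact div_nonneg (by linarith [htau i]) hB.le
  have hstar' : ∀ f : Fin r → ι ⊕ Fin q, ∃ j, B ≤ ∑ i, y' (f i) j := by
    intro f
    by_cases h : ∃ i j, f i = Sum.inr j
    · obtain ⟨i, j, hij⟩ := h
      refine ⟨j, ?_⟩
      have h1 : y' (f i) j = B := by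
        rw [hij]
        simp [y']
      calc B = y' (f i) j := h1.symm
        _ ≤ ∑ i, y' (f i) j :=
          Finset.single_le_sum (f := fun i => y' (f i) j) (fun k _ => hy' (f k) j) (mem_univ i)
    · push Not at h
      have h2 : ∀ i, ∃ a, f i = Sum.inl a := by
        intro i
        rcases hfi : f i with a | b
        · exact ⟨a, rfl⟩
        · exact absurd hfi (h i b)
      choose g hg using h2
      obtain ⟨j, hj⟩ := hstar g
      refine ⟨j, ?_⟩
      have : ∑ i, y' (f i) j = ∑ i, y (g i) j :=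
        Finset.sum_congr rfl (fun i _ => by rw [hg i]; rfl)
      rw [this]
      exact hj
  have hcoord : ∀ j, ∑ i, z' i * y' i j = N := by
    intro j
    rw [Fintype.sum_sum_type]
    have h1 : ∑ a, z' (Sum.inl a) * y' (Sum.inl a) j = tau j := rfl
    have h2 : ∑ a, z' (Sum.inr a) * y' (Sum.inr a) j = N - tau j := by
      simp only [z', y', Sum.elim_inr, mul_ite, mul_zero]
      rw [Finset.sum_ite_eq]
      simp only [mem_univ, if_true]
      field_simp
    rw [h1, h2]
    ring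
  have hW : ∑ i, z' i = ∑ i, z i + ∑ j, (N - tau j) / B := by
    rw [Fintype.sum_sum_type]
    rfl
  have hmain : B * ∑ i, z' i ≤ ((r : ℝ) - 1 + q) * N := by
    by_contra hcon
    push Not at hcon
    set W := ∑ i, z' i with hWdef
    have hr1 : (1 : ℝ) ≤ r := by exact_mod_cast hr
    have hW0 : 0 < W := by
      by_contra hW0
      have : B * W ≤ 0 := mul_nonpos_of_nonneg_of_nonpos hB.le (not_lt.mp hW0)
      have h3 : 0 ≤ ((r : ℝ) - 1 + q) * N :=
        mul_nonneg (by have : (0 : ℝ) ≤ q := Nat.cast_nonneg q; linarith) hN.le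
      linarith
    have h4 : ((r : ℝ) - 1 + q) * N / W < B := by
      rw [div_lt_iff₀ hW0]
      exact hcon
    obtain ⟨B', hB1, hB2⟩ := exists_between h4
    have hB'0 : 0 < B' := by
      refine lt_of_le_of_lt ?_ hB1
      refine div_nonneg ?_ hW0.le
      exact mul_nonneg (by have : (0 : ℝ) ≤ q := Nat.cast_nonneg q; linarith) hN.le
    have h5 := cap hr y' hy' B hB hstar' (fun i => z' i * (B' / N))
      (fun i => mul_nonneg (hz' i) (div_nonneg hB'0.le hN.le)) (by
        intro j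
        have : ∑ i, z' i * (B' / N) * y' i j = (∑ i, z' i * y' i j) * (B' / N) := by
          rw [Finset.sum_mul]
          exact Finset.sum_congr rfl (fun i _ => by ring)
        rw [this, hcoord j]
        rw [mul_div_cancel₀ _ hN.ne']
        exact hB2)
    rw [← Finset.sum_mul] at h5
    rw [div_lt_iff₀ hW0] at hB1
    have h6 : W * (B' / N) * N = B' * W := by field_simp
    have h7 : W * (B' / N) * N ≤ ((r : ℝ) - 1 + q) * N :=
      mul_le_mul_of_nonneg_right h5 hN.le
    linarith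
  rw [hW, mul_add, Finset.mul_sum univ (fun j => (N - tau j) / B)] at hmain
  have h8 : ∑ j, B * ((N - tau j) / B) = q * N - ∑ j, tau j := by
    have : ∀ j ∈ (univ : Finset (Fin q)), B * ((N - tau j) / B) = N - tau j := by
      intro j _
      field_simp
    rw [Finset.sum_congr rfl this, Finset.sum_sub_distrib, Finset.sum_const, Finset.card_univ,
      Fintype.card_fin, nsmul_eq_mul]
  rw [h8] at hmain
  linarith

end Pool.Agent.X78.ConnA
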