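import Mathlib

set_option autoImplicit false

/-!
# Dual weights for robust matchings

If every matching of the hypergraph `G` has at most `nu` edges, then there are vertex weights of
total at most `nu + eps n` such that every robust tuple of `m`-sets has average weight at least
`1 - eps`.  The weights are found by a multiplicative weights argument.
-/

namespace Pool.Agent.X78.ConnB

open Finset

/-- `e` takes one vertex from every `B i`. -/
def Cross {V : Type} [DecidableEq V] (r : ℕ) (B : Fin r → Finset V) (e : Finset V) : Prop :=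
  ∃ v : Fin r → V, (∀ i, v i ∈ B i) ∧ e = univ.image v

/-- Every choice of subsets of size at least `m'` is crossed by an edge of `G`. -/
def Conn {V : Type} [DecidableEq V] (G : Finset (Finset V)) (r m' : ℕ)
    (A : Fin r → Finset V) : Prop :=
  ∀ B : Fin r → Finset V, (∀ i, B i ⊆ A i) → (∀ i, m' ≤ (B i).card) → ∃ e ∈ G, Cross r B e

/-- Pairwise disjoint. -/
def PD {V : Type} {r : ℕ} (A : Fin r → Finset V) : Prop :=
  ∀ i j, i ≠ j → Disjoint (A i) (A j)

/-- A robust tuple of disjoint `m`-sets. -/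
def Good {V : Type} [DecidableEq V] (G : Finset (Finset V)) (r m m' : ℕ)
    (A : Fin r → Finset V) : Prop :=
  PD A ∧ (∀ i, (A i).card = m) ∧ Conn G r m' A

/-- A matching. -/
def IsMatch {V : Type} (M : Finset (Finset V)) : Prop :=
  ∀ e ∈ M, ∀ f ∈ M, e ≠ f → Disjoint e f

variable {V : Type} [Fintype V] [DecidableEq V]

omit [Fintype V] in
theorem cross_mono {r : ℕ} {B B' : Fin r → Finset V} (h : ∀ i, B i ⊆ B' i) {e : Finset V}
    (he : Cross r B e) : Cross r B' e := by
  obtain ⟨v, hv, rfl⟩ := he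
  exact ⟨v, fun i => h i (hv i), rfl⟩

omit [Fintype V] in
theorem cross_sub {r : ℕ} {B : Fin r → Finset V} {e : Finset V}
    (he : Cross r B e) : e ⊆ univ.biUnion B := by
  obtain ⟨v, hv, rfl⟩ := he
  intro x hx
  rw [Finset.mem_image] at hx
  obtain ⟨i, _, rfl⟩ := hx
  exact Finset.mem_biUnion.mpr ⟨i, mem_univ _, hv i⟩

omit [Fintype V] in
theorem cross_nonempty {r : ℕ} (hr : 1 ≤ r) {B : Fin r → Finset V} {e : Finset V}
    (he : Cross r B e) : e.Nonempty := by
  obtain ⟨v, hv, rfl⟩ := he
  exact ⟨v ⟨0, hr⟩, Finset.mem_image_of_mem _ (mem_univ _)⟩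

omit [Fintype V] in
theorem cross_inter {r : ℕ} {B : Fin r → Finset V} (hB : PD B) {e : Finset V}
    (he : Cross r B e) (i : Fin r) : (B i ∩ e).card ≤ 1 := by
  obtain ⟨v, hv, rfl⟩ := he
  rw [Finset.card_le_one]
  intro a ha b hb
  rw [Finset.mem_inter, Finset.mem_image] at ha hb
  obtain ⟨ha1, k, _, rfl⟩ := ha
  obtain ⟨hb1, l, _, rfl⟩ := hb
  have hk : k = i := by
    by_contra h
    exact (Finset.disjoint_left.mp (hB k i h) (hv k)) ha1
  have hl : l = i := by
    by_contra h
    exact (Finset.disjoint_left.mp (hB l i h) (hv l)) hb1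
  rw [hk, hl]

omit [Fintype V] in
/-- Inside a robust tuple there are large matchings. -/
theorem match_in {r m' b : ℕ} (hr : 1 ≤ r) (G : Finset (Finset V)) (A B : Fin r → Finset V)
    (hsub : ∀ i, B i ⊆ A i) (hPD : PD B) (hb : ∀ i, b ≤ (B i).card)
    (hconn : Conn G r m' A) : ∀ j, j + m' ≤ b →
    ∃ M ⊆ G, M.card = j ∧ IsMatch M ∧ ∀ e ∈ M, Cross r B e := by
  intro j
  induction j with
  | zero =>
    intro _
    exact ⟨∅, Finset.empty_subset _, rfl, by intro e he; simp at he, by intro e he; simp at he⟩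
  | succ j ih =>
    intro hj
    obtain ⟨M, hMG, hMc, hMm, hMx⟩ := ih (by omega)
    set U := M.biUnion id with hU
    have hsize : ∀ i, m' ≤ (B i \ U).card := by
      intro i
      have h1 : (B i ∩ U).card ≤ j := by
        rw [hU, Finset.inter_biUnion]
        refine Finset.card_biUnion_le.trans ?_
        calc ∑ e ∈ M, (B i ∩ id e).card ≤ ∑ e ∈ M, 1 :=
              Finset.sum_le_sum (fun e he => cross_inter hPD (hMx e he) i)
          _ = j := by rw [Finset.sum_const, smul_eq_mul, mul_one, hMc]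
      have h2 := Finset.card_sdiff_add_card_inter (B i) U
      have h3 := hb i
      omega
    obtain ⟨e, heG, hex⟩ := hconn (fun i => B i \ U)
      (fun i => Finset.sdiff_subset.trans (hsub i)) hsize
    have hdisj : Disjoint e U := by
      obtain ⟨v, hv, rfl⟩ := hex
      rw [Finset.disjoint_left]
      intro x hx
      rw [Finset.mem_image] at hx
      obtain ⟨i, _, rfl⟩ := hx
      exact (Finset.mem_sdiff.mp (hv i)).2
    have hne : e.Nonempty := cross_nonempty hr hex
    have hnot : e ∉ M := by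
      intro heM
      obtain ⟨x, hx⟩ := hne
      exact (Finset.disjoint_left.mp hdisj hx) (Finset.mem_biUnion.mpr ⟨e, heM, hx⟩)
    have hdM : ∀ f ∈ M, Disjoint e f := by
      intro f hf
      exact Finset.disjoint_of_subset_right
        (fun x hx => Finset.mem_biUnion.mpr ⟨f, hf, hx⟩) hdisj
    refine ⟨insert e M, ?_, ?_, ?_, ?_⟩
    · intro f hf
      rcases Finset.mem_insert.mp hf with rfl | hf
      · exact heG
      · exact hMG hf
    · rw [Finset.card_insert_of_notMem hnot, hMc]
    · intro f hf g hg hfg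
      rcases Finset.mem_insert.mp hf with hf1 | hf1
      · rcases Finset.mem_insert.mp hg with hg1 | hg1
        · exact absurd (hf1.trans hg1.symm) hfg
        · rw [hf1]; exact hdM g hg1
      · rcases Finset.mem_insert.mp hg with hg1 | hg1
        · rw [hg1]; exact (hdM f hf1).symm
        · exact hMm f hf1 g hg1 hfg
    · intro f hf
      rcases Finset.mem_insert.mp hf with rfl | hf
      · exact cross_mono (fun i => Finset.sdiff_subset) hex
      · exact hMx f hf

omit [Fintype V] in
/-- Disjoint representatives, from the theorem of Hall. -/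
theorem hall {ι : Type} [Fintype ι] [DecidableEq ι] (t : ι → Finset V) (R b : ℕ) (hR0 : 0 < R)
    (hR : ∀ v, (univ.filter (fun x => v ∈ t x)).card ≤ R) (hb : ∀ x, R * b ≤ (t x).card) :
    ∃ D : ι → Finset V, (∀ x, D x ⊆ t x) ∧ (∀ x, (D x).card = b) ∧
      ∀ x y, x ≠ y → Disjoint (D x) (D y) := by
  have hh : ∀ s : Finset (ι × Fin b), s.card ≤ (s.biUnion (fun p => t p.1)).card := by
    intro s
    set I := s.image Prod.fst with hI
    have h1 : s.card ≤ I.card * b := by
      have : s ⊆ I ×ˢ (univ : Finset (Fin b)) := by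
        intro p hp
        rw [Finset.mem_product]
        exact ⟨Finset.mem_image_of_mem _ hp, mem_univ _⟩
      have h2 := Finset.card_le_card this
      rwa [Finset.card_product, Finset.card_univ, Fintype.card_fin] at h2
    set U := s.biUnion (fun p => t p.1) with hU
    have h3 : ∑ x ∈ I, (t x).card ≤ U.card * R := by
      have h4 : ∀ x ∈ I, (t x).card = ∑ v ∈ U, (if v ∈ t x then 1 else 0) := by
        intro x hx
        rw [Finset.sum_ite_mem, Finset.sum_const, smul_eq_mul, mul_one]
        congr 1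
        rw [eq_comm, Finset.inter_eq_right]
        intro v hv
        obtain ⟨p, hp, rfl⟩ := Finset.mem_image.mp hx
        exact Finset.mem_biUnion.mpr ⟨p, hp, hv⟩
      rw [Finset.sum_congr rfl h4, Finset.sum_comm]
      calc ∑ v ∈ U, ∑ x ∈ I, (if v ∈ t x then 1 else 0) ≤ ∑ v ∈ U, R := by
            refine Finset.sum_le_sum (fun v _ => ?_)
            rw [← Finset.card_filter]
            exact (Finset.card_le_card (Finset.filter_subset_filter _ (subset_univ _))).trans (hR v)
        _ = U.card * R := by rw [Finset.sum_const, smul_eq_mul]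
    have h5 : I.card * (R * b) ≤ ∑ x ∈ I, (t x).card := by
      rw [← smul_eq_mul, ← Finset.sum_const]
      exact Finset.sum_le_sum (fun x _ => hb x)
    have h6 : (I.card * b) * R ≤ U.card * R := by
      calc (I.card * b) * R = I.card * (R * b) := by ring
        _ ≤ _ := h5.trans h3
    exact h1.trans (Nat.le_of_mul_le_mul_right h6 hR0)
  obtain ⟨f, hf, hft⟩ := (Finset.all_card_le_biUnion_card_iff_exists_injective _).mp hh
  refine ⟨fun x => univ.image (fun c : Fin b => f (x, c)), ?_, ?_, ?_⟩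
  · intro x v hv
    rw [Finset.mem_image] at hv
    obtain ⟨c, _, rfl⟩ := hv
    exact hft (x, c)
  · intro x
    rw [Finset.card_image_of_injective, Finset.card_univ, Fintype.card_fin]
    intro c d hcd
    have := hf hcd
    simpa using this
  · intro x y hxy
    rw [Finset.disjoint_left]
    intro v hv hv'
    rw [Finset.mem_image] at hv hv'
    obtain ⟨c, _, rfl⟩ := hv
    obtain ⟨d, _, hd⟩ := hv'
    have := hf hd
    simp only [Prod.mk.injEq] at this
    exact hxy this.1.symm

/-- Number of sets of the list containing `v`. -/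
def load {T r : ℕ} (A : Fin T → Fin r → Finset V) (v : V) : ℕ :=
  ∑ k, ∑ i, if v ∈ A k i then 1 else 0

omit [Fintype V] in
theorem load_card {T r : ℕ} (A : Fin T → Fin r → Finset V) (v : V) :
    (univ.filter (fun p : Fin T × Fin r => v ∈ A p.1 p.2)).card = load A v := by
  rw [Finset.card_filter, Fintype.sum_prod_type]
  rfl

omit [Fintype V] in
theorem cnt_le {r : ℕ} {A : Fin r → Finset V} (hA : PD A) (v : V) :
    (∑ i, if v ∈ A i then 1 else 0) ≤ 1 := by
  rw [← Finset.card_filter, Finset.card_le_one]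
  intro i hi j hj
  rw [Finset.mem_filter] at hi hj
  by_contra h
  exact Finset.disjoint_left.mp (hA i j h) hi.2 hj.2

/-- The potential. -/
noncomputable def Phi {T r : ℕ} (g : ℝ) (A : Fin T → Fin r → Finset V) : ℝ :=
  ∑ v, (1 + g) ^ load A v

theorem Phi_cons {T r : ℕ} (g : ℝ) (A : Fin T → Fin r → Finset V) (a : Fin r → Finset V)
    (ha : PD a) :
    Phi g (Fin.cons a A : Fin (T + 1) → Fin r → Finset V) =
      Phi g A + g * ∑ i, ∑ v ∈ a i, (1 + g) ^ load A v := by
  unfold Phi
  have h1 : ∀ v, load (Fin.cons a A : Fin (T + 1) → Fin r → Finset V) v =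
      (∑ i, if v ∈ a i then 1 else 0) + load A v := by
    intro v
    unfold load
    rw [Fin.sum_univ_succ]
    simp only [Fin.cons_zero, Fin.cons_succ]
  have h2 : ∀ v, (1 + g) ^ load (Fin.cons a A : Fin (T + 1) → Fin r → Finset V) v =
      (1 + g) ^ load A v + g * ∑ i, (if v ∈ a i then (1 + g) ^ load A v else 0) := by
    intro v
    rw [h1 v, pow_add]
    have h3 := cnt_le ha v
    have h4 : ∑ i, (if v ∈ a i then (1 + g) ^ load A v else 0) =
        ((∑ i, if v ∈ a i then 1 else 0 : ℕ) : ℝ) * (1 + g) ^ load A v := by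
      push_cast
      rw [Finset.sum_mul]
      refine Finset.sum_congr rfl (fun i _ => ?_)
      split_ifs <;> simp
    rw [h4]
    interval_cases h : (∑ i, if v ∈ a i then 1 else 0 : ℕ)
    · simp
    · simp; ring
  rw [Finset.sum_congr rfl (fun v _ => h2 v), Finset.sum_add_distrib, ← Finset.mul_sum,
    Finset.sum_comm]
  congr 2
  refine Finset.sum_congr rfl (fun i _ => ?_)
  rw [← Finset.sum_filter]
  congr 1
  ext v
  simp

/-- Iterating the step. -/
theorem iterate {r m : ℕ} (P : (Fin r → Finset V) → Prop) (hP : ∀ A, P A → PD A)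
    (g c D : ℝ) (hg : 0 ≤ g) (hc : 0 ≤ c) (hD : 0 < D) (hn : 0 < Fintype.card V)
    (hno : ∀ w : V → ℝ, (∀ v, 0 ≤ w v) → ∑ v, w v = D →
      ∃ A, P A ∧ ∑ i, ∑ v ∈ A i, w v ≤ c * m) (T : ℕ) :
    ∃ A : Fin T → Fin r → Finset V, (∀ k, P (A k)) ∧
      Phi g A ≤ Fintype.card V * (1 + g * c * m / D) ^ T := by
  induction T with
  | zero =>
    refine ⟨Fin.elim0, fun k => k.elim0, ?_⟩
    unfold Phi load
    simp
  | succ T ih =>
    obtain ⟨A, hA, hPhi⟩ := ih
    have hpos : 0 < Phi g A := by
      unfold Phi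
      have : Nonempty V := Fintype.card_pos_iff.mp hn
      exact Finset.sum_pos (fun v _ => pow_pos (by linarith) _) univ_nonempty
    obtain ⟨a, ha, hw⟩ := hno (fun v => (1 + g) ^ load A v * (D / Phi g A))
      (fun v => mul_nonneg (pow_nonneg (by linarith) _) (div_nonneg hD.le hpos.le)) (by
        rw [← Finset.sum_mul]
        show Phi g A * (D / Phi g A) = D
        field_simp)
    have h1 : (∑ i, ∑ v ∈ a i, (1 + g) ^ load A v) * (D / Phi g A) ≤ c * m := by
      rw [Finset.sum_mul]
      simp_rw [Finset.sum_mul]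
      exact hw
    have h2 : ∑ i, ∑ v ∈ a i, (1 + g) ^ load A v ≤ c * m * Phi g A / D := by
      rw [le_div_iff₀ hD]
      have h3 : (∑ i, ∑ v ∈ a i, (1 + g) ^ load A v) * (D / Phi g A) * Phi g A =
          (∑ i, ∑ v ∈ a i, (1 + g) ^ load A v) * D := by field_simp
      rw [← h3]
      exact mul_le_mul_of_nonneg_right h1 hpos.le
    refine ⟨Fin.cons a A, ?_, ?_⟩
    · intro k
      refine Fin.cases ?_ ?_ k
      · simpa using ha
      · intro k
        simpa using hA k
    · rw [Phi_cons g A a (hP a ha)]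
      have h4 : Phi g A + g * ∑ i, ∑ v ∈ a i, (1 + g) ^ load A v
          ≤ Phi g A * (1 + g * c * m / D) := by
        have := mul_le_mul_of_nonneg_left h2 hg
        have h5 : g * (c * m * Phi g A / D) = Phi g A * (g * c * m / D) := by ring
        rw [h5] at this
        linarith
      refine h4.trans ?_
      rw [pow_succ, ← mul_assoc]
      refine mul_le_mul_of_nonneg_right hPhi ?_
      have : 0 ≤ g * c * m / D := by positivity
      linarith

omit [Fintype V] in
/-- A large matching from a balanced family of robust tuples. -/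
theorem combine {r m' b R T : ℕ} (hr : 1 ≤ r) (G : Finset (Finset V)) (hR0 : 0 < R)
    (A : Fin T → Fin r → Finset V) (hconn : ∀ k, Conn G r m' (A k))
    (O : Finset V) (hload : ∀ v, v ∉ O → load A v ≤ R)
    (hsize : ∀ k i, R * b ≤ (A k i \ O).card) (hb : m' ≤ b) :
    ∃ M ⊆ G, IsMatch M ∧ M.card = T * (b - m') := by
  obtain ⟨D, hD1, hD2, hD3⟩ := hall (fun p : Fin T × Fin r => A p.1 p.2 \ O) R b hR0 (by
    intro v
    by_cases hv : v ∈ O
    · have : univ.filter (fun x : Fin T × Fin r => v ∈ A x.1 x.2 \ O) = ∅ := by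
        rw [Finset.filter_eq_empty_iff]
        intro x _ hx
        exact (Finset.mem_sdiff.mp hx).2 hv
      rw [this]
      simp
    · refine le_trans (Finset.card_le_card ?_) ((load_card A v).le.trans (hload v hv))
      intro x hx
      rw [Finset.mem_filter] at hx ⊢
      exact ⟨mem_univ _, (Finset.mem_sdiff.mp hx.2).1⟩) (fun x => hsize x.1 x.2)
  have hN : ∀ k : Fin T, ∃ N ⊆ G, N.card = b - m' ∧ IsMatch N ∧
      ∀ e ∈ N, Cross r (fun i => D (k, i)) e := by
    intro k
    refine match_in hr G (A k) (fun i => D (k, i))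
      (fun i => (hD1 (k, i)).trans Finset.sdiff_subset) ?_ (b := b)
      (fun i => (hD2 (k, i)).ge) (hconn k) (b - m') (by omega)
    intro i j hij
    exact hD3 _ _ (by simpa using hij)
  choose N hNG hNc hNm hNx using hN
  have hcross : ∀ k l, k ≠ l → ∀ e ∈ N k, ∀ f ∈ N l, Disjoint e f := by
    intro k l hkl e he f hf
    refine Finset.disjoint_of_subset_left (cross_sub (hNx k e he))
      (Finset.disjoint_of_subset_right (cross_sub (hNx l f hf)) ?_)
    rw [Finset.disjoint_biUnion_left]
    intro i _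
    rw [Finset.disjoint_biUnion_right]
    intro j _
    exact hD3 _ _ (by simp [hkl])
  refine ⟨univ.biUnion N, ?_, ?_, ?_⟩
  · intro e he
    obtain ⟨k, _, hk⟩ := Finset.mem_biUnion.mp he
    exact hNG k hk
  · intro e he f hf hef
    obtain ⟨k, _, hk⟩ := Finset.mem_biUnion.mp he
    obtain ⟨l, _, hl⟩ := Finset.mem_biUnion.mp hf
    by_cases hkl : k = l
    · subst hkl
      exact hNm k e hk f hl hef
    · exact hcross k l hkl e hk f hl
  · rw [Finset.card_biUnion]
    · simp [hNc]
    · intro k _ l _ hkl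
      show Disjoint (N k) (N l)
      rw [Finset.disjoint_left]
      intro e he he'
      have hdis := hcross k l hkl e he e he'
      rw [disjoint_self] at hdis
      exact (cross_nonempty hr (hNx k e he)).ne_empty hdis

/-- Dual weights for robust tuples. -/
theorem dual (ε κ : ℝ) (hε : 0 < ε) (hε1 : ε ≤ 1 / 2) (hκ : 0 < κ) :
    ∃ η : ℝ, 0 < η ∧ η ≤ 1 ∧ ∀ (V : Type) [Fintype V] [DecidableEq V] (r m m' ν : ℕ)
      (G : Finset (Finset V)), 1 ≤ r → 0 < m → κ * Fintype.card V ≤ m → m ≤ Fintype.card V →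
      (1 + m' : ℝ) ≤ η * m → ν ≤ Fintype.card V →
      (∀ M ⊆ G, IsMatch M → M.card ≤ ν) →
      ∃ w : V → ℝ, (∀ v, 0 ≤ w v) ∧ ∑ v, w v ≤ ν + ε * Fintype.card V ∧
        ∀ A, Good G r m m' A → (1 - ε) * m ≤ ∑ i, ∑ v ∈ A i, w v := by
  obtain ⟨R, hRge⟩ := exists_nat_ge (max (4 / ε) (4 / ε ^ 2 * Real.log (16 / (ε * κ))))
  have hR1 : 4 / ε ≤ R := (le_max_left _ _).trans hRge
  have hR2 : 4 / ε ^ 2 * Real.log (16 / (ε * κ)) ≤ R := (le_max_right _ _).trans hRge
  have hR0 : (0 : ℝ) < R := lt_of_lt_of_le (by positivity) hR1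
  have hR0' : 0 < R := by exact_mod_cast hR0
  have hR3 : 4 ≤ ε * R := by
    rw [div_le_iff₀ hε] at hR1
    linarith
  have hexp : Real.exp (-(ε ^ 2 * R / 4)) ≤ ε * κ / 16 := by
    have h1 : Real.log (16 / (ε * κ)) ≤ ε ^ 2 * R / 4 := by
      have h2 : 4 / ε ^ 2 * Real.log (16 / (ε * κ)) * (ε ^ 2 / 4) ≤ R * (ε ^ 2 / 4) :=
        mul_le_mul_of_nonneg_right hR2 (by positivity)
      have h3 : 4 / ε ^ 2 * Real.log (16 / (ε * κ)) * (ε ^ 2 / 4) = Real.log (16 / (ε * κ)) := by
        field_simp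
      rw [h3] at h2
      linarith
    calc Real.exp (-(ε ^ 2 * R / 4)) ≤ Real.exp (- Real.log (16 / (ε * κ))) :=
          Real.exp_le_exp.mpr (by linarith)
      _ = ε * κ / 16 := by
          rw [Real.exp_neg, Real.exp_log (by positivity)]
          field_simp
  refine ⟨ε / (16 * R), by positivity, ?_, ?_⟩
  · rw [div_le_one (by positivity)]
    nlinarith
  intro V _ _ r m m' ν G hr hm hκm hmn hm' hνn hmatch
  set n := Fintype.card V with hn
  have hm0 : (0 : ℝ) < m := by exact_mod_cast hm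
  have hn0 : (0 : ℝ) < n := by
    have : (m : ℝ) ≤ n := by exact_mod_cast hmn
    linarith
  have hmnr : (m : ℝ) ≤ n := by exact_mod_cast hmn
  have hνr : (ν : ℝ) ≤ n := by exact_mod_cast hνn
  have hν0 : (0 : ℝ) ≤ ν := Nat.cast_nonneg _
  set D : ℝ := ν + ε * n with hDdef
  have hεn : 0 < ε * n := by positivity
  have hD0 : 0 < D := by linarith
  by_contra hcon
  push Not at hcon
  have hno : ∀ w : V → ℝ, (∀ v, 0 ≤ w v) → ∑ v, w v = D →
      ∃ A, Good G r m m' A ∧ ∑ i, ∑ v ∈ A i, w v ≤ (1 - ε) * m := by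
    intro w hw hwD
    obtain ⟨A, hA, hlt⟩ := hcon w hw hwD.le
    exact ⟨A, hA, hlt.le⟩
  set T := ⌊R * D / m⌋₊ with hT
  obtain ⟨A, hA, hPhi⟩ := iterate (r := r) (m := m) (Good G r m m') (fun A h => h.1)
    (ε / 2) (1 - ε) D (by positivity) (by linarith) hD0 (by exact_mod_cast hn0) hno T
  have hTle : (T : ℝ) ≤ R * D / m := Nat.floor_le (by positivity)
  have hTge : R * D / m < T + 1 := Nat.lt_floor_add_one _
  -- bound of the potential
  have hPhi2 : Phi (ε / 2) A ≤ n * Real.exp (ε / 2 * (1 - ε) * R) := by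
    refine hPhi.trans (mul_le_mul_of_nonneg_left ?_ hn0.le)
    have h1 : 1 + ε / 2 * (1 - ε) * m / D ≤ Real.exp (ε / 2 * (1 - ε) * m / D) := by
      have := Real.add_one_le_exp (ε / 2 * (1 - ε) * m / D)
      linarith
    have h0 : 0 ≤ ε / 2 * (1 - ε) * m / D := by
      have : 0 ≤ 1 - ε := by linarith
      positivity
    refine (pow_le_pow_left₀ (by linarith) h1 T).trans ?_
    rw [← Real.exp_nat_mul]
    refine Real.exp_le_exp.mpr ?_
    calc (T : ℝ) * (ε / 2 * (1 - ε) * m / D) ≤ (R * D / m) * (ε / 2 * (1 - ε) * m / D) :=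
          mul_le_mul_of_nonneg_right hTle h0
      _ = ε / 2 * (1 - ε) * R := by field_simp
  set O := univ.filter (fun v => R < load A v) with hO
  have hOle : (O.card : ℝ) * (1 + ε / 2) ^ R ≤ Phi (ε / 2) A := by
    unfold Phi
    calc (O.card : ℝ) * (1 + ε / 2) ^ R = ∑ v ∈ O, (1 + ε / 2) ^ R := by
          rw [Finset.sum_const, nsmul_eq_mul]
      _ ≤ ∑ v ∈ O, (1 + ε / 2) ^ load A v := by
          refine Finset.sum_le_sum (fun v hv => ?_)
          rw [hO, Finset.mem_filter] at hv
          exact pow_le_pow_right₀ (by linarith) hv.2.le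
      _ ≤ ∑ v, (1 + ε / 2) ^ load A v :=
          Finset.sum_le_sum_of_subset_of_nonneg (subset_univ _)
            (fun v _ _ => by positivity)
  have hlow : Real.exp (ε / 2 * (1 - ε / 2) * R) ≤ (1 + ε / 2) ^ R := by
    have h1 := Real.one_sub_inv_le_log_of_pos (show (0 : ℝ) < 1 + ε / 2 by positivity)
    have h2 : ε / 2 * (1 - ε / 2) ≤ 1 - (1 + ε / 2)⁻¹ := by
      have h3 : 1 - (1 + ε / 2)⁻¹ = (ε / 2) / (1 + ε / 2) := by field_simp; ring
      rw [h3, le_div_iff₀ (by positivity)]
      nlinarith [sq_nonneg ε, mul_pos hε hε]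
    have h4 : (1 + ε / 2 : ℝ) ^ R = Real.exp (R * Real.log (1 + ε / 2)) := by
      rw [Real.exp_nat_mul, Real.exp_log (by positivity)]
    rw [h4]
    refine Real.exp_le_exp.mpr ?_
    calc ε / 2 * (1 - ε / 2) * R = R * (ε / 2 * (1 - ε / 2)) := by ring
      _ ≤ R * Real.log (1 + ε / 2) := mul_le_mul_of_nonneg_left (h2.trans h1) hR0.le
  have hOsmall : (O.card : ℝ) ≤ ε * m / 16 := by
    have h1 : (O.card : ℝ) * Real.exp (ε / 2 * (1 - ε / 2) * R) ≤
        n * Real.exp (ε / 2 * (1 - ε) * R) :=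
      (mul_le_mul_of_nonneg_left hlow (Nat.cast_nonneg _)).trans (hOle.trans hPhi2)
    have h2 : Real.exp (ε / 2 * (1 - ε) * R) =
        Real.exp (-(ε ^ 2 * R / 4)) * Real.exp (ε / 2 * (1 - ε / 2) * R) := by
      rw [← Real.exp_add]
      congr 1
      ring
    rw [h2, ← mul_assoc] at h1
    have h3 := le_of_mul_le_mul_right h1 (Real.exp_pos _)
    calc (O.card : ℝ) ≤ n * Real.exp (-(ε ^ 2 * R / 4)) := h3
      _ ≤ n * (ε * κ / 16) := mul_le_mul_of_nonneg_left hexp hn0.le
      _ = ε * (κ * n) / 16 := by ring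
      _ ≤ ε * m / 16 := by
          have := mul_le_mul_of_nonneg_left hκm hε.le
          linarith
  set b := (m - O.card) / R with hb
  have hOm : O.card ≤ m := by
    have : (O.card : ℝ) ≤ m := by nlinarith
    exact_mod_cast this
  have hb1 : R * b ≤ m - O.card := Nat.mul_div_le _ _
  have hb2 : m - O.card < R * (b + 1) := Nat.lt_mul_div_succ _ hR0'
  have hb3 : (m : ℝ) - O.card < R * (b + 1) := by
    have : ((m - O.card : ℕ) : ℝ) < ((R * (b + 1) : ℕ) : ℝ) := by exact_mod_cast hb2
    rw [Nat.cast_sub hOm] at this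
    push_cast at this
    exact this
  have hm'2 : R * (1 + m' : ℝ) ≤ ε * m / 16 := by
    calc R * (1 + m' : ℝ) ≤ R * (ε / (16 * R) * m) := mul_le_mul_of_nonneg_left hm' hR0.le
      _ = ε * m / 16 := by field_simp
  have hX : m * (1 - ε / 8) ≤ R * ((b : ℝ) - m') := by nlinarith
  have hXpos : 0 < m * (1 - ε / 8) := by
    apply mul_pos hm0; linarith
  have hbm : m' ≤ b := by
    have h1 : 0 < (b : ℝ) - m' := by
      by_contra h
      have : R * ((b : ℝ) - m') ≤ 0 := mul_nonpos_of_nonneg_of_nonpos hR0.le (not_lt.mp h)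
      linarith
    have : (m' : ℝ) ≤ b := by linarith
    exact_mod_cast this
  obtain ⟨M, hMG, hMm, hMc⟩ := combine hr G hR0' A (fun k => (hA k).2.2) O (by
      intro v hv
      rw [hO, Finset.mem_filter, not_and, not_lt] at hv
      exact hv (mem_univ _)) (by
      intro k i
      refine hb1.trans ?_
      have h1 := Finset.le_card_sdiff O (A k i)
      rw [(hA k).2.1 i] at h1
      exact h1) hbm
  have hfin := hmatch M hMG hMm
  rw [hMc] at hfin
  have hfin2 : (T : ℝ) * ((b : ℝ) - m') ≤ ν := by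
    have : ((T * (b - m') : ℕ) : ℝ) ≤ ν := by exact_mod_cast hfin
    rw [Nat.cast_mul, Nat.cast_sub hbm] at this
    exact this
  have hX2 : m / R * (1 - ε / 8) ≤ (b : ℝ) - m' := by
    rw [div_mul_eq_mul_div, div_le_iff₀ hR0]
    linarith
  have hRD : 0 ≤ R * D / m - 1 := by
    have h1 : (m : ℝ) ≤ R * D := by
      have h2 : ε * n ≤ D := by linarith
      have h3 : R * (ε * n) ≤ R * D := mul_le_mul_of_nonneg_left h2 hR0.le
      have h4 : 4 * n ≤ R * (ε * n) := by
        have := mul_le_mul_of_nonneg_right hR3 hn0.le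
        linarith
      linarith
    have h2 : 1 ≤ R * D / m := by rw [le_div_iff₀ hm0]; linarith
    linarith
  have hX0 : 0 ≤ (b : ℝ) - m' := by
    have : (m' : ℝ) ≤ b := by exact_mod_cast hbm
    linarith
  have h5 : (R * D / m - 1) * (m / R * (1 - ε / 8)) ≤ ν := by
    calc (R * D / m - 1) * (m / R * (1 - ε / 8)) ≤ (R * D / m - 1) * ((b : ℝ) - m') :=
          mul_le_mul_of_nonneg_left hX2 hRD
      _ ≤ T * ((b : ℝ) - m') := mul_le_mul_of_nonneg_right (by linarith) hX0
      _ ≤ ν := hfin2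
  have h6 : (R * D / m - 1) * (m / R * (1 - ε / 8)) = (D - m / R) * (1 - ε / 8) := by
    field_simp
  rw [h6] at h5
  have h7 : (m : ℝ) / R ≤ ε * n / 4 := by
    rw [div_le_iff₀ hR0]
    have h8 : 4 * (n / 4) ≤ ε * R * (n / 4) :=
      mul_le_mul_of_nonneg_right hR3 (by positivity)
    have h9 : ε * n / 4 * R = ε * R * (n / 4) := by ring
    rw [h9]
    linarith
  have h8 : 0 ≤ (m : ℝ) / R := by positivity
  have h9 : D ≤ 2 * n := by nlinarith
  nlinarith [mul_le_mul_of_nonneg_left h9 hε.le, mul_nonneg hε.le h8]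

end Pool.Agent.X78.ConnB
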