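import Mathlib
import Pool.Agent.X78.ConnA
import Pool.Agent.X78.ConnB

set_option autoImplicit false

/-!
# Monochromatic matchings in connectors
-/

namespace Pool.Agent.X78.ConnC

open Finset
open Pool.Agent.X78.ConnB

/-- In a coloured connector every tuple of large sets contains a robust tuple for some colour. -/
theorem color_lemma {V : Type} [DecidableEq V] {q r s : ℕ} (H : Finset (Finset V))
    (χ : Finset V → Fin q)
    (hconn : ∀ A : Fin r → Finset V, PD A → (∀ i, s ≤ (A i).card) → ∃ e ∈ H, Cross r A e)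
    (M : ℕ → ℕ) (hs : s ≤ M q) (C : Fin r → Finset V) (hC : PD C)
    (hCc : ∀ i, (C i).card = M 0) :
    ∃ j : Fin q, ∃ A : Fin r → Finset V, (∀ i, A i ⊆ C i) ∧
      Good (H.filter (fun e => χ e = j)) r (M j) (M (j + 1)) A := by
  by_contra hcon
  push Not at hcon
  have key : ∀ k, k ≤ q → ∃ A : Fin r → Finset V, (∀ i, A i ⊆ C i) ∧ (∀ i, (A i).card = M k) ∧
      ∀ e ∈ H, Cross r A e → k ≤ (χ e : ℕ) := by
    intro k
    induction k with
    | zero => intro _; exact ⟨C, fun _ => Finset.Subset.refl _, hCc, fun _ _ _ => Nat.zero_le _⟩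
    | succ k ih =>
      intro hk
      obtain ⟨A, hA1, hA2, hA3⟩ := ih (by omega)
      have hAPD : PD A := fun i j hij =>
        Finset.disjoint_of_subset_left (hA1 i) (Finset.disjoint_of_subset_right (hA1 j) (hC i j hij))
      have hng := hcon ⟨k, hk⟩ A hA1
      have hnc : ¬ Conn (H.filter (fun e => χ e = ⟨k, hk⟩)) r (M (k + 1)) A := by
        intro h
        exact hng ⟨hAPD, hA2, h⟩
      unfold Conn at hnc
      push Not at hnc
      obtain ⟨B, hB1, hB2, hB3⟩ := hnc
      choose B' hB'1 hB'2 using fun i => Finset.exists_subset_card_eq (hB2 i)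
      refine ⟨B', fun i => (hB'1 i).trans ((hB1 i).trans (hA1 i)), hB'2, ?_⟩
      intro e he hx
      have h1 := hA3 e he (cross_mono (fun i => (hB'1 i).trans (hB1 i)) hx)
      have h2 : (χ e : ℕ) ≠ k := by
        intro h
        refine hB3 e (Finset.mem_filter.mpr ⟨he, ?_⟩) (cross_mono hB'1 hx)
        exact Fin.ext h
      omega
  obtain ⟨A, hA1, hA2, hA3⟩ := key q le_rfl
  have hAPD : PD A := fun i j hij =>
    Finset.disjoint_of_subset_left (hA1 i) (Finset.disjoint_of_subset_right (hA1 j) (hC i j hij))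
  obtain ⟨e, he, hx⟩ := hconn A hAPD (fun i => by rw [hA2 i]; exact hs)
  have := hA3 e he hx
  have := (χ e).2
  omega

/-- The sequence of densities. -/
noncomputable def kap (κ0 : ℝ) (η : ℝ → ℝ) : ℕ → ℝ
  | 0 => κ0
  | j + 1 => η (kap κ0 η j) * kap κ0 η j / 2

theorem kap_pos (κ0 : ℝ) (η : ℝ → ℝ) (h0 : 0 < κ0) (hη : ∀ x, 0 < x → 0 < η x) :
    ∀ j, 0 < kap κ0 η j := by
  intro j
  induction j with
  | zero => exact h0
  | succ j ih =>
    show 0 < η (kap κ0 η j) * kap κ0 η j / 2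
    have := hη _ ih
    positivity

theorem kap_succ_le (κ0 : ℝ) (η : ℝ → ℝ) (h0 : 0 < κ0) (hη : ∀ x, 0 < x → 0 < η x)
    (hη1 : ∀ x, 0 < x → η x ≤ 1) (j : ℕ) : kap κ0 η (j + 1) ≤ kap κ0 η j := by
  have h1 := kap_pos κ0 η h0 hη j
  show η (kap κ0 η j) * kap κ0 η j / 2 ≤ kap κ0 η j
  have h2 := hη1 _ h1
  have h3 : η (kap κ0 η j) * kap κ0 η j ≤ 1 * kap κ0 η j :=
    mul_le_mul_of_nonneg_right h2 h1.le
  linarith

theorem kap_anti (κ0 : ℝ) (η : ℝ → ℝ) (h0 : 0 < κ0) (hη : ∀ x, 0 < x → 0 < η x)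
    (hη1 : ∀ x, 0 < x → η x ≤ 1) : Antitone (kap κ0 η) :=
  antitone_nat_of_succ_le (kap_succ_le κ0 η h0 hη hη1)

/-- Disjoint sets of prescribed size inside large cells. -/
theorem disjoint_choice {V α : Type} [DecidableEq V] [Fintype V] [DecidableEq α] {r m : ℕ}
    (c : V → α)
    (p : α → Prop) (hp : ∀ x, p x → r * m ≤ Fintype.card {v // c v = x}) (f : Fin r → Subtype p) :
    ∃ C : Fin r → Finset V, PD C ∧ (∀ i, (C i).card = m) ∧ ∀ i, ∀ v ∈ C i, c v = (f i).1 := by
  have hE : ∀ x : Subtype p, Nonempty (Fin r × Fin m ↪ {v // c v = x.1}) := by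
    intro x
    rw [Function.Embedding.nonempty_iff_card_le, Fintype.card_prod, Fintype.card_fin,
      Fintype.card_fin]
    exact hp x.1 x.2
  have E : ∀ x : Subtype p, Fin r × Fin m ↪ {v // c v = x.1} := fun x => (hE x).some
  refine ⟨fun i => univ.image (fun k => ((E (f i) (i, k)) : V)), ?_, ?_, ?_⟩
  · intro i j hij
    rw [Finset.disjoint_left]
    intro v hv hv'
    rw [Finset.mem_image] at hv hv'
    obtain ⟨k, _, rfl⟩ := hv
    obtain ⟨l, _, hl⟩ := hv'
    have h1 : (f i).1 = (f j).1 := by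
      rw [← (E (f i) (i, k)).2, ← (E (f j) (j, l)).2, hl]
    have h2 : f i = f j := Subtype.ext h1
    rw [h2] at hl
    have h3 := (E (f j)).injective (Subtype.ext hl)
    simp only [Prod.mk.injEq] at h3
    exact hij h3.1.symm
  · intro i
    rw [Finset.card_image_of_injective, Finset.card_univ, Fintype.card_fin]
    intro k l hkl
    have h3 := (E (f i)).injective (Subtype.ext hkl)
    simp only [Prod.mk.injEq, true_and] at h3
    exact h3
  · intro i v hv
    rw [Finset.mem_image] at hv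
    obtain ⟨k, _, rfl⟩ := hv
    exact (E (f i) (i, k)).2

/-- The main estimate. -/
theorem main (q r : ℕ) (hr : 1 ≤ r) (ε : ℝ) (hε : 0 < ε) (hε1 : ε ≤ 1) :
    ∃ δ : ℝ, 0 < δ ∧ ∀ n s : ℕ, 1 ≤ s → (s : ℝ) ≤ δ * n →
      ∀ (H : Finset (Finset (Fin n))) (χ : Finset (Fin n) → Fin q),
      (∀ A : Fin r → Finset (Fin n), PD A → (∀ i, s ≤ (A i).card) → ∃ e ∈ H, Cross r A e) →
      ∀ (ν : Fin q → ℕ) (N : ℕ), (∀ j, ν j ≤ N) →
      (∀ j, ∀ M ⊆ H.filter (fun e => χ e = j), IsMatch M → M.card ≤ ν j) →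
      (n : ℝ) ≤ ((r : ℝ) - 1) * N + ∑ j, (ν j : ℝ) + ε * n := by
  have hr1 : (1 : ℝ) ≤ r := by exact_mod_cast hr
  have hq0 : (0 : ℝ) ≤ q := Nat.cast_nonneg q
  set e0 : ℝ := ε / (r + q + 2) with he0
  have he0pos : 0 < e0 := by positivity
  have he0le : e0 ≤ 1 / 3 := by
    rw [he0, div_le_div_iff₀ (by positivity) (by norm_num)]
    linarith
  have he0eq : e0 * (r + q + 2) = ε := by rw [he0]; field_simp
  obtain ⟨L, hL⟩ := exists_nat_ge ((r : ℝ) / e0)
  have hL0 : (0 : ℝ) < L := lt_of_lt_of_le (by positivity) hL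
  have hL0' : 0 < L := by exact_mod_cast hL0
  have hrL : (r : ℝ) / L ≤ e0 := by
    rw [div_le_iff₀ hL0]
    rw [div_le_iff₀ he0pos] at hL
    linarith
  have hdual := fun κ : ℝ => fun hκ : 0 < κ => dual e0 κ he0pos (by linarith) hκ
  choose η' hη'1 hη'2 hη'3 using hdual
  let η : ℝ → ℝ := fun x => if h : 0 < x then η' x h else 1
  have hη1 : ∀ x, 0 < x → 0 < η x := fun x hx => by simp only [η, hx, dif_pos]; exact hη'1 x hx
  have hη2 : ∀ x, 0 < x → η x ≤ 1 := fun x hx => by simp only [η, hx, dif_pos]; exact hη'2 x hx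
  set K : ℝ := ((L : ℝ) + 1) ^ q with hK
  have hK1 : 1 ≤ K := one_le_pow₀ (by linarith)
  set κ0 : ℝ := e0 / (2 * K * r) with hκ0
  have hκ0pos : 0 < κ0 := by positivity
  have hκ0le : κ0 ≤ 1 := by
    rw [hκ0, div_le_one (by positivity)]
    nlinarith
  set κ := kap κ0 η with hκ
  have hκpos : ∀ j, 0 < κ j := kap_pos κ0 η hκ0pos hη1
  have hκanti : Antitone κ := kap_anti κ0 η hκ0pos hη1 hη2
  refine ⟨κ q / 2, by have := hκpos q; positivity, ?_⟩
  intro n s hs hsδ H χ hconn ν N hN hmatch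
  have hn0 : (0 : ℝ) ≤ n := Nat.cast_nonneg n
  have hs1 : (1 : ℝ) ≤ s := by exact_mod_cast hs
  have hκqn : 2 ≤ κ q * n := by linarith
  have hnpos : (0 : ℝ) < n := by
    by_contra h
    have : (n : ℝ) = 0 := le_antisymm (not_lt.mp h) hn0
    rw [this] at hκqn
    linarith
  have hκjn : ∀ j, j ≤ q → 2 ≤ κ j * n := fun j hj =>
    hκqn.trans (mul_le_mul_of_nonneg_right (hκanti hj) hn0)
  -- trivial case
  by_cases hbig : ∃ j, n ≤ ν j
  · obtain ⟨j, hj⟩ := hbig
    have h1 : (ν j : ℝ) ≤ ∑ j, (ν j : ℝ) :=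
      Finset.single_le_sum (f := fun j => (ν j : ℝ)) (fun _ _ => Nat.cast_nonneg _) (mem_univ j)
    have h2 : (n : ℝ) ≤ ν j := by exact_mod_cast hj
    have h3 : 0 ≤ ((r : ℝ) - 1) * N := mul_nonneg (by linarith) (Nat.cast_nonneg N)
    have h4 : 0 ≤ ε * n := by positivity
    linarith
  push Not at hbig
  set M : ℕ → ℕ := fun j => ⌈κ j * n⌉₊ with hM
  have hM1 : ∀ j, κ j * n ≤ M j := fun j => Nat.le_ceil _
  have hM2 : ∀ j, (M j : ℝ) < κ j * n + 1 := fun j =>
    Nat.ceil_lt_add_one (mul_nonneg (hκpos j).le hn0)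
  have hM3 : ∀ j, M j ≤ n := by
    intro j
    apply Nat.ceil_le.mpr
    have h1 : κ j ≤ 1 := (hκanti (Nat.zero_le j)).trans hκ0le
    have := mul_le_mul_of_nonneg_right h1 hn0
    linarith
  have hM4 : ∀ j, 0 < M j := fun j => Nat.ceil_pos.mpr (mul_pos (hκpos j) hnpos)
  have hM5 : ∀ j, j < q → (1 + M (j + 1) : ℝ) ≤ η' (κ j) (hκpos j) * M j := by
    intro j hj
    have h1 : κ (j + 1) = η' (κ j) (hκpos j) * κ j / 2 := by
      show η (kap κ0 η j) * kap κ0 η j / 2 = _
      have : η (kap κ0 η j) = η' (κ j) (hκpos j) := by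
        simp only [η]
        rw [dif_pos (hκpos j)]
      rw [this]
    have h2 := hκjn (j + 1) hj
    have h3 := hM2 (j + 1)
    have h4 : η' (κ j) (hκpos j) * (κ j * n) ≤ η' (κ j) (hκpos j) * M j :=
      mul_le_mul_of_nonneg_left (hM1 j) (hη'1 _ _).le
    have h5 : η' (κ j) (hκpos j) * (κ j * n) = 2 * (κ (j + 1) * n) := by rw [h1]; ring
    linarith
  have hsM : s ≤ M q := by
    have h1 : (s : ℝ) ≤ M q := by
      have := hM1 q
      have h2 : κ q / 2 * n ≤ κ q * n := by
        have := mul_nonneg (hκpos q).le hn0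
        linarith
      linarith
    exact_mod_cast h1
  -- weights
  have hw : ∀ j : Fin q, ∃ w : Fin n → ℝ, (∀ v, 0 ≤ w v) ∧ ∑ v, w v ≤ ν j + e0 * n ∧
      ∀ A, Good (H.filter (fun e => χ e = j)) r (M j) (M (j + 1)) A →
        (1 - e0) * M j ≤ ∑ i, ∑ v ∈ A i, w v := by
    intro j
    have h1 := hη'3 (κ j) (hκpos j) (Fin n) r (M j) (M (j + 1)) (ν j)
      (H.filter (fun e => χ e = j)) hr (hM4 j) (by rw [Fintype.card_fin]; exact hM1 j)
      (by rw [Fintype.card_fin]; exact hM3 j) (hM5 j j.2)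
      (by rw [Fintype.card_fin]; exact (hbig j).le) (hmatch j)
    rw [Fintype.card_fin] at h1
    exact h1
  choose w hw0 hwsum hwgood using hw
  -- cells
  let c : Fin n → (Fin q → Fin (L + 1)) := fun v j => ⟨min L ⌊L * w j v⌋₊, by omega⟩
  let p : (Fin q → Fin (L + 1)) → Prop := fun x => r * M 0 ≤ Fintype.card {v // c v = x}
  classical
  let z : Subtype p → ℝ := fun x => Fintype.card {v // c v = x.1}
  let y : Subtype p → Fin q → ℝ := fun x j => (x.1 j : ℕ) / (L : ℝ)
  have hcle : ∀ v j, ((c v j : ℕ) : ℝ) / L ≤ w j v := by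
    intro v j
    rw [div_le_iff₀ hL0]
    have h1 : (c v j : ℕ) ≤ ⌊L * w j v⌋₊ := min_le_right _ _
    have h2 : (⌊L * w j v⌋₊ : ℝ) ≤ L * w j v := Nat.floor_le (mul_nonneg hL0.le (hw0 j v))
    have h3 : ((c v j : ℕ) : ℝ) ≤ ⌊L * w j v⌋₊ := by exact_mod_cast h1
    linarith
  set B : ℝ := 1 - e0 - r / L with hB
  have hB0 : 0 < B := by rw [hB]; linarith
  have hstar : ∀ f : Fin r → Subtype p, ∃ j, B ≤ ∑ i, y (f i) j := by
    intro f
    obtain ⟨C, hC1, hC2, hC3⟩ := disjoint_choice c p (fun x hx => hx) f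
    obtain ⟨j, A, hA1, hA2⟩ := color_lemma H χ hconn M hsM C hC1 hC2
    refine ⟨j, ?_⟩
    have hy0 : ∀ i, 0 ≤ y (f i) j := fun i => div_nonneg (Nat.cast_nonneg _) hL0.le
    by_cases htop : ∃ i, ((f i).1 j : ℕ) = L
    · obtain ⟨i, hi⟩ := htop
      have h1 : y (f i) j = 1 := by
        simp only [y, hi]
        exact div_self hL0.ne'
      have h2 : y (f i) j ≤ ∑ i, y (f i) j :=
        Finset.single_le_sum (f := fun i => y (f i) j) (fun i _ => hy0 i) (mem_univ i)
      have h3 : 0 ≤ (r : ℝ) / L := by positivity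
      rw [h1] at h2
      rw [hB]
      linarith
    · push Not at htop
      have h1 := hwgood j A hA2
      have h2 : ∀ i, ∑ v ∈ A i, w j v ≤ M j * (y (f i) j + 1 / L) := by
        intro i
        have h3 : ∀ v ∈ A i, w j v ≤ y (f i) j + 1 / L := by
          intro v hv
          have h4 := hC3 i v (hA1 i hv)
          have h5 : ((f i).1 j : ℕ) = min L ⌊L * w j v⌋₊ := by rw [← h4]
          have h6 := htop i
          have h7 : ⌊L * w j v⌋₊ = ((f i).1 j : ℕ) := by
            rcases le_total L ⌊L * w j v⌋₊ with h | h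
            · rw [min_eq_left h] at h5
              exact absurd h5 h6
            · rw [min_eq_right h] at h5
              exact h5.symm
          have h8 : L * w j v < ⌊L * w j v⌋₊ + 1 := Nat.lt_floor_add_one _
          rw [h7] at h8
          have h9 : w j v < (((f i).1 j : ℕ) + 1) / L := by
            rw [lt_div_iff₀ hL0]
            linarith
          have h10 : ((((f i).1 j : ℕ) : ℝ) + 1) / L = y (f i) j + 1 / L := by
            simp only [y]
            ring
          linarith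
        calc ∑ v ∈ A i, w j v ≤ ∑ v ∈ A i, (y (f i) j + 1 / L) := Finset.sum_le_sum h3
          _ = M j * (y (f i) j + 1 / L) := by
            rw [Finset.sum_const, nsmul_eq_mul, hA2.2.1 i]
      have h3 : ∑ i, ∑ v ∈ A i, w j v ≤ M j * (∑ i, y (f i) j + r / L) := by
        calc ∑ i, ∑ v ∈ A i, w j v ≤ ∑ i, M j * (y (f i) j + 1 / L) :=
              Finset.sum_le_sum (fun i _ => h2 i)
          _ = M j * (∑ i, y (f i) j + r / L) := by
            rw [← Finset.mul_sum, Finset.sum_add_distrib, Finset.sum_const, Finset.card_univ,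
              Fintype.card_fin, nsmul_eq_mul]
            ring
      have hMj : (0 : ℝ) < M j := by exact_mod_cast hM4 j
      have h4 : (M j : ℝ) * (1 - e0) ≤ M j * (∑ i, y (f i) j + r / L) := by linarith
      have h5 := le_of_mul_le_mul_left h4 hMj
      rw [hB]
      linarith
  have hy0 : ∀ x j, 0 ≤ y x j := fun x j => div_nonneg (Nat.cast_nonneg _) hL0.le
  have hz0 : ∀ x, 0 ≤ z x := fun x => Nat.cast_nonneg _
  -- the coordinate sums
  have hfib : ∀ g : (Fin q → Fin (L + 1)) → ℝ,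
      ∑ x, (Fintype.card {v // c v = x} : ℝ) * g x = ∑ v, g (c v) := by
    intro g
    rw [← Finset.sum_fiberwise' univ c g]
    refine Finset.sum_congr rfl (fun x _ => ?_)
    rw [Finset.sum_const, nsmul_eq_mul, Fintype.card_subtype]
  have htau : ∀ j, ∑ x, z x * y x j ≤ ν j + e0 * n := by
    intro j
    have h1 : ∑ x : Subtype p, z x * y x j ≤
        ∑ x : (Fin q → Fin (L + 1)), (Fintype.card {v // c v = x} : ℝ) * ((x j : ℕ) / (L : ℝ)) := by
      have h2 : ∑ x : Subtype p, z x * y x j =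
          ∑ x ∈ univ.filter p, (Fintype.card {v // c v = x} : ℝ) * ((x j : ℕ) / (L : ℝ)) := by
        rw [Finset.sum_subtype (univ.filter p) (p := p) (by simp)]
      rw [h2]
      exact Finset.sum_le_sum_of_subset_of_nonneg (Finset.filter_subset _ _)
        (fun x _ _ => mul_nonneg (Nat.cast_nonneg _) (div_nonneg (Nat.cast_nonneg _) hL0.le))
    refine h1.trans ?_
    rw [hfib (fun x => ((x j : ℕ) / (L : ℝ)))]
    exact (Finset.sum_le_sum (fun v _ => hcle v j)).trans (hwsum j)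
  have hzsum : (n : ℝ) - e0 * n ≤ ∑ x, z x := by
    have h1 : ∑ x : Subtype p, z x = ∑ x ∈ univ.filter p, (Fintype.card {v // c v = x} : ℝ) := by
      rw [Finset.sum_subtype (univ.filter p) (p := p) (by simp)]
    have h2 : ∑ x, (Fintype.card {v // c v = x} : ℝ) = n := by
      have := hfib (fun _ => 1)
      simpa using this
    have h3 := Finset.sum_filter_add_sum_filter_not (univ : Finset (Fin q → Fin (L + 1))) p
      (fun x => (Fintype.card {v // c v = x} : ℝ))
    have h4 : ∑ x ∈ univ.filter (fun x => ¬ p x), (Fintype.card {v // c v = x} : ℝ) ≤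
        K * (r * M 0) := by
      calc ∑ x ∈ univ.filter (fun x => ¬ p x), (Fintype.card {v // c v = x} : ℝ)
          ≤ ∑ x ∈ univ.filter (fun x => ¬ p x), (r * M 0 : ℝ) := by
            refine Finset.sum_le_sum (fun x hx => ?_)
            rw [Finset.mem_filter] at hx
            have : Fintype.card {v // c v = x} < r * M 0 := not_le.mp hx.2
            exact_mod_cast this.le
        _ ≤ ∑ x : (Fin q → Fin (L + 1)), (r * M 0 : ℝ) :=
            Finset.sum_le_sum_of_subset_of_nonneg (Finset.filter_subset _ _)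
              (fun _ _ _ => by positivity)
        _ = K * (r * M 0) := by
            rw [Finset.sum_const, Finset.card_univ, Fintype.card_fun, Fintype.card_fin,
              Fintype.card_fin, nsmul_eq_mul]
            push_cast
            rfl
    have h5 : K * (r * M 0) ≤ e0 * n := by
      have h6 := hM2 0
      have h7 : (M 0 : ℝ) ≤ 2 * (κ 0 * n) - 1 := by
        have := hκjn 0 (Nat.zero_le q)
        linarith
      have h8 : κ 0 = κ0 := rfl
      have h9 : K * (r * (M 0 : ℝ)) ≤ K * (r * (2 * (κ 0 * n))) := by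
        have : (M 0 : ℝ) ≤ 2 * (κ 0 * n) := by linarith
        gcongr
      refine h9.trans (le_of_eq ?_)
      rw [h8, hκ0]
      field_simp
    rw [h1]
    linarith
  have hNpos : 0 < (N : ℝ) + e0 * n := by positivity
  have hfrac := Pool.Agent.X78.ConnA.frac hr y hy0 B hB0 hstar z hz0 (N + e0 * n) hNpos (by
    intro j
    have h1 : (ν j : ℝ) ≤ N := by exact_mod_cast hN j
    linarith [htau j])
  have hS : ∑ j, ∑ x, z x * y x j ≤ ∑ j, (ν j : ℝ) + q * (e0 * n) := by
    calc ∑ j, ∑ x, z x * y x j ≤ ∑ j, ((ν j : ℝ) + e0 * n) :=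
          Finset.sum_le_sum (fun j _ => htau j)
      _ = _ := by
        rw [Finset.sum_add_distrib, Finset.sum_const, Finset.card_univ, Fintype.card_fin,
          nsmul_eq_mul]
  have hB2 : (1 - 3 * e0) * n ≤ B * ∑ x, z x := by
    have h1 : B * ((n : ℝ) - e0 * n) ≤ B * ∑ x, z x := mul_le_mul_of_nonneg_left hzsum hB0.le
    refine le_trans ?_ h1
    have h2 : 1 - 2 * e0 ≤ B := by rw [hB]; linarith
    have h3 : (1 - 2 * e0) * ((n : ℝ) - e0 * n) ≤ B * ((n : ℝ) - e0 * n) := by
      refine mul_le_mul_of_nonneg_right h2 ?_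
      have : e0 * n ≤ 1 / 3 * n := mul_le_mul_of_nonneg_right he0le hn0
      linarith
    refine le_trans ?_ h3
    have h4 : (1 - 2 * e0) * ((n : ℝ) - e0 * n) - (1 - 3 * e0) * n = 2 * e0 ^ 2 * n := by ring
    have h5 : 0 ≤ 2 * e0 ^ 2 * n := by positivity
    linarith
  have h6 : ((r : ℝ) - 1) * (N + e0 * n) = (r - 1) * N + (r - 1) * (e0 * n) := by ring
  have h7 : ε * n = (r + q + 2) * (e0 * n) := by rw [← he0eq]; ring
  rw [h7]
  linarith

end Pool.Agent.X78.ConnC
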