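import Pool.Agent.X78.SP1

set_option linter.unusedSectionVars false

namespace SymP

universe u

open MvPolynomial

variable {K : Type u} [Field K] {N : ℕ}

/-- linear form with given coefficients -/
noncomputable def lin (c : Fin N → K) : MvPolynomial (Fin N) K := ∑ i, C (c i) * X i

theorem lin_hom (c : Fin N → K) : (lin c).IsHomogeneous 1 := by
  refine IsHomogeneous.sum _ _ _ (fun a _ => ?_)
  have := (isHomogeneous_C (Fin N) (c a)).mul (isHomogeneous_X K a)
  simpa using this

theorem lin_eval (c x : Fin N → K) : eval x (lin c) = ∑ i, c i * x i := by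
  simp [lin]

theorem lin_add (c c' : Fin N → K) : lin (c + c') = lin c + lin c' := by
  simp only [lin, Pi.add_apply, C_add, add_mul, Finset.sum_add_distrib]

theorem lin_smul (a : K) (c : Fin N → K) : lin (a • c) = C a * lin c := by
  simp only [lin, Pi.smul_apply, smul_eq_mul, C_mul, Finset.mul_sum, mul_assoc]

theorem lin_mem {c p : Fin N → K} (h : ∑ i, c i * p i = 0) : lin c ∈ pointIdeal p :=
  Ideal.subset_span ⟨1, lin_hom c, by rw [lin_eval, h]⟩

/-- the Hankel matrix of linear forms -/
noncomputable def hM (ψ : Polynomial K →ₗ[K] (Fin N → K)) (q : Polynomial K) (t : ℕ) :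
    Matrix (Fin (t + 1)) (Fin (t + 1)) (MvPolynomial (Fin N) K) :=
  fun a b => lin (ψ (q * Polynomial.X ^ (a.1 + b.1)))

/-- its determinant -/
noncomputable def hG (ψ : Polynomial K →ₗ[K] (Fin N → K)) (q : Polynomial K) (t : ℕ) :
    MvPolynomial (Fin N) K := (hM ψ q t).det

theorem det_hom {m : ℕ} (M : Matrix (Fin m) (Fin m) (MvPolynomial (Fin N) K))
    (hM : ∀ a b, (M a b).IsHomogeneous 1) : M.det.IsHomogeneous m := by
  rw [Matrix.det_apply]
  refine IsHomogeneous.sum _ _ _ (fun σ _ => ?_)
  have h1 : (∏ i, M (σ i) i).IsHomogeneous m := by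
    have := IsHomogeneous.prod Finset.univ (fun i => M (σ i) i) (fun _ => 1) (fun i _ => hM _ _)
    simpa using this
  rcases Int.units_eq_one_or (Equiv.Perm.sign σ) with h | h
  · rw [h, one_smul]; exact h1
  · rw [h, Units.neg_smul, one_smul]; exact h1.neg

theorem hG_hom (ψ : Polynomial K →ₗ[K] (Fin N → K)) (q : Polynomial K) (t : ℕ) :
    (hG ψ q t).IsHomogeneous (t + 1) :=
  det_hom _ (fun _ _ => lin_hom _)

theorem prod_mem_pow {R : Type u} [CommRing R] (I : Ideal R) {m : ℕ} (f : Fin m → R)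
    (h : ∀ i, f i ∈ I) : ∏ i, f i ∈ I ^ m := by
  have := Ideal.prod_mem_prod (s := Finset.univ) (I := fun _ : Fin m => I) (x := f)
    (fun i _ => h i)
  simpa using this

variable {s lam : Fin (N + 2) → K} {p : Fin (N + 2) → (Fin N → K)}
  {ψ : Polynomial K →ₗ[K] (Fin N → K)}

/-- multiplicity `t+1` at roots of `q` -/
theorem hG_mem1 (hψ : ∀ f : Polynomial K, f.degree < N → ∀ z,
      ∑ i, ψ f i * p z i = lam z * f.eval (s z)) {q : Polynomial K} {t : ℕ}
    (hq : q.natDegree + 2 * t < N) (z : Fin (N + 2)) (hz : q.eval (s z) = 0) :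
    hG ψ q t ∈ pointIdeal (p z) ^ (t + 1) := by
  unfold hG
  rw [Matrix.det_apply]
  refine Ideal.sum_mem _ (fun σ _ => ?_)
  have h1 : ∏ i, hM ψ q t (σ i) i ∈ pointIdeal (p z) ^ (t + 1) := by
    refine prod_mem_pow _ _ (fun i => ?_)
    apply lin_mem
    rw [hψ]
    · rw [Polynomial.eval_mul, hz]; ring
    · refine lt_of_le_of_lt (Polynomial.degree_le_natDegree) ?_
      rw [Nat.cast_lt]
      refine lt_of_le_of_lt (Polynomial.natDegree_mul_le) ?_
      have h2 := (Polynomial.natDegree_X_pow_le (R := K) ((σ i).1 + i.1))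
      have := (σ i).2
      have := i.2
      omega
  rcases Int.units_eq_one_or (Equiv.Perm.sign σ) with h | h
  · rw [h, one_smul]; exact h1
  · rw [h, Units.neg_smul, one_smul]; exact Submodule.neg_mem _ h1

/-- multiplicity `t` everywhere -/
theorem hG_mem0 (hψ : ∀ f : Polynomial K, f.degree < N → ∀ z,
      ∑ i, ψ f i * p z i = lam z * f.eval (s z)) {q : Polynomial K} {t : ℕ}
    (hq : q.natDegree + 2 * t < N) (z : Fin (N + 2)) :
    hG ψ q t ∈ pointIdeal (p z) ^ t := by
  let B : Matrix (Fin (t + 1)) (Fin (t + 1)) (MvPolynomial (Fin N) K) := fun a b =>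
    Fin.cases (hM ψ q t 0 b) (fun a' : Fin t =>
      lin (ψ (q * (Polynomial.X - Polynomial.C (s z)) * Polynomial.X ^ (a'.1 + b.1)))) a
  have h1 : hG ψ q t = B.det := by
    unfold hG
    refine Matrix.det_eq_of_forall_row_eq_smul_add_pred (fun _ => C (s z)) (fun j => rfl)
      (fun a b => ?_)
    simp only [B, Fin.cases_succ, hM, Fin.val_succ, Fin.val_castSucc]
    rw [← lin_smul, ← lin_add, ← map_smul, ← map_add]
    congr 2
    rw [Polynomial.smul_eq_C_mul]
    ring
  rw [h1, ← Matrix.det_transpose, Matrix.det_apply]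
  refine Ideal.sum_mem _ (fun σ _ => ?_)
  have h1 : ∏ i, B.transpose (σ i) i ∈ pointIdeal (p z) ^ t := by
    rw [Fin.prod_univ_succ]
    apply Ideal.mul_mem_left
    refine prod_mem_pow _ _ (fun i => ?_)
    rw [Matrix.transpose_apply]
    apply lin_mem
    rw [hψ]
    · simp
    · refine lt_of_le_of_lt (Polynomial.degree_le_natDegree) ?_
      rw [Nat.cast_lt]
      refine lt_of_le_of_lt (Polynomial.natDegree_mul_le) ?_
      have h3 := Polynomial.natDegree_mul_le (p := q) (q := Polynomial.X - Polynomial.C (s z))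
      rw [Polynomial.natDegree_X_sub_C] at h3
      refine lt_of_le_of_lt (add_le_add h3 (Polynomial.natDegree_X_pow_le _)) ?_
      have := (σ i.succ).2
      have := i.2
      simp only
      omega
  rcases Int.units_eq_one_or (Equiv.Perm.sign σ) with h | h
  · rw [h, one_smul]; exact h1
  · rw [h, Units.neg_smul, one_smul]; exact Submodule.neg_mem _ h1

theorem hG_ne (hψ : ∀ f : Polynomial K, f.degree < N → ∀ z,
      ∑ i, ψ f i * p z i = lam z * f.eval (s z)) (hs : Function.Injective s)
    (hlam : ∀ z, lam z ≠ 0) {q : Polynomial K} {t : ℕ}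
    (hq : q.natDegree + 2 * t < N) (e : Fin (t + 1) → Fin (N + 2)) (he : Function.Injective e)
    (hqe : ∀ m, q.eval (s (e m)) ≠ 0) : hG ψ q t ≠ 0 := by
  intro h0
  let x : Fin N → K := fun i => ∑ m, p (e m) i
  have h1 : eval x (hG ψ q t) = 0 := by rw [h0, map_zero]
  unfold hG at h1
  rw [RingHom.map_det] at h1
  have h2 : (eval x).mapMatrix (hM ψ q t) =
      (Matrix.vandermonde (fun m => s (e m))).transpose *
        Matrix.diagonal (fun m => lam (e m) * q.eval (s (e m))) *
        Matrix.vandermonde (fun m => s (e m)) := by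
    ext a b
    rw [Matrix.mul_apply]
    simp only [Matrix.mul_diagonal, Matrix.transpose_apply, Matrix.vandermonde_apply,
      RingHom.mapMatrix_apply, Matrix.map_apply, hM, lin_eval, x]
    simp_rw [Finset.mul_sum]
    rw [Finset.sum_comm]
    refine Finset.sum_congr rfl (fun m _ => ?_)
    rw [hψ]
    · rw [Polynomial.eval_mul, Polynomial.eval_pow, Polynomial.eval_X]; ring
    · refine lt_of_le_of_lt (Polynomial.degree_le_natDegree) ?_
      rw [Nat.cast_lt]
      refine lt_of_le_of_lt (Polynomial.natDegree_mul_le) ?_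
      have h2 := (Polynomial.natDegree_X_pow_le (R := K) (a.1 + b.1))
      have := a.2
      have := b.2
      omega
  rw [h2, Matrix.det_mul, Matrix.det_mul, Matrix.det_transpose, Matrix.det_diagonal] at h1
  have h3 : (Matrix.vandermonde (fun m => s (e m))).det ≠ 0 :=
    Matrix.det_vandermonde_ne_zero_iff.2 (hs.comp he)
  have h4 : ∏ m, lam (e m) * q.eval (s (e m)) ≠ 0 :=
    Finset.prod_ne_zero_iff.2 (fun m _ => mul_ne_zero (hlam _) (hqe m))
  exact (mul_ne_zero (mul_ne_zero h3 h4) h3) h1

end SymP
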