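import Pool.Agent.X78.SP5
import Pool.Agent.X78.SP6

set_option linter.unusedSectionVars false

namespace SymP

universe u

open MvPolynomial

variable {K : Type u} [Field K]

/-- product over `I` of `X - s z` -/
noncomputable def qI {N : ℕ} (s : Fin (N + 2) → K) (I : Finset (Fin (N + 2))) : Polynomial K :=
  ∏ z ∈ I, (Polynomial.X - Polynomial.C (s z))

theorem qI_deg {N : ℕ} (s : Fin (N + 2) → K) (I : Finset (Fin (N + 2))) :
    (qI s I).natDegree = I.card := by
  unfold qI
  rw [Polynomial.natDegree_prod _ _ (fun z _ => Polynomial.X_sub_C_ne_zero _)]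
  simp

theorem qI_zero {N : ℕ} {s : Fin (N + 2) → K} {I : Finset (Fin (N + 2))} {z : Fin (N + 2)}
    (hz : z ∈ I) : (qI s I).eval (s z) = 0 := by
  unfold qI
  rw [Polynomial.eval_prod, Finset.prod_eq_zero hz]
  simp

theorem qI_ne {N : ℕ} {s : Fin (N + 2) → K} (hs : Function.Injective s)
    {I : Finset (Fin (N + 2))} {z : Fin (N + 2)} (hz : z ∉ I) : (qI s I).eval (s z) ≠ 0 := by
  unfold qI
  rw [Polynomial.eval_prod, Finset.prod_ne_zero_iff]
  intro z' hz'
  simp only [Polynomial.eval_sub, Polynomial.eval_X, Polynomial.eval_C]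
  exact sub_ne_zero.2 (fun h => hz (hs h ▸ hz'))

/-- the basic form attached to a set `I` with `|I| + 2t + 1 = N` -/
theorem basic_form [Infinite K] {N : ℕ} {p : Fin (N + 2) → (Fin N → K)} (hp : LGP p)
    (hN : 1 ≤ N) : ∀ (I : Finset (Fin (N + 2))) (t : ℕ), I.card + 2 * t + 1 = N →
      ∃ G : MvPolynomial (Fin N) K, G ≠ 0 ∧ G.IsHomogeneous (t + 1) ∧
        ∀ z, G ∈ pointIdeal (p z) ^ (t + if z ∈ I then 1 else 0) := by
  classical
  obtain ⟨s, lam, ψ, hs, hlam, hψ⟩ := nodes hN hp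
  intro I t hI
  have hq : (qI s I).natDegree + 2 * t < N := by rw [qI_deg]; omega
  refine ⟨hG ψ (qI s I) t, ?_, hG_hom _ _ _, ?_⟩
  · have hc : t + 1 ≤ (Finset.univ \ I).card := by
      have h1 := Finset.card_sdiff_add_card_eq_card (Finset.subset_univ I)
      rw [Finset.card_univ, Fintype.card_fin] at h1
      omega
    obtain ⟨T, hT1, hT2⟩ := Finset.exists_subset_card_eq hc
    let e : Fin (t + 1) ≃ T := (T.equivFinOfCardEq hT2).symm
    refine hG_ne hψ hs hlam hq (fun m => (e m).1)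
      (fun a b h => e.injective (Subtype.ext h)) (fun m => ?_)
    apply qI_ne hs
    have := hT1 (e m).2
    rw [Finset.mem_sdiff] at this
    exact this.2
  · intro z
    by_cases hz : z ∈ I
    · rw [if_pos hz]
      exact hG_mem1 hψ hq z (qI_zero hz)
    · rw [if_neg hz, add_zero]
      exact hG_mem0 hψ hq z

/-- existence of the multiplicities -/
theorem distribute {m : ℕ} (c : Fin m → ℕ) (J : ℕ) (hm : 1 ≤ m) (hc : ∑ z, c z ≤ J) :
    ∃ a : Fin m → ℕ, ∑ z, a z = J ∧ ∀ z, c z ≤ a z := by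
  let z0 : Fin m := ⟨0, hm⟩
  refine ⟨fun z => c z + if z = z0 then J - ∑ z, c z else 0, ?_, fun z => Nat.le_add_right _ _⟩
  rw [Finset.sum_add_distrib]
  simp only [Finset.sum_ite_eq', Finset.mem_univ, if_true]
  omega

theorem upper [Infinite K] {l D k : ℕ} {p : Fin (2 * l + 2 + 2) → (Fin (2 * l + 2) → K)}
    (hp : LGP p) (hD : 1 ≤ D) (hk : (l + 1) * (2 * l + 4) * k ≤ (2 * l ^ 2 + 4 * l + 1) * D) :
    ∃ F : MvPolynomial (Fin (2 * l + 2)) K, F ≠ 0 ∧ F.IsHomogeneous D ∧
      ∀ z, F ∈ pointIdeal (p z) ^ k := by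
  classical
  -- `D = (l+1) J + r` with `1 ≤ r ≤ l+1`
  obtain ⟨J, r, hr1, hr2, hDJ⟩ : ∃ J r, 1 ≤ r ∧ r ≤ l + 1 ∧ D = (l + 1) * J + r := by
    have h1 := Nat.div_add_mod (D - 1) (l + 1)
    have h2 := Nat.mod_lt (D - 1) (show 0 < l + 1 by omega)
    exact ⟨(D - 1) / (l + 1), (D - 1) % (l + 1) + 1, by omega, by omega, by omega⟩
  obtain ⟨t, rfl⟩ : ∃ t, r = t + 1 := ⟨r - 1, by omega⟩
  have hstar : (2 * l + 4) * k + 1 ≤ (2 * l ^ 2 + 4 * l + 1) * J + (2 * l + 2) * (t + 1) := by
    by_contra hcon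
    push Not at hcon
    have h1 : (2 * l ^ 2 + 4 * l + 1) * J + (2 * l + 2) * (t + 1) ≤ (2 * l + 4) * k := by omega
    have h2 := Nat.mul_le_mul_left (l + 1) h1
    rw [hDJ] at hk
    nlinarith
  -- the set `I`
  obtain ⟨I, -, hI⟩ := Finset.exists_subset_card_eq
    (s := (Finset.univ : Finset (Fin (2 * l + 2 + 2)))) (n := 2 * l + 1 - 2 * t) (by simp; omega)
  let c : Fin (2 * l + 2 + 2) → ℕ := fun z => (k - t - l * J) - (if z ∈ I then 1 else 0)
  have hsum : ∑ z, c z ≤ J := by
    rcases Nat.eq_zero_or_pos (k - t - l * J) with h0 | h0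
    · simp only [c, h0, Nat.zero_sub, Finset.sum_const_zero]; omega
    · have h1 : ∑ z, c z + ∑ z, (if z ∈ I then 1 else 0) = (2 * l + 4) * (k - t - l * J) := by
        rw [← Finset.sum_add_distrib]
        rw [Finset.sum_congr rfl (g := fun _ => k - t - l * J) (fun z _ => by
          simp only [c]; split_ifs <;> omega)]
        simp
      have h2 : ∑ z : Fin (2 * l + 2 + 2), (if z ∈ I then 1 else 0) = 2 * l + 1 - 2 * t := by
        rw [Finset.sum_ite_mem]; simp [hI]
      rw [h2] at h1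
      obtain ⟨Q, hQ⟩ : ∃ Q, k = t + l * J + Q := ⟨k - t - l * J, by omega⟩
      have hQ' : k - t - l * J = Q := by omega
      rw [hQ'] at h1
      obtain ⟨w, hw⟩ : ∃ w, 2 * l + 1 = 2 * t + w := ⟨2 * l + 1 - 2 * t, by omega⟩
      rw [hw, Nat.add_sub_cancel_left] at h1
      rw [hQ] at hstar
      zify at h1 hstar hw ⊢
      nlinarith
  obtain ⟨a, ha1, ha2⟩ := distribute c J (by omega) hsum
  obtain ⟨G0, hG0, hG0h, hG0m⟩ := basic_form hp (by omega) I t (by omega)
  have hs := fun z : Fin (2 * l + 2 + 2) => basic_form hp (by omega) {z} l (by simp; omega)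
  choose G hG hGh hGm using hs
  refine ⟨G0 * ∏ z, G z ^ a z, ?_, ?_, ?_⟩
  · exact mul_ne_zero hG0 (Finset.prod_ne_zero_iff.2 (fun z _ => pow_ne_zero _ (hG z)))
  · have h1 : (∏ z, G z ^ a z).IsHomogeneous ((l + 1) * J) := by
      have := IsHomogeneous.prod Finset.univ (fun z => G z ^ a z) (fun z => (l + 1) * a z)
        (fun z _ => (hGh z).pow _)
      rwa [← Finset.mul_sum, ha1] at this
    have h2 := hG0h.mul h1
    rw [hDJ, show (l + 1) * J + (t + 1) = t + 1 + (l + 1) * J from add_comm _ _]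
    exact h2
  · intro z
    have h1 : ∏ z', G z' ^ a z' ∈ pointIdeal (p z) ^ (l * J + a z) := by
      have h2 : ∀ z', G z' ^ a z' ∈ pointIdeal (p z) ^ (l * a z' + if z' = z then a z else 0) := by
        intro z'
        have h3 := Ideal.pow_mem_pow (hGm z' z) (a z')
        rw [← pow_mul] at h3
        have h4 : (l + if z ∈ ({z'} : Finset _) then 1 else 0) * a z' =
            l * a z' + if z' = z then a z else 0 := by
          by_cases h : z' = z
          · subst h; simp; ring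
          · have : z ≠ z' := fun h' => h h'.symm
            simp [h, this]
        rwa [h4] at h3
      have h3 := Ideal.prod_mem_prod (s := Finset.univ)
        (I := fun z' => pointIdeal (p z) ^ (l * a z' + if z' = z then a z else 0))
        (x := fun z' => G z' ^ a z') (fun z' _ => h2 z')
      rw [Finset.prod_pow_eq_pow_sum, Finset.sum_add_distrib, ← Finset.mul_sum, ha1] at h3
      simpa using h3
    have h2 := Ideal.mul_mem_mul (hG0m z) h1
    rw [← pow_add] at h2
    refine Ideal.pow_le_pow_right ?_ h2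
    have h3 := ha2 z
    simp only [c] at h3
    split_ifs at h3 ⊢ <;> omega

end SymP
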