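import Mathlib

/-!
# Choosing a sequence step by step along filters
-/

namespace Pool.Agent.X78.SeqChoice

open Filter

/-- Choose a sequence step by step, each new term from a set that is large for the filter of that
stage. -/
lemma seq_choice {X : Type*} (x0 : X) (Φ : ℕ → Filter X) [∀ n, NeBot (Φ n)]
    (Good : ℕ → (ℕ → X) → Prop) (h0 : ∀ x, Good 0 x)
    (hloc : ∀ m x x', (∀ i < m, x i = x' i) → Good m x → Good m x')
    (hstep : ∀ m x, Good m x → ∀ᶠ w in Φ m, Good (m + 1) (Function.update x m w)) :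
    ∃ x, ∀ m, Good m x := by
  have key : ∀ m (x : {x : ℕ → X // Good m x}),
      ∃ x' : {x : ℕ → X // Good (m + 1) x}, ∀ i < m, x'.1 i = x.1 i := by
    intro m x
    obtain ⟨w, hw⟩ := (hstep m x.1 x.2).exists
    exact ⟨⟨_, hw⟩, fun i hi => Function.update_of_ne (ne_of_lt hi) _ _⟩
  choose f hf using key
  let s : ∀ m, {x : ℕ → X // Good m x} := fun m =>
    Nat.rec (motive := fun m => {x : ℕ → X // Good m x}) ⟨fun _ => x0, h0 _⟩ (fun m x => f m x) m
  have hs : ∀ m, s (m + 1) = f m (s m) := fun m => rfl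
  have hstab : ∀ m i, i < m → (s m).1 i = (s (i + 1)).1 i := by
    intro m
    induction m with
    | zero => intro i hi; omega
    | succ m ih =>
      intro i hi
      rcases Nat.lt_succ_iff_lt_or_eq.1 hi with h | h
      · rw [hs, hf m (s m) i h, ih i h]
      · rw [h]
  refine ⟨fun i => (s (i + 1)).1 i, fun m => ?_⟩
  exact hloc m (s m).1 _ (fun i hi => hstab m i hi) (s m).2

end Pool.Agent.X78.SeqChoice
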