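import Mathlib

/-!
# Minimal idempotents in `βℕ` and the groups `p + Σ + p`
-/

namespace Pool.Agent.X78.UltraMin

open Filter Topology Set

attribute [local instance] Ultrafilter.add Ultrafilter.addSemigroup

/-- continuity of the map between spaces of ultrafilters induced by a map -/
lemma continuous_umap {α β : Type*} (f : α → β) :
    Continuous (fun U : Ultrafilter α => Ultrafilter.map f U) := by
  refine ultrafilterBasis_is_basis.continuous_iff.2 ?_
  rintro _ ⟨s, rfl⟩
  exact ultrafilter_isOpen_basic (f ⁻¹' s)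

/-- an additive map induces a homomorphism of ultrafilter semigroups -/
lemma umap_add {M N : Type*} [AddSemigroup M] [AddSemigroup N] (f : M → N)
    (hf : ∀ x y, f (x + y) = f x + f y) (U V : Ultrafilter M) :
    Ultrafilter.map f (U + V) = Ultrafilter.map f U + Ultrafilter.map f V := by
  apply Ultrafilter.coe_inj.mp
  refine Filter.ext' fun p => ?_
  rw [Ultrafilter.coe_map, Filter.eventually_map, Ultrafilter.eventually_add,
    Ultrafilter.eventually_add]
  simp only [hf, Ultrafilter.coe_map, Filter.eventually_map]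

/-- the ultrafilters on the positive integers -/
def Pos : Set (Ultrafilter ℕ) := {U | {n | 0 < n} ∈ U}

lemma isClosed_Pos : IsClosed Pos := ultrafilter_isClosed_basic {n | 0 < n}

lemma pos_add_left (U V : Ultrafilter ℕ) (hU : V ∈ Pos) : U + V ∈ Pos := by
  show ∀ᶠ n in ↑(U + V), 0 < n
  rw [Ultrafilter.eventually_add]
  refine Filter.Eventually.of_forall fun x => ?_
  have : ∀ᶠ n in (V : Filter ℕ), 0 < n := hU
  filter_upwards [this] with y hy
  omega

/-- There is an idempotent `p` of `βℕ`, living on the positive integers, which is minimal: for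
every idempotent `e` in `βℕ + p` one has `p + e = p`. -/
theorem exists_minimal_idempotent : ∃ p : Ultrafilter ℕ, p + p = p ∧ {n | 0 < n} ∈ p ∧
    ∀ x : Ultrafilter ℕ, (x + p) + (x + p) = x + p → p + (x + p) = p := by
  let S : Set (Set (Ultrafilter ℕ)) :=
    {L | IsClosed L ∧ L.Nonempty ∧ L ⊆ Pos ∧ ∀ x, ∀ y ∈ L, x + y ∈ L}
  have hPosS : Pos ∈ S := by
    refine ⟨isClosed_Pos, ⟨pure 1, ?_⟩, subset_rfl, fun x y hy => pos_add_left x y hy⟩
    show (1 : ℕ) ∈ {n | 0 < n}
    exact Nat.one_pos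
  obtain ⟨L, hL⟩ : ∃ L, Minimal (· ∈ S) L := by
    obtain ⟨L, hL1, hL2⟩ := zorn_superset_nonempty S (by
      intro c hcS hc hcne
      refine ⟨⋂₀ c, ⟨isClosed_sInter fun L hL => (hcS hL).1, ?_, ?_, ?_⟩,
        fun s hs => sInter_subset_of_mem hs⟩
      · have : Nonempty c := hcne.to_subtype
        exact IsCompact.nonempty_sInter_of_directed_nonempty_isCompact_isClosed
          (IsChain.directedOn hc.symm) (fun s hs => (hcS hs).2.1)
          (fun s hs => (hcS hs).1.isCompact) (fun s hs => (hcS hs).1)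
      · obtain ⟨s, hs⟩ := hcne
        exact (sInter_subset_of_mem hs).trans (hcS hs).2.2.1
      · intro x y hy s hs
        exact (hcS hs).2.2.2 x y (hy s hs)) Pos hPosS
    exact ⟨L, hL2⟩
  obtain ⟨hLc, hLne, hLpos, hLid⟩ := hL.prop
  obtain ⟨p, hpL, hpp⟩ := exists_idempotent_in_compact_add_subsemigroup
    (fun r => Ultrafilter.continuous_add_left r) L hLne hLc.isCompact
    (fun x _ y hy => hLid x y hy)
  refine ⟨p, hpp, hLpos hpL, ?_⟩
  intro x hx
  set e := x + p with he
  have heL : e ∈ L := hLid x p hpL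
  have hL' : Set.range (fun y => y + e) ∈ S := by
    refine ⟨(isCompact_range (Ultrafilter.continuous_add_left e)).isClosed, ⟨_, ⟨p, rfl⟩⟩, ?_, ?_⟩
    · rintro _ ⟨y, rfl⟩
      exact hLpos (hLid y e heL)
    · rintro y _ ⟨z, rfl⟩
      exact ⟨y + z, (add_assoc _ _ _)⟩
  have hsub : Set.range (fun y => y + e) ⊆ L := by
    rintro _ ⟨y, rfl⟩
    exact hLid y e heL
  have hle := hL.le_of_le hL' hsub
  obtain ⟨y, hy⟩ := hle hpL
  simp only at hy
  rw [← hy, add_assoc, hx]

/-- Left inverses in `p + Σ + p`. -/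
lemma left_inverse {p : Ultrafilter ℕ}
    (hmin : ∀ x : Ultrafilter ℕ, (x + p) + (x + p) = x + p → p + (x + p) = p)
    {S : Set (Ultrafilter ℕ)} (hSc : IsClosed S) (hSadd : ∀ x ∈ S, ∀ y ∈ S, x + y ∈ S)
    (hpS : p ∈ S) {t : Ultrafilter ℕ} (ht : t ∈ S) :
    ∃ s ∈ S, p + s + p + t + p = p := by
  set g := p + t + p with hg
  have hgS : g ∈ S := hSadd _ (hSadd _ hpS _ ht) _ hpS
  obtain ⟨e, ⟨s, hs, rfl⟩, hee⟩ := exists_idempotent_in_compact_add_subsemigroup
    (fun r => Ultrafilter.continuous_add_left r) ((fun y => y + g) '' S)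
    ⟨_, ⟨p, hpS, rfl⟩⟩ (hSc.isCompact.image (Ultrafilter.continuous_add_left g)) (by
      rintro _ ⟨x, hx, rfl⟩ _ ⟨y, hy, rfl⟩
      exact ⟨x + g + y, hSadd _ (hSadd _ hx _ hgS) _ hy, by simp only [add_assoc]⟩)
  refine ⟨s, hs, ?_⟩
  have h1 := hmin (s + (p + t)) (by
    have : s + (p + t) + p = s + g := by rw [hg]; simp only [add_assoc]
    rw [this]; exact hee)
  calc p + s + p + t + p = p + (s + (p + t) + p) := by simp only [add_assoc]
    _ = p := h1

/-- Right inverses in `p + Σ + p`. -/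
lemma right_inverse {p : Ultrafilter ℕ} (hpp : p + p = p)
    (hmin : ∀ x : Ultrafilter ℕ, (x + p) + (x + p) = x + p → p + (x + p) = p)
    {S : Set (Ultrafilter ℕ)} (hSc : IsClosed S) (hSadd : ∀ x ∈ S, ∀ y ∈ S, x + y ∈ S)
    (hpS : p ∈ S) {t : Ultrafilter ℕ} (ht : t ∈ S) :
    ∃ s ∈ S, p + t + p + s + p = p := by
  obtain ⟨s, hs, h1⟩ := left_inverse hmin hSc hSadd hpS ht
  obtain ⟨r, hr, h2⟩ := left_inverse hmin hSc hSadd hpS hs
  refine ⟨s, hs, ?_⟩
  set g := p + t + p with hg
  set h := p + s + p with hh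
  set k := p + r + p with hk
  have hg1 : g = p + g := by rw [hg, ← add_assoc, ← add_assoc, hpp]
  have hhg : h + g = p := by
    calc h + g = p + s + (p + p) + t + p := by rw [hh, hg]; simp only [add_assoc]
      _ = p := by rw [hpp]; exact h1
  have hkh : k + h = p := by
    calc k + h = p + r + (p + p) + s + p := by rw [hk, hh]; simp only [add_assoc]
      _ = p := by rw [hpp]; exact h2
  have hkp : k + p = k := by rw [hk, add_assoc, hpp]
  have hgk : k = g := by
    calc k = k + p := hkp.symm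
      _ = k + (h + g) := by rw [hhg]
      _ = (k + h) + g := (add_assoc k h g).symm
      _ = p + g := by rw [hkh]
      _ = g := hg1.symm
  calc p + t + p + s + p = p + t + (p + p) + s + p := by rw [hpp]
    _ = g + h := by rw [hh, hg]; simp only [add_assoc]
    _ = k + h := by rw [hgk]
    _ = p := hkh

end Pool.Agent.X78.UltraMin
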