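import Mathlib
import Pool.Agent.X78.UltraMin
import Pool.Agent.X78.SeqChoice

/-!
# Finite sums together with the sums `y (n-1) + 2 y n + y (n+1)`
-/

namespace Pool.Agent.X78.Cons121

open Filter Topology Set
open Pool.Agent.X78.UltraMin Pool.Agent.X78.SeqChoice

attribute [local instance] Ultrafilter.add Ultrafilter.addSemigroup

lemma zero_uadd (U : Ultrafilter ℕ) : (pure 0 : Ultrafilter ℕ) + U = U := by
  apply Ultrafilter.coe_inj.mp
  refine Filter.ext' fun q => ?_
  rw [Ultrafilter.eventually_add]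
  simp

lemma uadd_zero (U : Ultrafilter ℕ) : U + (pure 0 : Ultrafilter ℕ) = U := by
  apply Ultrafilter.coe_inj.mp
  refine Filter.ext' fun q => ?_
  rw [Ultrafilter.eventually_add]
  simp

/-- linear maps -/
def f1 (x : ℕ × ℕ) : ℕ := 2 * x.1 + x.2
/-- linear maps -/
def f2 (x : ℕ × ℕ) : ℕ := x.1 + 2 * x.2
/-- linear maps -/
def fs (x : ℕ × ℕ) : ℕ := x.1 + x.2

/-- ultrafilters on pairs with prescribed marginals -/
def SD (p : Ultrafilter ℕ) : Set (Ultrafilter (ℕ × ℕ)) :=
  {Φ | (Ultrafilter.map Prod.fst Φ = pure 0 ∨ Ultrafilter.map Prod.fst Φ = p) ∧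
    (Ultrafilter.map Prod.snd Φ = pure 0 ∨ Ultrafilter.map Prod.snd Φ = p) ∧
    Ultrafilter.map fs Φ = p}

lemma isClosed_SD (p : Ultrafilter ℕ) : IsClosed (SD p) := by
  have h1 : IsClosed {Φ : Ultrafilter (ℕ × ℕ) |
      Ultrafilter.map Prod.fst Φ ∈ ({pure 0, p} : Set (Ultrafilter ℕ))} :=
    (Set.toFinite _).isClosed.preimage (continuous_umap _)
  have h2 : IsClosed {Φ : Ultrafilter (ℕ × ℕ) |
      Ultrafilter.map Prod.snd Φ ∈ ({pure 0, p} : Set (Ultrafilter ℕ))} :=
    (Set.toFinite _).isClosed.preimage (continuous_umap _)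
  have h3 : IsClosed {Φ : Ultrafilter (ℕ × ℕ) |
      Ultrafilter.map fs Φ ∈ ({p} : Set (Ultrafilter ℕ))} :=
    (Set.toFinite _).isClosed.preimage (continuous_umap _)
  exact h1.inter (h2.inter h3)

lemma zero_or_add {p : Ultrafilter ℕ} (hpp : p + p = p) {U V : Ultrafilter ℕ}
    (hU : U = pure 0 ∨ U = p) (hV : V = pure 0 ∨ V = p) : U + V = pure 0 ∨ U + V = p := by
  rcases hU with rfl | rfl <;> rcases hV with rfl | rfl
  · left; exact zero_uadd _
  · right; exact zero_uadd _
  · right; exact uadd_zero _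
  · right; exact hpp

lemma SD_add {p : Ultrafilter ℕ} (hpp : p + p = p) :
    ∀ Φ ∈ SD p, ∀ Ψ ∈ SD p, Φ + Ψ ∈ SD p := by
  rintro Φ ⟨h1, h2, h3⟩ Ψ ⟨h1', h2', h3'⟩
  refine ⟨?_, ?_, ?_⟩
  · rw [umap_add _ (fun x y => rfl)]
    exact zero_or_add hpp h1 h1'
  · rw [umap_add _ (fun x y => rfl)]
    exact zero_or_add hpp h2 h2'
  · rw [umap_add _ (fun x y => by simp only [fs, Prod.fst_add, Prod.snd_add]; ring), h3, h3', hpp]

/-- the ultrafilter `p` placed on the second coordinate -/
noncomputable def D2 (p : Ultrafilter ℕ) : Ultrafilter (ℕ × ℕ) :=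
  Ultrafilter.map (fun z => (0, z)) p

lemma umap_const {α β : Type*} (b : β) (U : Ultrafilter α) :
    Ultrafilter.map (fun _ => b) U = pure b := by
  apply Ultrafilter.coe_inj.mp
  refine Filter.ext' fun q => ?_
  simp

lemma D2_mem (p : Ultrafilter ℕ) : D2 p ∈ SD p := by
  refine ⟨Or.inl ?_, Or.inr ?_, ?_⟩
  · rw [D2, Ultrafilter.map_map]
    exact umap_const 0 p
  · rw [D2, Ultrafilter.map_map]
    exact Ultrafilter.map_id p
  · rw [D2, Ultrafilter.map_map]
    have : fs ∘ (fun z : ℕ => (0, z)) = id := by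
      ext z; simp [fs]
    rw [this]; exact Ultrafilter.map_id p

lemma snd_D2 (p : Ultrafilter ℕ) : Ultrafilter.map Prod.snd (D2 p) = p := by
  rw [D2, Ultrafilter.map_map]
  exact Ultrafilter.map_id p

lemma f1_D2 (p : Ultrafilter ℕ) : Ultrafilter.map f1 (D2 p) = p := by
  rw [D2, Ultrafilter.map_map]
  have : f1 ∘ (fun z : ℕ => (0, z)) = id := by
    ext z; simp [f1]
  rw [this]; exact Ultrafilter.map_id p

lemma f1_add (x y : ℕ × ℕ) : f1 (x + y) = f1 x + f1 y := by
  simp only [f1, Prod.fst_add, Prod.snd_add]; ring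

lemma f2_mem {p : Ultrafilter ℕ} {Φ : Ultrafilter (ℕ × ℕ)} (h : Φ ∈ SD p) :
    Ultrafilter.map f2 Φ ∈ (fun Φ : Ultrafilter (ℕ × ℕ) => Ultrafilter.map f1 Φ) '' SD p := by
  refine ⟨Ultrafilter.map Prod.swap Φ, ⟨?_, ?_, ?_⟩, ?_⟩
  · rw [Ultrafilter.map_map]
    exact h.2.1
  · rw [Ultrafilter.map_map]
    exact h.1
  · rw [Ultrafilter.map_map]
    have : fs ∘ Prod.swap = fs := by
      ext z; simp [fs, add_comm]
    rw [this]; exact h.2.2
  · simp only
    rw [Ultrafilter.map_map]
    have : f1 ∘ Prod.swap = f2 := by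
      ext z; simp [f1, f2, add_comm]
    rw [this]

lemma next {p : Ultrafilter ℕ} (hpp : p + p = p)
    (hmin : ∀ x : Ultrafilter ℕ, (x + p) + (x + p) = x + p → p + (x + p) = p)
    (Φ : {Φ : Ultrafilter (ℕ × ℕ) // Φ ∈ SD p ∧ Ultrafilter.map Prod.snd Φ = p}) :
    ∃ Ψ : {Φ : Ultrafilter (ℕ × ℕ) // Φ ∈ SD p ∧ Ultrafilter.map Prod.snd Φ = p},
      p + Ultrafilter.map f2 Φ.1 + Ultrafilter.map f1 Ψ.1 = p := by
  have hc : IsClosed ((fun Φ : Ultrafilter (ℕ × ℕ) => Ultrafilter.map f1 Φ) '' SD p) :=
    ((isClosed_SD p).isCompact.image (continuous_umap f1)).isClosed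
  have hadd : ∀ x ∈ (fun Φ : Ultrafilter (ℕ × ℕ) => Ultrafilter.map f1 Φ) '' SD p,
      ∀ y ∈ (fun Φ : Ultrafilter (ℕ × ℕ) => Ultrafilter.map f1 Φ) '' SD p,
      x + y ∈ (fun Φ : Ultrafilter (ℕ × ℕ) => Ultrafilter.map f1 Φ) '' SD p := by
    rintro _ ⟨x, hx, rfl⟩ _ ⟨y, hy, rfl⟩
    exact ⟨x + y, SD_add hpp x hx y hy, umap_add f1 f1_add x y⟩
  have hp : p ∈ (fun Φ : Ultrafilter (ℕ × ℕ) => Ultrafilter.map f1 Φ) '' SD p :=
    ⟨D2 p, D2_mem p, f1_D2 p⟩
  obtain ⟨_, ⟨ε, hε, rfl⟩, h⟩ := right_inverse hpp hmin hc hadd hp (f2_mem Φ.2.1)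
  refine ⟨⟨D2 p + ε + D2 p, SD_add hpp _ (SD_add hpp _ (D2_mem p) _ hε) _ (D2_mem p), ?_⟩, ?_⟩
  · rw [umap_add _ (fun x y => rfl), umap_add _ (fun x y => rfl), snd_D2]
    rcases hε.2.1 with h2 | h2
    · rw [h2, uadd_zero, hpp]
    · rw [h2, hpp, hpp]
  · simp only
    rw [umap_add f1 f1_add, umap_add f1 f1_add, f1_D2]
    simp only [← add_assoc]
    exact h

/-- partial sums of `∑ j ∈ F, (b j + a (j+1))`, using only the pairs with index `< m` -/
def part (m : ℕ) (x : ℕ → ℕ × ℕ) (F : Finset ℕ) : ℕ :=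
  ∑ i ∈ Finset.range m, ((if i ∈ F then (x i).2 else 0) +
    (if i ∈ F.image (· + 1) then (x i).1 else 0))

lemma part_congr (m : ℕ) {x x' : ℕ → ℕ × ℕ} (h : ∀ i < m, x i = x' i) (F : Finset ℕ) :
    part m x F = part m x' F := by
  unfold part
  refine Finset.sum_congr rfl fun i hi => ?_
  rw [h i (Finset.mem_range.1 hi)]

lemma part_succ (m : ℕ) (x : ℕ → ℕ × ℕ) (w : ℕ × ℕ) (F : Finset ℕ) :
    part (m + 1) (Function.update x m w) F = part m x (F.erase m) +
      ((if m ∈ F then w.2 else 0) + (if m ∈ F.image (· + 1) then w.1 else 0)) := by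
  have h1 : part m x (F.erase m) = part m x F := by
    unfold part
    refine Finset.sum_congr rfl fun i hi => ?_
    have hi' := Finset.mem_range.1 hi
    congr 1
    · have : i ∈ F.erase m ↔ i ∈ F := by
        rw [Finset.mem_erase]
        exact ⟨fun h => h.2, fun h => ⟨ne_of_lt hi', h⟩⟩
      simp only [this]
    · have : i ∈ (F.erase m).image (· + 1) ↔ i ∈ F.image (· + 1) := by
        simp only [Finset.mem_image, Finset.mem_erase]
        constructor
        · rintro ⟨a, ⟨_, ha⟩, rfl⟩
          exact ⟨a, ha, rfl⟩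
        · rintro ⟨a, ha, rfl⟩
          exact ⟨a, ⟨by omega, ha⟩, rfl⟩
      simp only [this]
  have h2 : part m (Function.update x m w) F = part m x F :=
    part_congr m (fun i hi => Function.update_of_ne (ne_of_lt hi) _ _) F
  rw [h1, ← h2]
  unfold part
  rw [Finset.sum_range_succ]
  simp only [Function.update_self]

lemma part_full (m : ℕ) (x : ℕ → ℕ × ℕ) (F : Finset ℕ) (h : ∀ i ∈ F, i + 1 < m) :
    part m x F = ∑ i ∈ F, ((x i).2 + (x (i + 1)).1) := by
  unfold part
  rw [Finset.sum_add_distrib, Finset.sum_add_distrib]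
  congr 1
  · rw [← Finset.sum_filter]
    refine Finset.sum_congr ?_ fun _ _ => rfl
    ext i
    simp only [Finset.mem_filter, Finset.mem_range]
    exact ⟨fun h => h.2, fun hi => ⟨by have := h i hi; omega, hi⟩⟩
  · rw [← Finset.sum_filter]
    have : Finset.filter (fun i => i ∈ F.image (· + 1)) (Finset.range m) = F.image (· + 1) := by
      ext i
      simp only [Finset.mem_filter, Finset.mem_range, Finset.mem_image]
      constructor
      · exact fun h => h.2
      · rintro ⟨a, ha, rfl⟩
        exact ⟨h a ha, a, ha, rfl⟩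
    rw [this, Finset.sum_image (fun a _ b _ hab => by simpa using hab)]

/-- **Realisation.** -/
lemma realise {p : Ultrafilter ℕ} (Φ : ℕ → Ultrafilter (ℕ × ℕ)) (h1 : ∀ n, Φ n ∈ SD p)
    (h2 : ∀ n, Ultrafilter.map Prod.snd (Φ n) = p)
    (h3 : ∀ n, p + Ultrafilter.map f2 (Φ n) + Ultrafilter.map f1 (Φ (n + 1)) = p)
    {A : Set ℕ} (hA : A ∈ p) (hA2 : ∀ s ∈ A, ∀ᶠ z in (p : Filter ℕ), s + z ∈ A) :
    ∃ X : ℕ → ℕ × ℕ, (∀ F : Finset ℕ, F.Nonempty → ∑ i ∈ F, ((X i).2 + (X (i + 1)).1) ∈ A) ∧
      ∀ j, (X j).2 + f2 (X (j + 1)) + f1 (X (j + 2)) + (X (j + 3)).1 ∈ A := by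
  -- eventual statements for the marginals
  have esnd : ∀ n (q : ℕ → Prop), (∀ᶠ z in (p : Filter ℕ), q z) → ∀ᶠ w in (Φ n : Filter (ℕ × ℕ)), q w.2 := by
    intro n q hq
    rw [← h2 n] at hq
    exact hq
  have efst : ∀ n (q : ℕ → Prop), q 0 → (∀ᶠ z in (p : Filter ℕ), q z) →
      ∀ᶠ w in (Φ n : Filter (ℕ × ℕ)), q w.1 := by
    intro n q hq0 hq
    rcases (h1 n).1 with h | h
    · have : ∀ᶠ z in ((pure 0 : Ultrafilter ℕ) : Filter ℕ), q z := by simpa using hq0
      rw [← h] at this
      exact this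
    · rw [← h] at hq
      exact hq
  have esum : ∀ n (q : ℕ → Prop), (∀ᶠ z in (p : Filter ℕ), q z) →
      ∀ᶠ w in (Φ n : Filter (ℕ × ℕ)), q (w.1 + w.2) := by
    intro n q hq
    rw [← (h1 n).2.2] at hq
    exact hq
  have eT : ∀ m, ∀ᶠ w in (Φ m : Filter (ℕ × ℕ)), ∀ᶠ u in (Φ (m + 1) : Filter (ℕ × ℕ)),
      ∀ᶠ v in (Φ (m + 2) : Filter (ℕ × ℕ)), w.2 + f2 u + f1 v ∈ A := by
    intro m
    have : ∀ᶠ z in (p : Filter ℕ), z ∈ A := hA
    rw [← h3 (m + 1), Ultrafilter.eventually_add, Ultrafilter.eventually_add] at this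
    exact esnd m _ this
  obtain ⟨X, hX⟩ := seq_choice (0, 0) (fun n => (Φ n : Filter (ℕ × ℕ)))
    (fun m x => (∀ F ⊆ Finset.range m, F.Nonempty → part m x F ∈ A) ∧
      (∀ j, j + 1 = m → ∀ᶠ u in (Φ (j + 1) : Filter (ℕ × ℕ)),
        ∀ᶠ v in (Φ (j + 2) : Filter (ℕ × ℕ)), (x j).2 + f2 u + f1 v ∈ A) ∧
      (∀ j, j + 2 = m → ∀ᶠ v in (Φ (j + 2) : Filter (ℕ × ℕ)),
        (x j).2 + f2 (x (j + 1)) + f1 v ∈ A) ∧
      (∀ j, j + 3 = m → (x j).2 + f2 (x (j + 1)) + f1 (x (j + 2)) ∈ A) ∧
      (∀ j, j + 4 = m → (x j).2 + f2 (x (j + 1)) + f1 (x (j + 2)) + (x (j + 3)).1 ∈ A))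
    (by
      intro x
      refine ⟨?_, ?_, ?_, ?_, ?_⟩
      · intro F hF hne
        rw [Finset.range_zero, Finset.subset_empty] at hF
        exact absurd hF hne.ne_empty
      · intro j hj; omega
      · intro j hj; omega
      · intro j hj; omega
      · intro j hj; omega)
    (by
      rintro m x x' hxx ⟨g1, g2, g3, g4, g5⟩
      refine ⟨?_, ?_, ?_, ?_, ?_⟩
      · intro F hF hne
        rw [← part_congr m hxx]
        exact g1 F hF hne
      · intro j hj
        rw [← hxx j (by omega)]
        exact g2 j hj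
      · intro j hj
        rw [← hxx j (by omega), ← hxx (j + 1) (by omega)]
        exact g3 j hj
      · intro j hj
        rw [← hxx j (by omega), ← hxx (j + 1) (by omega), ← hxx (j + 2) (by omega)]
        exact g4 j hj
      · intro j hj
        rw [← hxx j (by omega), ← hxx (j + 1) (by omega), ← hxx (j + 2) (by omega),
          ← hxx (j + 3) (by omega)]
        exact g5 j hj)
    (by
      rintro m x ⟨g1, g2, g3, g4, g5⟩
      refine Filter.Eventually.and ?_ (Filter.Eventually.and ?_ (Filter.Eventually.and ?_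
        (Filter.Eventually.and ?_ ?_)))
      · -- sums
        have : ∀ F ∈ (Finset.range (m + 1)).powerset, ∀ᶠ w in (Φ m : Filter (ℕ × ℕ)),
            (F.Nonempty → part (m + 1) (Function.update x m w) F ∈ A) := by
          intro F hF
          rw [Finset.mem_powerset] at hF
          by_cases hne : F.Nonempty
          swap
          · exact Filter.Eventually.of_forall fun w h => absurd h hne
          simp only [part_succ]
          by_cases he : (F.erase m).Nonempty
          · have hs : part m x (F.erase m) ∈ A := by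
              refine g1 _ ?_ he
              intro i hi
              rw [Finset.mem_erase] at hi
              have := Finset.mem_range.1 (hF hi.2)
              rw [Finset.mem_range]
              have := hi.1
              omega
            by_cases c1 : m ∈ F <;> by_cases c2 : m ∈ F.image (· + 1)
            · simp only [if_pos c1, if_pos c2]
              have := esum m (fun z => part m x (F.erase m) + z ∈ A) (hA2 _ hs)
              filter_upwards [this] with w hw _
              rw [add_comm w.2]; exact hw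
            · simp only [if_pos c1, if_neg c2, add_zero]
              have := esnd m (fun z => part m x (F.erase m) + z ∈ A) (hA2 _ hs)
              filter_upwards [this] with w hw _
              exact hw
            · simp only [if_neg c1, if_pos c2, zero_add]
              have := efst m (fun z => part m x (F.erase m) + z ∈ A) hs (hA2 _ hs)
              filter_upwards [this] with w hw _
              exact hw
            · simp only [if_neg c1, if_neg c2, add_zero]
              exact Filter.Eventually.of_forall fun w _ => hs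
          · rw [Finset.not_nonempty_iff_eq_empty] at he
            have hmF : m ∈ F := by
              obtain ⟨a, ha⟩ := hne
              by_cases ham : a = m
              · rw [← ham]; exact ha
              · exact absurd (Finset.mem_erase.2 ⟨ham, ha⟩) (by rw [he]; simp)
            have hmF2 : m ∉ F.image (· + 1) := by
              intro hm
              obtain ⟨a, ha, ha2⟩ := Finset.mem_image.1 hm
              exact absurd (Finset.mem_erase.2 ⟨(by omega : a ≠ m), ha⟩) (by rw [he]; simp)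
            have h0 : part m x (F.erase m) = 0 := by
              rw [he]; simp [part]
            simp only [if_pos hmF, if_neg hmF2, h0, zero_add, add_zero]
            have := esnd m (fun z => z ∈ A) hA
            filter_upwards [this] with w hw _
            exact hw
        have h' := (Filter.eventually_all_finset _).2 this
        filter_upwards [h'] with w hw F hF hne
        exact hw F (Finset.mem_powerset.2 hF) hne
      · filter_upwards [eT m] with w hw j hj
        have : j = m := by omega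
        subst this
        simpa using hw
      · rcases m with _ | m
        · exact Filter.Eventually.of_forall fun w j hj => by omega
        · filter_upwards [g2 m rfl] with w hw j hj
          have : j = m := by omega
          subst this
          simpa using hw
      · rcases m with _ | _ | m
        · exact Filter.Eventually.of_forall fun w j hj => by omega
        · exact Filter.Eventually.of_forall fun w j hj => by omega
        · filter_upwards [g3 m rfl] with w hw j hj
          have : j = m := by omega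
          subst this
          have e1 : j ≠ j + 1 + 1 := by omega
          have e2 : j + 1 ≠ j + 1 + 1 := by omega
          rw [Function.update_of_ne e1, Function.update_of_ne e2, Function.update_self]
          exact hw
      · rcases m with _ | _ | _ | m
        · exact Filter.Eventually.of_forall fun w j hj => by omega
        · exact Filter.Eventually.of_forall fun w j hj => by omega
        · exact Filter.Eventually.of_forall fun w j hj => by omega
        · have hs := g4 m rfl
          have := efst (m + 3) (fun z => (x m).2 + f2 (x (m + 1)) + f1 (x (m + 2)) + z ∈ A) hs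
            (hA2 _ hs)
          filter_upwards [this] with w hw j hj
          have : j = m := by omega
          subst this
          have e1 : j ≠ j + 1 + 1 + 1 := by omega
          have e2 : j + 1 ≠ j + 1 + 1 + 1 := by omega
          have e3 : j + 2 ≠ j + 1 + 1 + 1 := by omega
          rw [Function.update_of_ne e1, Function.update_of_ne e2, Function.update_of_ne e3,
            Function.update_self]
          exact hw)
  refine ⟨X, ?_, ?_⟩
  · intro F hne
    have hm : ∀ i ∈ F, i + 1 < F.sup id + 2 := by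
      intro i hi
      have : i ≤ F.sup id := Finset.le_sup (f := id) hi
      omega
    rw [← part_full _ X F hm]
    refine (hX (F.sup id + 2)).1 F ?_ hne
    intro i hi
    rw [Finset.mem_range]
    have := hm i hi
    omega
  · intro j
    exact (hX (j + 4)).2.2.2.2 j rfl

/-- **Theorem.** -/
theorem main (k : ℕ) (c : ℕ → Fin k) : ∃ y : ℕ → ℕ, (∀ n, 0 < y n) ∧
      ∃ col : Fin k,
        (∀ s : Finset ℕ, s.Nonempty → c (∑ i ∈ s, y i) = col) ∧
        (∀ n : ℕ, c (y n + 2 * y (n + 1) + y (n + 2)) = col) := by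
  obtain ⟨p, hpp, hpos, hmin⟩ := exists_minimal_idempotent
  choose f hf using fun Φ => next hpp hmin Φ
  let Φ : ℕ → {Φ : Ultrafilter (ℕ × ℕ) // Φ ∈ SD p ∧ Ultrafilter.map Prod.snd Φ = p} := fun n =>
    Nat.rec ⟨D2 p, D2_mem p, snd_D2 p⟩ (fun _ Ψ => f Ψ) n
  have hΦ : ∀ n, Φ (n + 1) = f (Φ n) := fun n => rfl
  obtain ⟨col, hcol⟩ : ∃ col : Fin k, ∀ᶠ z in (p : Filter ℕ), c z = col :=
    (Ultrafilter.eventually_exists_iff (f := p) (P := fun k z => c z = k)).1
      (Filter.Eventually.of_forall fun c => ⟨_, rfl⟩)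
  set A : Set ℕ := {x | 0 < x ∧ c x = col ∧ ∀ᶠ z in (p : Filter ℕ), c (x + z) = col} with hAdef
  have hstar : ∀ᶠ x in (p : Filter ℕ), ∀ᶠ z in (p : Filter ℕ), c (x + z) = col := by
    have : ∀ᶠ z in ((p + p : Ultrafilter ℕ) : Filter ℕ), c z = col := by rw [hpp]; exact hcol
    rwa [Ultrafilter.eventually_add] at this
  have hA : A ∈ p := by
    have h0 : ∀ᶠ x in (p : Filter ℕ), 0 < x := hpos
    have : ∀ᶠ x in (p : Filter ℕ), x ∈ A := by
      filter_upwards [h0, hcol, hstar] with x a b c
      exact ⟨a, b, c⟩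
    exact this
  have hA2 : ∀ s ∈ A, ∀ᶠ z in (p : Filter ℕ), s + z ∈ A := by
    rintro s ⟨hs0, hs1, hs2⟩
    have h3 : ∀ᶠ x in (p : Filter ℕ), ∀ᶠ z in (p : Filter ℕ), c (s + (x + z)) = col := by
      have : ∀ᶠ z in ((p + p : Ultrafilter ℕ) : Filter ℕ), c (s + z) = col := by
        rw [hpp]; exact hs2
      rwa [Ultrafilter.eventually_add] at this
    filter_upwards [hs2, h3] with x h4 h5
    refine ⟨by omega, h4, ?_⟩
    simpa only [add_assoc] using h5
  obtain ⟨X, hX1, hX2⟩ := realise (p := p) (fun n => (Φ n).1) (fun n => (Φ n).2.1)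
    (fun n => (Φ n).2.2) (fun n => by rw [hΦ]; exact hf (Φ n)) hA hA2
  refine ⟨fun i => (X i).2 + (X (i + 1)).1, ?_, col, ?_, ?_⟩
  · intro n
    have := hX1 {n} (Finset.singleton_nonempty n)
    rw [Finset.sum_singleton] at this
    exact this.1
  · intro s hs
    exact (hX1 s hs).2.1
  · intro n
    have := (hX2 n).2.1
    rw [← this]
    congr 1
    simp only [f1, f2]
    ring_nf

end Pool.Agent.X78.Cons121
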