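import Mathlib

namespace Pool.Agent.X78.FurutaD

open Finset

/-- Abel summation. -/
lemma abel {n : ℕ} {c x : ℕ → ℝ} (hc : ∀ i, i < n → 0 ≤ c i)
    (hcm : ∀ i, i + 1 < n → c (i + 1) ≤ c i)
    (hx : ∀ k, k ≤ n → 0 ≤ ∑ i ∈ range k, x i) : 0 ≤ ∑ i ∈ range n, c i * x i := by
  have key : ∀ m, m + 1 ≤ n →
      c m * ∑ i ∈ range (m + 1), x i ≤ ∑ i ∈ range (m + 1), c i * x i := by
    intro m
    induction m with
    | zero =>
      intro _
      simp
    | succ m ih =>
      intro hm
      have h1 := ih (by omega)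
      have h2 := hx (m + 1) (by omega)
      have h3 := hcm m (by omega)
      rw [sum_range_succ (fun i => x i) (m + 1), sum_range_succ (fun i => c i * x i) (m + 1)]
      nlinarith [mul_le_mul_of_nonneg_right h3 h2]
  rcases Nat.eq_zero_or_pos n with h | h
  · subst h
    simp
  · obtain ⟨m, rfl⟩ : ∃ m, n = m + 1 := ⟨n - 1, by omega⟩
    exact le_trans (mul_nonneg (hc m (by omega)) (hx (m + 1) le_rfl)) (key m le_rfl)

/-- Convexity of `log (1 + exp)`. -/
lemma conv {a b : ℝ} (ha : 0 < a) (hb : 0 < b) :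
    a / (1 + a) * (Real.log b - Real.log a) ≤ Real.log (1 + b) - Real.log (1 + a) := by
  have h1 : (0 : ℝ) < 1 + a := by linarith
  have h2 := Real.geom_mean_le_arith_mean2_weighted (w₁ := 1 / (1 + a)) (w₂ := a / (1 + a))
    (p₁ := 1) (p₂ := b / a) (by positivity) (by positivity) (by norm_num) (by positivity)
    (by field_simp)
  rw [Real.one_rpow, one_mul] at h2
  have h3 : 1 / (1 + a) * 1 + a / (1 + a) * (b / a) = (1 + b) / (1 + a) := by
    field_simp
  rw [h3] at h2
  have h4 := Real.log_le_log (Real.rpow_pos_of_pos (by positivity) _) h2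
  rwa [Real.log_rpow (by positivity), Real.log_div hb.ne' ha.ne',
    Real.log_div (by positivity) h1.ne'] at h4

lemma seq_le {n : ℕ} {a b : ℕ → ℝ} (ha : ∀ i, i < n → 0 < a i) (hb : ∀ i, i < n → 0 < b i)
    (ham : ∀ i, i + 1 < n → a (i + 1) ≤ a i)
    (h : ∀ k, k ≤ n → ∏ i ∈ range k, a i ≤ ∏ i ∈ range k, b i) :
    ∏ i ∈ range n, (1 + a i) ≤ ∏ i ∈ range n, (1 + b i) := by
  have h1 : 0 ≤ ∑ i ∈ range n, a i / (1 + a i) * (Real.log (b i) - Real.log (a i)) := by
    apply abel (c := fun i => a i / (1 + a i)) (x := fun i => Real.log (b i) - Real.log (a i))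
    · intro i hi
      have := ha i hi
      positivity
    · intro i hi
      have h2 := ha (i + 1) hi
      have h3 := ha i (by omega)
      have h4 := ham i hi
      show a (i + 1) / (1 + a (i + 1)) ≤ a i / (1 + a i)
      rw [div_le_div_iff₀ (by linarith) (by linarith)]
      nlinarith
    · intro k hk
      have h2 : ∀ i ∈ range k, a i ≠ 0 := fun i hi => (ha i (by
        have := mem_range.1 hi
        omega)).ne'
      have h3 : ∀ i ∈ range k, b i ≠ 0 := fun i hi => (hb i (by
        have := mem_range.1 hi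
        omega)).ne'
      have h4 : 0 < ∏ i ∈ range k, a i := prod_pos (fun i hi => ha i (by
        have := mem_range.1 hi
        omega))
      rw [sum_sub_distrib, ← Real.log_prod h2, ← Real.log_prod h3]
      have := Real.log_le_log h4 (h k hk)
      linarith
  have h2 : ∑ i ∈ range n, a i / (1 + a i) * (Real.log (b i) - Real.log (a i))
      ≤ ∑ i ∈ range n, (Real.log (1 + b i) - Real.log (1 + a i)) := by
    apply sum_le_sum
    intro i hi
    exact conv (ha i (mem_range.1 hi)) (hb i (mem_range.1 hi))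
  have h3 := h1.trans h2
  rw [sum_sub_distrib, ← Real.log_prod, ← Real.log_prod] at h3
  · have h4 : 0 < ∏ i ∈ range n, (1 + a i) := prod_pos (fun i hi => by
      have := ha i (mem_range.1 hi)
      linarith)
    have h5 : 0 < ∏ i ∈ range n, (1 + b i) := prod_pos (fun i hi => by
      have := hb i (mem_range.1 hi)
      linarith)
    exact (Real.log_le_log_iff h4 h5).1 (by linarith)
  · intro i hi
    have := ha i (mem_range.1 hi)
    linarith
  · intro i hi
    have := hb i (mem_range.1 hi)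
    linarith

lemma le_emb {k n : ℕ} (e : Fin k ↪o Fin n) : ∀ m (h : m < k), m ≤ (e ⟨m, h⟩ : ℕ) := by
  intro m
  induction m with
  | zero => intro _; exact Nat.zero_le _
  | succ m ih =>
    intro h
    have h1 := ih (by omega)
    have h2 : e ⟨m, by omega⟩ < e ⟨m + 1, h⟩ := e.strictMono (by
      rw [Fin.lt_def]
      exact Nat.lt_succ_self m)
    rw [Fin.lt_def] at h2
    omega

theorem prod_one_add_le {n : ℕ} (μ ν : Fin n → ℝ) (hμ : ∀ i, 0 < μ i) (hν : ∀ i, 0 < ν i)
    (H : ∀ (k : ℕ) (c : ℝ), 0 < c →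
      (∀ t : Finset (Fin n), t.card = k → ∏ i ∈ t, ν i ≤ c) →
      ∀ s : Finset (Fin n), s.card = k → ∏ i ∈ s, μ i ≤ c) :
    ∏ i, (1 + μ i) ≤ ∏ i, (1 + ν i) := by
  obtain ⟨σ, hσ⟩ : ∃ σ : Equiv.Perm (Fin n), Antitone (μ ∘ σ) := by
    refine ⟨Tuple.sort (fun i => -μ i), ?_⟩
    have h := Tuple.monotone_sort (fun i => -μ i)
    intro i j hij
    have := h hij
    simp only [Function.comp_apply] at this ⊢
    linarith
  obtain ⟨τ, hτ⟩ : ∃ τ : Equiv.Perm (Fin n), Antitone (ν ∘ τ) := by
    refine ⟨Tuple.sort (fun i => -ν i), ?_⟩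
    have h := Tuple.monotone_sort (fun i => -ν i)
    intro i j hij
    have := h hij
    simp only [Function.comp_apply] at this ⊢
    linarith
  obtain ⟨a, ha⟩ : ∃ a : ℕ → ℝ, ∀ i (h : i < n), a i = μ (σ ⟨i, h⟩) :=
    ⟨fun i => if h : i < n then μ (σ ⟨i, h⟩) else 1, fun i h => by simp [h]⟩
  obtain ⟨b, hb⟩ : ∃ b : ℕ → ℝ, ∀ i (h : i < n), b i = ν (τ ⟨i, h⟩) :=
    ⟨fun i => if h : i < n then ν (τ ⟨i, h⟩) else 1, fun i h => by simp [h]⟩
  have e1 : ∏ i, (1 + μ i) = ∏ i ∈ range n, (1 + a i) := by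
    rw [← Equiv.prod_comp σ, prod_range]
    apply prod_congr rfl
    intro i _
    rw [ha i i.2]
  have e2 : ∏ i, (1 + ν i) = ∏ i ∈ range n, (1 + b i) := by
    rw [← Equiv.prod_comp τ, prod_range]
    apply prod_congr rfl
    intro i _
    rw [hb i i.2]
  rw [e1, e2]
  apply seq_le
  · intro i hi
    rw [ha i hi]
    exact hμ _
  · intro i hi
    rw [hb i hi]
    exact hν _
  · intro i hi
    rw [ha i (by omega), ha (i + 1) hi]
    exact hσ (by
      rw [Fin.le_def]
      exact Nat.le_succ i)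
  · intro k hk
    have hc : 0 < ∏ i ∈ range k, b i := prod_pos (fun i hi => by
      have := mem_range.1 hi
      rw [hb i (by omega)]
      exact hν _)
    have h1 := H k (∏ i ∈ range k, b i) hc (by
      intro t ht
      obtain ⟨T, hT⟩ : ∃ T : Finset (Fin n), T = t.map τ.symm.toEmbedding := ⟨_, rfl⟩
      have hTc : T.card = k := by rw [hT, card_map, ht]
      have h2 : ∏ i ∈ t, ν i = ∏ i ∈ T, ν (τ i) := by
        rw [hT, prod_map]
        simp
      have h3 : ∏ i ∈ T, ν (τ i) = ∏ j : Fin k, ν (τ (T.orderEmbOfFin hTc j)) := by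
        conv_lhs => rw [← Finset.map_orderEmbOfFin_univ T hTc, prod_map]
        rfl
      rw [h2, h3, prod_range]
      apply prod_le_prod (fun j _ => (hν _).le)
      intro j _
      rw [hb j (by omega)]
      exact hτ (by
        rw [Fin.le_def]
        exact le_emb (T.orderEmbOfFin hTc) j j.2))
      ((univ : Finset (Fin k)).map ((Fin.castLEEmb hk).trans σ.toEmbedding)) (by simp)
    rw [prod_map] at h1
    rw [prod_range (fun i => a i)]
    have h4 : ∏ i : Fin k, a i = ∏ i : Fin k, μ (((Fin.castLEEmb hk).trans σ.toEmbedding) i) := by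
      apply prod_congr rfl
      intro i _
      rw [ha i (by omega)]
      rfl
    rw [h4]
    exact h1

end Pool.Agent.X78.FurutaD
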