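import Mathlib
import Pool.Agent.X78.FurutaC
import Pool.Agent.X78.FurutaD

namespace Pool.Agent.X78.FurutaE

open Matrix Set
open Pool.Agent.X78.FurutaC
open scoped ComplexOrder MatrixOrder Matrix.Norms.L2Operator NNReal

variable {n : ℕ}

lemma prod_emb {k : ℕ} (s : powersetCard (Fin n) k) (f : Fin n → ℝ) :
    ∏ j, f (powersetCard.ofFinEmbEquiv.symm s j) = ∏ i ∈ s.val, f i := by
  rw [powersetCard.ofFinEmbEquiv_symm_apply]
  conv_rhs => rw [← Finset.map_orderEmbOfFin_univ s.val s.prop, Finset.prod_map]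
  rfl

lemma det_one_add_conj {V : Matrix (Fin n) (Fin n) ℂ} (hV' : V * Vᴴ = 1) (d : Fin n → ℝ) :
    (1 + V * dg d * Vᴴ).det = ((∏ i, (1 + d i) : ℝ) : ℂ) := by
  have h1 : 1 + V * dg d * Vᴴ = V * (1 + dg d) * Vᴴ := by
    rw [Matrix.mul_add, Matrix.add_mul, mul_one, hV']
  have h2 : (1 + dg d : Matrix (Fin n) (Fin n) ℂ)
      = Matrix.diagonal (fun i => ((1 + d i : ℝ) : ℂ)) := by
    ext i j
    by_cases h : i = j
    · subst h
      simp [dg]
    · simp [dg, h]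
  have h3 : V.det * Vᴴ.det = 1 := by rw [← Matrix.det_mul, hV', Matrix.det_one]
  rw [h1, Matrix.det_mul, Matrix.det_mul, mul_comm V.det, mul_assoc, h3, mul_one, h2,
    Matrix.det_diagonal]
  push_cast
  rfl

lemma Z1_posDef {X Y : Matrix (Fin n) (Fin n) ℂ} (hX : X.PosDef) (hY : Y.PosDef) (θ : ℝ) :
    (Z1 X Y θ).PosDef := by
  rw [Z1]
  exact Matrix.isStrictlyPositive_iff_posDef.1 (FurutaA.sp_conj
    (FurutaA.sp_rpow hX.isStrictlyPositive _) (FurutaA.sp_rpow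
      (FurutaA.sp_conj hY.isStrictlyPositive hX.isStrictlyPositive) _))

lemma Z2_posDef {X Y : Matrix (Fin n) (Fin n) ℂ} (hX : X.PosDef) (hY : Y.PosDef) (θ : ℝ) :
    (Z2 X Y θ).PosDef := by
  rw [Z2]
  exact Matrix.isStrictlyPositive_iff_posDef.1 (FurutaA.sp_conj
    (FurutaA.sp_rpow hX.isStrictlyPositive _) (FurutaA.sp_rpow hY.isStrictlyPositive _))

lemma det_Z_le {X Y : Matrix (Fin n) (Fin n) ℂ} (hX : X.PosDef) (hY : Y.PosDef) {θ : ℝ}
    (h0 : 0 ≤ θ) (h1 : θ ≤ 1) : (1 + Z2 X Y θ).det ≤ (1 + Z1 X Y θ).det := by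
  obtain ⟨U, ν, hU, hU', hν, e1⟩ := exists_diag_pos (Z1_posDef hX hY θ)
  obtain ⟨V, μ, hV, hV', hμ, e2⟩ := exists_diag_pos (Z2_posDef hX hY θ)
  rw [e1, e2, det_one_add_conj hU', det_one_add_conj hV']
  have h2 := FurutaD.prod_one_add_le μ ν hμ hν (by
    intro k c hc ht s hs
    have h3 := top_le hX hY h0 h1 hU hU' hV hV' e1 e2 k hc (by
      intro t
      rw [prod_emb]
      exact ht t.val t.prop) ⟨s, hs⟩
    rw [prod_emb] at h3
    exact h3)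
  exact_mod_cast h2

lemma det_le_posDef {X Y : Matrix (Fin n) (Fin n) ℂ} (hX : X.PosDef) (hY : Y.PosDef) {θ : ℝ}
    (h0 : 0 ≤ θ) (h1 : θ ≤ 1) :
    (X + X ^ θ * Y ^ (2 * θ)).det ≤ (X + (Y * X * Y) ^ θ).det := by
  have hXs := hX.isStrictlyPositive
  have hhalf : X ^ (1 / 2 : ℝ) * X ^ (1 / 2 : ℝ) = X := by
    rw [FurutaA.padd hXs]
    norm_num
    exact FurutaA.p1 hXs
  have e1 : X + (Y * X * Y) ^ θ = X ^ (1 / 2 : ℝ) * (1 + Z1 X Y θ) * X ^ (1 / 2 : ℝ) := by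
    rw [Matrix.mul_add, Matrix.add_mul, mul_one, hhalf, Z1]
    congr 1
    calc (Y * X * Y) ^ θ = 1 * (Y * X * Y) ^ θ * 1 := by rw [one_mul, mul_one]
      _ = (X ^ (1 / 2 : ℝ) * X ^ (-(1 / 2) : ℝ)) * (Y * X * Y) ^ θ
          * (X ^ (-(1 / 2) : ℝ) * X ^ (1 / 2 : ℝ)) := by
        rw [FurutaA.padd hXs, FurutaA.padd hXs, add_neg_cancel, neg_add_cancel, FurutaA.p0 hXs]
      _ = _ := by simp only [mul_assoc]
  have e2 : X + X ^ θ * Y ^ (2 * θ)
      = X ^ ((1 + θ) / 2) * (1 + Z2 X Y θ) * X ^ ((1 - θ) / 2) := by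
    rw [Matrix.mul_add, Matrix.add_mul, mul_one, FurutaA.padd hXs, Z2]
    have e3 : (1 + θ) / 2 + (1 - θ) / 2 = 1 := by ring
    rw [e3, FurutaA.p1 hXs]
    congr 1
    calc X ^ θ * Y ^ (2 * θ) = X ^ θ * Y ^ (2 * θ) * 1 := by rw [mul_one]
      _ = (X ^ ((1 + θ) / 2) * X ^ (-((1 - θ) / 2))) * Y ^ (2 * θ)
          * (X ^ (-((1 - θ) / 2)) * X ^ ((1 - θ) / 2)) := by
        rw [FurutaA.padd hXs, FurutaA.padd hXs, neg_add_cancel, FurutaA.p0 hXs]
        congr 3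
        ring
      _ = _ := by simp only [mul_assoc]
  have e4 : (X ^ (1 / 2 : ℝ)).det * (X ^ (1 / 2 : ℝ)).det = X.det := by
    rw [← Matrix.det_mul, hhalf]
  have e5 : (X ^ ((1 + θ) / 2)).det * (X ^ ((1 - θ) / 2)).det = X.det := by
    rw [← Matrix.det_mul, FurutaA.padd hXs]
    have e3 : (1 + θ) / 2 + (1 - θ) / 2 = 1 := by ring
    rw [e3, FurutaA.p1 hXs]
  have e6 : (X + (Y * X * Y) ^ θ).det = X.det * (1 + Z1 X Y θ).det := by
    rw [e1, Matrix.det_mul, Matrix.det_mul, ← e4]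
    ring
  have e7 : (X + X ^ θ * Y ^ (2 * θ)).det = X.det * (1 + Z2 X Y θ).det := by
    rw [e2, Matrix.det_mul, Matrix.det_mul, ← e5]
    ring
  rw [e6, e7]
  exact mul_le_mul_of_nonneg_left (det_Z_le hX hY h0 h1) hX.det_pos.le

lemma cont_rpow {a : ℝ → Matrix (Fin n) (Fin n) ℂ} {s : Set ℝ} (ha : ContinuousOn a s)
    (h0 : ∀ x ∈ s, 0 ≤ a x) {t : ℝ} (ht : 0 ≤ t) : ContinuousOn (fun x => (a x) ^ t) s := by
  have h1 : (fun x => (a x) ^ t) = fun x => cfc (fun y : ℝ≥0 => y ^ t) (a x) := by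
    ext x
    rw [CFC.rpow_def]
  rw [h1]
  exact ContinuousOn.cfc_nnreal_of_mem_nhdsSet (s := Set.univ) (fun y : ℝ≥0 => y ^ t)
    Filter.univ_mem ha h0 (NNReal.continuous_rpow_const ht).continuousOn

/-- Positive definite `X`. -/
lemma det_le_posDef_left {X Y : Matrix (Fin n) (Fin n) ℂ} (hX : X.PosDef) (hY : Y.PosSemidef)
    {θ : ℝ} (h0 : 0 ≤ θ) (h1 : θ ≤ 1) :
    (X + X ^ θ * Y ^ (2 * θ)).det ≤ (X + (Y * X * Y) ^ θ).det := by
  obtain ⟨Z, hZ⟩ : ∃ Z : ℝ → Matrix (Fin n) (Fin n) ℂ, Z = fun ε : ℝ => Y + (ε : ℂ) • 1 := ⟨_, rfl⟩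
  have hZc : Continuous Z := by
    rw [hZ]
    fun_prop
  have hZpsd : ∀ ε ∈ Ici (0 : ℝ), (Z ε).PosSemidef := by
    intro ε hε
    rw [hZ]
    exact hY.add (Matrix.PosSemidef.one.smul (by exact_mod_cast hε))
  have hZpd : ∀ ε ∈ Ioi (0 : ℝ), (Z ε).PosDef := by
    intro ε hε
    rw [hZ]
    have h2 : ((ε : ℂ) • (1 : Matrix (Fin n) (Fin n) ℂ)).PosDef :=
      Matrix.PosDef.one.smul (by exact_mod_cast hε)
    exact h2.posSemidef_add hY
  have hZ0 : Z 0 = Y := by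
    rw [hZ]
    simp
  have hG : ∀ ε ∈ Ici (0 : ℝ), 0 ≤ Z ε * X * Z ε := by
    intro ε hε
    have h2 := hX.posSemidef.mul_mul_conjTranspose_same (Z ε)
    rw [(hZpsd ε hε).isHermitian.eq] at h2
    exact h2.nonneg
  have hc1 : ContinuousOn (fun ε => (X + (Z ε * X * Z ε) ^ θ).det) (Ici 0) := by
    have h2 : ContinuousOn (fun ε => (Z ε * X * Z ε) ^ θ) (Ici 0) :=
      cont_rpow (by fun_prop) hG h0
    exact (Continuous.matrix_det continuous_id).comp_continuousOn (continuousOn_const.add h2)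
  have hc2 : ContinuousOn (fun ε => (X + X ^ θ * (Z ε) ^ (2 * θ)).det) (Ici 0) := by
    have h2 : ContinuousOn (fun ε => (Z ε) ^ (2 * θ)) (Ici 0) :=
      cont_rpow hZc.continuousOn (fun ε hε => (hZpsd ε hε).nonneg) (by linarith)
    exact (Continuous.matrix_det continuous_id).comp_continuousOn
      (continuousOn_const.add (continuousOn_const.mul h2))
  have t1 := (hc1 0 (Set.mem_Ici.2 le_rfl)).mono (Ioi_subset_Ici_self)
  have t2 := (hc2 0 (Set.mem_Ici.2 le_rfl)).mono (Ioi_subset_Ici_self)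
  have h3 := le_of_tendsto_of_tendsto t2 t1 (by
    filter_upwards [self_mem_nhdsWithin] with ε hε
    exact det_le_posDef hX (hZpd ε hε) h0 h1)
  have h4 : (X + X ^ θ * (Z 0) ^ (2 * θ)).det ≤ (X + (Z 0 * X * Z 0) ^ θ).det := h3
  rwa [hZ0] at h4

lemma rpow_split {X : Matrix (Fin n) (Fin n) ℂ} (hX : X.PosSemidef) {θ : ℝ} (h0 : 0 < θ)
    (h1 : θ ≤ 1) : X ^ θ * X ^ (1 - θ) = X := by
  obtain ⟨V, d, hV, hV', hd, rfl⟩ := exists_diag hX
  rw [rpow_diag hV hV' hd, rpow_diag hV hV' hd]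
  have h2 : dg (fun i => d i ^ θ) * dg (fun i => d i ^ (1 - θ)) = dg d := by
    rw [dg, dg, Matrix.diagonal_mul_diagonal, dg]
    congr 1
    ext i
    rw [← Complex.ofReal_mul]
    congr 1
    rcases (hd i).eq_or_lt with h | h
    · rw [← h, Real.zero_rpow h0.ne', zero_mul]
    · rw [← Real.rpow_add h]
      norm_num
  calc V * dg (fun i => d i ^ θ) * Vᴴ * (V * dg (fun i => d i ^ (1 - θ)) * Vᴴ)
      = V * (dg (fun i => d i ^ θ) * (Vᴴ * V) * dg (fun i => d i ^ (1 - θ))) * Vᴴ := by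
        simp only [mul_assoc]
    _ = _ := by rw [hV, mul_one, h2]

lemma det_rpow_zero {X : Matrix (Fin n) (Fin n) ℂ} (hX : X.PosSemidef) (h : X.det = 0) {θ : ℝ}
    (h0 : 0 < θ) (h1 : θ ≤ 1) : (X ^ θ).det = 0 := by
  obtain ⟨V, d, hV, hV', hd, rfl⟩ := exists_diag hX
  rw [rpow_diag hV hV' hd]
  have h3 : V.det * Vᴴ.det = 1 := by rw [← Matrix.det_mul, hV', Matrix.det_one]
  have h4 : ∀ f : Fin n → ℝ, (V * dg f * Vᴴ).det = ((∏ i, f i : ℝ) : ℂ) := by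
    intro f
    rw [Matrix.det_mul, Matrix.det_mul, mul_comm V.det, mul_assoc, h3, mul_one, dg,
      Matrix.det_diagonal]
    push_cast
    rfl
  rw [h4] at h ⊢
  have h5 : ∏ i, d i = 0 := by exact_mod_cast h
  obtain ⟨i, hi, hi'⟩ := Finset.prod_eq_zero_iff.1 h5
  have h6 : ∏ i, d i ^ θ = 0 := by
    apply Finset.prod_eq_zero hi
    rw [hi', Real.zero_rpow h0.ne']
  rw [h6, Complex.ofReal_zero]

theorem det_le {X Y : Matrix (Fin n) (Fin n) ℂ} (hX : X.PosSemidef) (hY : Y.PosSemidef)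
    {θ : ℝ} (h0 : 0 ≤ θ) (h1 : θ ≤ 1) :
    (X + X ^ θ * Y ^ (2 * θ)).det ≤ (X + (Y * X * Y) ^ θ).det := by
  have hG : (Y * X * Y).PosSemidef := by
    have h2 := hX.mul_mul_conjTranspose_same Y
    rwa [hY.isHermitian.eq] at h2
  rcases h0.eq_or_lt with h | h
  · rw [← h, mul_zero, CFC.rpow_zero X hX.nonneg, CFC.rpow_zero Y hY.nonneg,
      CFC.rpow_zero _ hG.nonneg, one_mul]
  · by_cases hd : X.det = 0
    · have e1 : X + X ^ θ * Y ^ (2 * θ) = X ^ θ * (X ^ (1 - θ) + Y ^ (2 * θ)) := by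
        rw [Matrix.mul_add, rpow_split hX h h1]
      rw [e1, Matrix.det_mul, det_rpow_zero hX hd h h1, zero_mul]
      have h3 : ((Y * X * Y) ^ θ).PosSemidef := Matrix.nonneg_iff_posSemidef.1 CFC.rpow_nonneg
      exact (hX.add h3).det_nonneg
    · have hX' : X.PosDef := by
        rw [hX.posDef_iff_isUnit, Matrix.isUnit_iff_isUnit_det]
        exact isUnit_iff_ne_zero.2 hd
      exact det_le_posDef_left hX' hY h0 h1

lemma rpow_nonneg_comp {X : Matrix (Fin n) (Fin n) ℂ} (hX : X.PosSemidef) {s t : ℝ}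
    (hs : 0 ≤ s) (ht : 0 ≤ t) : (X ^ s) ^ t = X ^ (s * t) :=
  CFC.rpow_rpow_of_exponent_nonneg X s t hs ht hX.nonneg

theorem main {A B : Matrix (Fin n) (Fin n) ℂ} (hA : A.PosSemidef) (hB : B.PosSemidef)
    {p : ℝ} (h0 : 0 ≤ p) (h1 : p ≤ 2) :
    (A ^ 2 + A ^ p * B ^ p).det ≤ (A ^ 2 + (CFC.abs (A * B)) ^ p).det := by
  have hA2 : (A ^ 2).PosSemidef := hA.pow 2
  have hG : (B * A ^ 2 * B).PosSemidef := by
    have h2 := hA2.mul_mul_conjTranspose_same B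
    rwa [hB.isHermitian.eq] at h2
  have e1 : A ^ p = (A ^ 2) ^ (p / 2) := by
    have h2 : A ^ 2 = A ^ (2 : ℝ) := by
      rw [show (2 : ℝ) = ((2 : ℕ) : ℝ) by norm_num, CFC.rpow_natCast A 2 hA.nonneg]
    rw [h2, rpow_nonneg_comp hA (by norm_num) (by linarith)]
    congr 1
    ring
  have e2 : (CFC.abs (A * B)) ^ p = (B * A ^ 2 * B) ^ (p / 2) := by
    have h2 : star (A * B) * (A * B) = B * A ^ 2 * B := by
      have h3 : star (A * B) = B * A := by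
        rw [star_mul, Matrix.star_eq_conjTranspose, Matrix.star_eq_conjTranspose,
          hA.isHermitian.eq, hB.isHermitian.eq]
      rw [h3, pow_two]
      simp only [mul_assoc]
    rw [CFC.abs, h2, CFC.sqrt_eq_rpow, rpow_nonneg_comp hG (by norm_num) (by linarith)]
    congr 1
    ring
  have e3 : B ^ p = B ^ (2 * (p / 2)) := by
    congr 1
    ring
  rw [e1, e2, e3]
  exact det_le hA2 hB (by linarith) (by linarith)

end Pool.Agent.X78.FurutaE
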