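import Mathlib

namespace PCyc

open SimpleGraph

variable {V : Type}

/-- `G` is `d`-regular. -/
def Reg (G : SimpleGraph V) (d : ℕ) : Prop := ∀ v, (G.neighborSet v).ncard = d

/-- `G` is `k`-connected. -/
def KConn (G : SimpleGraph V) (k : ℕ) : Prop :=
  k = 0 ∨ (k < Nat.card V ∧ ∀ R : Set V, R.ncard < k → (G.induce Rᶜ).Connected)

/-- The path `p` closes to a cycle. -/
def Closes {G : SimpleGraph V} {u v : V} (p : G.Walk u v) : Prop :=
  ∃ (w : V) (c : G.Walk w w), c.IsCycle ∧ p.toSubgraph ≤ c.toSubgraph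

/-- The set `S(d,k)`. -/
def S (d k : ℕ) : Set ℕ :=
  {ℓ | ∀ (V : Type) [Finite V] (G : SimpleGraph V), Reg G d → KConn G k →
    ∀ (u v : V) (p : G.Walk u v), p.IsPath → p.length = ℓ → Closes p}

/-- one step in `G` avoiding `R` -/
def stp (G : SimpleGraph V) (R : Set V) (a b : V) : Prop := G.Adj a b ∧ a ∉ R ∧ b ∉ R

theorem stp_symm {G : SimpleGraph V} {R : Set V} {a b : V} (h : stp G R a b) : stp G R b a :=
  ⟨h.1.symm, h.2.2, h.2.1⟩

theorem rtg_symm {G : SimpleGraph V} {R : Set V} {a b : V}
    (h : Relation.ReflTransGen (stp G R) a b) : Relation.ReflTransGen (stp G R) b a :=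
  by
  induction h with
  | refl => exact Relation.ReflTransGen.refl
  | tail _ hbc ih => exact Relation.ReflTransGen.head (stp_symm hbc) ih

theorem conn_iff (G : SimpleGraph V) (R : Set V) :
    (G.induce Rᶜ).Connected ↔
      (∃ a, a ∉ R) ∧ ∀ a b, a ∉ R → b ∉ R → Relation.ReflTransGen (stp G R) a b := by
  constructor
  · intro h
    obtain ⟨⟨a, ha⟩⟩ := h.nonempty
    refine ⟨⟨a, ha⟩, fun x y hx hy => ?_⟩
    have := h.preconnected ⟨x, hx⟩ ⟨y, hy⟩
    rw [SimpleGraph.reachable_iff_reflTransGen] at this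
    exact this.lift Subtype.val (fun p q hpq => ⟨hpq, p.2, q.2⟩)
  · rintro ⟨⟨a, ha⟩, h⟩
    have hne : Nonempty ↥(Rᶜ) := ⟨⟨a, ha⟩⟩
    have key : ∀ x : ↥(Rᶜ), ∀ y, Relation.ReflTransGen (stp G R) x.1 y →
        ∀ hy : y ∈ Rᶜ, (G.induce Rᶜ).Reachable x ⟨y, hy⟩ := by
      intro x y hxy
      induction hxy with
      | refl => intro hy; exact Reachable.refl _
      | tail hab hbc ih =>
        intro hy
        have h1 := ih hbc.2.1
        refine h1.trans (Adj.reachable ?_)
        exact hbc.1
    exact ⟨fun x y => key x y.1 (h x.1 y.1 x.2 y.2) y.2⟩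

/-- Parity: a cycle cannot cross a vertex cut exactly once. -/
theorem cross [Finite V] {G : SimpleGraph V} {w : V} (c : G.Walk w w) (hc : c.IsCycle)
    (A : Set V) {x y : V} (hx : x ∈ A) (hy : y ∉ A) (hxy : c.toSubgraph.Adj x y) :
    ∃ x' y', x' ∈ A ∧ y' ∉ A ∧ c.toSubgraph.Adj x' y' ∧ ¬ (x' = x ∧ y' = y) := by
  classical
  by_contra hcon
  push Not at hcon
  have := Fintype.ofFinite V
  let H : SimpleGraph V :=
    { Adj := fun a b => c.toSubgraph.Adj a b ∧ a ∈ A ∧ b ∈ A
      symm := ⟨fun a b h => ⟨h.1.symm, h.2.2, h.2.1⟩⟩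
      loopless := ⟨fun a h => G.loopless.irrefl a (c.toSubgraph.adj_sub h.1)⟩ }
  have hdeg : ∀ a, (c.toSubgraph.neighborSet a).ncard = 2 ∨ (c.toSubgraph.neighborSet a) = ∅ := by
    intro a
    by_cases ha : a ∈ c.support
    · left; exact hc.ncard_neighborSet_toSubgraph_eq_two ha
    · right
      ext b
      simp only [Subgraph.mem_neighborSet, Set.mem_empty_iff_false, iff_false]
      intro hab
      exact ha (Walk.mem_support_of_adj_toSubgraph hab)
  have hodd : ∀ a, Odd (H.degree a) ↔ a = x := by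
    intro a
    have hd : H.degree a = (H.neighborSet a).ncard := by
      rw [← SimpleGraph.card_neighborSet_eq_degree, Set.ncard_eq_toFinset_card', Set.toFinset_card]
    rw [hd]
    by_cases hax : a = x
    · subst hax
      simp only [iff_true]
      have h1 : H.neighborSet a = c.toSubgraph.neighborSet a \ {y} := by
        ext b
        simp only [mem_neighborSet, Set.mem_sdiff, Subgraph.mem_neighborSet, Set.mem_singleton_iff]
        constructor
        · rintro ⟨h1, h2, h3⟩
          exact ⟨h1, fun h => hy (h ▸ h3)⟩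
        · rintro ⟨h1, h2⟩
          refine ⟨h1, hx, ?_⟩
          by_contra hb
          exact h2 (hcon a b hx hb h1).2
      have h2 : (c.toSubgraph.neighborSet a).ncard = 2 := by
        rcases hdeg a with h | h
        · exact h
        · exfalso
          have : y ∈ c.toSubgraph.neighborSet a := hxy
          rw [h] at this; exact this
      rw [h1, Set.ncard_sdiff_singleton_of_mem (show y ∈ c.toSubgraph.neighborSet a from hxy), h2]
      decide
    · simp only [hax, iff_false]
      by_cases haA : a ∈ A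
      · have h1 : H.neighborSet a = c.toSubgraph.neighborSet a := by
          ext b
          simp only [mem_neighborSet, Subgraph.mem_neighborSet]
          constructor
          · rintro ⟨h1, h2, h3⟩
            exact h1
          · intro h1
            refine ⟨h1, haA, ?_⟩
            by_contra hb
            exact hax (hcon a b haA hb h1).1
        rw [h1]
        rcases hdeg a with h | h
        · rw [h]; decide
        · rw [h]; simp
      · have h1 : H.neighborSet a = ∅ := by
          ext b
          simp only [mem_neighborSet, Set.mem_empty_iff_false, iff_false]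
          rintro ⟨h1, h2, h3⟩
          exact haA h2
        rw [h1]; simp
  have hev := H.even_card_odd_degree_vertices
  have : (Finset.univ.filter (fun v => Odd (H.degree v))) = {x} := by
    ext a
    simp [hodd]
  rw [this] at hev
  simp at hev

/-- a path given by a function -/
def FP (G : SimpleGraph V) (f : ℕ → V) (m : ℕ) : Prop :=
  (∀ i < m, G.Adj (f i) (f (i + 1))) ∧ (∀ i j, i ≤ m → j ≤ m → f i = f j → i = j)

theorem walkOf {G : SimpleGraph V} (m : ℕ) : ∀ (f : ℕ → V), FP G f m →
    ∃ p : G.Walk (f 0) (f m), p.IsPath ∧ p.length = m ∧ (∀ x ∈ p.support, ∃ i ≤ m, x = f i) ∧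
      ∀ i < m, p.toSubgraph.Adj (f i) (f (i + 1)) := by
  induction m with
  | zero =>
    intro f _
    exact ⟨Walk.nil, Walk.IsPath.nil, rfl, by intro x hx; simp at hx; exact ⟨0, le_refl _, hx⟩,
      fun i hi => by omega⟩
  | succ m ih =>
    intro f hf
    obtain ⟨p, hp, hl, hs, ha⟩ := ih (fun i => f (i + 1))
      ⟨fun i hi => hf.1 (i + 1) (by omega), fun i j hi hj h => by
        have := hf.2 (i + 1) (j + 1) (by omega) (by omega) h
        omega⟩
    have h0 : G.Adj (f 0) (f (0 + 1)) := hf.1 0 (by omega)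
    refine ⟨Walk.cons h0 p, ?_, ?_, ?_, ?_⟩
    · rw [Walk.cons_isPath_iff]
      refine ⟨hp, fun h => ?_⟩
      obtain ⟨i, hi, he⟩ := hs _ h
      have := hf.2 0 (i + 1) (by omega) (by omega) he
      omega
    · simp [hl]
    · intro x hx
      rw [Walk.support_cons, List.mem_cons] at hx
      rcases hx with hx | hx
      · exact ⟨0, by omega, hx⟩
      · obtain ⟨i, hi, he⟩ := hs _ hx
        exact ⟨i + 1, by omega, he⟩
    · intro i hi
      rw [Walk.toSubgraph, Subgraph.sup_adj]
      rcases i with _ | i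
      · left; simp
      · right; exact ha i (by omega)

/-- Certificate that some path with `l` edges does not close. -/
def Cert (G : SimpleGraph V) (l : ℕ) : Prop :=
  ∃ (f : ℕ → V) (A : Set V), FP G f l ∧ f 0 ∈ A ∧ (∀ i, 1 ≤ i → i ≤ l → f i ∉ A) ∧
    ∀ a b, a ∈ A → b ∉ A → G.Adj a b →
      (a = f 0 ∧ b = f 1) ∨ ∃ i, 1 ≤ i ∧ i < l ∧ b = f i

theorem cert_not [Finite V] {G : SimpleGraph V} {l : ℕ} (hl : 1 ≤ l) (h : Cert G l) :
    ∃ (u v : V) (p : G.Walk u v), p.IsPath ∧ p.length = l ∧ ¬ Closes p := by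
  obtain ⟨f, A, hf, h0, hi, hc⟩ := h
  obtain ⟨p, hp, hlen, -, hadj⟩ := walkOf l f hf
  refine ⟨_, _, p, hp, hlen, ?_⟩
  rintro ⟨w, c, hcy, hle⟩
  have hC : ∀ i < l, c.toSubgraph.Adj (f i) (f (i + 1)) := fun i h => hle.2 (hadj i h)
  obtain ⟨x, y, hx, hy, hxy, hne⟩ := cross c hcy A h0 (hi 1 (by omega) hl) (hC 0 (by omega))
  apply hne
  rcases hc x y hx hy (c.toSubgraph.adj_sub hxy) with h | ⟨i, hi1, hi2, rfl⟩
  · exact h
  · have h1 := hC i hi2
    have h2 : c.toSubgraph.Adj (f i) (f (i - 1)) := by
      have := (hC (i - 1) (by omega)).symm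
      rwa [show i - 1 + 1 = i by omega] at this
    have hcard : (c.toSubgraph.neighborSet (f i)).ncard = 2 :=
      hcy.ncard_neighborSet_toSubgraph_eq_two (Walk.mem_support_of_adj_toSubgraph h1)
    have hne2 : f (i - 1) ≠ f (i + 1) := by
      intro h
      have := hf.2 _ _ (by omega) (by omega) h
      omega
    have hset : c.toSubgraph.neighborSet (f i) = {f (i - 1), f (i + 1)} := by
      symm
      apply Set.eq_of_subset_of_ncard_le
      · intro z hz
        rcases hz with rfl | rfl
        · exact h2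
        · exact h1
      · rw [hcard, Set.ncard_pair hne2]
      · exact Set.toFinite _
    have hxm : x ∈ c.toSubgraph.neighborSet (f i) := hxy.symm
    rw [hset] at hxm
    rcases hxm with rfl | hxm
    · have : i - 1 = 0 := by
        by_contra h
        exact hi (i - 1) (by omega) (by omega) hx
      rw [this]
      exact ⟨rfl, by rw [show i = 1 by omega]⟩
    · rw [Set.mem_singleton_iff] at hxm
      subst hxm
      exact absurd hx (hi (i + 1) (by omega) (by omega))

end PCyc
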