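import Pool.Agent.X78.PC1

namespace PCyc

open SimpleGraph

variable {V : Type}

/-- new vertices -/
abbrev NV (G : SimpleGraph V) (w n : V) := {x : V // G.Adj w x ∧ x ≠ n}

/-- adjacency of the splice -/
def splAdj (G : SimpleGraph V) (w n : V) : V ⊕ NV G w n → V ⊕ NV G w n → Prop
  | .inl a, .inl b => G.Adj a b ∧ ¬ (a = w ∧ b ≠ n) ∧ ¬ (b = w ∧ a ≠ n)
  | .inl a, .inr x => a = w ∨ a = x.1
  | .inr x, .inl a => a = w ∨ a = x.1
  | .inr x, .inr y => x ≠ y

/-- Replace `w` by a clique; `w` itself keeps only its neighbour `n`. -/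
def spl (G : SimpleGraph V) (w n : V) : SimpleGraph (V ⊕ NV G w n) where
  Adj := splAdj G w n
  symm := ⟨by
    rintro (a | x) (b | y) h
    · exact ⟨h.1.symm, h.2.2, h.2.1⟩
    · exact h
    · exact h
    · exact fun e => h e.symm⟩
  loopless := ⟨by
    rintro (a | x) h
    · exact G.loopless.irrefl a h.1
    · exact h rfl⟩

theorem spl_ll {G : SimpleGraph V} {w n a b : V} :
    (spl G w n).Adj (.inl a) (.inl b) ↔ G.Adj a b ∧ ¬ (a = w ∧ b ≠ n) ∧ ¬ (b = w ∧ a ≠ n) := Iff.rfl
theorem spl_lr {G : SimpleGraph V} {w n a : V} {x : NV G w n} :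
    (spl G w n).Adj (.inl a) (.inr x) ↔ a = w ∨ a = x.1 := Iff.rfl
theorem spl_rl {G : SimpleGraph V} {w n a : V} {x : NV G w n} :
    (spl G w n).Adj (.inr x) (.inl a) ↔ a = w ∨ a = x.1 := Iff.rfl
theorem spl_rr {G : SimpleGraph V} {w n : V} {x y : NV G w n} :
    (spl G w n).Adj (.inr x) (.inr y) ↔ x ≠ y := Iff.rfl

theorem card_NV [Finite V] {G : SimpleGraph V} {d : ℕ} (hG : Reg G d) {w n : V}
    (hwn : G.Adj w n) : Nat.card (NV G w n) = d - 1 := by
  have h : Nat.card (NV G w n) = (G.neighborSet w \ {n}).ncard := by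
    rw [← Nat.card_coe_set_eq]
    rfl
  rw [h, Set.ncard_sdiff_singleton_of_mem (show n ∈ G.neighborSet w from hwn), hG w]

theorem spl_reg [Finite V] {G : SimpleGraph V} {d : ℕ} (hd : 2 ≤ d) (hG : Reg G d) {w n : V}
    (hwn : G.Adj w n) : Reg (spl G w n) d := by
  classical
  have hc := card_NV hG hwn
  rintro (a | x)
  · by_cases haw : a = w
    · subst haw
      have : (spl G a n).neighborSet (.inl a) = insert (Sum.inl n) (Set.range Sum.inr) := by
        ext z
        rcases z with b | y
        · simp only [mem_neighborSet, spl_ll, Set.mem_insert_iff, Sum.inl.injEq, Set.mem_range,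
            reduceCtorEq, exists_false, or_false]
          constructor
          · rintro ⟨_, h2, _⟩
            by_contra h
            exact h2 ⟨trivial, h⟩
          · rintro rfl
            exact ⟨hwn, fun h => h.2 rfl, fun h => hwn.ne h.1.symm⟩
        · simp [spl_lr]
      rw [this, Set.ncard_insert_of_notMem (by simp) (Set.toFinite _), ← Set.image_univ,
        Set.ncard_image_of_injective _ Sum.inr_injective, Set.ncard_univ, hc]
      omega
    · by_cases hN : G.Adj w a ∧ a ≠ n
      · have : (spl G w n).neighborSet (.inl a) =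
            insert (Sum.inr ⟨a, hN⟩) (Sum.inl '' (G.neighborSet a \ {w})) := by
          ext z
          rcases z with b | y
          · simp only [mem_neighborSet, spl_ll, Set.mem_insert_iff, reduceCtorEq, false_or,
              Set.mem_image, Set.mem_sdiff, Set.mem_singleton_iff, Sum.inl.injEq,
              exists_eq_right]
            constructor
            · rintro ⟨h1, _, h3⟩
              exact ⟨h1, fun h => h3 ⟨h, hN.2⟩⟩
            · rintro ⟨h1, h2⟩
              exact ⟨h1, fun h => haw h.1, fun h => h2 h.1⟩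
          · simp only [mem_neighborSet, spl_lr, Set.mem_insert_iff, Sum.inr.injEq, Set.mem_image,
              reduceCtorEq, and_false, exists_false, or_false]
            constructor
            · rintro (h | h)
              · exact absurd h haw
              · exact Subtype.ext h.symm
            · rintro rfl
              right; rfl
        rw [this, Set.ncard_insert_of_notMem (by simp) (Set.toFinite _),
          Set.ncard_image_of_injective _ Sum.inl_injective,
          Set.ncard_sdiff_singleton_of_mem (show w ∈ G.neighborSet a from hN.1.symm), hG a]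
        omega
      · have : (spl G w n).neighborSet (.inl a) = Sum.inl '' (G.neighborSet a) := by
          ext z
          rcases z with b | y
          · simp only [mem_neighborSet, spl_ll, Set.mem_image, Sum.inl.injEq, exists_eq_right]
            constructor
            · rintro ⟨h1, _, h3⟩
              exact h1
            · intro h1
              refine ⟨h1, fun h => haw h.1, ?_⟩
              rintro ⟨rfl, h⟩
              exact hN ⟨h1.symm, h⟩
          · simp only [mem_neighborSet, spl_lr, Set.mem_image, reduceCtorEq, and_false,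
              exists_false, iff_false, not_or]
            refine ⟨haw, ?_⟩
            rintro rfl
            exact hN y.2
        rw [this, Set.ncard_image_of_injective _ Sum.inl_injective, hG a]
  · have : (spl G w n).neighborSet (.inr x) =
        insert (Sum.inl w) (insert (Sum.inl x.1) (Sum.inr '' ((Set.univ : Set (NV G w n)) \ {x}))) := by
      ext z
      rcases z with b | y
      · simp [spl_rl]
      · simp only [mem_neighborSet, spl_rr, Set.mem_insert_iff, reduceCtorEq, Set.mem_image,
          Set.mem_sdiff, Set.mem_univ, Set.mem_singleton_iff, true_and, Sum.inr.injEq,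
          exists_eq_right, false_or]
        exact ne_comm
    rw [this, Set.ncard_insert_of_notMem _ (Set.toFinite _),
      Set.ncard_insert_of_notMem (by simp) (Set.toFinite _),
      Set.ncard_image_of_injective _ Sum.inr_injective,
      Set.ncard_sdiff_singleton_of_mem (Set.mem_univ x), Set.ncard_univ, hc]
    · have : 0 < Nat.card (NV G w n) := by
        have : Nonempty (NV G w n) := ⟨x⟩
        exact Nat.card_pos
      omega
    · simp only [Set.mem_insert_iff, Sum.inl.injEq, Set.mem_image, reduceCtorEq, and_false,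
        exists_false, or_false]
      exact x.2.1.ne

theorem spl_conn [Finite V] {G : SimpleGraph V} {d k : ℕ} (hkd : k ≤ d) (hG : Reg G d)
    (hK : KConn G k) {w n : V} (hwn : G.Adj w n) : KConn (spl G w n) k := by
  classical
  rcases hK with h0 | ⟨hcard, hK⟩
  · exact Or.inl h0
  right
  constructor
  · rw [Nat.card_sum]; omega
  intro R hR
  rw [conn_iff]
  -- partner
  let π : V → V ⊕ NV G w n := fun y =>
    if h : G.Adj w y ∧ y ≠ n then Sum.inr ⟨y, h⟩ else Sum.inl w
  have hπ : ∀ y (h : G.Adj w y ∧ y ≠ n), π y = Sum.inr ⟨y, h⟩ := fun y h => dif_pos h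
  have hπn : π n = Sum.inl w := dif_neg (fun h => h.2 rfl)
  have hπadj : ∀ y, G.Adj w y → (spl G w n).Adj (Sum.inl y) (π y) := by
    intro y hy
    by_cases h : y = n
    · subst h
      rw [hπn]
      exact ⟨hy.symm, fun h => hy.ne h.1.symm, fun h => h.2 rfl⟩
    · rw [hπ y ⟨hy, h⟩]
      right; rfl
  let Kq : Set (V ⊕ NV G w n) := insert (Sum.inl w) (Set.range Sum.inr)
  have hπK : ∀ y, π y ∈ Kq := by
    intro y
    by_cases h : G.Adj w y ∧ y ≠ n
    · rw [hπ y h]; right; exact ⟨_, rfl⟩
    · rw [show π y = Sum.inl w from dif_neg h]; left; rfl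
  have hKadj : ∀ a b, a ∈ Kq → b ∈ Kq → a ≠ b → (spl G w n).Adj a b := by
    rintro a b (rfl | ⟨x, rfl⟩) (rfl | ⟨y, rfl⟩) hab
    · exact absurd rfl hab
    · left; rfl
    · left; rfl
    · exact fun h => hab (by rw [h])
  -- Claim A
  have hA : ∃ y, G.Adj w y ∧ Sum.inl y ∉ R ∧ π y ∉ R := by
    by_contra hcon
    push Not at hcon
    let g : V → V ⊕ NV G w n := fun y => if Sum.inl y ∈ R then Sum.inl y else π y
    have hg : ∀ y ∈ G.neighborSet w, g y ∈ R := by
      intro y hy
      by_cases h : Sum.inl y ∈ R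
      · simp only [g, h, if_true]
      · simp only [g, h, if_false]
        exact hcon y hy h
    have hinj : Set.InjOn g (G.neighborSet w) := by
      intro y hy z hz hyz
      have hyw : y ≠ w := (show G.Adj w y from hy).ne.symm
      have hzw : z ≠ w := (show G.Adj w z from hz).ne.symm
      have hpi : ∀ u, G.Adj w u → ((u = n ∧ π u = Sum.inl w) ∨
          ∃ h : G.Adj w u ∧ u ≠ n, π u = Sum.inr ⟨u, h⟩) := by
        intro u hu
        by_cases h : u = n
        · left; exact ⟨h, by rw [h, hπn]⟩
        · right; exact ⟨⟨hu, h⟩, hπ u ⟨hu, h⟩⟩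
      simp only [g] at hyz
      split_ifs at hyz with h1 h2 h2
      · exact Sum.inl_injective hyz
      · rcases hpi z hz with ⟨_, h3⟩ | ⟨h3, h4⟩
        · rw [h3] at hyz; exact absurd (Sum.inl_injective hyz) hyw
        · rw [h4] at hyz; cases hyz
      · rcases hpi y hy with ⟨_, h3⟩ | ⟨h3, h4⟩
        · rw [h3] at hyz; exact absurd (Sum.inl_injective hyz).symm hzw
        · rw [h4] at hyz; cases hyz
      · rcases hpi y hy with ⟨h3, h4⟩ | ⟨h3, h4⟩ <;> rcases hpi z hz with ⟨h5, h6⟩ | ⟨h5, h6⟩
        · rw [h3, h5]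
        · rw [h4, h6] at hyz; cases hyz
        · rw [h4, h6] at hyz; cases hyz
        · rw [h4, h6] at hyz
          exact congrArg Subtype.val (Sum.inr_injective hyz)
    have := Set.ncard_le_ncard_of_injOn g hg hinj (Set.toFinite _)
    rw [hG w] at this
    omega
  obtain ⟨y, hwy, hyR, hπR⟩ := hA
  -- Claim B
  have hB : ∀ a : V, Sum.inl a ∉ R → ∃ q ∈ Kq, q ∉ R ∧
      Relation.ReflTransGen (stp (spl G w n) R) (Sum.inl a) q := by
    intro a ha
    by_cases haw : a = w
    · subst haw
      exact ⟨_, Or.inl rfl, ha, Relation.ReflTransGen.refl⟩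
    by_cases hKR : ∃ q0 ∈ Kq, q0 ∈ R
    · obtain ⟨q0, hq0, hq0R⟩ := hKR
      let R1 : Set V := {v | Sum.inl v ∈ R ∧ v ≠ w}
      have h1 : R1.ncard + 1 ≤ R.ncard := by
        have h2 : (Sum.inl '' R1 : Set (V ⊕ NV G w n)) ⊆ R \ {q0} := by
          rintro _ ⟨v, hv, rfl⟩
          refine ⟨hv.1, ?_⟩
          rintro rfl
          rcases hq0 with h | ⟨_, h⟩
          · exact hv.2 (Sum.inl_injective h)
          · cases h
        have h3 := Set.ncard_le_ncard h2 (Set.toFinite _)
        rw [Set.ncard_image_of_injective _ Sum.inl_injective,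
          Set.ncard_sdiff_singleton_of_mem hq0R] at h3
        have : 0 < R.ncard := (Set.ncard_pos (Set.toFinite _)).2 ⟨q0, hq0R⟩
        omega
      have h2 : (insert w R1).ncard < k := by
        have := Set.ncard_insert_le w R1
        omega
      have h3 := (conn_iff G _).1 (hK _ h2)
      have h4 := h3.2 a y (by
        rintro (h | h)
        · exact haw h
        · exact ha h.1) (by
        rintro (h | h)
        · exact hwy.ne h.symm
        · exact hyR h.1)
      refine ⟨π y, hπK y, hπR, ?_⟩
      refine Relation.ReflTransGen.tail (b := Sum.inl y) ?_ ⟨hπadj y hwy, hyR, hπR⟩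
      refine h4.lift Sum.inl ?_
      rintro p q ⟨h5, h6, h7⟩
      have hp : p ≠ w := fun h => h6 (Or.inl h)
      have hq : q ≠ w := fun h => h7 (Or.inl h)
      refine ⟨⟨h5, fun h => hp h.1, fun h => hq h.1⟩, ?_, ?_⟩
      · intro h; exact h6 (Or.inr ⟨h, hp⟩)
      · intro h; exact h7 (Or.inr ⟨h, hq⟩)
    · push Not at hKR
      let R1 : Set V := {v | Sum.inl v ∈ R}
      have h1 : R1.ncard ≤ R.ncard := by
        have h2 : (Sum.inl '' R1 : Set (V ⊕ NV G w n)) ⊆ R := by
          rintro _ ⟨v, hv, rfl⟩
          exact hv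
        have h3 := Set.ncard_le_ncard h2 (Set.toFinite _)
        rwa [Set.ncard_image_of_injective _ Sum.inl_injective] at h3
      have h3 := (conn_iff G _).1 (hK R1 (by omega))
      have h4 := h3.2 a w ha (hKR _ (Or.inl rfl))
      clear haw
      induction h4 using Relation.ReflTransGen.head_induction_on with
      | refl => exact ⟨_, Or.inl rfl, hKR _ (Or.inl rfl), Relation.ReflTransGen.refl⟩
      | head hab hr ih =>
        rename_i p q
        clear hr
        by_cases hp : p = w
        · subst hp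
          exact ⟨_, Or.inl rfl, hKR _ (Or.inl rfl), Relation.ReflTransGen.refl⟩
        by_cases hq : q = w
        · subst hq
          refine ⟨π p, hπK p, hKR _ (hπK p), ?_⟩
          exact Relation.ReflTransGen.single ⟨hπadj p hab.1.symm, hab.2.1, hKR _ (hπK p)⟩
        · obtain ⟨z, hz1, hz2, hz3⟩ := ih hab.2.2
          refine ⟨z, hz1, hz2, Relation.ReflTransGen.head ?_ hz3⟩
          exact ⟨⟨hab.1, fun h => hp h.1, fun h => hq h.1⟩, hab.2.1, hab.2.2⟩
  have hB' : ∀ a, a ∉ R → ∃ q ∈ Kq, q ∉ R ∧
      Relation.ReflTransGen (stp (spl G w n) R) a q := by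
    rintro (a | x) h
    · exact hB a h
    · exact ⟨_, Or.inr ⟨x, rfl⟩, h, Relation.ReflTransGen.refl⟩
  refine ⟨⟨π y, hπR⟩, fun a b ha hb => ?_⟩
  obtain ⟨q, hq1, hq2, hq3⟩ := hB' a ha
  obtain ⟨r, hr1, hr2, hr3⟩ := hB' b hb
  refine hq3.trans (Relation.ReflTransGen.trans ?_ (rtg_symm hr3))
  by_cases hqr : q = r
  · rw [hqr]
  · exact Relation.ReflTransGen.single ⟨hKadj q r hq1 hr1 hqr, hq2, hr2⟩

theorem cert_step [Finite V] {G : SimpleGraph V} {d k l : ℕ} (hd : 2 ≤ d) (hkd : k ≤ d)
    (hG : Reg G d) (hK : KConn G k) (hl : 1 ≤ l) (hC : Cert G l) :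
    ∃ (V' : Type) (_ : Finite V') (G' : SimpleGraph V'), Reg G' d ∧ KConn G' k ∧
      Cert G' (l + 1) := by
  obtain ⟨f, A, hf, h0, hi, hc⟩ := hC
  have hwn : G.Adj (f 0) (f 1) := hf.1 0 (by omega)
  have hcard := card_NV hG hwn
  have hne : Nonempty (NV G (f 0) (f 1)) := by
    rw [← not_isEmpty_iff]
    intro h
    rw [Nat.card_of_isEmpty] at hcard
    omega
  obtain ⟨x0⟩ := hne
  refine ⟨V ⊕ NV G (f 0) (f 1), inferInstance, spl G (f 0) (f 1), spl_reg hd hG hwn,
    spl_conn hkd hG hK hwn, ?_⟩
  let f' : ℕ → V ⊕ NV G (f 0) (f 1) := fun i => match i with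
    | 0 => Sum.inr x0
    | i + 1 => Sum.inl (f i)
  refine ⟨f', {z | (∃ x, z = Sum.inr x) ∨ ∃ a, z = Sum.inl a ∧ a ∈ A ∧ a ≠ f 0},
    ⟨?_, ?_⟩, ?_, ?_, ?_⟩
  · intro i hil
    rcases i with _ | i
    · show (spl G (f 0) (f 1)).Adj (Sum.inr x0) (Sum.inl (f 0))
      left; rfl
    · show (spl G (f 0) (f 1)).Adj (Sum.inl (f i)) (Sum.inl (f (i + 1)))
      refine ⟨hf.1 i (by omega), ?_, ?_⟩
      · rintro ⟨h1, h2⟩
        have := hf.2 i 0 (by omega) (by omega) h1
        subst this
        exact h2 rfl
      · rintro ⟨h1, h2⟩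
        have := hf.2 (i + 1) 0 (by omega) (by omega) h1
        omega
  · intro i j hi' hj' hij
    rcases i with _ | i <;> rcases j with _ | j
    · rfl
    · cases hij
    · cases hij
    · have := hf.2 i j (by omega) (by omega) (Sum.inl_injective hij)
      omega
  · left; exact ⟨x0, rfl⟩
  · intro i h1 h2
    rcases i with _ | i
    · omega
    · rintro (⟨x, hx⟩ | ⟨a, ha, haA, ha0⟩)
      · cases hx
      · have := Sum.inl_injective ha
        subst this
        rcases Nat.eq_zero_or_pos i with rfl | hi0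
        · exact ha0 rfl
        · exact hi i hi0 (by omega) haA
  · rintro (a | x) (b | y) ha hb hab
    · have ha' : a ∈ A ∧ a ≠ f 0 := by
        rcases ha with ⟨x, hx⟩ | ⟨a', h1, h2, h3⟩
        · cases hx
        · cases h1; exact ⟨h2, h3⟩
      right
      by_cases hb0 : b = f 0
      · subst hb0
        exact ⟨1, le_refl _, by omega, rfl⟩
      · have hbA : b ∉ A := fun h => hb (Or.inr ⟨b, rfl, h, hb0⟩)
        rcases hc a b ha'.1 hbA hab.1 with h | ⟨i, h1, h2, h3⟩
        · exact absurd h.1 ha'.2
        · exact ⟨i + 1, by omega, by omega, by rw [h3]⟩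
    · exact absurd (Or.inl ⟨y, rfl⟩) hb
    · right
      by_cases hb0 : b = f 0
      · subst hb0
        exact ⟨1, le_refl _, by omega, rfl⟩
      · have hbA : b ∉ A := fun h => hb (Or.inr ⟨b, rfl, h, hb0⟩)
        rcases hab with h | h
        · exact absurd h hb0
        · rcases hc (f 0) b h0 hbA (h ▸ x.2.1) with h4 | ⟨i, h1, h2, h3⟩
          · exact absurd (h ▸ h4.2) x.2.2
          · exact ⟨i + 1, by omega, by omega, by rw [h3]⟩
    · exact absurd (Or.inl ⟨y, rfl⟩) hb

end PCyc
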