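import Pool.Agent.X78.PC1

namespace PCyc

open SimpleGraph

theorem beta_conn {n k μ : ℕ} (β : SimpleGraph (Fin n))
    (hdeg : ∀ x, n ≤ (β.neighborSet x).ncard + 1 + μ) (hn : k + 2 * μ ≤ n)
    (R : Set (Fin n)) (hR : R.ncard < k) :
    (∃ a, a ∉ R) ∧ ∀ a b, a ∉ R → b ∉ R → Relation.ReflTransGen (stp β R) a b := by
  have hex : ∀ T : Set (Fin n), T.ncard < n → ∃ a, a ∉ T := by
    intro T hT
    by_contra h
    push Not at h
    have : T = Set.univ := Set.eq_univ_of_forall h
    rw [this, Set.ncard_univ, Nat.card_fin] at hT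
    omega
  have hM : ∀ a, ({y | y ≠ a ∧ ¬ β.Adj a y} : Set (Fin n)).ncard ≤ μ := by
    intro a
    have h1 : ({y | y ≠ a ∧ ¬ β.Adj a y} : Set (Fin n)) = (insert a (β.neighborSet a))ᶜ := by
      ext y
      simp
    have h2 : a ∉ β.neighborSet a := β.loopless.irrefl a
    have h3 := Set.ncard_add_ncard_compl (insert a (β.neighborSet a))
    rw [Set.ncard_insert_of_notMem h2, Nat.card_fin, ← h1] at h3
    have := hdeg a
    omega
  refine ⟨hex R (by omega), fun a b ha hb => ?_⟩
  by_cases hab : a = b
  · rw [hab]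
  by_cases hadj : β.Adj a b
  · exact Relation.ReflTransGen.single ⟨hadj, ha, hb⟩
  obtain ⟨w, hw⟩ := hex (R ∪ ({y | y ≠ a ∧ ¬ β.Adj a y} ∪ {y | y ≠ b ∧ ¬ β.Adj b y})) (by
    have h1 := Set.ncard_union_le R ({y | y ≠ a ∧ ¬ β.Adj a y} ∪ {y | y ≠ b ∧ ¬ β.Adj b y})
    have h2 := Set.ncard_union_le {y | y ≠ a ∧ ¬ β.Adj a y} {y | y ≠ b ∧ ¬ β.Adj b y}
    have h3 := hM a
    have h4 := hM b
    omega)
  simp only [Set.mem_union, Set.mem_ofPred_eq, not_or, not_and, not_not] at hw
  obtain ⟨hwR, hwa, hwb⟩ := hw
  have hwa' : w ≠ a := by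
    rintro rfl
    have := hwb hab
    exact hadj this.symm
  have hwb' : w ≠ b := by
    rintro rfl
    have := hwa (fun h => hab h.symm)
    exact hadj this
  exact (Relation.ReflTransGen.single ⟨hwa hwa', ha, hwR⟩).tail ⟨(hwb hwb').symm, hwR, hb⟩

variable {k n : ℕ} {J : Type}

/-- adjacency of the blob graph -/
def blobAdj (σ : SimpleGraph (Fin k)) (β : SimpleGraph (Fin n)) (att : J → Fin n → Option (Fin k)) :
    Fin k ⊕ (J × Fin n) → Fin k ⊕ (J × Fin n) → Prop
  | .inl v, .inl w => σ.Adj v w
  | .inl v, .inr p => att p.1 p.2 = some v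
  | .inr p, .inl v => att p.1 p.2 = some v
  | .inr p, .inr q => p.1 = q.1 ∧ β.Adj p.2 q.2

/-- The blob graph: `σ` together with copies of `β` indexed by `J`. -/
def blob (σ : SimpleGraph (Fin k)) (β : SimpleGraph (Fin n)) (att : J → Fin n → Option (Fin k)) :
    SimpleGraph (Fin k ⊕ (J × Fin n)) where
  Adj := blobAdj σ β att
  symm := ⟨by
    rintro (v | p) (w | q) h
    · exact σ.symm.symm _ _ h
    · exact h
    · exact h
    · exact ⟨h.1.symm, β.symm.symm _ _ h.2⟩⟩
  loopless := ⟨by
    rintro (v | p) h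
    · exact σ.loopless.irrefl v h
    · exact β.loopless.irrefl _ h.2⟩

variable {σ : SimpleGraph (Fin k)} {β : SimpleGraph (Fin n)} {att : J → Fin n → Option (Fin k)}

theorem blob_reg [Finite J] {d : ℕ}
    (h1 : ∀ j x, (β.neighborSet x).ncard + (if (att j x).isSome then 1 else 0) = d)
    (h2 : ∀ v, (σ.neighborSet v).ncard + ({p : J × Fin n | att p.1 p.2 = some v} : Set _).ncard = d) :
    Reg (blob σ β att) d := by
  rintro (v | ⟨j, x⟩)
  · have : (blob σ β att).neighborSet (.inl v) =
        Sum.inl '' (σ.neighborSet v) ∪ Sum.inr '' {p : J × Fin n | att p.1 p.2 = some v} := by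
      ext z
      rcases z with w | q
      · simp [blob, blobAdj]
      · simp [blob, blobAdj]
    rw [this, Set.ncard_union_eq _ (Set.toFinite _) (Set.toFinite _),
      Set.ncard_image_of_injective _ Sum.inl_injective,
      Set.ncard_image_of_injective _ Sum.inr_injective, h2 v]
    rw [Set.disjoint_left]
    rintro _ ⟨a, _, rfl⟩ ⟨b, _, h⟩
    cases h
  · have hinj : Function.Injective (fun y : Fin n => (Sum.inr (j, y) : Fin k ⊕ (J × Fin n))) := by
      intro y z h
      have := Sum.inr_injective h
      exact congrArg Prod.snd this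
    rcases hatt : att j x with _ | v
    · have : (blob σ β att).neighborSet (.inr (j, x)) =
          (fun y : Fin n => (Sum.inr (j, y) : Fin k ⊕ (J × Fin n))) '' (β.neighborSet x) := by
        ext z
        rcases z with w | ⟨j', y⟩
        · simp [blob, blobAdj, hatt]
        · simp only [mem_neighborSet, blob, blobAdj, Set.mem_image, Sum.inr.injEq, Prod.mk.injEq]
          constructor
          · rintro ⟨h3, h4⟩
            exact ⟨y, h4, h3, rfl⟩
          · rintro ⟨y', h4, h5, rfl⟩
            exact ⟨h5, h4⟩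
      rw [this, Set.ncard_image_of_injective _ hinj]
      have := h1 j x
      rw [hatt] at this
      simpa using this
    · have : (blob σ β att).neighborSet (.inr (j, x)) =
          insert (Sum.inl v)
            ((fun y : Fin n => (Sum.inr (j, y) : Fin k ⊕ (J × Fin n))) '' (β.neighborSet x)) := by
        ext z
        rcases z with w | ⟨j', y⟩
        · simp only [mem_neighborSet, blob, blobAdj, Set.mem_insert_iff, Sum.inl.injEq,
            Set.mem_image, reduceCtorEq, and_false, exists_false, or_false, hatt,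
            Option.some.injEq]
          exact eq_comm
        · simp only [mem_neighborSet, blob, blobAdj, Set.mem_image, Sum.inr.injEq, Prod.mk.injEq,
            Set.mem_insert_iff, reduceCtorEq, false_or]
          constructor
          · rintro ⟨h3, h4⟩
            exact ⟨y, h4, h3, rfl⟩
          · rintro ⟨y', h4, h5, rfl⟩
            exact ⟨h5, h4⟩
      rw [this, Set.ncard_insert_of_notMem (by simp) (Set.toFinite _),
        Set.ncard_image_of_injective _ hinj]
      have := h1 j x
      rw [hatt] at this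
      simpa using this

theorem blob_conn [Finite J] [Nonempty J] {d μ : ℕ} (hn : n = d + μ) (hk : k + μ ≤ d) (hk1 : 1 ≤ k)
    (h1 : ∀ j x, (β.neighborSet x).ncard + (if (att j x).isSome then 1 else 0) = d)
    (h3 : ∀ j v, ∃ x, att j x = some v)
    (h5 : ∀ v, k ≤ Nat.card J + (σ.neighborSet v).ncard) :
    KConn (blob σ β att) k := by
  classical
  right
  obtain ⟨j0⟩ := (inferInstance : Nonempty J)
  have hJpos : 0 < Nat.card J := Nat.card_pos
  constructor
  · rw [Nat.card_sum, Nat.card_prod, Nat.card_fin, Nat.card_fin]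
    have : 0 < Nat.card J * n := Nat.mul_pos hJpos (by omega)
    omega
  intro R hR
  rw [conn_iff]
  choose x hx using h3
  have hβ : ∀ j, (∃ a, Sum.inr (j, a) ∉ R) ∧ ∀ a b, Sum.inr (j, a) ∉ R → Sum.inr (j, b) ∉ R →
      Relation.ReflTransGen (stp (blob σ β att) R) (Sum.inr (j, a)) (Sum.inr (j, b)) := by
    intro j
    let Rj : Set (Fin n) := {y | Sum.inr (j, y) ∈ R}
    have hinj : Function.Injective (fun y : Fin n => (Sum.inr (j, y) : Fin k ⊕ (J × Fin n))) := by
      intro y z h
      have := Sum.inr_injective h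
      exact congrArg Prod.snd this
    have hRj : Rj.ncard < k := by
      have h2 : ((fun y : Fin n => (Sum.inr (j, y) : Fin k ⊕ (J × Fin n))) '' Rj) ⊆ R := by
        rintro _ ⟨y, hy, rfl⟩
        exact hy
      have := Set.ncard_le_ncard h2 (Set.toFinite _)
      rw [Set.ncard_image_of_injective _ hinj] at this
      omega
    have := beta_conn (k := k) (μ := μ) β (fun y => by
      have := h1 j y
      split_ifs at this <;> omega) (by omega) Rj hRj
    refine ⟨this.1, fun a b ha hb => ?_⟩
    exact (this.2 a b ha hb).lift (fun y => (Sum.inr (j, y) : Fin k ⊕ (J × Fin n)))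
      (fun p q h => ⟨⟨rfl, h.1⟩, h.2.1, h.2.2⟩)
  let lab : Fin k ⊕ (J × Fin n) → Option (Fin k) := fun z => match z with
    | .inl v => some v
    | .inr p => att p.1 p.2
  have hbb : ∀ j j', ∃ v, Sum.inl v ∉ R ∧ Sum.inr (j, x j v) ∉ R ∧ Sum.inr (j', x j' v) ∉ R := by
    intro j j'
    by_contra hcon
    push Not at hcon
    let g : Fin k → Fin k ⊕ (J × Fin n) := fun v =>
      if Sum.inl v ∈ R then Sum.inl v else if Sum.inr (j, x j v) ∈ R then Sum.inr (j, x j v)
        else Sum.inr (j', x j' v)
    have hgR : ∀ v, g v ∈ R := by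
      intro v
      simp only [g]
      split_ifs with h h'
      · exact h
      · exact h'
      · exact hcon v h h'
    have hlab : ∀ v, lab (g v) = some v := by
      intro v
      simp only [g]
      split_ifs with h h'
      · rfl
      · exact hx j v
      · exact hx j' v
    have hinj : Function.Injective g := by
      intro v w h
      have := congrArg lab h
      rw [hlab, hlab] at this
      exact Option.some_injective _ this
    have := Set.ncard_le_ncard_of_injOn (s := Set.univ) g (fun v _ => hgR v)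
      (hinj.injOn) (Set.toFinite R)
    rw [Set.ncard_univ, Nat.card_fin] at this
    omega
  have hsv : ∀ v, Sum.inl v ∉ R → ∃ j, Sum.inr (j, x j v) ∉ R ∨
      ∃ w, σ.Adj v w ∧ Sum.inl w ∉ R ∧ Sum.inr (j, x j w) ∉ R := by
    intro v hv
    by_contra hcon
    push Not at hcon
    let g : J ⊕ {w // σ.Adj v w} → Fin k ⊕ (J × Fin n) := fun z => match z with
      | .inl j => Sum.inr (j, x j v)
      | .inr w => if Sum.inl w.1 ∈ R then Sum.inl w.1 else Sum.inr (j0, x j0 w.1)
    have hgR : ∀ z, g z ∈ R := by
      rintro (j | w)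
      · exact (hcon j).1
      · simp only [g]
        split_ifs with h
        · exact h
        · exact (hcon j0).2 w.1 w.2 h
    have hll : ∀ j, lab (g (.inl j)) = some v := fun j => hx j v
    have hlr : ∀ w, lab (g (.inr w)) = some w.1 := by
      intro w
      simp only [g]
      split_ifs with h
      · rfl
      · exact hx j0 w.1
    have hinj : Function.Injective g := by
      rintro (j | w) (j' | w') h
      · have h7 : (j, x j v) = (j', x j' v) := Sum.inr_injective h
        rw [show j = j' from congrArg Prod.fst h7]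
      · have := congrArg lab h
        rw [hll, hlr] at this
        have := Option.some_injective _ this
        exact (w'.2.ne this).elim
      · have := congrArg lab h
        rw [hll, hlr] at this
        have := Option.some_injective _ this
        exact (w.2.ne this.symm).elim
      · have := congrArg lab h
        rw [hlr, hlr] at this
        have := Option.some_injective _ this
        rw [Subtype.ext this]
    have := Set.ncard_le_ncard_of_injOn (s := Set.univ) g (fun v _ => hgR v)
      (hinj.injOn) (Set.toFinite R)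
    rw [Set.ncard_univ, Nat.card_sum] at this
    have h6 : Nat.card {w // σ.Adj v w} = (σ.neighborSet v).ncard := by
      rw [← Nat.card_coe_set_eq]; rfl
    have := h5 v
    omega
  have hblob : ∀ j j' a b, Sum.inr (j, a) ∉ R → Sum.inr (j', b) ∉ R →
      Relation.ReflTransGen (stp (blob σ β att) R) (Sum.inr (j, a)) (Sum.inr (j', b)) := by
    intro j j' a b ha hb
    obtain ⟨v, hv, hj, hj'⟩ := hbb j j'
    refine ((hβ j).2 a (x j v) ha hj).trans ?_
    refine Relation.ReflTransGen.head (b := Sum.inl v) ⟨hx j v, hj, hv⟩ ?_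
    refine Relation.ReflTransGen.head (b := Sum.inr (j', x j' v)) ⟨hx j' v, hv, hj'⟩ ?_
    exact (hβ j').2 _ b hj' hb
  have hall : ∀ z, z ∉ R → ∃ j a, Sum.inr (j, a) ∉ R ∧
      Relation.ReflTransGen (stp (blob σ β att) R) z (Sum.inr (j, a)) := by
    rintro (v | ⟨j, a⟩) hz
    · obtain ⟨j, h | ⟨w, h6, h7, h8⟩⟩ := hsv v hz
      · exact ⟨j, _, h, Relation.ReflTransGen.single ⟨hx j v, hz, h⟩⟩
      · exact ⟨j, _, h8, Relation.ReflTransGen.head (b := Sum.inl w) ⟨h6, hz, h7⟩
          (Relation.ReflTransGen.single ⟨hx j w, h7, h8⟩)⟩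
    · exact ⟨j, a, hz, Relation.ReflTransGen.refl⟩
  obtain ⟨a0, ha0⟩ := (hβ j0).1
  refine ⟨⟨_, ha0⟩, fun a b ha hb => ?_⟩
  obtain ⟨j, a', h6, h7⟩ := hall a ha
  obtain ⟨j', b', h8, h9⟩ := hall b hb
  exact h7.trans ((hblob j j' a' b' h6 h8).trans (rtg_symm h9))

theorem blob_cert (hk1 : 1 ≤ k) (hJ : ∃ j0 j1 : J, j0 ≠ j1)
    (h3 : ∀ j v, ∃ x, att j x = some v)
    (hpath : ∀ i (hi : i + 1 < k), σ.Adj ⟨i, by omega⟩ ⟨i + 1, hi⟩) :
    Cert (blob σ β att) (k + 1) := by
  classical
  obtain ⟨j0, j1, hj⟩ := hJ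
  choose x hx using h3
  let z0 : Fin k := ⟨0, by omega⟩
  let zl : Fin k := ⟨k - 1, by omega⟩
  let f : ℕ → Fin k ⊕ (J × Fin n) := fun i =>
    if i = 0 then Sum.inr (j0, x j0 z0) else
      if h : i - 1 < k then Sum.inl ⟨i - 1, h⟩ else Sum.inr (j1, x j1 zl)
  have hf0 : f 0 = Sum.inr (j0, x j0 z0) := by simp [f]
  have hfi : ∀ i (h : i < k), f (i + 1) = Sum.inl ⟨i, h⟩ := by
    intro i h
    simp only [f, Nat.add_one_ne_zero, if_false, Nat.add_sub_cancel, h, dif_pos]
  have hfl : f (k + 1) = Sum.inr (j1, x j1 zl) := by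
    simp [f]
  refine ⟨f, {z | ∃ a, z = Sum.inr (j0, a)}, ⟨?_, ?_⟩, ?_, ?_, ?_⟩
  · intro i hi
    rcases i with _ | i
    · rw [hf0, hfi 0 (by omega)]
      exact hx j0 z0
    · rcases Nat.lt_or_ge (i + 1) k with h | h
      · rw [hfi i (by omega), hfi (i + 1) h]
        exact hpath i h
      · have : i + 1 = k := by omega
        subst this
        rw [hfi i (by omega), hfl]
        exact hx j1 zl
  · have key : ∀ i j, i ≤ k + 1 → j ≤ k + 1 → i < j → f i ≠ f j := by
      intro i j hi hj' hij h
      obtain ⟨j, rfl⟩ : ∃ j', j = j' + 1 := ⟨j - 1, by omega⟩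
      rcases i with _ | i
      · rw [hf0] at h
        rcases Nat.lt_or_ge j k with h' | h'
        · rw [hfi j h'] at h; cases h
        · have : j = k := by omega
          subst this
          rw [hfl] at h
          exact hj (congrArg Prod.fst (Sum.inr_injective h))
      · rw [hfi i (by omega)] at h
        rcases Nat.lt_or_ge j k with h' | h'
        · rw [hfi j h'] at h
          have := congrArg Fin.val (Sum.inl_injective h)
          simp only at this
          omega
        · have : j = k := by omega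
          subst this
          rw [hfl] at h
          cases h
    intro i j hi hj' h
    rcases lt_trichotomy i j with h' | h' | h'
    · exact absurd h (key i j hi hj' h')
    · exact h'
    · exact absurd h.symm (key j i hj' hi h')
  · exact ⟨_, hf0⟩
  · rintro i h1 h2 ⟨a, ha⟩
    obtain ⟨i, rfl⟩ : ∃ j', i = j' + 1 := ⟨i - 1, by omega⟩
    rcases Nat.lt_or_ge i k with h' | h'
    · rw [hfi i h'] at ha; cases ha
    · have : i = k := by omega
      subst this
      rw [hfl] at ha
      exact hj (congrArg Prod.fst (Sum.inr_injective ha)).symm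
  · rintro _ (v | ⟨j, y⟩) ⟨a, rfl⟩ hb hab
    · right
      exact ⟨v.1 + 1, by omega, by have := v.2; omega, by rw [hfi v.1 v.2]⟩
    · exfalso
      apply hb
      exact ⟨y, by rw [show j = j0 from hab.1.symm]⟩

end PCyc
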