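import Pool.Agent.X78.PC3

namespace PCyc

open SimpleGraph

theorem ncard_nb {n : ℕ} (β : SimpleGraph (Fin n)) (x : Fin n) (N : Set (Fin n))
    (h : ∀ y, y ∈ N ↔ ¬ β.Adj x y) : (β.neighborSet x).ncard + N.ncard = n := by
  have : N = (β.neighborSet x)ᶜ := by
    ext y
    rw [h y]; rfl
  rw [this, Set.ncard_add_ncard_compl, Nat.card_fin]

theorem top_deg {k : ℕ} (v : Fin k) : ((⊤ : SimpleGraph (Fin k)).neighborSet v).ncard + 1 = k := by
  have := ncard_nb (⊤ : SimpleGraph (Fin k)) v {v} (by
    intro y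
    simp [eq_comm])
  rwa [Set.ncard_singleton] at this

/-- complete graph minus a matching on the first `2 * m` vertices -/
def mG (n m : ℕ) : SimpleGraph (Fin n) where
  Adj x y := x ≠ y ∧ ¬ (x.1 / 2 = y.1 / 2 ∧ x.1 / 2 < m)
  symm := ⟨fun _ _ h => ⟨h.1.symm, fun h' => h.2 ⟨h'.1.symm, h'.1 ▸ h'.2⟩⟩⟩
  loopless := ⟨fun _ h => h.1 rfl⟩

theorem mG_deg1 {n m : ℕ} (hm : 2 * m ≤ n) (x : Fin n) (hx : x.1 < 2 * m) :
    ((mG n m).neighborSet x).ncard + 2 = n := by
  have h1 : 2 * (x.1 / 2) + 1 < n := by omega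
  have := ncard_nb (mG n m) x {⟨2 * (x.1 / 2), by omega⟩, ⟨2 * (x.1 / 2) + 1, h1⟩} (by
    intro y
    simp only [mG, Set.mem_insert_iff, Set.mem_singleton_iff, Fin.ext_iff, ne_eq]
    omega)
  rwa [Set.ncard_pair (by simp [Fin.ext_iff])] at this

theorem mG_deg2 {n m : ℕ} (x : Fin n) (hx : 2 * m ≤ x.1) :
    ((mG n m).neighborSet x).ncard + 1 = n := by
  have := ncard_nb (mG n m) x {x} (by
    intro y
    simp only [mG, Set.mem_singleton_iff, Fin.ext_iff, ne_eq]
    omega)
  rwa [Set.ncard_singleton] at this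

theorem att_card {J : Type} {n : ℕ} [Finite J] (g : Fin n) :
    ({p : J × Fin n | p.2 = g} : Set _).ncard = Nat.card J := by
  have : ({p : J × Fin n | p.2 = g} : Set _) = (fun j => (j, g)) '' Set.univ := by
    ext ⟨j, x⟩
    simp [eq_comm]
  rw [this, Set.ncard_image_of_injective _ (fun a b h => congrArg Prod.fst h), Set.ncard_univ]

/-- Case I -/
theorem base_I {d k : ℕ} (hk : 2 ≤ k) (hkd : k < d) (hke : k % 2 = 0) :
    ∃ (V : Type) (_ : Finite V) (G : SimpleGraph V), Reg G d ∧ KConn G k ∧ Cert G (k + 1) := by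
  let J := Fin (d - k + 1)
  let att : J → Fin (d + 1) → Option (Fin k) := fun _ x => if h : x.1 < k then some ⟨x.1, h⟩ else none
  have h1 : ∀ j x, ((mG (d + 1) (k / 2)).neighborSet x).ncard +
      (if (att j x).isSome then 1 else 0) = d := by
    intro j x
    by_cases h : x.1 < k
    · have := mG_deg1 (n := d + 1) (m := k / 2) (by omega) x (by omega)
      simp only [att, h, dif_pos, Option.isSome_some, if_true]
      omega
    · have := mG_deg2 (n := d + 1) (m := k / 2) x (by omega)
      simp only [att, h, dif_neg, not_false_eq_true, Option.isSome_none]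
      simpa using this
  have h2 : ∀ v, ((⊤ : SimpleGraph (Fin k)).neighborSet v).ncard +
      ({p : J × Fin (d + 1) | att p.1 p.2 = some v} : Set _).ncard = d := by
    intro v
    have : ({p : J × Fin (d + 1) | att p.1 p.2 = some v} : Set _) =
        {p | p.2 = ⟨v.1, by have := v.2; omega⟩} := by
      ext ⟨j, x⟩
      simp only [att, Set.mem_ofPred_eq, Fin.ext_iff]
      by_cases h : x.1 < k
      · simp [h, Fin.ext_iff]
      · simp only [h, dif_neg, not_false_eq_true, reduceCtorEq, false_iff]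
        have := v.2
        omega
    rw [this, att_card, Nat.card_fin]
    have := top_deg v
    have := v.2
    omega
  have h3 : ∀ (j : J) v, ∃ x, att j x = some v := by
    intro j v
    refine ⟨⟨v.1, by have := v.2; omega⟩, ?_⟩
    simp [att]
  refine ⟨_, inferInstance, blob ⊤ (mG (d + 1) (k / 2)) att, blob_reg h1 h2, ?_, ?_⟩
  · refine blob_conn (μ := 1) rfl (by omega) (by omega) h1 h3 ?_
    intro v
    have := top_deg v
    rw [Nat.card_fin]
    omega
  · refine blob_cert (by omega) ⟨⟨0, by omega⟩, ⟨1, by omega⟩, fun h => by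
      have := congrArg Fin.val h
      simp at this⟩ h3 ?_
    intro i hi
    simp [Fin.ext_iff]

/-- the cycle on `Fin k` -/
def cG (k : ℕ) : SimpleGraph (Fin k) where
  Adj a b := a.1 + 1 = b.1 ∨ b.1 + 1 = a.1 ∨ (a.1 = 0 ∧ b.1 + 1 = k ∧ 2 < k) ∨
    (b.1 = 0 ∧ a.1 + 1 = k ∧ 2 < k)
  symm := ⟨fun x y h => by omega⟩
  loopless := ⟨fun x h => by omega⟩

theorem cG_deg {k : ℕ} (hk : 3 ≤ k) (v : Fin k) : ((cG k).neighborSet v).ncard = 2 := by
  have hv := v.2
  by_cases h0 : v.1 = 0
  · have : (cG k).neighborSet v = {⟨1, by omega⟩, ⟨k - 1, by omega⟩} := by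
      ext y
      have := y.2
      simp only [cG, mem_neighborSet, Set.mem_insert_iff, Set.mem_singleton_iff, Fin.ext_iff]
      omega
    rw [this, Set.ncard_pair (by simp only [ne_eq, Fin.ext_iff]; omega)]
  · by_cases h1 : v.1 + 1 = k
    · have : (cG k).neighborSet v = {⟨0, by omega⟩, ⟨k - 2, by omega⟩} := by
        ext y
        have := y.2
        simp only [cG, mem_neighborSet, Set.mem_insert_iff, Set.mem_singleton_iff, Fin.ext_iff]
        omega
      rw [this, Set.ncard_pair (by simp only [ne_eq, Fin.ext_iff]; omega)]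
    · have : (cG k).neighborSet v = {⟨v.1 - 1, by omega⟩, ⟨v.1 + 1, by omega⟩} := by
        ext y
        have := y.2
        simp only [cG, mem_neighborSet, Set.mem_insert_iff, Set.mem_singleton_iff, Fin.ext_iff]
        omega
      rw [this, Set.ncard_pair (by simp only [ne_eq, Fin.ext_iff]; omega)]

/-- Case IV -/
theorem base_IV {d : ℕ} (hd : 4 ≤ d) :
    ∃ (V : Type) (_ : Finite V) (G : SimpleGraph V), Reg G d ∧ KConn G d ∧ Cert G (d + 1) := by
  let J := Fin (d - 2)
  let att : J → Fin d → Option (Fin d) := fun _ x => some x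
  have h1 : ∀ j x, ((⊤ : SimpleGraph (Fin d)).neighborSet x).ncard +
      (if (att j x).isSome then 1 else 0) = d := by
    intro j x
    have := top_deg x
    simp only [att, Option.isSome_some, if_true]
    exact this
  have h2 : ∀ v, ((cG d).neighborSet v).ncard +
      ({p : J × Fin d | att p.1 p.2 = some v} : Set _).ncard = d := by
    intro v
    have : ({p : J × Fin d | att p.1 p.2 = some v} : Set _) = {p | p.2 = v} := by
      ext ⟨j, x⟩
      simp [att]
    rw [this, att_card, Nat.card_fin, cG_deg (by omega)]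
    omega
  have h3 : ∀ (j : J) v, ∃ x, att j x = some v := fun j v => ⟨v, rfl⟩
  have : Nonempty J := ⟨⟨0, by omega⟩⟩
  refine ⟨_, inferInstance, blob (cG d) ⊤ att, blob_reg h1 h2, ?_, ?_⟩
  · refine blob_conn (μ := 0) rfl (by omega) (by omega) h1 h3 ?_
    intro v
    rw [Nat.card_fin, cG_deg (by omega)]
    omega
  · refine blob_cert (by omega) ⟨⟨0, by omega⟩, ⟨1, by omega⟩, fun h => by
      have := congrArg Fin.val h
      simp at this⟩ h3 ?_
    intro i hi
    left; rfl

/-- the star-like graph on `Fin k` -/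
def sG (k r : ℕ) : SimpleGraph (Fin k) where
  Adj a b := (a.1 = 0 ∧ 2 ≤ b.1 ∧ b.1 ≤ r + 1) ∨ (b.1 = 0 ∧ 2 ≤ a.1 ∧ a.1 ≤ r + 1)
  symm := ⟨fun x y h => by omega⟩
  loopless := ⟨fun x h => by omega⟩

theorem sB_card {k r : ℕ} (hr : r = 0 ∨ r + 2 ≤ k) :
    ({b : Fin k | 2 ≤ b.1 ∧ b.1 ≤ r + 1} : Set _).ncard = r := by
  have : ({b : Fin k | 2 ≤ b.1 ∧ b.1 ≤ r + 1} : Set _) =
      (fun i : Fin r => (⟨i.1 + 2, by have := i.2; omega⟩ : Fin k)) '' Set.univ := by
    ext b
    simp only [Set.mem_ofPred_eq, Set.image_univ, Set.mem_range, Fin.ext_iff]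
    constructor
    · intro h
      exact ⟨⟨b.1 - 2, by omega⟩, by simp only; omega⟩
    · rintro ⟨i, hi⟩
      have := i.2
      omega
  rw [this, Set.ncard_image_of_injective _ (fun a b h => by
    have := congrArg Fin.val h
    simp only at this
    exact Fin.ext (by omega)), Set.ncard_univ, Nat.card_fin]

theorem sG_deg {k r : ℕ} (hr : r = 0 ∨ r + 2 ≤ k) (v : Fin k) :
    ((sG k r).neighborSet v).ncard ≤ r := by
  by_cases h0 : v.1 = 0
  · have : (sG k r).neighborSet v = {b : Fin k | 2 ≤ b.1 ∧ b.1 ≤ r + 1} := by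
      ext b
      simp only [sG, mem_neighborSet, Set.mem_ofPred_eq]
      omega
    rw [this, sB_card hr]
  · by_cases hr0 : r = 0
    · have : (sG k r).neighborSet v = ∅ := by
        ext b
        simp only [sG, mem_neighborSet, Set.mem_empty_iff_false, iff_false]
        omega
      rw [this]; simp
    · have hk : 0 < k := by have := v.2; omega
      have : (sG k r).neighborSet v ⊆ {⟨0, hk⟩} := by
        intro b
        simp only [sG, mem_neighborSet, Set.mem_singleton_iff, Fin.ext_iff]
        omega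
      have := Set.ncard_le_ncard this (Set.toFinite _)
      rw [Set.ncard_singleton] at this
      omega

theorem sG_darts {k r : ℕ} (hk : 1 ≤ k) (hr : r = 0 ∨ r + 2 ≤ k) :
    Nat.card {p : Fin k × Fin k // (sG k r).Adj p.1 p.2} = 2 * r := by
  have h1 : Nat.card {p : Fin k × Fin k // (sG k r).Adj p.1 p.2} =
      ({p : Fin k × Fin k | (sG k r).Adj p.1 p.2} : Set _).ncard := by
    rw [← Nat.card_coe_set_eq]; rfl
  rw [h1]
  let z : Fin k := ⟨0, by omega⟩
  have : ({p : Fin k × Fin k | (sG k r).Adj p.1 p.2} : Set _) =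
      (fun b => (z, b)) '' {b : Fin k | 2 ≤ b.1 ∧ b.1 ≤ r + 1} ∪
      (fun b => (b, z)) '' {b : Fin k | 2 ≤ b.1 ∧ b.1 ≤ r + 1} := by
    ext ⟨a, b⟩
    simp only [sG, Set.mem_ofPred_eq, Set.mem_union, Set.mem_image, Prod.mk.injEq, z]
    constructor
    · rintro (⟨h1, h2⟩ | ⟨h1, h2⟩)
      · left; exact ⟨b, h2, Fin.ext h1.symm, rfl⟩
      · right; exact ⟨a, h2, rfl, Fin.ext h1.symm⟩
    · rintro (⟨c, h2, h3, rfl⟩ | ⟨c, h2, rfl, h3⟩)
      · left; exact ⟨by rw [← h3], h2⟩
      · right; exact ⟨by rw [← h3], h2⟩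
  rw [this, Set.ncard_union_eq _ (Set.toFinite _) (Set.toFinite _),
    Set.ncard_image_of_injective _ (fun a b h => congrArg Prod.snd h),
    Set.ncard_image_of_injective _ (fun a b h => congrArg Prod.fst h), sB_card hr]
  · ring
  · rw [Set.disjoint_left]
    rintro _ ⟨a, ha, rfl⟩ ⟨b, hb, h⟩
    have : b = z := congrArg Prod.fst h
    subst this
    have := hb.1
    simp [z] at this

/-- Case III -/
theorem base_III {d k : ℕ} (hk : 1 ≤ k) (hkd : k < d) (hd3 : 3 ≤ d) (hke : k % 2 = 1)
    (hde : d % 2 = 0) :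
    ∃ (V : Type) (_ : Finite V) (G : SimpleGraph V), Reg G d ∧ KConn G k ∧ Cert G (k + 1) := by
  classical
  obtain ⟨e, r, her, hr2⟩ : ∃ e r, (k + 1) * e + 2 * r = d - k + 1 ∧ 2 * r < k + 1 := by
    have h1 := Nat.div_add_mod (d - k + 1) (k + 1)
    have h2 := Nat.mod_lt (d - k + 1) (show 0 < k + 1 by omega)
    have h3 : (d - k + 1) % (k + 1) % 2 = 0 := by
      rw [Nat.mod_mod_of_dvd _ (show 2 ∣ k + 1 by omega)]
      omega
    exact ⟨(d - k + 1) / (k + 1), (d - k + 1) % (k + 1) / 2, by omega, by omega⟩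
  have hr : r = 0 ∨ r + 2 ≤ k := by omega
  let F := sG k r
  let J := (Fin k × Fin e) ⊕ {p : Fin k × Fin k // F.Adj p.1 p.2}
  let ij : J → Fin k := fun j => match j with
    | .inl q => q.1
    | .inr p => p.1.1
  have hJ : Nat.card J = k * e + 2 * r := by
    rw [Nat.card_sum, Nat.card_prod, Nat.card_fin, Nat.card_fin, sG_darts hk hr]
  have hke2 : (k + 1) * e = k * e + e := by ring
  have hJ2 : 2 ≤ Nat.card J := by
    rw [hJ]
    rcases Nat.eq_zero_or_pos r with h | h
    · subst h
      have he : 1 ≤ e := by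
        rcases Nat.eq_zero_or_pos e with h | h
        · subst h; omega
        · exact h
      by_cases hk1 : k = 1
      · subst hk1; omega
      · have : k * 1 ≤ k * e := Nat.mul_le_mul_left k he
        omega
    · omega
  let att : J → Fin (d + 1) → Option (Fin k) := fun j x =>
    if h : x.1 < k then some ⟨x.1, h⟩ else if x.1 = k then some (ij j) else none
  have h1 : ∀ j x, ((mG (d + 1) ((k + 1) / 2)).neighborSet x).ncard +
      (if (att j x).isSome then 1 else 0) = d := by
    intro j x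
    by_cases h : x.1 < k + 1
    · have := mG_deg1 (n := d + 1) (m := (k + 1) / 2) (by omega) x (by omega)
      have hs : (att j x).isSome = true := by
        simp only [att]
        split_ifs with h5 h6
        · rfl
        · rfl
        · omega
      rw [hs, if_pos rfl]
      omega
    · have := mG_deg2 (n := d + 1) (m := (k + 1) / 2) x (by omega)
      have hs : (att j x).isSome = false := by
        simp only [att]
        split_ifs with h5 h6
        · omega
        · omega
        · rfl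
      rw [hs]
      simpa using this
  have h3 : ∀ (j : J) v, ∃ x, att j x = some v := by
    intro j v
    refine ⟨⟨v.1, by have := v.2; omega⟩, ?_⟩
    simp [att]
  have hF : ∀ v : Fin k, (Fᶜ.neighborSet v).ncard + (F.neighborSet v).ncard + 1 = k := by
    intro v
    have h6 := ncard_nb Fᶜ v (insert v (F.neighborSet v)) (by
      intro y
      simp only [Set.mem_insert_iff, mem_neighborSet, compl_adj, not_and, not_not]
      constructor
      · rintro (rfl | h)
        · intro h; exact absurd rfl h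
        · intro _; exact h
      · intro h
        by_cases hy : y = v
        · left; exact hy
        · right; exact h (fun h' => hy h'.symm))
    rw [Set.ncard_insert_of_notMem (show v ∉ F.neighborSet v from F.loopless.irrefl v)
      (Set.toFinite _)] at h6
    omega
  have hij : ∀ v, ({j : J | ij j = v} : Set J).ncard = e + (F.neighborSet v).ncard := by
    intro v
    have : ({j : J | ij j = v} : Set J) =
        (fun i : Fin e => (Sum.inl (v, i) : J)) '' Set.univ ∪
        (fun w : {w // F.Adj v w} => (Sum.inr ⟨(v, w.1), w.2⟩ : J)) '' Set.univ := by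
      ext j
      rcases j with ⟨a, i⟩ | ⟨⟨a, b⟩, hp⟩
      · simp only [Set.mem_ofPred_eq, ij, Set.image_univ, Set.mem_union, Set.mem_range,
          Sum.inl.injEq, Prod.mk.injEq, reduceCtorEq, exists_false, or_false]
        constructor
        · rintro rfl; exact ⟨i, rfl⟩
        · rintro ⟨i', h⟩; exact (congrArg Prod.fst (Sum.inl_injective h)).symm
      · simp only [Set.mem_ofPred_eq, ij, Set.image_univ, Set.mem_union, Set.mem_range,
          reduceCtorEq, exists_false, false_or]
        constructor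
        · rintro rfl; exact ⟨⟨b, hp⟩, rfl⟩
        · rintro ⟨w, h⟩
          have := congrArg (fun z => z.1.1) (Sum.inr_injective h)
          exact this.symm
    rw [this, Set.ncard_union_eq _ (Set.toFinite _) (Set.toFinite _),
      Set.ncard_image_of_injective, Set.ncard_image_of_injective, Set.ncard_univ, Set.ncard_univ,
      Nat.card_fin]
    · congr 1
    · intro a b h
      have := congrArg (fun z => z.1.2) (Sum.inr_injective h)
      exact Subtype.ext this
    · intro a b h
      have := congrArg Prod.snd (Sum.inl_injective h)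
      exact this
    · rw [Set.disjoint_left]
      rintro _ ⟨a, ha, rfl⟩ ⟨b, hb, h⟩
      cases h
  have h2 : ∀ v, (Fᶜ.neighborSet v).ncard +
      ({p : J × Fin (d + 1) | att p.1 p.2 = some v} : Set _).ncard = d := by
    intro v
    have : ({p : J × Fin (d + 1) | att p.1 p.2 = some v} : Set _) =
        {p | p.2 = ⟨v.1, by have := v.2; omega⟩} ∪
        (fun j : J => (j, (⟨k, by omega⟩ : Fin (d + 1)))) '' {j : J | ij j = v} := by
      ext ⟨j, x⟩
      have hv := v.2
      simp only [att, Set.mem_ofPred_eq, Set.mem_union, Set.mem_image, Prod.mk.injEq,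
        Fin.ext_iff]
      by_cases h : x.1 < k
      · simp only [h, dif_pos, Option.some.injEq, Fin.ext_iff]
        constructor
        · intro h; left; exact h
        · rintro (h | ⟨_, _, _, h⟩)
          · exact h
          · omega
      · by_cases h' : x.1 = k
        · simp only [h', lt_irrefl, dif_neg, not_false_eq_true, if_true, Option.some.injEq]
          constructor
          · intro h''
            right
            exact ⟨j, by rw [h''], rfl, by simp⟩
          · rintro (h | ⟨j', h1, rfl, _⟩)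
            · omega
            · exact Fin.ext h1
        · simp only [h, h', dif_neg, not_false_eq_true, if_false, reduceCtorEq, false_iff,
            not_or, not_exists, not_and]
          constructor
          · omega
          · intro j' _ _
            omega
    rw [this, Set.ncard_union_eq _ (Set.toFinite _) (Set.toFinite _), att_card,
      Set.ncard_image_of_injective _ (fun a b h => congrArg Prod.fst h), hij v, hJ]
    · have := hF v
      omega
    · rw [Set.disjoint_left]
      rintro _ ha ⟨b, hb, rfl⟩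
      have := v.2
      simp only [Set.mem_ofPred_eq, Fin.ext_iff] at ha
      omega
  have hnt : Nontrivial J := by
    rw [← Finite.one_lt_card_iff_nontrivial]
    omega
  refine ⟨_, inferInstance, blob Fᶜ (mG (d + 1) ((k + 1) / 2)) att, blob_reg h1 h2, ?_, ?_⟩
  · refine blob_conn (μ := 1) rfl (by omega) (by omega) h1 h3 ?_
    intro v
    have h6 := hF v
    have h7 : (F.neighborSet v).ncard ≤ r := sG_deg hr v
    rw [hJ]
    rcases Nat.eq_zero_or_pos r with h | h
    · rw [hJ] at hJ2
      omega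
    · omega
  · refine blob_cert (by omega) (exists_pair_ne J) h3 ?_
    intro i hi
    rw [compl_adj]
    refine ⟨by simp [Fin.ext_iff], ?_⟩
    simp only [F, sG]
    omega

/-- the complement graph of the odd blob -/
def oG (k n : ℕ) : SimpleGraph (Fin n) where
  Adj x y := x ≠ y ∧ ¬ (x.1 + 1 = y.1 ∧ (x.1 ≤ k ∨ (x.1 - k) % 2 = 0)) ∧
    ¬ (y.1 + 1 = x.1 ∧ (y.1 ≤ k ∨ (y.1 - k) % 2 = 0))
  symm := ⟨fun _ _ h => ⟨h.1.symm, h.2.2, h.2.1⟩⟩
  loopless := ⟨fun _ h => h.1 rfl⟩

theorem oG_deg1 {n k : ℕ} (hn : k + 2 ≤ n) (x : Fin n) (hx1 : 1 ≤ x.1) (hx : x.1 ≤ k) :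
    ((oG k n).neighborSet x).ncard + 3 = n := by
  have := ncard_nb (oG k n) x {⟨x.1 - 1, by omega⟩, x, ⟨x.1 + 1, by omega⟩} (by
    intro y
    simp only [oG, Set.mem_insert_iff, Set.mem_singleton_iff, Fin.ext_iff, ne_eq]
    omega)
  rw [Set.ncard_insert_of_notMem (by
    simp only [Set.mem_insert_iff, Set.mem_singleton_iff, Fin.ext_iff]; omega),
    Set.ncard_pair (by simp [Fin.ext_iff])] at this
  exact this

theorem oG_deg2 {n k : ℕ} (hn : k + 2 ≤ n) (hp : (n - k) % 2 = 0) (x : Fin n)
    (hx : x.1 = 0 ∨ k < x.1) : ((oG k n).neighborSet x).ncard + 2 = n := by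
  have hxn := x.2
  by_cases h : x.1 = 0 ∨ (k + 1 < x.1 ∧ (x.1 - k) % 2 = 0)
  · have := ncard_nb (oG k n) x {x, ⟨x.1 + 1, by omega⟩} (by
      intro y
      simp only [oG, Set.mem_insert_iff, Set.mem_singleton_iff, Fin.ext_iff, ne_eq]
      omega)
    rwa [Set.ncard_pair (by simp [Fin.ext_iff])] at this
  · have := ncard_nb (oG k n) x {x, ⟨x.1 - 1, by omega⟩} (by
      intro y
      simp only [oG, Set.mem_insert_iff, Set.mem_singleton_iff, Fin.ext_iff, ne_eq]
      omega)
    rwa [Set.ncard_pair (by simp only [ne_eq, Fin.ext_iff]; omega)] at this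

/-- attachment of the odd blob -/
def oatt (d k : ℕ) : Fin (d - k + 1) → Fin (d + 2) → Option (Fin k) := fun _ x =>
  if h : 1 ≤ x.1 ∧ x.1 ≤ k then some ⟨x.1 - 1, by omega⟩ else none

theorem II_h1 {d k : ℕ} (hkd : k + 2 ≤ d) (hko : k % 2 = 1) (hdo : d % 2 = 1) (j x) :
    ((oG k (d + 2)).neighborSet x).ncard + (if (oatt d k j x).isSome then 1 else 0) = d := by
  by_cases h : 1 ≤ x.1 ∧ x.1 ≤ k
  · have := oG_deg1 (n := d + 2) (k := k) (by omega) x h.1 h.2
    simp only [oatt, h, and_self, dif_pos, Option.isSome_some, if_true]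
    omega
  · have := oG_deg2 (n := d + 2) (k := k) (by omega) (by omega) x (by omega)
    simp only [oatt, h, dif_neg, not_false_eq_true, Option.isSome_none]
    simpa using this

theorem II_att {d k : ℕ} (hkd : k + 2 ≤ d) (j x) (v : Fin k) :
    oatt d k j x = some v ↔ x = ⟨v.1 + 1, by have := v.2; omega⟩ := by
  have hv := v.2
  by_cases h : 1 ≤ x.1 ∧ x.1 ≤ k
  · simp only [oatt, h, and_self, dif_pos, Option.some.injEq, Fin.ext_iff]
    omega
  · simp only [oatt, h, dif_neg, not_false_eq_true, reduceCtorEq, false_iff, Fin.ext_iff]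
    omega

theorem II_h2 {d k : ℕ} (hkd : k + 2 ≤ d) (v : Fin k) :
    ((⊤ : SimpleGraph (Fin k)).neighborSet v).ncard +
      ({p : Fin (d - k + 1) × Fin (d + 2) | oatt d k p.1 p.2 = some v} : Set _).ncard = d := by
  have : ({p : Fin (d - k + 1) × Fin (d + 2) | oatt d k p.1 p.2 = some v} : Set _) =
      {p | p.2 = ⟨v.1 + 1, by have := v.2; omega⟩} := by
    ext ⟨j, x⟩
    simp only [Set.mem_ofPred_eq]
    exact II_att hkd j x v
  rw [this, att_card, Nat.card_fin]
  have := top_deg v
  have := v.2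
  omega

theorem II_h3 {d k : ℕ} (hkd : k + 2 ≤ d) (j) (v : Fin k) : ∃ x, oatt d k j x = some v :=
  ⟨_, (II_att hkd j _ v).2 rfl⟩

theorem II_reg {d k : ℕ} (hkd : k + 2 ≤ d) (hko : k % 2 = 1) (hdo : d % 2 = 1) :
    Reg (blob ⊤ (oG k (d + 2)) (oatt d k)) d :=
  blob_reg (II_h1 hkd hko hdo) (II_h2 hkd)

theorem II_conn {d k : ℕ} (hk : 1 ≤ k) (hkd : k + 2 ≤ d) (hko : k % 2 = 1) (hdo : d % 2 = 1) :
    KConn (blob ⊤ (oG k (d + 2)) (oatt d k)) k := by
  refine blob_conn (μ := 2) rfl (by omega) (by omega) (II_h1 hkd hko hdo) (II_h3 hkd) ?_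
  intro v
  have := top_deg v
  rw [Nat.card_fin]
  omega

/-- Case II -/
theorem base_II {d k : ℕ} (hk : 1 ≤ k) (hkd : k + 2 ≤ d) (hko : k % 2 = 1) (hdo : d % 2 = 1) :
    ∃ (V : Type) (_ : Finite V) (G : SimpleGraph V), Reg G d ∧ KConn G k ∧ Cert G (k + 1) := by
  refine ⟨_, inferInstance, blob ⊤ (oG k (d + 2)) (oatt d k), II_reg hkd hko hdo,
    II_conn hk hkd hko hdo, ?_⟩
  refine blob_cert (by omega) ⟨⟨0, by omega⟩, ⟨1, by omega⟩, fun h => by
      have := congrArg Fin.val h
      simp at this⟩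
    (II_h3 hkd) ?_
  intro i hi
  simp [Fin.ext_iff]

/-- odd degree, a bridge -/
theorem base_odd1 {d : ℕ} (hd : 3 ≤ d) :
    Cert (blob ⊤ (oG 1 (d + 2)) (oatt d 1)) 1 := by
  let j0 : Fin (d - 1 + 1) := ⟨0, by omega⟩
  let x0 : Fin (d + 2) := ⟨1, by omega⟩
  let z : Fin 1 := ⟨0, by omega⟩
  refine ⟨fun i => if i = 0 then Sum.inr (j0, x0) else Sum.inl z, {q | ∃ a, q = Sum.inr (j0, a)},
    ⟨?_, ?_⟩, ⟨x0, by simp⟩, ?_, ?_⟩
  · intro i hi
    have : i = 0 := by omega
    subst this
    exact (II_att (k := 1) (by omega) j0 x0 z).2 rfl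
  · intro i j hi hj h
    rcases (show i = 0 ∨ i = 1 by omega) with rfl | rfl <;>
    rcases (show j = 0 ∨ j = 1 by omega) with rfl | rfl <;> simp at h ⊢
  · rintro i h1 h2 ⟨a, ha⟩
    have : i = 1 := by omega
    subst this
    simp at ha
  · rintro _ (v | ⟨j, y⟩) ⟨a, rfl⟩ hb hab
    · left
      have hv : v = z := Subsingleton.elim _ _
      subst hv
      have := (II_att (k := 1) (by omega) j0 a z).1 hab
      refine ⟨?_, by simp⟩
      simp only [if_true]
      rw [this]
    · exfalso
      apply hb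
      exact ⟨y, by rw [show j = j0 from hab.1.symm]⟩

/-- odd degree, a vertex on no cycle -/
theorem base_odd0 {d : ℕ} (hd : 3 ≤ d) :
    ¬ Closes (Walk.nil : (blob ⊤ (oG 1 (d + 2)) (oatt d 1)).Walk
      (Sum.inl (⟨0, by omega⟩ : Fin 1)) (Sum.inl ⟨0, by omega⟩)) := by
  rintro ⟨w, c, hc, hle⟩
  let z : Fin 1 := ⟨0, by omega⟩
  have hz : (Sum.inl z : Fin 1 ⊕ (Fin (d - 1 + 1) × Fin (d + 2))) ∈ c.support := by
    rw [← Walk.mem_verts_toSubgraph]
    exact hle.1 (by simp [z])
  have h2 := hc.ncard_neighborSet_toSubgraph_eq_two hz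
  have hne : (c.toSubgraph.neighborSet (Sum.inl z)).Nonempty := by
    rw [← Set.ncard_pos (Set.toFinite _)]
    omega
  obtain ⟨q, hq⟩ := hne
  have hadj := c.toSubgraph.adj_sub hq
  rcases q with v | ⟨j, a⟩
  · have : v = z := Subsingleton.elim _ _
    subst this
    exact (⊤ : SimpleGraph (Fin 1)).loopless.irrefl _ hadj
  · have ha := (II_att (k := 1) (by omega) j a z).1 hadj
    obtain ⟨x', y', hx', hy', hxy, hne⟩ := cross c hc {q | ∃ a, q = Sum.inr (j, a)}
      (x := Sum.inr (j, a)) (y := Sum.inl z) ⟨a, rfl⟩ (by rintro ⟨_, h⟩; cases h) hq.symm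
    obtain ⟨b, rfl⟩ := hx'
    have hadj' := c.toSubgraph.adj_sub hxy
    rcases y' with v | ⟨j', y⟩
    · have hv : v = z := Subsingleton.elim _ _
      subst hv
      have hb := (II_att (k := 1) (by omega) j b z).1 hadj'
      exact hne ⟨by rw [ha, hb], rfl⟩
    · exact hy' ⟨y, by rw [show j' = j from hadj'.1.symm]⟩

end PCyc
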