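import Pool.Agent.X78.PC2
import Pool.Agent.X78.PC4

namespace PCyc

open SimpleGraph

/-- adjacency of the prism -/
def pAdj (a b : Fin 6) : Prop := a ≠ b ∧ (a.1 / 3 = b.1 / 3 ∨ a.1 % 3 = b.1 % 3)

instance : DecidableRel pAdj := fun a b => by unfold pAdj; infer_instance

/-- the triangular prism -/
def prism : SimpleGraph (Fin 6) where
  Adj := pAdj
  symm := ⟨fun _ _ h => ⟨h.1.symm, h.2.imp Eq.symm Eq.symm⟩⟩
  loopless := ⟨fun _ h => h.1 rfl⟩

theorem prism_reg : Reg prism 3 := by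
  intro v
  have : prism.neighborSet v = ↑(Finset.univ.filter (fun w => pAdj v w)) := by
    ext w; simp [prism]
  rw [this, Set.ncard_coe_finset]
  clear this
  revert v
  decide +kernel

/-- short connections in the prism avoiding `R` -/
def pc3 (R : Finset (Fin 6)) (a b : Fin 6) : Prop :=
  a ∈ R ∨ b ∈ R ∨ a = b ∨ pAdj a b ∨ (∃ c, c ∉ R ∧ pAdj a c ∧ pAdj c b) ∨
      (∃ c, c ∉ R ∧ pAdj a c ∧ ∃ e, e ∉ R ∧ pAdj c e ∧ pAdj e b)

instance (R : Finset (Fin 6)) : DecidableRel (pc3 R) := fun a b => by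
  unfold pc3; infer_instance

theorem prism_dec : ∀ R : Finset (Fin 6), R.card < 3 → (∃ a, a ∉ R) ∧ ∀ a b, pc3 R a b := by
  decide +kernel

theorem prism_conn : KConn prism 3 := by
  classical
  right
  refine ⟨by simp, fun R hR => ?_⟩
  rw [conn_iff]
  have h := prism_dec R.toFinset (by rwa [← Set.ncard_eq_toFinset_card'])
  simp only [Set.mem_toFinset] at h
  refine ⟨h.1, fun a b ha hb => ?_⟩
  have h' := h.2 a b
  unfold pc3 at h'
  simp only [Set.mem_toFinset, ha, hb, false_or] at h'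
  rcases h' with h | h | ⟨c, h1, h2, h3⟩ | ⟨c, h1, h2, e, h3, h4, h5⟩
  · rw [h]
  · exact Relation.ReflTransGen.single ⟨h, ha, hb⟩
  · exact Relation.ReflTransGen.head (b := c) ⟨h2, ha, h1⟩
      (Relation.ReflTransGen.single ⟨h3, h1, hb⟩)
  · exact Relation.ReflTransGen.head (b := c) ⟨h2, ha, h1⟩
      (Relation.ReflTransGen.head (b := e) ⟨h4, h1, h3⟩
        (Relation.ReflTransGen.single ⟨h5, h3, hb⟩))

/-- the path in the prism -/
def pf (i : ℕ) : Fin 6 := if i = 0 then 0 else if i = 1 then 3 else if i = 2 then 4 else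
  if i = 3 then 1 else if i = 4 then 2 else 5

theorem prism_cert : Cert prism 5 := by
  refine ⟨pf, {0}, ⟨?_, ?_⟩, rfl, ?_, ?_⟩
  · intro i hi
    show pAdj _ _
    interval_cases i <;> decide
  · intro i j hi hj h
    interval_cases i <;> interval_cases j <;> first | rfl | (revert h; decide)
  · intro i h1 h2
    rw [Set.mem_singleton_iff]
    interval_cases i <;> decide
  · intro a b ha hb hab
    rw [Set.mem_singleton_iff] at ha
    subst ha
    have : ∀ b : Fin 6, pAdj 0 b → b = pf 1 ∨ b = pf 3 ∨ b = pf 4 := by decide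
    rcases this b hab with h | h | h
    · left; exact ⟨rfl, h⟩
    · right; exact ⟨3, by omega, by omega, h⟩
    · right; exact ⟨4, by omega, by omega, h⟩

theorem cert_up {d k l0 : ℕ} (hd : 2 ≤ d) (hkd : k ≤ d) (hl0 : 1 ≤ l0)
    (h : ∃ (V : Type) (_ : Finite V) (G : SimpleGraph V), Reg G d ∧ KConn G k ∧ Cert G l0) (t : ℕ) :
    ∃ (V : Type) (_ : Finite V) (G : SimpleGraph V), Reg G d ∧ KConn G k ∧ Cert G (l0 + t) := by
  induction t with
  | zero => exact h
  | succ t ih =>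
    obtain ⟨V, hV, G, h1, h2, h3⟩ := ih
    exact cert_step (l := l0 + t) hd hkd h1 h2 (by omega) h3

theorem not_mem {d k l0 l : ℕ} (hd : 2 ≤ d) (hkd : k ≤ d) (hl0 : 1 ≤ l0)
    (h : ∃ (V : Type) (_ : Finite V) (G : SimpleGraph V), Reg G d ∧ KConn G k ∧ Cert G l0)
    (hl : l0 ≤ l) : l ∉ S d k := by
  intro hS
  obtain ⟨V, hV, G, h1, h2, h3⟩ := cert_up hd hkd hl0 h (l - l0)
  rw [show l0 + (l - l0) = l by omega] at h3
  obtain ⟨u, v, p, hp, hlen, hn⟩ := cert_not (by omega) h3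
  exact hn (hS V G h1 h2 u v p hp hlen)

/-- base example for `k ≥ 2` -/
theorem base_all {d k : ℕ} (hk : 1 ≤ k) (hkd : k ≤ d) (hd : 3 ≤ d) (h33 : ¬ (d = 3 ∧ k = 3))
    (h1 : k = 1 → d % 2 = 0) :
    ∃ (V : Type) (_ : Finite V) (G : SimpleGraph V), Reg G d ∧ KConn G k ∧ Cert G (k + 1) := by
  rcases Nat.lt_or_ge k d with hlt | hge
  · rcases Nat.mod_two_eq_zero_or_one k with hk2 | hk2
    · exact base_I (by omega) hlt hk2
    · rcases Nat.mod_two_eq_zero_or_one d with hd2 | hd2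
      · exact base_III hk hlt hd hk2 hd2
      · exact base_II hk (by omega) hk2 hd2
  · have : k = d := by omega
    subst this
    exact base_IV (by omega)

end PCyc
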