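import Mathlib

set_option linter.unusedSectionVars false

namespace SymP

universe u

open MvPolynomial

variable {K : Type u} [Field K] {ι : Type} [Fintype ι] [DecidableEq ι]

/-- the homogeneous ideal generated by all forms vanishing at `p` -/
noncomputable def pointIdeal (p : ι → K) : Ideal (MvPolynomial ι K) :=
  Ideal.span {g | ∃ e, g.IsHomogeneous e ∧ MvPolynomial.eval p g = 0}

/-- order of vanishing along arcs -/
def Ord (F : MvPolynomial ι K) (p : ι → K) (k : ℕ) : Prop :=
  ∀ (R : Type u) [CommRing R] [IsDomain R] [Algebra K R] (t : R), Prime t → ∀ (u : R) (γ : ι → R),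
    ¬ t ∣ u → (∀ i, t ∣ γ i - u * algebraMap K R (p i)) → t ^ k ∣ aeval γ F

theorem aeval_sum {R : Type u} [CommRing R] [Algebra K R] (γ : ι → R) (g : MvPolynomial ι K) :
    aeval γ g = ∑ m ∈ g.support, algebraMap K R (coeff m g) * ∏ i, γ i ^ m i := by
  rw [aeval_def, eval₂_eq']

theorem deg_of_mem {g : MvPolynomial ι K} {e : ℕ} (hg : g.IsHomogeneous e) {m : ι →₀ ℕ}
    (hm : m ∈ g.support) : ∑ i, m i = e := by
  have := hg (mem_support_iff.1 hm)
  rw [Finsupp.weight_apply, Finsupp.sum_fintype] at this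
  · simpa using this
  · simp

theorem hom_scale {R : Type u} [CommRing R] [Algebra K R] (γ : ι → R) (u : R)
    {g : MvPolynomial ι K} {e : ℕ} (hg : g.IsHomogeneous e) :
    aeval (fun i => u * γ i) g = u ^ e * aeval γ g := by
  rw [aeval_sum, aeval_sum, Finset.mul_sum]
  refine Finset.sum_congr rfl (fun m hm => ?_)
  have h1 : ∏ i, (u * γ i) ^ m i = u ^ e * ∏ i, γ i ^ m i := by
    rw [← deg_of_mem hg hm]
    simp_rw [mul_pow]
    rw [Finset.prod_mul_distrib, Finset.prod_pow_eq_pow_sum]
  rw [h1]; ring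

theorem aeval_congr {R : Type u} [CommRing R] [Algebra K R] (I : Ideal R) (γ δ : ι → R)
    (h : ∀ i, γ i - δ i ∈ I) (g : MvPolynomial ι K) : aeval γ g - aeval δ g ∈ I := by
  rw [← Ideal.Quotient.eq]
  have : (Ideal.Quotient.mkₐ K I).comp (aeval γ) = (Ideal.Quotient.mkₐ K I).comp (aeval δ) := by
    apply algHom_ext
    intro i
    simp only [AlgHom.comp_apply, aeval_X, Ideal.Quotient.mkₐ_eq_mk]
    rw [Ideal.Quotient.eq]
    exact h i
  exact congrArg (fun f => f g) this

theorem aeval_alg {R : Type u} [CommRing R] [Algebra K R] (p : ι → K) (g : MvPolynomial ι K) :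
    aeval (fun i => algebraMap K R (p i)) g = algebraMap K R (eval p g) := by
  rw [aeval_sum, eval_eq', map_sum]
  refine Finset.sum_congr rfl (fun m _ => ?_)
  rw [map_mul, map_prod]
  simp

theorem ord_of_mem {F : MvPolynomial ι K} {p : ι → K} {k : ℕ} (h : F ∈ pointIdeal p ^ k) :
    Ord F p k := by
  intro R _ _ _ t ht u γ hu hγ
  have h1 : pointIdeal p ≤ (Ideal.span {t}).comap (aeval γ : MvPolynomial ι K →ₐ[K] R) := by
    unfold pointIdeal
    rw [Ideal.span_le]
    rintro g ⟨e, he, hg⟩
    rw [SetLike.mem_coe, Ideal.mem_comap]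
    have h2 := aeval_congr (Ideal.span {t}) γ (fun i => u * algebraMap K R (p i))
      (fun i => Ideal.mem_span_singleton.2 (hγ i)) g
    rw [hom_scale _ _ he, aeval_alg, hg, map_zero, mul_zero, sub_zero] at h2
    exact h2
  have h2 := (Ideal.pow_right_mono h1 k).trans (Ideal.le_comap_pow _ k) h
  rw [Ideal.mem_comap, Ideal.span_singleton_pow, Ideal.mem_span_singleton] at h2
  exact h2

theorem ord_smul {F : MvPolynomial ι K} {p : ι → K} {k : ℕ} (h : Ord F p k) {c : K} (hc : c ≠ 0) :
    Ord F (fun i => c * p i) k := by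
  intro R _ _ _ t ht u γ hu hγ
  refine h R t ht (u * algebraMap K R c) γ ?_ ?_
  · intro h'
    rcases ht.dvd_or_dvd h' with h'' | h''
    · exact hu h''
    · apply ht.not_isUnit
      exact isUnit_of_dvd_unit h'' ((isUnit_iff_ne_zero.2 hc).map (algebraMap K R))
  · intro i
    have := hγ i
    rw [map_mul] at this
    rwa [mul_assoc]

/-- substitution `X_i ↦ ∑ a, A a i X_a` -/
noncomputable def lsub {κ : Type} [Fintype κ] (A : κ → ι → K) (F : MvPolynomial ι K) :
    MvPolynomial κ K :=
  aeval (fun i => ∑ a, C (A a i) * X a) F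

theorem aeval_lsub {κ : Type} [Fintype κ] (A : κ → ι → K) (F : MvPolynomial ι K)
    {R : Type u} [CommRing R] [Algebra K R] (γ : κ → R) :
    aeval γ (lsub A F) = aeval (fun i => ∑ a, algebraMap K R (A a i) * γ a) F := by
  unfold lsub
  have : (aeval γ : MvPolynomial κ K →ₐ[K] R).comp
      (aeval (fun i => ∑ a, C (A a i) * X a) : MvPolynomial ι K →ₐ[K] MvPolynomial κ K) =
      aeval (fun i => ∑ a, algebraMap K R (A a i) * γ a) := by
    apply algHom_ext
    intro i
    simp [map_sum]
  exact congrArg (fun f => f F) this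

theorem lsub_hom {κ : Type} [Fintype κ] (A : κ → ι → K) {F : MvPolynomial ι K} {d : ℕ}
    (hF : F.IsHomogeneous d) : (lsub A F).IsHomogeneous d := by
  have := hF.aeval (fun i => ∑ a, C (A a i) * X a) (n := 1) (fun i => by
    refine IsHomogeneous.sum _ _ _ (fun a _ => ?_)
    have := (isHomogeneous_C κ (A a i)).mul (isHomogeneous_X K a)
    simpa using this)
  simpa [lsub] using this

theorem ord_lsub {κ : Type} [Fintype κ] (A : κ → ι → K) {F : MvPolynomial ι K} {p : ι → K}
    {c : κ → K} {k : ℕ} (hp : ∀ i, p i = ∑ a, A a i * c a) (h : Ord F p k) :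
    Ord (lsub A F) c k := by
  intro R _ _ _ t ht u γ hu hγ
  rw [aeval_lsub]
  refine h R t ht u _ hu (fun i => ?_)
  rw [hp i, map_sum, Finset.mul_sum, ← Finset.sum_sub_distrib]
  refine Finset.dvd_sum (fun a _ => ?_)
  rw [map_mul]
  have : algebraMap K R (A a i) * γ a - u * (algebraMap K R (A a i) * algebraMap K R (c a)) =
      algebraMap K R (A a i) * (γ a - u * algebraMap K R (c a)) := by ring
  rw [this]
  exact Dvd.dvd.mul_left (hγ a) _

theorem exp_bound {H : MvPolynomial ι K} {d k : ℕ} (hH : H.IsHomogeneous d) (a : ι)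
    (ho : Ord H (fun i => if i = a then 1 else 0) k) {m : ι →₀ ℕ} (hm : m ∈ H.support) :
    m a + k ≤ d := by
  by_contra hlt
  push Not at hlt
  let γ : ι → Polynomial (MvPolynomial ι K) := fun b =>
    if b = a then Polynomial.C (X a) else Polynomial.X * Polynomial.C (X b)
  have h1 : (Polynomial.X : Polynomial (MvPolynomial ι K)) ^ k ∣ aeval γ H := by
    refine ho _ Polynomial.X Polynomial.prime_X (Polynomial.C (X a)) γ ?_ ?_
    · rw [Polynomial.X_dvd_iff, Polynomial.coeff_C_zero]
      exact X_ne_zero a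
    · intro i
      by_cases hi : i = a
      · simp [γ, hi]
      · simp [γ, hi]
  have hdeg := deg_of_mem hH hm
  have hsplit : ∀ m' : ι →₀ ℕ, ∏ b, γ b ^ m' b =
      Polynomial.X ^ (∑ b ∈ Finset.univ.erase a, m' b) *
        Polynomial.C (monomial m' (1 : K)) := by
    intro m'
    have h2 : monomial m' (1 : K) = ∏ b, (X b : MvPolynomial ι K) ^ m' b := by
      rw [monomial_eq, C_1, one_mul, Finsupp.prod_fintype _ _ (by simp)]
    rw [h2, map_prod, ← Finset.mul_prod_erase _ _ (Finset.mem_univ a),
      ← Finset.mul_prod_erase _ _ (Finset.mem_univ a)]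
    have h3 : ∏ b ∈ Finset.univ.erase a, γ b ^ m' b =
        Polynomial.X ^ (∑ b ∈ Finset.univ.erase a, m' b) *
          ∏ b ∈ Finset.univ.erase a, Polynomial.C ((X b : MvPolynomial ι K) ^ m' b) := by
      rw [← Finset.prod_pow_eq_pow_sum, ← Finset.prod_mul_distrib]
      refine Finset.prod_congr rfl (fun b hb => ?_)
      have : b ≠ a := (Finset.mem_erase.1 hb).1
      simp only [γ, this, if_false, mul_pow, map_pow]
    rw [h3]
    simp only [γ, if_true, map_pow]
    ring
  have h4 : ((aeval γ H).coeff (∑ b ∈ Finset.univ.erase a, m b)).coeff m = coeff m H := by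
    rw [aeval_sum, Polynomial.finsetSum_coeff, coeff_sum]
    rw [Finset.sum_eq_single m]
    · rw [hsplit, IsScalarTower.algebraMap_apply K (MvPolynomial ι K)
        (Polynomial (MvPolynomial ι K)), Polynomial.algebraMap_apply]
      simp only [algebraMap_eq, Algebra.algebraMap_self, RingHom.id_apply]
      rw [mul_left_comm, ← map_mul, Polynomial.coeff_X_pow_mul', if_pos (le_refl _),
        Nat.sub_self, Polynomial.coeff_C_zero, C_mul_monomial, mul_one, coeff_monomial, if_pos rfl]
    · intro m' _ hne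
      rw [hsplit, IsScalarTower.algebraMap_apply K (MvPolynomial ι K)
        (Polynomial (MvPolynomial ι K)), Polynomial.algebraMap_apply]
      simp only [algebraMap_eq, Algebra.algebraMap_self, RingHom.id_apply]
      rw [mul_left_comm, ← map_mul, Polynomial.coeff_X_pow_mul']
      split_ifs
      · rw [C_mul_monomial, mul_one, Polynomial.coeff_C]
        split_ifs
        · rw [coeff_monomial, if_neg hne]
        · simp
      · simp
    · intro h; exact absurd hm h
  rw [Polynomial.X_pow_dvd_iff] at h1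
  have h5 := h1 (∑ b ∈ Finset.univ.erase a, m b) (by
    rw [← Finset.add_sum_erase _ _ (Finset.mem_univ a)] at hdeg
    omega)
  rw [h5] at h4
  rw [coeff_zero] at h4
  exact (mem_support_iff.1 hm) h4.symm

end SymP
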