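import Pool.Agent.X78.SP1

set_option linter.unusedSectionVars false

namespace SymP

universe u

open MvPolynomial

variable {K : Type u} [Field K] {ι : Type} [Fintype ι] [DecidableEq ι]

/-- Cremona transform -/
noncomputable def crem (e : ℕ) (H : MvPolynomial ι K) : MvPolynomial ι K :=
  ∑ m ∈ H.support, monomial (Finsupp.equivFunOnFinite.symm (fun i => e - m i)) (coeff m H)

theorem aeval_crem (e : ℕ) (H : MvPolynomial ι K) {R : Type u} [CommRing R] [Algebra K R]
    (ζ : ι → R) : aeval ζ (crem e H) =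
      ∑ m ∈ H.support, algebraMap K R (coeff m H) * ∏ i, ζ i ^ (e - m i) := by
  unfold crem
  rw [map_sum]
  refine Finset.sum_congr rfl (fun m _ => ?_)
  rw [aeval_monomial, Finsupp.prod_fintype _ _ (by simp)]
  rfl

theorem crem_hom {e d : ℕ} {H : MvPolynomial ι K} (hH : H.IsHomogeneous d)
    (he : ∀ m ∈ H.support, ∀ i, m i ≤ e) :
    (crem e H).IsHomogeneous (Fintype.card ι * e - d) := by
  unfold crem
  refine IsHomogeneous.sum _ _ _ (fun m hm => ?_)
  apply isHomogeneous_monomial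
  rw [Finsupp.degree_eq_sum]
  simp only [Finsupp.equivFunOnFinite_symm_apply_apply]
  have h1 := deg_of_mem hH hm
  have h2 : ∑ i, (e - m i) + ∑ i, m i = Fintype.card ι * e := by
    rw [← Finset.sum_add_distrib]
    rw [Finset.sum_congr rfl (fun i _ => Nat.sub_add_cancel (he m hm i))]
    simp
  omega

theorem I1 {e d : ℕ} {H : MvPolynomial ι K} (hH : H.IsHomogeneous d)
    (he : ∀ m ∈ H.support, ∀ i, m i ≤ e) {R : Type u} [CommRing R] [Algebra K R]
    (ζ γ : ι → R) (N : R) (hN : ∀ i, ζ i * γ i = N) :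
    N ^ d * aeval ζ (crem e H) = (∏ i, ζ i) ^ e * aeval γ H := by
  rw [aeval_crem, aeval_sum, Finset.mul_sum, Finset.mul_sum]
  refine Finset.sum_congr rfl (fun m hm => ?_)
  have h1 := deg_of_mem hH hm
  have h2 : N ^ d * ∏ i, ζ i ^ (e - m i) = (∏ i, ζ i) ^ e * ∏ i, γ i ^ m i := by
    rw [← h1, ← Finset.prod_pow_eq_pow_sum, ← Finset.prod_pow, ← Finset.prod_mul_distrib,
      ← Finset.prod_mul_distrib]
    refine Finset.prod_congr rfl (fun i _ => ?_)
    rw [← hN i, mul_pow]
    have : ζ i ^ e = ζ i ^ m i * ζ i ^ (e - m i) := by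
      rw [← pow_add, Nat.add_sub_cancel' (he m hm i)]
    rw [this]; ring
  calc _ = algebraMap K R (coeff m H) * (N ^ d * ∏ i, ζ i ^ (e - m i)) := by ring
    _ = _ := by rw [h2]; ring

theorem I2 {e d : ℕ} {H : MvPolynomial ι K} (hH : H.IsHomogeneous d)
    (he : ∀ m ∈ H.support, ∀ i, m i ≤ e) {R : Type u} [CommRing R] [Algebra K R]
    (ζ γ : ι → R) (N : R) (hN : ∀ i, ζ i * γ i = N) :
    (∏ i, γ i) ^ e * aeval ζ (crem e H) = N ^ (Fintype.card ι * e - d) * aeval γ H := by
  rw [aeval_crem, aeval_sum, Finset.mul_sum, Finset.mul_sum]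
  refine Finset.sum_congr rfl (fun m hm => ?_)
  have h1 := deg_of_mem hH hm
  have h3 : ∑ i, (e - m i) = Fintype.card ι * e - d := by
    have h2 : ∑ i, (e - m i) + ∑ i, m i = Fintype.card ι * e := by
      rw [← Finset.sum_add_distrib]
      rw [Finset.sum_congr rfl (fun i _ => Nat.sub_add_cancel (he m hm i))]
      simp
    omega
  have h2 : (∏ i, γ i) ^ e * ∏ i, ζ i ^ (e - m i) =
      N ^ (Fintype.card ι * e - d) * ∏ i, γ i ^ m i := by
    rw [← h3, ← Finset.prod_pow_eq_pow_sum, ← Finset.prod_pow, ← Finset.prod_mul_distrib,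
      ← Finset.prod_mul_distrib]
    refine Finset.prod_congr rfl (fun i _ => ?_)
    rw [← hN i, mul_pow]
    have : γ i ^ e = γ i ^ m i * γ i ^ (e - m i) := by
      rw [← pow_add, Nat.add_sub_cancel' (he m hm i)]
    rw [this]; ring
  calc _ = algebraMap K R (coeff m H) * ((∏ i, γ i) ^ e * ∏ i, ζ i ^ (e - m i)) := by ring
    _ = _ := by rw [h2]; ring

theorem prod_cong {R : Type u} [CommRing R] (t : R) (s : Finset ι) (f g : ι → R)
    (h : ∀ i ∈ s, t ∣ f i - g i) : t ∣ ∏ i ∈ s, f i - ∏ i ∈ s, g i := by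
  induction s using Finset.induction_on with
  | empty => simp
  | insert a s ha ih =>
    rw [Finset.prod_insert ha, Finset.prod_insert ha]
    have h1 := h a (Finset.mem_insert_self a s)
    have h2 := ih (fun i hi => h i (Finset.mem_insert_of_mem hi))
    have : f a * ∏ i ∈ s, f i - g a * ∏ i ∈ s, g i =
        (f a - g a) * ∏ i ∈ s, f i + g a * (∏ i ∈ s, f i - ∏ i ∈ s, g i) := by ring
    rw [this]
    exact dvd_add (Dvd.dvd.mul_right h1 _) (Dvd.dvd.mul_left h2 _)

theorem not_dvd_alg {R : Type u} [CommRing R] [Algebra K R] {t : R} (ht : Prime t) {c : K}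
    (hc : c ≠ 0) : ¬ t ∣ algebraMap K R c := by
  intro h''
  apply ht.not_isUnit
  exact isUnit_of_dvd_unit h'' ((isUnit_iff_ne_zero.2 hc).map (algebraMap K R))

/-- data for products omitting one coordinate -/
theorem omit_cong {R : Type u} [CommRing R] [Algebra K R] (t u : R) (ζ : ι → R) (q : ι → K)
    (hζ : ∀ i, t ∣ ζ i - u * algebraMap K R (q i)) (i : ι) :
    t ∣ ∏ j ∈ Finset.univ.erase i, ζ j -
      u ^ (Fintype.card ι - 1) * algebraMap K R (∏ j ∈ Finset.univ.erase i, q j) := by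
  have h1 := prod_cong t (Finset.univ.erase i) ζ (fun j => u * algebraMap K R (q j))
    (fun j _ => hζ j)
  rw [Finset.prod_mul_distrib, Finset.prod_const, Finset.card_erase_of_mem (Finset.mem_univ i),
    Finset.card_univ, ← map_prod] at h1
  exact h1

theorem not_dvd_prod {R : Type u} [CommRing R] [Algebra K R] {t u : R} (ht : Prime t)
    (hu : ¬ t ∣ u) (ζ : ι → R) (q : ι → K) (hq : ∀ i, q i ≠ 0)
    (hζ : ∀ i, t ∣ ζ i - u * algebraMap K R (q i)) : ¬ t ∣ ∏ j, ζ j := by
  intro h
  rw [Prime.dvd_finsetProd_iff ht] at h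
  obtain ⟨i, _, hi⟩ := h
  have h1 : t ∣ u * algebraMap K R (q i) := by
    have := dvd_sub hi (hζ i)
    simpa using this
  rcases ht.dvd_or_dvd h1 with h2 | h2
  · exact hu h2
  · exact not_dvd_alg ht (hq i) h2

theorem crem_ord {e d k : ℕ} {H : MvPolynomial ι K} (hH : H.IsHomogeneous d)
    (he : ∀ m ∈ H.support, ∀ i, m i ≤ e) (p q : ι → K) (hpq : ∀ i, p i * q i = 1)
    (ho : Ord H p k) : Ord (crem e H) q k := by
  intro R _ _ _ t ht u ζ hu hζ
  have hq : ∀ i, q i ≠ 0 := fun i h => by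
    have := hpq i; rw [h, mul_zero] at this; exact zero_ne_one this
  let γ : ι → R := fun i => ∏ j ∈ Finset.univ.erase i, ζ j
  have hN : ∀ i, ζ i * γ i = ∏ j, ζ j := fun i => Finset.mul_prod_erase _ _ (Finset.mem_univ i)
  have hQ : ∏ j, q j ≠ 0 := Finset.prod_ne_zero_iff.2 (fun i _ => hq i)
  have h1 : t ^ k ∣ aeval γ H := by
    refine ho R t ht (u ^ (Fintype.card ι - 1) * algebraMap K R (∏ j, q j)) γ ?_ ?_
    · intro h
      rcases ht.dvd_or_dvd h with h | h
      · exact hu (ht.dvd_of_dvd_pow h)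
      · exact not_dvd_alg ht hQ h
    · intro i
      have h2 := omit_cong t u ζ q hζ i
      have h3 : ∏ j ∈ Finset.univ.erase i, q j = (∏ j, q j) * p i := by
        rw [← Finset.mul_prod_erase _ _ (Finset.mem_univ i)]
        calc _ = (p i * q i) * ∏ j ∈ Finset.univ.erase i, q j := by rw [hpq, one_mul]
          _ = _ := by ring
      rw [h3, map_mul, ← mul_assoc] at h2
      exact h2
  have h2 := I1 hH he ζ γ _ hN
  have h3 : t ^ k ∣ (∏ j, ζ j) ^ d * aeval ζ (crem e H) := by
    rw [h2]; exact Dvd.dvd.mul_left h1 _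
  refine ht.pow_dvd_of_dvd_mul_left k ?_ h3
  intro h
  exact not_dvd_prod ht hu ζ q hq hζ (ht.dvd_of_dvd_pow h)

/-- vanishing along a line through two points of high multiplicity -/
theorem line_ord {d' k : ℕ} {H : MvPolynomial ι K} (hH : H.IsHomogeneous d') (q1 q2 : ι → K)
    (h1 : Ord H q1 k) (h2 : Ord H q2 k) {R : Type u} [CommRing R] [Algebra K R] (α β t : R)
    (y : ι → R) : t ^ (2 * k - d') ∣
      aeval (fun i => α * algebraMap K R (q1 i) + β * algebraMap K R (q2 i) + t * y i) H := by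
  let A : (Fin 2 ⊕ ι) → ι → K := fun a i => match a with
    | .inl j => if j = 0 then q1 i else q2 i
    | .inr j => if i = j then 1 else 0
  have hom := lsub_hom A hH
  have e1 : Ord (lsub A H) (fun a => if a = Sum.inl 0 then 1 else 0) k := by
    refine ord_lsub A (fun i => ?_) h1
    simp [A]
  have e2 : Ord (lsub A H) (fun a => if a = Sum.inl 1 then 1 else 0) k := by
    refine ord_lsub A (fun i => ?_) h2
    simp [A]
  let g : (Fin 2 ⊕ ι) → R := fun a => match a with
    | .inl j => if j = 0 then α else β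
    | .inr j => t * y j
  have h3 : aeval g (lsub A H) =
      aeval (fun i => α * algebraMap K R (q1 i) + β * algebraMap K R (q2 i) + t * y i) H := by
    rw [aeval_lsub]
    congr 1
    congr 1
    ext i
    simp only [Fintype.sum_sum_type, Fin.sum_univ_two, A, g]
    simp only [if_true, Fin.one_eq_zero_iff, OfNat.ofNat_ne_one, if_false]
    have h4 : ∑ x, (algebraMap K R) (if i = x then 1 else 0) * (t * y x) = t * y i := by
      rw [Finset.sum_eq_single i]
      · simp
      · intro b _ hb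
        rw [if_neg (fun h => hb h.symm)]; simp
      · intro h; exact absurd (Finset.mem_univ i) h
    rw [h4]
    simp
    ring
  rw [← h3, aeval_sum]
  refine Finset.dvd_sum (fun m hm => Dvd.dvd.mul_left ?_ _)
  have b1 := exp_bound hom _ e1 hm
  have b2 := exp_bound hom _ e2 hm
  have b3 := deg_of_mem hom hm
  rw [Fintype.sum_sum_type, Fin.sum_univ_two] at b3
  rw [Fintype.prod_sum_type]
  refine Dvd.dvd.mul_left ?_ _
  have h5 : ∏ i, g (Sum.inr i) ^ m (Sum.inr i) =
      t ^ (∑ i, m (Sum.inr i)) * ∏ i, y i ^ m (Sum.inr i) := by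
    rw [← Finset.prod_pow_eq_pow_sum, ← Finset.prod_mul_distrib]
    refine Finset.prod_congr rfl (fun i _ => ?_)
    simp only [g, mul_pow]
  rw [h5]
  exact Dvd.dvd.mul_right (pow_dvd_pow t (by omega)) _

/-- multiplicity along the rational normal curve -/
theorem curve_ord {d k : ℕ} {H : MvPolynomial ι K} (hH : H.IsHomogeneous d)
    (he : ∀ m ∈ H.support, ∀ i, m i ≤ d - k) (b : ι → K) (hb : ∀ i, b i ≠ 0)
    (o1 : Ord H (fun _ => 1) k) (o2 : Ord H (fun i => (b i)⁻¹) k) (s : K)
    (hs : ∀ i, s ≠ b i) :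
    Ord H (fun i => ∏ j ∈ Finset.univ.erase i, (s - b j))
      (2 * k - (Fintype.card ι * (d - k) - d)) := by
  intro R _ _ _ t ht u γ hu hγ
  have c1 := crem_ord hH he (fun _ => 1) (fun _ => 1) (by simp) o1
  have c2 := crem_ord hH he (fun i => (b i)⁻¹) b (fun i => inv_mul_cancel₀ (hb i)) o2
  have chom := crem_hom hH he
  have hz : ∀ i, s - b i ≠ 0 := fun i => sub_ne_zero.2 (hs i)
  set c : ι → K := fun i => ∏ j ∈ Finset.univ.erase i, (s - b j) with hc
  have hc0 : ∀ i, c i ≠ 0 := fun i => Finset.prod_ne_zero_iff.2 (fun j _ => hz j)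
  set M : K := ∏ j, (s - b j) with hM
  have hM0 : M ≠ 0 := Finset.prod_ne_zero_iff.2 (fun j _ => hz j)
  have hcz : ∀ i, (s - b i) * c i = M := fun i =>
    Finset.mul_prod_erase Finset.univ (fun j => s - b j) (Finset.mem_univ i)
  let ζ : ι → R := fun i => ∏ j ∈ Finset.univ.erase i, γ j
  have hN : ∀ i, ζ i * γ i = ∏ j, γ j := fun i => by
    rw [mul_comm]; exact Finset.mul_prod_erase _ _ (Finset.mem_univ i)
  -- ζ is congruent to a point of the line
  set U : R := u ^ (Fintype.card ι - 1) * algebraMap K R ((∏ j, c j) / M) with hU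
  have hζ : ∀ i, t ∣ ζ i - U * algebraMap K R (s - b i) := by
    intro i
    have h2 := omit_cong t u γ c hγ i
    have h3 : ∏ j ∈ Finset.univ.erase i, c j = (∏ j, c j) / M * (s - b i) := by
      rw [← Finset.mul_prod_erase _ _ (Finset.mem_univ i)]
      rw [div_mul_eq_mul_div, eq_div_iff hM0, ← hcz i]
      ring
    rw [h3, map_mul, ← mul_assoc] at h2
    exact h2
  choose y hy using hζ
  have h4 := line_ord (d' := Fintype.card ι * (d - k) - d) chom (fun _ => (1 : K)) b c1 c2
    (U * algebraMap K R s) (-U) t y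
  have h5 : (fun i => U * algebraMap K R s * algebraMap K R ((fun _ => (1 : K)) i) +
      -U * algebraMap K R (b i) + t * y i) = ζ := by
    ext i
    have := hy i
    rw [map_sub] at this
    rw [map_one]
    linear_combination -this
  rw [h5] at h4
  have h6 := I2 hH he ζ γ _ hN
  have h7 : t ^ (2 * k - (Fintype.card ι * (d - k) - d)) ∣
      (∏ j, γ j) ^ (Fintype.card ι * (d - k) - d) * aeval γ H := by
    rw [← h6]; exact Dvd.dvd.mul_left h4 _
  refine ht.pow_dvd_of_dvd_mul_left _ ?_ h7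
  intro h
  exact not_dvd_prod ht hu γ c hc0 hγ (ht.dvd_of_dvd_pow h)

end SymP
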