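import Pool.Agent.X78.SP1

set_option linter.unusedSectionVars false

namespace SymP

universe u

open MvPolynomial

variable {K : Type u} [Field K] {ι : Type} [Fintype ι] [DecidableEq ι]

theorem chain (γ : ι → Polynomial K) (F : MvPolynomial ι K) :
    Polynomial.derivative (aeval γ F) =
      ∑ j, aeval γ (pderiv j F) * Polynomial.derivative (γ j) := by
  induction F using MvPolynomial.induction_on with
  | C a =>
    rw [Finset.sum_eq_zero]
    · rw [aeval_C]
      exact Polynomial.derivative_C
    · intro j _
      rw [pderiv_C, map_zero, zero_mul]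
  | add p q hp hq =>
    rw [map_add, map_add, hp, hq, ← Finset.sum_add_distrib]
    refine Finset.sum_congr rfl (fun j _ => ?_)
    rw [map_add, map_add]; ring
  | mul_X p i hp =>
    rw [map_mul, aeval_X, Polynomial.derivative_mul, hp, Finset.sum_mul]
    have : ∀ j, aeval γ (pderiv j (p * X i)) * Polynomial.derivative (γ j) =
        aeval γ (pderiv j p) * Polynomial.derivative (γ j) * γ i +
          (if j = i then aeval γ p * Polynomial.derivative (γ i) else 0) := by
      intro j
      rw [pderiv_mul, map_add, map_mul, map_mul, aeval_X]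
      by_cases h : j = i
      · subst h
        rw [pderiv_X_self, if_pos rfl]; simp; ring
      · rw [pderiv_X_of_ne (fun h' => h h'.symm), if_neg h]; simp; ring
    simp_rw [this]
    rw [Finset.sum_add_distrib]
    simp

theorem eval_aeval (γ : ι → Polynomial K) (F : MvPolynomial ι K) (τ : K) :
    (aeval γ F).eval τ = eval (fun i => (γ i).eval τ) F := by
  rw [aeval_sum, eval_eq', Polynomial.eval_finsetSum]
  refine Finset.sum_congr rfl (fun m _ => ?_)
  rw [Polynomial.eval_mul, Polynomial.eval_prod]
  simp

theorem zero_of_cofin [Infinite K] (g : Polynomial K) (T : Set K) (hT : T.Finite)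
    (h : ∀ τ, τ ∉ T → g.eval τ = 0) : g = 0 := by
  apply Polynomial.eq_zero_of_infinite_isRoot
  refine Set.Infinite.mono (s := Tᶜ) ?_ hT.infinite_compl
  intro τ hτ
  exact h τ hτ

/-- polynomial parametrisation of the curve -/
noncomputable def cur (b : ι → K) (i : ι) : Polynomial K :=
  ∏ j ∈ Finset.univ.erase i, (Polynomial.X - Polynomial.C (b j))

theorem cur_eval (b : ι → K) (i : ι) (s : K) :
    (cur b i).eval s = ∏ j ∈ Finset.univ.erase i, (s - b j) := by
  unfold cur
  rw [Polynomial.eval_prod]
  simp

theorem dens_step [Infinite K] {l : ℕ} (hcard : Fintype.card ι = 2 * l + 2) (b : ι → K)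
    (hb : Function.Injective b) (H : MvPolynomial ι K)
    (hH : ∀ (s : Fin (l + 1) → K) (y : Fin (l + 1) → K), Function.Injective s →
      (∀ a i, s a ≠ b i) → (∀ a, y a ≠ 0) →
      eval (fun i => ∑ a, y a * (cur b i).eval (s a)) H = 0)
    (s : Fin (l + 1) → K) (y : Fin (l + 1) → K) (hs : Function.Injective s)
    (hsb : ∀ a i, s a ≠ b i) (hy : ∀ a, y a ≠ 0) (j : ι) :
    eval (fun i => ∑ a, y a * (cur b i).eval (s a)) (pderiv j H) = 0 := by
  set x : ι → K := fun i => ∑ a, y a * (cur b i).eval (s a) with hx
  let P : Polynomial K := ∑ j, Polynomial.C (eval x (pderiv j H)) * cur b j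
  have hP1 : ∀ a, P.eval (s a) = 0 := by
    intro a
    let γ : ι → Polynomial K := fun i =>
      Polynomial.C (x i) + Polynomial.X * Polynomial.C ((cur b i).eval (s a))
    have hz : aeval γ H = 0 := by
      refine zero_of_cofin _ {-(y a)} (Set.finite_singleton _) (fun τ hτ => ?_)
      rw [eval_aeval]
      have h1 := hH s (Function.update y a (y a + τ)) hs hsb (fun a' => by
        by_cases h : a' = a
        · subst h
          rw [Function.update_self]
          intro h0
          exact hτ (by rw [Set.mem_singleton_iff]; linear_combination h0)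
        · rw [Function.update_of_ne h]; exact hy a')
      rw [← h1]
      congr 1
      congr 1
      ext i
      simp only [γ, Polynomial.eval_add, Polynomial.eval_C, Polynomial.eval_mul, Polynomial.eval_X,
        hx]
      rw [← Finset.add_sum_erase _ _ (Finset.mem_univ a),
        ← Finset.add_sum_erase _ _ (Finset.mem_univ a), Function.update_self]
      have : ∑ x ∈ Finset.univ.erase a, Function.update y a (y a + τ) x *
          (cur b i).eval (s x) = ∑ x ∈ Finset.univ.erase a, y x * (cur b i).eval (s x) :=
        Finset.sum_congr rfl (fun a' ha' => by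
          rw [Function.update_of_ne (Finset.ne_of_mem_erase ha')])
      rw [this]; ring
    have h2 := chain γ H
    rw [hz, Polynomial.derivative_zero] at h2
    have h3 := congrArg (Polynomial.eval 0) h2
    rw [Polynomial.eval_zero, Polynomial.eval_finsetSum] at h3
    rw [show P.eval (s a) = ∑ j, (eval x (pderiv j H)) * (cur b j).eval (s a) by
      simp [P, Polynomial.eval_finsetSum]]
    rw [h3]
    refine Finset.sum_congr rfl (fun j _ => ?_)
    rw [Polynomial.eval_mul, eval_aeval]
    have : (fun i => (γ i).eval 0) = x := by ext i; simp [γ]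
    rw [this]
    simp [γ]
  have hP2 : ∀ a, (Polynomial.derivative P).eval (s a) = 0 := by
    intro a
    let γ : ι → Polynomial K := fun i =>
      Polynomial.C (x i - y a * (cur b i).eval (s a)) +
        Polynomial.C (y a) * (cur b i).comp (Polynomial.X + Polynomial.C (s a))
    have hz : aeval γ H = 0 := by
      refine zero_of_cofin _ ((fun v => v - s a) '' (Set.range s ∪ Set.range b))
        (((Set.finite_range s).union (Set.finite_range b)).image _) (fun τ hτ => ?_)
      rw [eval_aeval]
      have hτ1 : ∀ a', s a + τ ≠ s a' := fun a' h => hτ ⟨s a', Or.inl ⟨a', rfl⟩, by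
        simp only; linear_combination -h⟩
      have hτ2 : ∀ i, s a + τ ≠ b i := fun i h => hτ ⟨b i, Or.inr ⟨i, rfl⟩, by
        simp only; linear_combination -h⟩
      have h1 := hH (Function.update s a (s a + τ)) y (by
        intro a1 a2 h
        by_cases h1 : a1 = a <;> by_cases h2 : a2 = a
        · rw [h1, h2]
        · rw [h1, Function.update_self, Function.update_of_ne h2] at h
          exact absurd h (hτ1 a2)
        · rw [h2, Function.update_self, Function.update_of_ne h1] at h
          exact absurd h.symm (hτ1 a1)
        · rw [Function.update_of_ne h1, Function.update_of_ne h2] at h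
          exact hs h) (fun a' i => by
        by_cases h : a' = a
        · rw [h, Function.update_self]; exact hτ2 i
        · rw [Function.update_of_ne h]; exact hsb a' i) hy
      rw [← h1]
      congr 1
      congr 1
      ext i
      simp only [γ, Polynomial.eval_add, Polynomial.eval_C, Polynomial.eval_mul, Polynomial.eval_X,
        Polynomial.eval_comp, hx]
      rw [← Finset.add_sum_erase _ _ (Finset.mem_univ a),
        ← Finset.add_sum_erase _ (fun a' => y a' * (cur b i).eval
          (Function.update s a (s a + τ) a')) (Finset.mem_univ a), Function.update_self]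
      have : ∑ x ∈ Finset.univ.erase a, y x *
          (cur b i).eval (Function.update s a (s a + τ) x) =
          ∑ x ∈ Finset.univ.erase a, y x * (cur b i).eval (s x) :=
        Finset.sum_congr rfl (fun a' ha' => by
          rw [Function.update_of_ne (Finset.ne_of_mem_erase ha')])
      rw [this, add_comm τ]; ring
    have h2 := chain γ H
    rw [hz, Polynomial.derivative_zero] at h2
    have h3 := congrArg (Polynomial.eval 0) h2
    rw [Polynomial.eval_zero, Polynomial.eval_finsetSum] at h3
    have h4 : y a * (Polynomial.derivative P).eval (s a) = 0 := by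
      rw [show (Polynomial.derivative P).eval (s a) =
        ∑ j, (eval x (pderiv j H)) * (Polynomial.derivative (cur b j)).eval (s a) by
        simp [P, Polynomial.eval_finsetSum]]
      rw [h3, Finset.mul_sum]
      refine Finset.sum_congr rfl (fun j _ => ?_)
      rw [Polynomial.eval_mul, eval_aeval]
      have : (fun i => (γ i).eval 0) = x := by ext i; simp [γ]
      rw [this]
      simp [γ, Polynomial.derivative_comp]
      ring
    exact (mul_eq_zero.1 h4).resolve_left (hy a)
  have hPdeg : P.natDegree < 2 * l + 2 := by
    refine lt_of_le_of_lt (Polynomial.natDegree_sum_le_of_forall_le (n := 2 * l + 1) _ _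
      (fun j _ => ?_)) (by omega)
    refine (Polynomial.natDegree_C_mul_le _ _).trans ?_
    unfold cur
    refine (Polynomial.natDegree_prod_le _ _).trans ?_
    have : ∀ j' ∈ Finset.univ.erase j, (Polynomial.X - Polynomial.C (b j')).natDegree ≤ 1 :=
      fun j' _ => (Polynomial.natDegree_X_sub_C _).le
    refine (Finset.sum_le_sum this).trans ?_
    rw [Finset.sum_const, Finset.card_erase_of_mem (Finset.mem_univ j), Finset.card_univ, hcard]
    simp
  have hP0 : P = 0 := by
    by_contra hne
    have h1 : ∀ a, (Polynomial.X - Polynomial.C (s a)) ^ 2 ∣ P := by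
      intro a
      rw [← Polynomial.le_rootMultiplicity_iff hne]
      exact (Polynomial.one_lt_rootMultiplicity_iff_isRoot hne).2 ⟨hP1 a, hP2 a⟩
    have h2 : (∏ a : Fin (l + 1), (Polynomial.X - Polynomial.C (s a)) ^ 2) ∣ P := by
      refine Finset.prod_dvd_of_coprime (fun a _ a' _ haa => ?_) (fun a _ => h1 a)
      exact (Polynomial.isCoprime_X_sub_C_of_isUnit_sub
        (isUnit_iff_ne_zero.2 (sub_ne_zero.2 (fun h => haa (hs h))))).pow
    have h3 := Polynomial.natDegree_le_of_dvd h2 hne
    rw [Polynomial.natDegree_prod _ _ (fun a _ => pow_ne_zero 2 (Polynomial.X_sub_C_ne_zero _))]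
      at h3
    simp at h3
    omega
  have h5 := congrArg (Polynomial.eval (b j)) hP0
  simp only [P, Polynomial.eval_finsetSum, Polynomial.eval_mul, Polynomial.eval_C,
    Polynomial.eval_zero] at h5
  rw [Finset.sum_eq_single j] at h5
  · rcases mul_eq_zero.1 h5 with h | h
    · exact h
    · exfalso
      rw [cur_eval, Finset.prod_eq_zero_iff] at h
      obtain ⟨i, hi, h⟩ := h
      exact (Finset.ne_of_mem_erase hi) (hb (sub_eq_zero.1 h)).symm
  · intro i _ hij
    rw [cur_eval, Finset.prod_eq_zero (i := j) (Finset.mem_erase.2 ⟨fun h => hij h.symm,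
      Finset.mem_univ _⟩) (sub_self _), mul_zero]
  · intro h; exact absurd (Finset.mem_univ j) h

theorem dens [CharZero K] {l : ℕ} (hcard : Fintype.card ι = 2 * l + 2) (b : ι → K)
    (hb : Function.Injective b) (d : ℕ) : ∀ (H : MvPolynomial ι K), H.IsHomogeneous d →
    (∀ (s : Fin (l + 1) → K) (y : Fin (l + 1) → K), Function.Injective s →
      (∀ a i, s a ≠ b i) → (∀ a, y a ≠ 0) →
      eval (fun i => ∑ a, y a * (cur b i).eval (s a)) H = 0) → H = 0 := by
  induction d with
  | zero =>
    intro H hom hH
    have h1 : H.totalDegree = 0 := by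
      have := hom.totalDegree_le
      omega
    rw [totalDegree_eq_zero_iff_eq_C] at h1
    have hinf : (Set.range b)ᶜ.Infinite := (Set.finite_range b).infinite_compl
    let e := hinf.natEmbedding
    have h2 := hH (fun a => (e a.1).1) (fun _ => 1) (fun a a' h => by
      have := e.injective (Subtype.ext h)
      exact Fin.ext this) (fun a i h => (e a.1).2 ⟨i, h.symm⟩) (fun _ => one_ne_zero)
    rw [h1, eval_C] at h2
    rw [h1, h2, C_0]
  | succ d ih =>
    intro H hom hH
    have h1 : ∀ j, pderiv j H = 0 := by
      intro j
      refine ih _ (by simpa using hom.pderiv) (fun s y hs hsb hy => ?_)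
      exact dens_step hcard b hb H hH s y hs hsb hy j
    have h2 := hom.sum_X_mul_pderiv
    simp only [h1, mul_zero, Finset.sum_const_zero] at h2
    have h3 := (smul_eq_zero.1 h2.symm)
    rcases h3 with h3 | h3
    · omega
    · exact h3

end SymP
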