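import Pool.Agent.X78.SP2
import Pool.Agent.X78.SP3

set_option linter.unusedSectionVars false

namespace SymP

universe u

open MvPolynomial

variable {K : Type u} [Field K]

theorem lower_core [CharZero K] {ι : Type} [Fintype ι] [DecidableEq ι] {l d k : ℕ}
    (hcard : Fintype.card ι = 2 * l + 2) (b : ι → K)
    (hb : Function.Injective b) (hb0 : ∀ i, b i ≠ 0) {H : MvPolynomial ι K}
    (hH : H.IsHomogeneous d) (hne : H ≠ 0)
    (oe : ∀ a, Ord H (fun i => if i = a then 1 else 0) k)
    (o1 : Ord H (fun _ => 1) k) (o2 : Ord H (fun i => (b i)⁻¹) k) :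
    (l + 1) * (2 * l + 4) * k ≤ (2 * l ^ 2 + 4 * l + 1) * d := by
  have hex : ∀ m ∈ H.support, ∀ i, m i + k ≤ d := fun m hm i => exp_bound hH i (oe i) hm
  obtain ⟨m0, hm0⟩ := Finset.nonempty_iff_ne_empty.2 (fun h => hne (support_eq_empty.1 h))
  have hι : Nonempty ι := by
    rw [← Fintype.card_pos_iff]; omega
  obtain ⟨i0⟩ := hι
  have hkd : k ≤ d := by have := hex m0 hm0 i0; omega
  have he : ∀ m ∈ H.support, ∀ i, m i ≤ d - k := fun m hm i => by
    have := hex m hm i; omega
  have hsum0 : d ≤ (2 * l + 2) * (d - k) := by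
    have h1 := deg_of_mem hH hm0
    have h2 : ∑ i, m0 i ≤ ∑ _i : ι, (d - k) := Finset.sum_le_sum (fun i _ => he m0 hm0 i)
    rw [h1, Finset.sum_const, Finset.card_univ, hcard, smul_eq_mul] at h2
    exact h2
  set μ := 2 * k - (Fintype.card ι * (d - k) - d) with hμ
  have hdens : ∃ (s : Fin (l + 1) → K) (y : Fin (l + 1) → K), Function.Injective s ∧
      (∀ a i, s a ≠ b i) ∧ eval (fun i => ∑ a, y a * (cur b i).eval (s a)) H ≠ 0 := by
    by_contra hcon
    push Not at hcon
    exact hne (dens hcard b hb d H hH (fun s y hs hsb _ => hcon s y hs hsb))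
  obtain ⟨s, y, hs, hsb, hev⟩ := hdens
  let A : Fin (l + 1) → ι → K := fun a i => (cur b i).eval (s a)
  have hL : lsub A H ≠ 0 := by
    intro h
    apply hev
    have h1 := aeval_lsub A H y
    rw [h, map_zero] at h1
    rw [aeval_def, eval₂_eq_eval_map] at h1
    simp only [Algebra.algebraMap_self, map_id, RingHom.id_apply] at h1
    rw [h1]
    congr 1
    congr 1
    ext i
    exact Finset.sum_congr rfl (fun a _ => mul_comm _ _)
  have hoL : ∀ a, Ord (lsub A H) (fun a' => if a' = a then 1 else 0) μ := by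
    intro a
    have h1 := curve_ord hH he b hb0 o1 o2 (s a) (hsb a)
    refine ord_lsub A (fun i => ?_) h1
    simp [A, cur_eval]
  obtain ⟨m, hm⟩ := Finset.nonempty_iff_ne_empty.2 (fun h => hL (support_eq_empty.1 h))
  have hLhom := lsub_hom A hH
  have hb1 : ∀ a, m a + μ ≤ d := fun a => exp_bound hLhom a (hoL a) hm
  have hsum : d + (l + 1) * μ ≤ (l + 1) * d := by
    have h1 := deg_of_mem hLhom hm
    have h2 : ∑ a, (m a + μ) ≤ ∑ _a : Fin (l + 1), d := Finset.sum_le_sum (fun a _ => hb1 a)
    rw [Finset.sum_add_distrib, h1] at h2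
    simpa using h2
  rw [hcard] at hμ
  obtain ⟨e, rfl⟩ : ∃ e, d = k + e := ⟨d - k, by omega⟩
  rw [Nat.add_sub_cancel_left] at hμ hsum0
  obtain ⟨f, hf⟩ : ∃ f, (2 * l + 2) * e = (k + e) + f := ⟨(2 * l + 2) * e - (k + e), by omega⟩
  rw [hf, Nat.add_sub_cancel_left] at hμ
  rcases Nat.lt_or_ge (2 * k) f with h | h
  · have h1 : (l + 1) * (2 * k) ≤ (l + 1) * f := Nat.mul_le_mul_left _ h.le
    nlinarith
  · obtain ⟨g, hg⟩ : ∃ g, 2 * k = f + g := ⟨2 * k - f, by omega⟩
    rw [hg, Nat.add_sub_cancel_left] at hμ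
    rw [hμ] at hsum
    zify at hsum hg hf ⊢
    nlinarith

/-- linear general position, in vector form -/
def LGP {N : ℕ} (p : Fin (N + 2) → (Fin N → K)) : Prop :=
  ∀ σ : Fin N → Fin (N + 2), Function.Injective σ → LinearIndependent K (fun i => p (σ i))

theorem lgp_zero {N : ℕ} {p : Fin (N + 2) → (Fin N → K)} (hp : LGP p) {x y : Fin (N + 2)}
    (hxy : x ≠ y) (g : Fin (N + 2) → K) (hx : g x = 0) (hy : g y = 0)
    (hg : ∑ z, g z • p z = 0) : ∀ z, g z = 0 := by
  let s : Finset (Fin (N + 2)) := (Finset.univ.erase x).erase y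
  have hs : s.card = N := by
    rw [Finset.card_erase_of_mem (Finset.mem_erase.2 ⟨hxy.symm, Finset.mem_univ _⟩),
      Finset.card_erase_of_mem (Finset.mem_univ _), Finset.card_univ, Fintype.card_fin]
    omega
  let e : Fin N ≃ s := (s.equivFinOfCardEq hs).symm
  have hli := hp (fun i => (e i).1) (fun i j h => e.injective (Subtype.ext h))
  rw [Fintype.linearIndependent_iff] at hli
  have h1 : ∑ i, g (e i).1 • p (e i).1 = 0 := by
    rw [Equiv.sum_comp e (fun z : s => g z.1 • p z.1), Finset.sum_coe_sort s (fun z => g z • p z)]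
    rw [← hg]
    refine Finset.sum_subset (Finset.subset_univ _) (fun z _ hz => ?_)
    have : z = x ∨ z = y := by
      by_contra h
      push Not at h
      exact hz (Finset.mem_erase.2 ⟨h.2, Finset.mem_erase.2 ⟨h.1, Finset.mem_univ _⟩⟩)
    rcases this with rfl | rfl
    · rw [hx, zero_smul]
    · rw [hy, zero_smul]
  have h2 := hli (fun i => g (e i).1) h1
  intro z
  by_cases hzx : z = x
  · rw [hzx, hx]
  by_cases hzy : z = y
  · rw [hzy, hy]
  have hz : z ∈ s := Finset.mem_erase.2 ⟨hzy, Finset.mem_erase.2 ⟨hzx, Finset.mem_univ _⟩⟩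
  have := h2 (e.symm ⟨z, hz⟩)
  simpa using this

theorem normal_form {N : ℕ} (hN : 1 ≤ N) {p : Fin (N + 2) → (Fin N → K)} (hp : LGP p) :
    ∃ (α β : Fin N → K) (B : Fin N → Fin N → K),
      (∀ i, p (Fin.last N).castSucc i = ∑ a, α a * p a.castSucc.castSucc i) ∧
      (∀ i, p (Fin.last (N + 1)) i = ∑ a, β a * p a.castSucc.castSucc i) ∧
      (∀ a, α a ≠ 0) ∧ (∀ a, β a ≠ 0) ∧ (∀ i j, i ≠ j → α i * β j ≠ α j * β i) ∧
      (∀ a c, ∑ i, B a i * p c.castSucc.castSucc i = if a = c then 1 else 0) ∧
      (∀ (x : Fin N → K) i, x i = ∑ a, (∑ j, B a j * x j) * p a.castSucc.castSucc i) := by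
  have hli : LinearIndependent K (fun a : Fin N => p a.castSucc.castSucc) :=
    hp (fun a => a.castSucc.castSucc) (fun a b h => by
      simpa using h)
  have : Nonempty (Fin N) := ⟨⟨0, hN⟩⟩
  let bs := basisOfLinearIndependentOfCardEqFinrank hli (by simp)
  have hbs : ∀ a, bs a = p a.castSucc.castSucc := fun a => by
    simp [bs]
  let B : Fin N → Fin N → K := fun a i => bs.coord a (Pi.single i 1)
  have hB : ∀ a (x : Fin N → K), ∑ i, B a i * x i = bs.coord a x := by
    intro a x
    rw [LinearMap.pi_apply_eq_sum_univ (bs.coord a) x]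
    refine Finset.sum_congr rfl (fun i _ => ?_)
    have h1 : (Pi.single i 1 : Fin N → K) = fun j => if i = j then 1 else 0 := by
      ext j
      simp [Pi.single_apply, eq_comm]
    rw [smul_eq_mul, mul_comm]
    simp only [B]
    rw [h1]
  have hrep : ∀ (x : Fin N → K) i, x i = ∑ a, (bs.coord a x) * p a.castSucc.castSucc i := by
    intro x i
    have h1 := congrFun (bs.sum_repr x) i
    rw [Finset.sum_apply] at h1
    rw [← h1]
    refine Finset.sum_congr rfl (fun a _ => ?_)
    rw [Pi.smul_apply, hbs, smul_eq_mul]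
    rfl
  set α : Fin N → K := fun a => bs.coord a (p (Fin.last N).castSucc) with hα
  set β : Fin N → K := fun a => bs.coord a (p (Fin.last (N + 1))) with hβ
  have e1 : ∀ i, p (Fin.last N).castSucc i = ∑ a, α a * p a.castSucc.castSucc i := hrep _
  have e2 : ∀ i, p (Fin.last (N + 1)) i = ∑ a, β a * p a.castSucc.castSucc i := hrep _
  -- general relation
  have key : ∀ u v : K, ∀ x y : Fin (N + 2), x ≠ y →
      (Fin.snoc (Fin.snoc (fun c => -(u * α c + v * β c)) u : Fin (N + 1) → K) v :
        Fin (N + 2) → K) x = 0 →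
      (Fin.snoc (Fin.snoc (fun c => -(u * α c + v * β c)) u : Fin (N + 1) → K) v :
        Fin (N + 2) → K) y = 0 → u = 0 ∧ v = 0 := by
    intro u v x y hxy hx hy
    have h := lgp_zero hp hxy _ hx hy (by
      rw [Fin.sum_univ_castSucc, Fin.sum_univ_castSucc]
      simp only [Fin.snoc_castSucc, Fin.snoc_last]
      ext i
      simp only [Pi.add_apply, Finset.sum_apply, Pi.smul_apply, smul_eq_mul, Pi.zero_apply]
      rw [e1 i, e2 i, Finset.mul_sum, Finset.mul_sum, ← Finset.sum_add_distrib,
        ← Finset.sum_add_distrib]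
      refine Finset.sum_eq_zero (fun a _ => ?_)
      ring)
    constructor
    · have := h (Fin.last N).castSucc
      simpa only [Fin.snoc_castSucc, Fin.snoc_last] using this
    · have := h (Fin.last (N + 1))
      simpa only [Fin.snoc_last] using this
  refine ⟨α, β, B, e1, e2, ?_, ?_, ?_, ?_, ?_⟩
  · intro a ha
    have := key 1 0 a.castSucc.castSucc (Fin.last (N + 1)) (Fin.castSucc_ne_last _)
      (by simp only [Fin.snoc_castSucc]; rw [ha]; ring) (by simp only [Fin.snoc_last])
    exact one_ne_zero this.1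
  · intro a ha
    have := key 0 1 a.castSucc.castSucc (Fin.last N).castSucc (by
        intro h
        exact Fin.castSucc_ne_last a (Fin.castSucc_injective _ h))
      (by simp only [Fin.snoc_castSucc]; rw [ha]; ring)
      (by simp only [Fin.snoc_castSucc, Fin.snoc_last])
    exact one_ne_zero this.2
  · intro i j hij h
    have h1 := key (β i) (-(α i)) i.castSucc.castSucc j.castSucc.castSucc (by
        intro h'
        exact hij (Fin.castSucc_injective _ (Fin.castSucc_injective _ h')))
      (by simp only [Fin.snoc_castSucc]; ring)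
      (by simp only [Fin.snoc_castSucc]; linear_combination h)
    have ha : α i ≠ 0 := by
      intro ha
      have := key 1 0 i.castSucc.castSucc (Fin.last (N + 1)) (Fin.castSucc_ne_last _)
        (by simp only [Fin.snoc_castSucc]; rw [ha]; ring) (by simp only [Fin.snoc_last])
      exact one_ne_zero this.1
    exact ha (neg_eq_zero.1 h1.2)
  · intro a c
    rw [hB, ← hbs c, Module.Basis.coord_apply, Module.Basis.repr_self, Finsupp.single_apply]
    simp [eq_comm]
  · intro x i
    simp_rw [hB]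
    exact hrep x i

theorem lower [CharZero K] {l d k : ℕ} {p : Fin (2 * l + 2 + 2) → (Fin (2 * l + 2) → K)}
    (hp : LGP p) {F : MvPolynomial (Fin (2 * l + 2)) K} (hF : F.IsHomogeneous d) (hne : F ≠ 0)
    (ho : ∀ z, Ord F (p z) k) :
    (l + 1) * (2 * l + 4) * k ≤ (2 * l ^ 2 + 4 * l + 1) * d := by
  obtain ⟨α, β, B, e1, e2, hα, hβ, hαβ, -, hx⟩ := normal_form (by omega) hp
  let A : Fin (2 * l + 2) → Fin (2 * l + 2) → K := fun a i => α a * p a.castSucc.castSucc i
  have hA0 : lsub A F ≠ 0 := by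
    intro h
    apply hne
    apply MvPolynomial.funext
    intro x
    rw [map_zero]
    have h1 := aeval_lsub A F (fun a => (∑ j, B a j * x j) / α a)
    rw [h, map_zero, aeval_def, eval₂_eq_eval_map] at h1
    simp only [Algebra.algebraMap_self, map_id, RingHom.id_apply] at h1
    rw [h1]
    congr 1
    congr 1
    ext i
    rw [hx x i]
    refine Finset.sum_congr rfl (fun a _ => ?_)
    simp only [A]
    field_simp [hα a]
  refine lower_core (ι := Fin (2 * l + 2)) (by simp) (fun i => α i / β i) ?_ ?_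
    (lsub_hom A hF) hA0 ?_ ?_ ?_
  · intro i j h
    by_contra hij
    apply hαβ i j hij
    rw [div_eq_div_iff (hβ i) (hβ j)] at h
    exact h
  · intro i
    exact div_ne_zero (hα i) (hβ i)
  · intro a
    refine ord_lsub A (fun i => ?_) (ord_smul (ho a.castSucc.castSucc) (hα a))
    simp [A]
  · refine ord_lsub A (fun i => ?_) (ho (Fin.last (2 * l + 2)).castSucc)
    rw [e1 i]
    simp [A]
  · refine ord_lsub A (fun i => ?_) (ho (Fin.last (2 * l + 2 + 1)))
    rw [e2 i]
    refine Finset.sum_congr rfl (fun a _ => ?_)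
    simp only [A, inv_div]
    field_simp [hα a]

end SymP
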