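import Pool.Agent.X78.SP4

set_option linter.unusedSectionVars false

namespace SymP

universe u

open MvPolynomial

variable {K : Type u} [Field K]

theorem lagr {N : ℕ} (v : Fin N → K) (hv : Function.Injective v) (τ : K) (hτ : ∀ i, τ ≠ v i)
    (f : Polynomial K) (hf : f.degree < N) :
    ∑ i, Lagrange.nodalWeight Finset.univ v i * (τ - v i)⁻¹ * f.eval (v i) =
      f.eval τ * (∏ i, (τ - v i))⁻¹ := by
  have h1 := Lagrange.eq_interpolate (s := Finset.univ) (v := v) (f := f)
    (fun a _ b _ h => hv h) (by simpa using hf)
  have h2 := Lagrange.eval_interpolate_not_at_node (s := Finset.univ) (v := v)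
    (r := fun i => f.eval (v i)) (x := τ) (fun i _ => hτ i)
  rw [← h1, Lagrange.eval_nodal] at h2
  have h3 : ∏ i, (τ - v i) ≠ 0 := Finset.prod_ne_zero_iff.2 (fun i _ => sub_ne_zero.2 (hτ i))
  rw [h2]
  field_simp

theorem nodes [Infinite K] {N : ℕ} (hN : 1 ≤ N) {p : Fin (N + 2) → (Fin N → K)} (hp : LGP p) :
    ∃ (s lam : Fin (N + 2) → K) (ψ : Polynomial K →ₗ[K] (Fin N → K)), Function.Injective s ∧
      (∀ z, lam z ≠ 0) ∧ ∀ f : Polynomial K, f.degree < N → ∀ z,
        ∑ i, ψ f i * p z i = lam z * f.eval (s z) := by
  classical
  obtain ⟨α, β, B, e1, e2, hα, hβ, hαβ, hB, -⟩ := normal_form hN hp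
  obtain ⟨C, hC⟩ : ∃ C : K, C ∉ (insert 0 (Finset.univ.image (fun a => β a / α a)) : Finset K) :=
    Infinite.exists_notMem_finset _
  rw [Finset.mem_insert, not_or] at hC
  obtain ⟨hC0, hC1⟩ := hC
  have hC2 : ∀ a, β a / α a ≠ C := fun a h => hC1 (Finset.mem_image.2 ⟨a, Finset.mem_univ _, h⟩)
  let g : Fin N → K := fun a => β a / (α a * C)
  have hg0 : ∀ a, g a ≠ 0 := fun a => div_ne_zero (hβ a) (mul_ne_zero (hα a) hC0)
  have hg1 : ∀ a, g a - 1 ≠ 0 := by
    intro a h
    apply hC2 a
    have h2 : β a / (α a * C) = 1 := by linear_combination h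
    rw [div_eq_one_iff_eq (mul_ne_zero (hα a) hC0)] at h2
    rw [h2]; field_simp [hα a]
  have hginj : Function.Injective g := by
    intro i j h
    by_contra hij
    apply hαβ i j hij
    simp only [g] at h
    rw [div_eq_div_iff (mul_ne_zero (hα i) hC0) (mul_ne_zero (hα j) hC0)] at h
    have h2 : C * (β i * α j - β j * α i) = 0 := by linear_combination h
    have h3 := (mul_eq_zero.1 h2).resolve_left hC0
    linear_combination -h3
  let v : Fin N → K := fun a => g a / (g a - 1)
  have hv0 : ∀ a, v a ≠ 0 := fun a => div_ne_zero (hg0 a) (hg1 a)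
  have hv1 : ∀ a, v a ≠ 1 := by
    intro a h
    have h2 : g a / (g a - 1) = 1 := h
    rw [div_eq_one_iff_eq (hg1 a)] at h2
    have : (1 : K) = 0 := by linear_combination h2
    exact one_ne_zero this
  have hvinj : Function.Injective v := by
    intro i j h
    apply hginj
    simp only [v] at h
    rw [div_eq_div_iff (hg1 i) (hg1 j)] at h
    linear_combination -h
  set ν : Fin N → K := fun a => Lagrange.nodalWeight Finset.univ v a with hν
  have hν0 : ∀ a, ν a ≠ 0 := fun a =>
    Lagrange.nodalWeight_ne_zero (fun a _ b _ h => hvinj h) (Finset.mem_univ a)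
  let la : Fin N → K := fun a => ν a * (0 - v a)⁻¹ * (α a)⁻¹
  have hla : ∀ a, la a ≠ 0 := fun a =>
    mul_ne_zero (mul_ne_zero (hν0 a) (inv_ne_zero (by rw [zero_sub]; exact neg_ne_zero.2 (hv0 a))))
      (inv_ne_zero (hα a))
  let ψ : Polynomial K →ₗ[K] (Fin N → K) :=
    { toFun := fun f i => ∑ a, la a * f.eval (v a) * B a i
      map_add' := fun f f' => by
        ext i
        simp only [Polynomial.eval_add, Pi.add_apply]
        rw [← Finset.sum_add_distrib]
        exact Finset.sum_congr rfl (fun a _ => by ring)
      map_smul' := fun c f => by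
        ext i
        simp only [Polynomial.eval_smul, Pi.smul_apply, smul_eq_mul, RingHom.id_apply]
        rw [Finset.mul_sum]
        exact Finset.sum_congr rfl (fun a _ => by ring) }
  have hψ : ∀ (f : Polynomial K) (c : Fin N), ∑ i, ψ f i * p c.castSucc.castSucc i =
      la c * f.eval (v c) := by
    intro f c
    have : ∀ i, ψ f i * p c.castSucc.castSucc i =
        ∑ a, la a * f.eval (v a) * (B a i * p c.castSucc.castSucc i) := by
      intro i
      show (∑ a, la a * f.eval (v a) * B a i) * _ = _
      rw [Finset.sum_mul]
      exact Finset.sum_congr rfl (fun a _ => by ring)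
    simp_rw [this]
    rw [Finset.sum_comm]
    simp_rw [← Finset.mul_sum, hB]
    rw [Finset.sum_eq_single c]
    · simp
    · intro a _ ha; simp [ha]
    · intro h; exact absurd (Finset.mem_univ c) h
  have hψ2 : ∀ (f : Polynomial K) (δ : Fin N → K) (x : Fin N → K),
      (∀ i, x i = ∑ a, δ a * p a.castSucc.castSucc i) →
      ∑ i, ψ f i * x i = ∑ a, δ a * (la a * f.eval (v a)) := by
    intro f δ x hx
    simp_rw [hx, Finset.mul_sum]
    rw [Finset.sum_comm]
    refine Finset.sum_congr rfl (fun a _ => ?_)
    rw [← hψ f a, Finset.mul_sum]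
    exact Finset.sum_congr rfl (fun i _ => by ring)
  have hw0 : ∏ i, (0 - v i) ≠ 0 := Finset.prod_ne_zero_iff.2 (fun i _ => by
    rw [zero_sub]; exact neg_ne_zero.2 (hv0 i))
  have hw1 : ∏ i, (1 - v i) ≠ 0 := Finset.prod_ne_zero_iff.2 (fun i _ =>
    sub_ne_zero.2 (fun h => hv1 i h.symm))
  refine ⟨Fin.snoc (Fin.snoc v 0 : Fin (N + 1) → K) 1,
    Fin.snoc (Fin.snoc la (∏ i, (0 - v i))⁻¹ : Fin (N + 1) → K) (C * (∏ i, (1 - v i))⁻¹),
    ψ, ?_, ?_, ?_⟩
  · intro x y h
    induction x using Fin.lastCases with
    | last =>
      induction y using Fin.lastCases with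
      | last => rfl
      | cast y =>
        exfalso
        simp only [Fin.snoc_last, Fin.snoc_castSucc] at h
        induction y using Fin.lastCases with
        | last => simp only [Fin.snoc_last] at h; exact one_ne_zero h
        | cast y => simp only [Fin.snoc_castSucc] at h; exact hv1 y h.symm
    | cast x =>
      induction y using Fin.lastCases with
      | last =>
        exfalso
        simp only [Fin.snoc_last, Fin.snoc_castSucc] at h
        induction x using Fin.lastCases with
        | last => simp only [Fin.snoc_last] at h; exact one_ne_zero h.symm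
        | cast x => simp only [Fin.snoc_castSucc] at h; exact hv1 x h
      | cast y =>
        simp only [Fin.snoc_castSucc] at h
        congr 1
        induction x using Fin.lastCases with
        | last =>
          induction y using Fin.lastCases with
          | last => rfl
          | cast y => 
            simp only [Fin.snoc_last, Fin.snoc_castSucc] at h
            exact absurd h.symm (hv0 y)
        | cast x =>
          induction y using Fin.lastCases with
          | last => 
            simp only [Fin.snoc_last, Fin.snoc_castSucc] at h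
            exact absurd h (hv0 x)
          | cast y =>
            simp only [Fin.snoc_castSucc] at h
            rw [hvinj h]
  · intro z
    induction z using Fin.lastCases with
    | last => simp only [Fin.snoc_last]; exact mul_ne_zero hC0 (inv_ne_zero hw1)
    | cast z =>
      simp only [Fin.snoc_castSucc]
      induction z using Fin.lastCases with
      | last => simp only [Fin.snoc_last]; exact inv_ne_zero hw0
      | cast z => simp only [Fin.snoc_castSucc]; exact hla z
  · intro f hf z
    induction z using Fin.lastCases with
    | last =>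
      simp only [Fin.snoc_last]
      rw [hψ2 f β _ e2]
      have h1 := lagr v hvinj 1 (fun i h => hv1 i h.symm) f hf
      rw [show C * (∏ i, (1 - v i))⁻¹ * f.eval 1 = C * (f.eval 1 * (∏ i, (1 - v i))⁻¹) by ring,
        ← h1, Finset.mul_sum]
      refine Finset.sum_congr rfl (fun a _ => ?_)
      have h2 : β a * (0 - v a)⁻¹ * (α a)⁻¹ = C * (1 - v a)⁻¹ := by
        have hg := hg0 a
        have hg' := hg1 a
        have ha := hα a
        have h3 : β a = g a * (α a * C) := by
          simp only [g]; field_simp
        have h4 : (0 - v a)⁻¹ = (1 - g a) / g a := by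
          simp only [v]
          rw [zero_sub, ← div_neg, inv_div]
          congr 1
          ring
        have h5 : (1 - v a)⁻¹ = 1 - g a := by
          have : 1 - v a = -1 / (g a - 1) := by
            simp only [v]
            field_simp
            ring
          rw [this, inv_div]
          ring
        rw [h4, h5, h3]
        field_simp
      calc β a * (la a * f.eval (v a)) =
          (β a * (0 - v a)⁻¹ * (α a)⁻¹) * (ν a * f.eval (v a)) := by simp only [la]; ring
        _ = _ := by rw [h2]; simp only [hν]; ring
    | cast z =>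
      simp only [Fin.snoc_castSucc]
      induction z using Fin.lastCases with
      | last =>
        simp only [Fin.snoc_last]
        rw [hψ2 f α _ e1]
        have h1 := lagr v hvinj 0 (fun i h => hv0 i h.symm) f hf
        rw [mul_comm, ← h1]
        refine Finset.sum_congr rfl (fun a _ => ?_)
        have ha := hα a
        simp only [la, hν]
        field_simp
      | cast z =>
        simp only [Fin.snoc_castSucc]
        exact hψ f z

end SymP
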